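import Pool.Agent.Helper87.HQ.Cl

/-!
Adding a point. `addL k n d (c, q, y)` (Helper61/HilbAdd.lean) is the block sum of the 1 by 1 tuple `q`
and `c` (`mats_addL`, `blk1`). PROOFS.
`finrank_ZC_add`: the linear map `B ↦ ((lower right block of B i)_i, (i ↦ B i 0 0), row 0 of B i0,
column 0 of B i0)` on `ZC (mats (addL k n d (c, q, y)))` has values in `ZC (mats c) × (Fin n → k) ×
(Fin d → k) × (Fin d → k)` (lower right block of the equation) and is injective: if row 0 (right part
`x_j`) of `B i0` is zero, the upper right block of the equation for `(i0, j)` is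
`q i0 • x_j - x_j A_i0 = q j • x_i0 - x_i0 A_j = 0`, so `x_j = 0` as `A_i0 - q i0` is invertible
(`hB`; also `B * (A_i0 - q i0) = 1` by `mul_eq_one_comm`); in the same way for the column.
`Few_add`: `addL_Cset` and `finrank_ZC_add`: `(n d + d^2) + n + 2 d + 1 = n (d+1) + (d+1)^2`.
`CL_add`: for `c ∈ Few` the tuples `addL (c, q + t e_i0, 1)` (`addL_curve` with `u = Pi.single i0 1`) are
in `Few` for almost all `t` (`mats c i0 - (q i0 + t) • 1` is invertible for all `t` but the finitely many
roots of a characteristic polynomial; compare `addL_Zset_of_Rset`), so `addL (c, q, 1) ∈ CL` by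
`CL_of_curve` at `t = 0`; then `CL_affine` with `L c = addL (c, 0, 0)`, `b = addL (0, q, 1)`.
-/

open MvPolynomial Module Matrix

namespace Pool.Agent.Helper87.HQ

open Pool.Agent.Hilb61

universe u

variable {k : Type u} [Field k] {n d : ℕ}

private lemma mul_lr (q : k) (M : Matrix (Fin d) (Fin d) k) (B : Matrix (Fin (d + 1)) (Fin (d + 1)) k)
    (r s : Fin d) : (blk1 q M * B) r.succ s.succ =
      (M * Matrix.of (fun r s : Fin d => B r.succ s.succ)) r s := by
  rw [Matrix.mul_apply, Fin.sum_univ_succ, Matrix.mul_apply]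
  simp

private lemma mul_lr' (q : k) (M : Matrix (Fin d) (Fin d) k) (B : Matrix (Fin (d + 1)) (Fin (d + 1)) k)
    (r s : Fin d) : (B * blk1 q M) r.succ s.succ =
      (Matrix.of (fun r s : Fin d => B r.succ s.succ) * M) r s := by
  rw [Matrix.mul_apply, Fin.sum_univ_succ, Matrix.mul_apply]
  simp

private lemma mul_ur (q : k) (M : Matrix (Fin d) (Fin d) k) (B : Matrix (Fin (d + 1)) (Fin (d + 1)) k)
    (s : Fin d) : (blk1 q M * B) 0 s.succ = q * B 0 s.succ := by
  rw [Matrix.mul_apply, Fin.sum_univ_succ]
  simp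

private lemma mul_ur' (q : k) (M : Matrix (Fin d) (Fin d) k) (B : Matrix (Fin (d + 1)) (Fin (d + 1)) k)
    (s : Fin d) : (B * blk1 q M) 0 s.succ = ((fun t : Fin d => B 0 t.succ) ᵥ* M) s := by
  rw [Matrix.mul_apply, Fin.sum_univ_succ]
  simp [vecMul, dotProduct]

private lemma mul_ll (q : k) (M : Matrix (Fin d) (Fin d) k) (B : Matrix (Fin (d + 1)) (Fin (d + 1)) k)
    (r : Fin d) : (blk1 q M * B) r.succ 0 = (M *ᵥ (fun t : Fin d => B t.succ 0)) r := by
  rw [Matrix.mul_apply, Fin.sum_univ_succ]
  simp [mulVec, dotProduct]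

private lemma mul_ll' (q : k) (M : Matrix (Fin d) (Fin d) k) (B : Matrix (Fin (d + 1)) (Fin (d + 1)) k)
    (r : Fin d) : (B * blk1 q M) r.succ 0 = B r.succ 0 * q := by
  rw [Matrix.mul_apply, Fin.sum_univ_succ]
  simp

theorem finrank_ZC_add {c : Coord n d → k} {q : Fin n → k} {i0 : Fin n}
    {B : Matrix (Fin d) (Fin d) k} (hB : (mats c i0 - q i0 • 1) * B = 1) (y : k) :
    finrank k (ZC (mats (addL k n d (c, q, y)))) ≤ finrank k (ZC (mats c)) + n + 2 * d := by
  have hB' : B * (mats c i0 - q i0 • 1) = 1 := mul_eq_one_comm.mp hB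
  let Φ : ZC (mats (addL k n d (c, q, y))) →ₗ[k]
      ((ZC (mats c)) × (Fin n → k) × (Fin d → k) × (Fin d → k)) :=
    { toFun := fun X => (⟨fun i => Matrix.of fun r s : Fin d => X.1 i r.succ s.succ, by
          intro i j
          have h := X.2 i j
          simp only [mats_addL] at h
          ext r s
          have h1 := congrFun (congrFun h r.succ) s.succ
          rw [Matrix.sub_apply, Matrix.sub_apply, mul_lr, mul_lr', mul_lr, mul_lr'] at h1
          rw [Matrix.sub_apply, Matrix.sub_apply]
          exact h1⟩,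
        fun i => X.1 i 0 0, fun s => X.1 i0 0 s.succ, fun r => X.1 i0 r.succ 0)
      map_add' := by
        intro X Y
        rfl
      map_smul' := by
        intro t X
        rfl }
  have hinj : Function.Injective Φ := by
    rw [← LinearMap.ker_eq_bot, LinearMap.ker_eq_bot']
    intro X hX
    have h1 : ∀ i r s, X.1 i (Fin.succ r) (Fin.succ s) = 0 := by
      intro i r s
      have := congrArg (fun p => (p.1 : Fin n → Matrix (Fin d) (Fin d) k) i r s) hX
      exact this
    have h2 : ∀ i, X.1 i 0 0 = 0 := fun i => congrFun (congrArg (fun p => p.2.1) hX) i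
    have h3 : ∀ s, X.1 i0 0 (Fin.succ s) = 0 := fun s =>
      congrFun (congrArg (fun p => p.2.2.1) hX) s
    have h4 : ∀ r, X.1 i0 (Fin.succ r) 0 = 0 := fun r =>
      congrFun (congrArg (fun p => p.2.2.2) hX) r
    have heq : ∀ i j, blk1 (q i) (mats c i) * X.1 j - X.1 j * blk1 (q i) (mats c i) =
        blk1 (q j) (mats c j) * X.1 i - X.1 i * blk1 (q j) (mats c j) := by
      intro i j
      have h := X.2 i j
      simp only [mats_addL] at h
      exact h
    have h3' : (fun s : Fin d => X.1 i0 0 s.succ) = 0 := funext h3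
    have h4' : (fun r : Fin d => X.1 i0 r.succ 0) = 0 := funext h4
    have h5 : ∀ j, (fun s : Fin d => X.1 j 0 s.succ) = 0 := by
      intro j
      have e1 : (fun s : Fin d => X.1 j 0 s.succ) ᵥ* (mats c i0 - q i0 • 1) = 0 := by
        funext s
        have e2 := congrFun (congrFun (heq i0 j) 0) s.succ
        rw [Matrix.sub_apply, Matrix.sub_apply, mul_ur, mul_ur', mul_ur, mul_ur', h3', h3 s,
          zero_vecMul, Pi.zero_apply, mul_zero, sub_zero] at e2
        rw [vecMul_sub, vecMul_smul, vecMul_one]
        simp only [Pi.sub_apply, Pi.smul_apply, smul_eq_mul, Pi.zero_apply]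
        linear_combination -e2
      have e3 := congrArg (fun x => x ᵥ* B) e1
      simpa [vecMul_vecMul, hB] using e3
    have h6 : ∀ j, (fun r : Fin d => X.1 j r.succ 0) = 0 := by
      intro j
      have e1 : (mats c i0 - q i0 • 1) *ᵥ (fun r : Fin d => X.1 j r.succ 0) = 0 := by
        funext r
        have e2 := congrFun (congrFun (heq i0 j) r.succ) 0
        rw [Matrix.sub_apply, Matrix.sub_apply, mul_ll, mul_ll', mul_ll, mul_ll', h4', h4 r,
          mulVec_zero, Pi.zero_apply, zero_mul, sub_zero] at e2
        rw [sub_mulVec, smul_mulVec, one_mulVec]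
        simp only [Pi.sub_apply, Pi.smul_apply, smul_eq_mul, Pi.zero_apply]
        linear_combination e2
      have e3 := congrArg (fun x => B *ᵥ x) e1
      simpa [mulVec_mulVec, hB'] using e3
    apply Subtype.ext
    funext i
    ext r s
    refine Fin.cases ?_ (fun r' => ?_) r <;> refine Fin.cases ?_ (fun s' => ?_) s
    · exact h2 i
    · exact congrFun (h5 i) s'
    · exact congrFun (h6 i) r'
    · exact h1 i r' s'
  have hle := LinearMap.finrank_le_finrank_of_injective hinj
  rw [finrank_prod, finrank_prod, finrank_prod] at hle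
  simp only [finrank_fintype_fun_eq_card, Fintype.card_fin] at hle
  omega

theorem Few_add {c : Coord n d → k} (hc : c ∈ Few k n d) {q : Fin n → k} {i0 : Fin n}
    {B : Matrix (Fin d) (Fin d) k} (hB : (mats c i0 - q i0 • 1) * B = 1) :
    addL k n d (c, q, 1) ∈ Few k n (d + 1) := by
  refine ⟨addL_Cset hc.1 hB, ?_⟩
  have h1 := finrank_ZC_add hB 1
  have h2 := hc.2
  have e : n * (d + 1) + (d + 1) ^ 2 = n * d + d ^ 2 + n + 2 * d + 1 := by ring
  omega

theorem CL_add [Infinite k] (i0 : Fin n) {c : Coord n d → k} (hc : c ∈ CL k n d)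
    (q : Fin n → k) : addL k n d (c, q, 1) ∈ CL k n (d + 1) := by
  have hL : ∀ c : Coord n d → k, ((addL k n d).comp (LinearMap.inl k _ _)) c +
      addL k n d (0, q, 1) = addL k n d (c, q, 1) := by
    intro c
    rw [LinearMap.comp_apply, LinearMap.inl_apply, ← map_add]
    congr 1
    simp
  have key : ∀ c ∈ Few k n d, ((addL k n d).comp (LinearMap.inl k _ _)) c +
      addL k n d (0, q, 1) ∈ CL k n (d + 1) := by
    intro c hc
    rw [hL]
    have h := CL_of_curve (fun x => Polynomial.C (addL k n d (c, q, 1) x) +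
        Polynomial.X * Polynomial.C (addL k n d (0, Pi.single i0 1, 0) x)) (by
      have h3 : ∀ᶠ t : k in Filter.cofinite, (mats c i0 - (q i0 + t) • 1).det ≠ 0 := by
        rw [Filter.eventually_cofinite]
        have h1 : (mats c i0).charpoly ≠ 0 := (mats c i0).charpoly_monic.ne_zero
        have hfin := Polynomial.finite_setOfPred_isRoot h1
        have hfin2 := hfin.preimage (f := fun t : k => q i0 + t)
          (fun a _ b _ hab => add_left_cancel hab)
        apply hfin2.subset
        intro t ht
        rw [Set.mem_ofPred_eq] at ht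
        rw [Set.mem_preimage, Set.mem_ofPred_eq, Polynomial.IsRoot.def, Matrix.eval_charpoly]
        have h4 : (scalar (Fin d)) (q i0 + t) - mats c i0 = -(mats c i0 - (q i0 + t) • 1) := by
          rw [neg_sub, Matrix.smul_one_eq_diagonal]
          rfl
        by_contra hcon
        apply ht
        intro h0
        apply hcon
        rw [h4, Matrix.det_neg, h0, mul_zero]
      filter_upwards [h3] with t ht
      rw [addL_curve]
      apply Few_subset_CL
      have e : (q + t • (Pi.single i0 1 : Fin n → k)) i0 = q i0 + t := by simp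
      apply Few_add hc (i0 := i0) (B := (mats c i0 - (q i0 + t) • 1)⁻¹)
      rw [e]
      exact Matrix.mul_nonsing_inv _ (isUnit_iff_ne_zero.mpr ht)) 0
    rw [addL_curve] at h
    simpa using h
  have h := CL_affine ((addL k n d).comp (LinearMap.inl k _ _)) (addL k n d (0, q, 1)) key c hc
  rwa [hL] at h

end Pool.Agent.Helper87.HQ
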