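import Pool.Agent.Helper87.HQ.Defs

/-!
The closure operator `CL`. PROOFS.
`Few_subset_CL`: clear. `CL_of_curve`: copy `Zset_of_curve` (Helper61/HilbFr.lean): for `f` vanishing
on `Few`, the one-variable polynomial `aeval c f` has infinitely many zeros (`eval_aeval_poly`).
`CL_affine`: copy the first half of `affine_push` (Helper61/HilbFr.lean): `f` composed with the affine
map (`affP`, `eval_affP`) vanishes on `Few`.
`Few_conj`: `conjL_apply`; commutation: `g' A g g' B g = g' A B g` (`g * g' = 1`); cyclicity: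
`Cyclic.conj` (see the end of `x0_mem_closure` in Helper61/HilbComp.lean, and HilbUpper/HilbZC);
`finrank_ZC_conj` (Helper61/HilbSC.lean). `CL_conj`: as `Zset_conj` (Helper61/HilbFr2.lean), from
`CL_affine` for `conjL` (with `b = 0`) and `Few_conj`.
-/

open MvPolynomial Module Matrix

namespace Pool.Agent.Helper87.HQ

open Pool.Agent.Hilb61

universe u

variable {k : Type u} [Field k] {n d : ℕ}

theorem Few_subset_CL : Few k n d ⊆ CL k n d := by
  intro c hc f hf
  exact hf c hc

theorem CL_of_curve [Infinite k] (c : Coord n d → Polynomial k)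
    (h : ∀ᶠ t : k in Filter.cofinite, (fun x => (c x).eval t) ∈ CL k n d) (t : k) :
    (fun x => (c x).eval t) ∈ CL k n d := by
  intro f hf
  have h0 : aeval c f = 0 := by
    apply Polynomial.eq_zero_of_infinite_isRoot
    rw [Filter.eventually_cofinite] at h
    have : {t | ¬ (fun x => (c x).eval t) ∈ CL k n d}ᶜ ⊆ {t | (aeval c f).IsRoot t} := by
      intro t ht
      have ht' : (fun x => (c x).eval t) ∈ CL k n d := by
        by_contra h; exact ht h
      show (aeval c f).eval t = 0
      rw [eval_aeval_poly]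
      exact ht' f hf
    exact h.infinite_compl.mono this
  rw [← eval_aeval_poly, h0, Polynomial.eval_zero]

theorem CL_affine {n' d' : ℕ} (L : (Coord n d → k) →ₗ[k] (Coord n' d' → k))
    (b : Coord n' d' → k) (h : ∀ c ∈ Few k n d, L c + b ∈ CL k n' d') :
    ∀ c ∈ CL k n d, L c + b ∈ CL k n' d' := by
  have hev : ∀ c : Coord n d → k, (fun x => eval c (affP L b x)) = L c + b := by
    intro c; funext x; exact eval_affP L b c x
  have h0 : ∀ (c : Coord n d → k) (f : MvPolynomial (Coord n' d') k),
      eval c (aeval (affP L b) f) = eval (L c + b) f := by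
    intro c f
    rw [← hev]
    have h1 := (MvPolynomial.comp_aeval (φ := aeval (R := k) c) (affP L b))
    have h2 := congrArg (fun φ => φ f) h1
    simp only [AlgHom.comp_apply] at h2
    rw [aeval_self] at h2
    rw [h2, ← aeval_self]
    congr 1
  intro c hc f hf
  rw [← h0]
  apply hc
  intro c' hc'
  rw [h0]
  exact h c' hc' f hf

theorem Few_conj {g g' : Matrix (Fin d) (Fin d) k} (h : g * g' = 1) {c : Coord n d → k}
    (hc : c ∈ Few k n d) : conjL g g' c ∈ Few k n d := by
  obtain ⟨⟨hcom, hcyc⟩, hfin⟩ := hc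
  have hg : g' * g = 1 := mul_eq_one_comm.mp h
  have key : ∀ X Y : Matrix (Fin d) (Fin d) k, g' * X * g * (g' * Y * g) = g' * (X * Y) * g := by
    intro X Y
    calc g' * X * g * (g' * Y * g) = g' * X * (g * g') * Y * g := by noncomm_ring
      _ = _ := by rw [h]; noncomm_ring
  rw [conjL_apply]
  have e1 : mats (mk (fun i => g' * mats c i * g) (g' *ᵥ vect c)) =
      fun i => g' * mats c i * g := mats_mk _ _
  have e2 : vect (mk (fun i => g' * mats c i * g) (g' *ᵥ vect c)) = g' *ᵥ vect c := vect_mk _ _
  refine ⟨⟨?_, ?_⟩, ?_⟩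
  · intro i j
    rw [e1]
    show g' * mats c i * g * (g' * mats c j * g) = g' * mats c j * g * (g' * mats c i * g)
    rw [key, key, hcom]
  · rw [e1, e2]
    exact hcyc.conj h hg
  · rw [e1, finrank_ZC_conj (mats c) (fun i => g' * mats c i * g) g' g hg h (fun i => rfl)]
    exact hfin

theorem CL_conj {g g' : Matrix (Fin d) (Fin d) k} (h : g * g' = 1) {c c' : Coord n d → k}
    (hc : c ∈ CL k n d) (h1 : ∀ i, mats c i * g = g * mats c' i)
    (h2 : vect c = g *ᵥ vect c') : c' ∈ CL k n d := by
  have h3 := CL_affine (conjL (n := n) g g') 0 (fun b hb => by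
    rw [add_zero]; exact Few_subset_CL (Few_conj h hb)) c hc
  rw [add_zero] at h3
  have hg : g' * g = 1 := mul_eq_one_comm.mp h
  have h4 : conjL g g' c = c' := by
    rw [conjL_apply, ← mk_eta c']
    congr 1
    · funext i
      rw [Matrix.mul_assoc, h1, ← Matrix.mul_assoc, hg, Matrix.one_mul]
    · rw [h2, mulVec_mulVec, hg, one_mulVec]
  rwa [h4] at h3

end Pool.Agent.Helper87.HQ
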