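import Pool.Agent.Helper87.HQ.Defs

/-!
The algebras of type (1,4,3): basis `1`, `x_0 .. x_3` (indices 1..4), `w_0, w_1, w_2` (indices 5..7),
products `x_a x_b = ∑ w, q w a b • w_w`. `qEI` is the Iarrobino-Emsalem algebra
`w_0 = x_0 x_2`, `w_1 = x_0 x_3 = x_1 x_2`, `w_2 = x_1 x_3`, all other products of two `x` zero.

PROOFS.
`finrank_ZC_EI`: 256 unknowns `B a r s` and the linear equations of `ZC` (entries of
`A a * B b - B b * A a = A b * B a - B a * A b`). The rank of these equations is 175 in every
characteristic (checked modulo 2, 3, 5, 7, 32003). Find by computer a set `F` of 81 entries such that a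
solution vanishing on `F` is zero, with integral certificates (each of the other 175 entries is an
integral combination of equations and of entries in `F`, or a chain of eliminations with
coefficients 1, -1), so that the restriction to `F` is injective on `ZC`; this must work over every
field `k`. (By hand: modulo the 64 - 8 infinitesimal conjugations there are 25 dimensions: 21 of
degree 0 and the 4 translations.) Or prove it by any other argument.
`finrank_ZC_of_EI`: `B ↦ (B (ι a))_a` maps `ZC A` to `ZC (A ∘ ι)`, which has the dimension of `ZC EI`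
(`finrank_ZC_conj`, Helper61/HilbSC.lean), and a `B` in the kernel is determined by the `B j`, `j` not in
the range of `ι`, each commuting with the `A (ι a)`, i.e. with the `EI` matrices after conjugation;
the matrices commuting with all `EI` matrices are determined by their first column
(`Pi.single 0 1` is a cyclic vector: `Alg_inj` in Helper61/HilbZC.lean), so dimension at most 8.
`cyclic_FM`: if the three forms `q w` are linearly independent (here only needed for `EI`).
-/

open Module Matrix

namespace Pool.Agent.Helper87.HQ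

open Pool.Agent.Hilb61

universe u

/-- Multiplication by `x_a` in the algebra with basis `1, x_0, .., x_3, w_0, w_1, w_2` and products
`x_a x_b = ∑ w, q w a b • w_w`. -/
def FM {k : Type u} [Field k] (q : Fin 3 → Fin 4 → Fin 4 → k) (a : Fin 4) :
    Matrix (Fin 8) (Fin 8) k := Matrix.of fun r s =>
  if (s : ℕ) = 0 then (if (r : ℕ) = (a : ℕ) + 1 then 1 else 0)
  else if h : (s : ℕ) < 5 ∧ 5 ≤ (r : ℕ) then q ⟨(r : ℕ) - 5, by omega⟩ a ⟨(s : ℕ) - 1, by omega⟩
  else 0

/-- The Iarrobino-Emsalem net. -/
def qEI (k : Type u) [Field k] (w : Fin 3) (a b : Fin 4) : k :=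
  if (w = 0 ∧ ((a = 0 ∧ b = 2) ∨ (a = 2 ∧ b = 0))) ∨
    (w = 1 ∧ ((a = 0 ∧ b = 3) ∨ (a = 3 ∧ b = 0) ∨ (a = 1 ∧ b = 2) ∨ (a = 2 ∧ b = 1))) ∨
    (w = 2 ∧ ((a = 1 ∧ b = 3) ∨ (a = 3 ∧ b = 1))) then 1 else 0

namespace EIx

/-! ### Unit propagation

The entry `(a, r, s)` of a tuple has the code `64 * a + 8 * r + s + 1`; the code `0` stands for
the value zero. Row `r` of `FM (qEI k) a` has at most one entry, in column `rowN a r - 1`, column
`s` has at most one entry, in row `colN a s - 1`. -/

/-- One plus the column of the entry in row `r`, zero if there is none. -/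
def rowN (a r : ℕ) : ℕ :=
  if r = a + 1 then 1
  else if r = 5 then (if a = 0 then 4 else if a = 2 then 2 else 0)
  else if r = 6 then (if a = 0 then 5 else if a = 3 then 2 else if a = 1 then 4
    else if a = 2 then 3 else 0)
  else if r = 7 then (if a = 1 then 5 else if a = 3 then 3 else 0)
  else 0

/-- One plus the row of the entry in column `s`, zero if there is none. -/
def colN (a s : ℕ) : ℕ :=
  if s = 0 then a + 2
  else if s = 1 then (if a = 2 then 6 else if a = 3 then 7 else 0)
  else if s = 2 then (if a = 2 then 7 else if a = 3 then 8 else 0)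
  else if s = 3 then (if a = 0 then 6 else if a = 1 then 7 else 0)
  else if s = 4 then (if a = 0 then 7 else if a = 1 then 8 else 0)
  else 0

lemma FM_row {k : Type u} [Field k] (a : Fin 4) (r s : Fin 8) :
    FM (qEI k) a r s = if rowN a r = (s : ℕ) + 1 then 1 else 0 := by
  fin_cases a <;> fin_cases r <;> fin_cases s <;> rfl

lemma row_col (a : Fin 4) (r s : Fin 8) :
    rowN a r = (s : ℕ) + 1 ↔ colN a s = (r : ℕ) + 1 := by
  revert a r s
  decide

lemma rowN_le (a : Fin 4) (r : Fin 8) : rowN a r ≤ 8 := by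
  revert a r
  decide

lemma colN_le (a : Fin 4) (s : Fin 8) : colN a s ≤ 8 := by
  revert a s
  decide

/-- The entry with a given code. -/
def vB {k : Type u} [Field k] (B : Fin 4 → Matrix (Fin 8) (Fin 8) k) (c : ℕ) : k :=
  if c = 0 then 0
  else if h : (c - 1) / 64 < 4 then
    B ⟨(c - 1) / 64, h⟩ ⟨(c - 1) / 8 % 8, Nat.mod_lt _ (by norm_num)⟩
      ⟨(c - 1) % 8, Nat.mod_lt _ (by norm_num)⟩
  else 0

lemma vB_code {k : Type u} [Field k] (B : Fin 4 → Matrix (Fin 8) (Fin 8) k) (a : Fin 4)
    (r s : Fin 8) : vB B (64 * a + 8 * r + s + 1) = B a r s := by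
  have ha := a.2
  have hr := r.2
  have hs := s.2
  have e4 : ∀ (x : ℕ) (hx : x < 4), x = a → (⟨x, hx⟩ : Fin 4) = a := fun x hx h => Fin.ext h
  have e8 : ∀ (t : Fin 8) (x : ℕ) (hx : x < 8), x = t → (⟨x, hx⟩ : Fin 8) = t :=
    fun t x hx h => Fin.ext h
  unfold vB
  rw [if_neg (by omega), dif_pos (by omega), e4 _ _ (by omega), e8 r _ _ (by omega),
    e8 s _ _ (by omega)]

/-- The four codes in the equation `(i, j, r, s)`. -/
def posn (i j r s : ℕ) : ℕ → ℕ
  | 0 => if rowN i r = 0 then 0 else 64 * j + 8 * (rowN i r - 1) + s + 1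
  | 1 => if colN i s = 0 then 0 else 64 * j + 8 * r + (colN i s - 1) + 1
  | 2 => if rowN j r = 0 then 0 else 64 * i + 8 * (rowN j r - 1) + s + 1
  | _ => if colN j s = 0 then 0 else 64 * i + 8 * r + (colN j s - 1) + 1

lemma mul_row {k : Type u} [Field k] (B : Fin 4 → Matrix (Fin 8) (Fin 8) k) (i j : Fin 4)
    (r s : Fin 8) : (FM (qEI k) i * B j) r s =
      vB B (if rowN i r = 0 then 0 else 64 * j + 8 * (rowN i r - 1) + s + 1) := by
  rw [Matrix.mul_apply]
  have h8 := rowN_le i r
  by_cases h0 : rowN i r = 0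
  · rw [if_pos h0]
    have : vB B 0 = 0 := by simp [vB]
    rw [this]
    apply Finset.sum_eq_zero
    intro t _
    rw [FM_row, if_neg (by omega), zero_mul]
  · rw [if_neg h0]
    have ht : rowN i r - 1 < 8 := by omega
    have hc := vB_code B j ⟨rowN i r - 1, ht⟩ s
    simp only [] at hc
    rw [hc]
    rw [Finset.sum_eq_single (⟨rowN i r - 1, ht⟩ : Fin 8)]
    · rw [FM_row, if_pos (by simp only []; omega), one_mul]
    · intro t _ hne
      rw [FM_row, if_neg, zero_mul]
      intro h
      apply hne
      exact Fin.ext (by simp only []; omega)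
    · intro h
      exact absurd (Finset.mem_univ _) h

lemma mul_col {k : Type u} [Field k] (B : Fin 4 → Matrix (Fin 8) (Fin 8) k) (i j : Fin 4)
    (r s : Fin 8) : (B j * FM (qEI k) i) r s =
      vB B (if colN i s = 0 then 0 else 64 * j + 8 * r + (colN i s - 1) + 1) := by
  rw [Matrix.mul_apply]
  have h8 := colN_le i s
  have hF : ∀ t : Fin 8, FM (qEI k) i t s = if colN i s = (t : ℕ) + 1 then 1 else 0 := by
    intro t
    rw [FM_row]
    by_cases h : rowN i t = (s : ℕ) + 1
    · rw [if_pos h, if_pos ((row_col i t s).1 h)]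
    · rw [if_neg h, if_neg (fun h' => h ((row_col i t s).2 h'))]
  by_cases h0 : colN i s = 0
  · rw [if_pos h0]
    have : vB B 0 = 0 := by simp [vB]
    rw [this]
    apply Finset.sum_eq_zero
    intro t _
    rw [hF, if_neg (by omega), mul_zero]
  · rw [if_neg h0]
    have ht : colN i s - 1 < 8 := by omega
    have hc := vB_code B j r ⟨colN i s - 1, ht⟩
    simp only [] at hc
    rw [hc]
    rw [Finset.sum_eq_single (⟨colN i s - 1, ht⟩ : Fin 8)]
    · rw [hF, if_pos (by simp only []; omega), mul_one]
    · intro t _ hne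
      rw [hF, if_neg, mul_zero]
      intro h
      apply hne
      exact Fin.ext (by simp only []; omega)
    · intro h
      exact absurd (Finset.mem_univ _) h

lemma eqn {k : Type u} [Field k] {B : Fin 4 → Matrix (Fin 8) (Fin 8) k}
    (hB : B ∈ ZC (fun a : Fin 4 => FM (qEI k) a)) (i j r s : ℕ) (hi : i < 4) (hj : j < 4)
    (hr : r < 8) (hs : s < 8) :
    vB B (posn i j r s 0) - vB B (posn i j r s 1) =
      vB B (posn i j r s 2) - vB B (posn i j r s 3) := by
  have h := congrFun (congrFun (hB ⟨i, hi⟩ ⟨j, hj⟩) ⟨r, hr⟩) ⟨s, hs⟩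
  rw [Matrix.sub_apply, Matrix.sub_apply, mul_row, mul_col, mul_row, mul_col] at h
  exact h

/-- The free entries. -/
def freeL : List ℕ := [
  5, 9, 10, 11, 12, 14, 17, 25, 29, 33, 36, 37, 41, 42, 43, 45, 49, 50, 51, 52, 53, 57, 58, 61,
  69, 74, 81, 89, 105, 107, 108, 109, 113, 114, 115, 118, 121, 122, 123, 124, 125, 128, 139,
  145, 153, 156, 163, 169, 170, 171, 172, 177, 178, 179, 180, 181, 185, 186, 188, 189, 192,
  201, 209, 211, 217, 219, 225, 229, 233, 236, 237, 238, 241, 243, 244, 245, 248, 249, 253,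
  254, 255]

/-- The steps `((((4 i + j) 8 + r) 8 + s) 4 + x)`: equation `(i, j, r, s)`, entry `x` is new. -/
def stepL : List ℕ := [
  3070, 2889, 3034, 2853, 812, 2819, 3066, 2885, 3030, 556, 3062, 3058, 2881, 3022, 3054, 3004,
  3000, 2859, 3036, 1872, 2992, 2988, 2851, 3024, 2974, 2825, 2970, 2821, 2966, 2940, 1969,
  1965, 944, 1963, 1959, 1706, 1950, 1946, 275, 1942, 271, 1905, 2014, 1901, 2010, 1899, 1895,
  1642, 1931, 478, 1788, 734, 1784, 730, 1780, 726, 1718, 2004, 1675, 1926, 1639, 367, 618,
  907, 1671, 470, 614, 903, 918, 753, 1772, 749, 747, 998, 743, 647, 490, 385, 454, 486, 424,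
  420, 355, 456, 913, 2954, 1611, 1860, 2919, 1646, 303, 980, 2950, 1607, 1748, 622, 1937,
  2046, 1864, 2923, 702, 3046, 579, 717, 2002, 1825, 2987, 1995, 1891, 435, 641, 1767, 711,
  1010, 833, 3050, 1776, 721, 1742, 2028, 2946, 973, 3014, 685, 865, 935, 1991, 1703, 428, 680,
  1738, 1634, 2024, 1923, 467, 1571, 1709, 2980, 940, 1997, 978, 800, 2915, 3019, 1746, 2033,
  1771, 1667, 499, 1002, 715, 964, 2022, 322, 1732, 679, 611, 739, 1953, 929, 2979, 675, 3041,
  417, 1698, 1987, 2017, 1731, 961, 483, 993, 704, 1761, 448, 3010]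

/-- The set of codes of a list, and zero. -/
def maskL : List ℕ → ℕ
  | [] => 1
  | c :: l => (1 <<< c) ||| maskL l

/-- The check of the elimination. -/
def chk : List ℕ → ℕ → Bool
  | [], K => K == 2 ^ 257 - 1
  | c :: l, K =>
    decide (c / 1024 < 4) &&
    ((c % 4 == 0 || K.testBit (posn (c / 1024) (c / 256 % 4) (c / 32 % 8) (c / 4 % 8) 0)) &&
    ((c % 4 == 1 || K.testBit (posn (c / 1024) (c / 256 % 4) (c / 32 % 8) (c / 4 % 8) 1)) &&
    ((c % 4 == 2 || K.testBit (posn (c / 1024) (c / 256 % 4) (c / 32 % 8) (c / 4 % 8) 2)) &&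
    ((c % 4 == 3 || K.testBit (posn (c / 1024) (c / 256 % 4) (c / 32 % 8) (c / 4 % 8) 3)) &&
    chk l (K ||| (1 <<< posn (c / 1024) (c / 256 % 4) (c / 32 % 8) (c / 4 % 8) (c % 4)))))))

lemma testBit_or_one {K c d : ℕ} (h : (K ||| (1 <<< d)).testBit c = true) :
    K.testBit c = true ∨ c = d := by
  rw [Nat.testBit_or, Bool.or_eq_true] at h
  rcases h with h | h
  · exact Or.inl h
  · right
    rw [Nat.one_shiftLeft, Nat.testBit_two_pow] at h
    simpa using (of_decide_eq_true h).symm

lemma chk_sound {k : Type u} [Field k] {B : Fin 4 → Matrix (Fin 8) (Fin 8) k}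
    (hB : B ∈ ZC (fun a : Fin 4 => FM (qEI k) a)) : ∀ (l : List ℕ) (K : ℕ),
      chk l K = true → (∀ c, K.testBit c = true → vB B c = 0) →
      ∀ c, c ≤ 256 → vB B c = 0 := by
  intro l
  induction l with
  | nil =>
    intro K hK hI c hc
    have hK' : K = 2 ^ 257 - 1 := by
      rw [chk, beq_iff_eq] at hK
      exact hK
    apply hI
    rw [hK', Nat.testBit_two_pow_sub_one]
    exact decide_eq_true (by omega)
  | cons d l ih =>
    intro K hK hI
    rw [chk] at hK
    simp only [Bool.and_eq_true, Bool.or_eq_true, decide_eq_true_eq, beq_iff_eq] at hK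
    obtain ⟨hi, h0, h1, h2, h3, hrec⟩ := hK
    apply ih _ hrec
    intro c hc
    rcases testBit_or_one hc with h | h
    · exact hI c h
    · rw [h]
      have he := eqn hB (d / 1024) (d / 256 % 4) (d / 32 % 8) (d / 4 % 8) hi
        (Nat.mod_lt _ (by norm_num)) (Nat.mod_lt _ (by norm_num)) (Nat.mod_lt _ (by norm_num))
      have hx : d % 4 = 0 ∨ d % 4 = 1 ∨ d % 4 = 2 ∨ d % 4 = 3 := by omega
      rcases hx with hx | hx | hx | hx <;> rw [hx] at h0 h1 h2 h3 ⊢
      · have e1 := hI _ (h1.resolve_left (by norm_num))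
        have e2 := hI _ (h2.resolve_left (by norm_num))
        have e3 := hI _ (h3.resolve_left (by norm_num))
        rw [e1, e2, e3] at he
        simpa using he
      · have e0 := hI _ (h0.resolve_left (by norm_num))
        have e2 := hI _ (h2.resolve_left (by norm_num))
        have e3 := hI _ (h3.resolve_left (by norm_num))
        rw [e0, e2, e3] at he
        simpa using he
      · have e0 := hI _ (h0.resolve_left (by norm_num))
        have e1 := hI _ (h1.resolve_left (by norm_num))
        have e3 := hI _ (h3.resolve_left (by norm_num))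
        rw [e0, e1, e3] at he
        simpa using he.symm
      · have e0 := hI _ (h0.resolve_left (by norm_num))
        have e1 := hI _ (h1.resolve_left (by norm_num))
        have e2 := hI _ (h2.resolve_left (by norm_num))
        rw [e0, e1, e2] at he
        simpa using he.symm

lemma mask_mem : ∀ (l : List ℕ) (c : ℕ), (maskL l).testBit c = true → c = 0 ∨ c ∈ l := by
  intro l
  induction l with
  | nil =>
    intro c h
    left
    rw [maskL, Nat.testBit_one_eq_true_iff_self_eq_zero] at h
    exact h
  | cons d l ih =>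
    intro c h
    rw [maskL, Nat.lor_comm] at h
    rcases testBit_or_one h with h | h
    · rcases ih c h with h | h
      · exact Or.inl h
      · exact Or.inr (List.mem_cons_of_mem _ h)
    · right
      rw [h]
      exact List.mem_cons_self

lemma chk_ok : chk stepL (maskL freeL) = true := by
  decide +kernel

lemma zero_of_free {k : Type u} [Field k] {B : Fin 4 → Matrix (Fin 8) (Fin 8) k}
    (hB : B ∈ ZC (fun a : Fin 4 => FM (qEI k) a)) (hF : ∀ c ∈ freeL, vB B c = 0) : B = 0 := by
  have h := chk_sound hB stepL (maskL freeL) chk_ok (by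
    intro c hc
    rcases mask_mem _ _ hc with h | h
    · rw [h]; simp [vB]
    · exact hF c h)
  funext a
  ext r s
  have ha := a.2
  have hr := r.2
  have hs := s.2
  rw [← vB_code B a r s]
  exact h _ (by omega)

/-- The values at the free entries. -/
def evF (k : Type u) [Field k] :
    (Fin 4 → Matrix (Fin 8) (Fin 8) k) →ₗ[k] (Fin freeL.length → k) where
  toFun B t := vB B (freeL.get t)
  map_add' B C := by
    funext t
    simp only [Pi.add_apply, vB]
    split_ifs
    · simp
    · rfl
    · simp
  map_smul' c B := by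
    funext t
    simp only [Pi.smul_apply, vB, RingHom.id_apply]
    split_ifs
    · simp
    · rfl
    · simp

lemma evF_inj {k : Type u} [Field k] {B : Fin 4 → Matrix (Fin 8) (Fin 8) k}
    (hB : B ∈ ZC (fun a : Fin 4 => FM (qEI k) a)) (h : evF k B = 0) : B = 0 := by
  apply zero_of_free hB
  intro c hc
  obtain ⟨t, ht⟩ := List.mem_iff_get.1 hc
  have := congrFun h t
  rw [← ht]
  exact this

lemma freeL_length : freeL.length = 81 := by decide +kernel

end EIx

open EIx

theorem finrank_ZC_EI (k : Type u) [Field k] :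
    finrank k (ZC (fun a : Fin 4 => FM (qEI k) a)) ≤ 81 := by
  let f : ZC (fun a : Fin 4 => FM (qEI k) a) →ₗ[k] (Fin freeL.length → k) :=
    (evF k).comp (Submodule.subtype _)
  have hf : Function.Injective f := by
    rw [← LinearMap.ker_eq_bot, LinearMap.ker_eq_bot']
    intro B hB
    exact Subtype.ext (evF_inj B.2 hB)
  have h := LinearMap.finrank_le_finrank_of_injective hf
  rw [Module.finrank_fin_fun, freeL_length] at h
  exact h

theorem cyclic_EI (k : Type u) [Field k] :
    Cyclic (fun a : Fin 4 => FM (qEI k) a) (Pi.single 0 1) := by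
  intro W h0 hW
  have hmul : ∀ (a : Fin 4) (s t : Fin 8), colN a s = (t : ℕ) + 1 →
      (Pi.single s 1 : Fin 8 → k) ∈ W → (Pi.single t 1 : Fin 8 → k) ∈ W := by
    intro a s t hst hs
    have h := hW a _ hs
    have e : FM (qEI k) a *ᵥ (Pi.single s 1 : Fin 8 → k) = Pi.single t 1 := by
      funext r
      rw [Matrix.mulVec_single_one]
      show FM (qEI k) a r s = _
      rw [FM_row]
      by_cases hr : r = t
      · subst hr
        rw [if_pos ((row_col a r s).2 hst), Pi.single_eq_same]
      · rw [Pi.single_eq_of_ne hr, if_neg]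
        intro h'
        apply hr
        have := (row_col a r s).1 h'
        exact Fin.ext (by omega)
    rw [← e]
    exact h
  have h1 := hmul 0 0 1 rfl h0
  have h2 := hmul 1 0 2 rfl h0
  have h3 := hmul 2 0 3 rfl h0
  have h4 := hmul 3 0 4 rfl h0
  have h5 := hmul 0 3 5 rfl h3
  have h6 := hmul 0 4 6 rfl h4
  have h7 := hmul 1 4 7 rfl h4
  have hall : ∀ s : Fin 8, (Pi.single s 1 : Fin 8 → k) ∈ W := by
    intro s
    fin_cases s
    · exact h0
    · exact h1
    · exact h2
    · exact h3
    · exact h4
    · exact h5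
    · exact h6
    · exact h7
  rw [eq_top_iff]
  intro w _
  rw [pi_eq_sum_univ' w]
  exact Submodule.sum_mem _ fun s _ => Submodule.smul_mem _ _ (by
    have := hall s
    have e : (fun j => if s = j then (1 : k) else 0) = Pi.single s 1 := by
      funext j
      by_cases hj : s = j
      · subst hj; simp
      · rw [if_neg hj, Pi.single_eq_of_ne (Ne.symm hj)]
    simpa [e] using this)

theorem finrank_ZC_of_EI {k : Type u} [Field k] {n : ℕ} {A : Fin n → Matrix (Fin 8) (Fin 8) k}
    (ι : Fin 4 → Fin n) (hι : Function.Injective ι) {G G' : Matrix (Fin 8) (Fin 8) k}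
    (hG : G * G' = 1) (hA : ∀ a, A (ι a) = G * FM (qEI k) a * G') :
    finrank k (ZC A) + 32 ≤ 81 + 8 * n := by
  classical
  have hG' : G' * G = 1 := mul_eq_one_comm.1 hG
  let J := {j : Fin n // ∀ a, ι a ≠ j}
  have hJ : Fintype.card J + 4 = n := by
    have h1 : Fintype.card J = n - 4 := by
      have : Fintype.card J = Fintype.card {j : Fin n // j ∉ Set.range ι} := by
        apply Fintype.card_congr
        exact Equiv.subtypeEquivRight (fun j => by
          simp only [Set.mem_range, not_exists, ne_eq])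
      rw [this]
      have h2 := Fintype.card_subtype_compl (fun j : Fin n => j ∈ Set.range ι)
      rw [h2, Fintype.card_fin]
      have h3 : Fintype.card {j : Fin n // j ∈ Set.range ι} = 4 := by
        exact (Fintype.card_congr (Equiv.ofInjective ι hι)).symm.trans (Fintype.card_fin 4)
      rw [h3]
    have h4 : 4 ≤ n := by
      have := Fintype.card_le_of_injective ι hι
      simpa using this
    omega
  let cj : (Fin n → Matrix (Fin 8) (Fin 8) k) →ₗ[k] (Fin 4 → Matrix (Fin 8) (Fin 8) k) :=
    { toFun := fun B a => G' * B (ι a) * G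
      map_add' := by
        intro B C
        funext a
        simp only [Pi.add_apply, mul_add, add_mul]
      map_smul' := by
        intro c B
        funext a
        simp only [Pi.smul_apply, mul_smul_comm, smul_mul_assoc, RingHom.id_apply] }
  let g : (Fin n → Matrix (Fin 8) (Fin 8) k) →ₗ[k] (J → Fin 8 → k) :=
    { toFun := fun B j => B j.1 *ᵥ (G *ᵥ Pi.single 0 1)
      map_add' := by
        intro B C
        funext j
        exact Matrix.add_mulVec _ _ _
      map_smul' := by
        intro c B
        funext j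
        show (c • B j.1) *ᵥ (G *ᵥ Pi.single 0 1) = c • (B j.1 *ᵥ (G *ᵥ Pi.single 0 1))
        exact Matrix.smul_mulVec _ _ _ }
  let f : ZC A →ₗ[k] ((Fin freeL.length → k) × (J → Fin 8 → k)) :=
    (LinearMap.prod ((evF k).comp cj) g).comp (Submodule.subtype _)
  have key : ∀ a, G' * A (ι a) * G = FM (qEI k) a := by
    intro a
    rw [hA a]
    calc G' * (G * FM (qEI k) a * G') * G = (G' * G) * FM (qEI k) a * (G' * G) := by
          noncomm_ring
      _ = _ := by rw [hG']; simp
  have hmul : ∀ X Y : Matrix (Fin 8) (Fin 8) k,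
      G' * (X * Y) * G = (G' * X * G) * (G' * Y * G) := by
    intro X Y
    calc G' * (X * Y) * G = G' * X * 1 * Y * G := by noncomm_ring
      _ = G' * X * (G * G') * Y * G := by rw [hG]
      _ = _ := by noncomm_ring
  have hback : ∀ X : Matrix (Fin 8) (Fin 8) k, G' * X * G = 0 → X = 0 := by
    intro X hX
    calc X = 1 * X * 1 := by simp
      _ = (G * G') * X * (G * G') := by rw [hG]
      _ = G * (G' * X * G) * G' := by noncomm_ring
      _ = 0 := by rw [hX]; simp
  have hf : Function.Injective f := by
    rw [← LinearMap.ker_eq_bot, LinearMap.ker_eq_bot']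
    rintro ⟨B, hB⟩ h
    have h1 : evF k (cj B) = 0 := congrArg Prod.fst h
    have h2 : g B = 0 := congrArg Prod.snd h
    have hc : cj B ∈ ZC (fun a : Fin 4 => FM (qEI k) a) := by
      intro a b
      show FM (qEI k) a * (G' * B (ι b) * G) - G' * B (ι b) * G * FM (qEI k) a =
        FM (qEI k) b * (G' * B (ι a) * G) - G' * B (ι a) * G * FM (qEI k) b
      rw [← key a, ← key b, ← hmul, ← hmul, ← hmul, ← hmul]
      have := hB (ι a) (ι b)
      calc G' * (A (ι a) * B (ι b)) * G - G' * (B (ι b) * A (ι a)) * G =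
          G' * (A (ι a) * B (ι b) - B (ι b) * A (ι a)) * G := by noncomm_ring
        _ = _ := by rw [this]; noncomm_ring
    have h3 := evF_inj hc h1
    have h4 : ∀ a, B (ι a) = 0 := by
      intro a
      exact hback _ (congrFun h3 a)
    apply Subtype.ext
    funext j
    show B j = 0
    by_cases hj : ∃ a, ι a = j
    · obtain ⟨a, rfl⟩ := hj
      exact h4 a
    · have hj' : ∀ a, ι a ≠ j := fun a ha => hj ⟨a, ha⟩
      apply hback
      apply Alg_inj (cyclic_EI k)
      · intro a
        show G' * B j * G * FM (qEI k) a = FM (qEI k) a * (G' * B j * G)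
        rw [← key a, ← hmul, ← hmul]
        have h5 := hB (ι a) j
        rw [h4 a, mul_zero, zero_mul, sub_zero, sub_eq_zero] at h5
        rw [h5]
      · have h6 := congrFun h2 ⟨j, hj'⟩
        have h7 : B j *ᵥ (G *ᵥ Pi.single 0 1) = 0 := h6
        calc (G' * B j * G) *ᵥ (Pi.single 0 1 : Fin 8 → k) =
            G' *ᵥ (B j *ᵥ (G *ᵥ Pi.single 0 1)) := by
              rw [Matrix.mulVec_mulVec, Matrix.mulVec_mulVec, mul_assoc]
          _ = 0 := by rw [h7, Matrix.mulVec_zero]
  have h := LinearMap.finrank_le_finrank_of_injective hf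
  rw [Module.finrank_prod, Module.finrank_fin_fun, freeL_length, Module.finrank_pi_fintype] at h
  simp only [Module.finrank_fin_fun, Finset.sum_const, Finset.card_univ, smul_eq_mul] at h
  omega

end Pool.Agent.Helper87.HQ
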