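import Pool.Agent.Helper87.HQ.Rem
import Pool.Agent.Helper87.HQ.Cl
import Pool.Agent.Helper87.HQ.EI

/-!
THEOREM `good_base`: a lower set with 8 elements, all of degree at most 2, and at least 4 variables
is good.

PROOF. `Δ` has `0`, `a` variables and `q` quadratic monomials, `a + q = 7`, `a ≥ 4`. There are four
variables `Y = {y_0..y_3}` in `Δ` (distinct indices `ι : Fin 4 → Fin n`) such that the quadratic monomials of
`Δ` only involve them: if `q = 3` then `a = 4`; if `q ≤ 2` at most 4 variables are involved. The other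
`3 - q` variables of `Δ` and the `q` quadratic monomials form a set `W` of three elements; choose a
bijection `w : Fin 3 → W`. Let `σ : Fin 8 ≃ Fin d` (`d = 8`) be the enumeration with `mon (σ 0) = 0`,
`mon (σ (a+1)) = single (ι a) 1`, `mon (σ (w+5)) = w_w`. Let `qΔ w a b = 1` if `w_w = single (ι a) 1 + single (ι b) 1`,
else 0; so in the enumeration `σ` the matrix `Amon k mon (ι a)` is `FM qΔ a`; for a variable `z = w_w` in `W`
with index `l` the matrix `Amon k mon l` is the matrix unit from `0` to `w+5`; the other `Amon k mon l`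
are 0. Curve (affine in `t`): `q(t) = t • qΔ + (1 - t) • qEI`, `c(t)` = `FM (q(t)) a` for the indices
`ι a`, the same matrix units for the `z` and 0 for the rest, vector `Pi.single 0 1`; all these
tuples commute (`q(t)` symmetric; products of three matrices vanish). At `t = 1` it is `c00 k mon` (in
the enumeration `σ`). For almost all `t` it is in `Few`: at `t = 0`, `finrank_ZC_of_EI` (`G = 1`) gives
`finrank ZC + 8 ≤ 57 + 8 n < 8 n + 64`; `ZC_semicont_poly` (Helper61/HilbDeg.lean) or `ZC_semicont` gives the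
same bound for almost all `t`; cyclic: `single 0` is a cyclic vector of `c(t)` for almost all `t`: the
vectors `v`, `x_a v`, `z v` and the `FM (q(t)) a * FM (q(t)) b *ᵥ v = ∑ w, q(t) w a b e_(w+5)` for
`(a,b) = (0,2), (0,3), (1,3)` are a basis when `det (q(t) w a b) ≠ 0`, a polynomial in `t` with value 1 at
`t = 0`. Conclude with `CL_of_curve` at `t = 1` (`Few_subset_CL`) and pass to the enumeration `mon` with
`CL_conj` (permutation matrix).
-/

open MvPolynomial Module Matrix

namespace Pool.Agent.Helper87.HQ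

open Pool.Agent.Hilb61

universe u

variable {k : Type u} [Field k] {n : ℕ}

/-! ### Permutation of the enumeration -/

private theorem base_transfer {d : ℕ} {mon mon' : Fin d → (Fin n →₀ ℕ)}
    (hinj' : Function.Injective mon') (h : ∀ r, ∃ s, mon s = mon' r)
    (hc : c00 k mon' ∈ CL k n d) : c00 k mon ∈ CL k n d := by
  classical
  choose f hf using h
  have hfinj : Function.Injective f := by
    intro r s hrs
    apply hinj'
    rw [← hf r, ← hf s, hrs]
  let σ : Fin d ≃ Fin d := Equiv.ofBijective f (Finite.injective_iff_bijective.mp hfinj)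
  have hσ : ∀ r, mon (σ r) = mon' r := hf
  have h1 : ∀ i, mats (c00 k mon') i = (mats (c00 k mon) i).submatrix σ σ := by
    intro i
    ext r s
    show (if mon' r = mon' s + Finsupp.single i 1 then (1 : k) else 0) =
      (if mon (σ r) = mon (σ s) + Finsupp.single i 1 then (1 : k) else 0)
    rw [hσ, hσ]
  have h2 : vect (c00 k mon') = fun r => vect (c00 k mon) (σ r) := by
    funext r
    show (if mon' r = 0 then (1 : k) else 0) = (if mon (σ r) = 0 then (1 : k) else 0)
    rw [hσ]
  apply CL_conj (g := (1 : Matrix (Fin d) (Fin d) k).submatrix σ id)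
    (g' := (1 : Matrix (Fin d) (Fin d) k).submatrix id σ) ?_ hc
  · intro i
    rw [h1]
    have e1 := Matrix.submatrix_mul_equiv (mats (c00 k mon) i) (1 : Matrix (Fin d) (Fin d) k)
      σ σ id
    have e2 := Matrix.submatrix_mul_equiv (1 : Matrix (Fin d) (Fin d) k) (mats (c00 k mon) i)
      σ (Equiv.refl (Fin d)) id
    rw [Matrix.mul_one] at e1
    rw [Matrix.one_mul] at e2
    rw [e1]
    exact e2.symm
  · rw [h2]
    funext r
    rw [mulVec, dotProduct, Finset.sum_eq_single (σ r)]
    · rw [submatrix_apply, id, one_apply_eq, one_mul]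
    · intro s _ hs
      rw [submatrix_apply, id, one_apply_ne (Ne.symm hs), zero_mul]
    · intro hn
      exact absurd (Finset.mem_univ _) hn
  · have e3 := Matrix.submatrix_mul_equiv (1 : Matrix (Fin d) (Fin d) k)
      (1 : Matrix (Fin d) (Fin d) k) σ (Equiv.refl (Fin d)) σ
    rw [Matrix.one_mul, Matrix.submatrix_one_equiv] at e3
    exact e3

/-! ### Indices -/

private def fi (a : Fin 4) : Fin 8 := ⟨(a : ℕ) + 1, by omega⟩

private def fw (w : Fin 3) : Fin 8 := ⟨(w : ℕ) + 5, by omega⟩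

private theorem fin8_cases (r : Fin 8) : r = 0 ∨ (∃ a, r = fi a) ∨ (∃ w, r = fw w) := by
  by_cases h0 : (r : ℕ) = 0
  · left
    exact Fin.ext h0
  by_cases h1 : (r : ℕ) < 5
  · right
    left
    refine ⟨⟨(r : ℕ) - 1, by omega⟩, ?_⟩
    apply Fin.ext
    show (r : ℕ) = (r : ℕ) - 1 + 1
    omega
  · right
    right
    refine ⟨⟨(r : ℕ) - 5, by omega⟩, ?_⟩
    apply Fin.ext
    show (r : ℕ) = (r : ℕ) - 5 + 5
    omega

private theorem fi_inj {a b : Fin 4} (h : fi a = fi b) : a = b := by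
  have h1 : (a : ℕ) + 1 = (b : ℕ) + 1 := congrArg Fin.val h
  exact Fin.ext (by omega)

private theorem fw_inj {a b : Fin 3} (h : fw a = fw b) : a = b := by
  have h1 : (a : ℕ) + 5 = (b : ℕ) + 5 := congrArg Fin.val h
  exact Fin.ext (by omega)

private theorem fi_ne_zero (a : Fin 4) : fi a ≠ 0 := by
  intro h
  have h1 : (a : ℕ) + 1 = 0 := congrArg Fin.val h
  omega

private theorem fw_ne_zero (a : Fin 3) : fw a ≠ 0 := by
  intro h
  have h1 : (a : ℕ) + 5 = 0 := congrArg Fin.val h
  omega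

private theorem fw_ne_fi (w : Fin 3) (a : Fin 4) : fw w ≠ fi a := by
  intro h
  have h1 : (w : ℕ) + 5 = (a : ℕ) + 1 := congrArg Fin.val h
  omega

private theorem FM_zero (q : Fin 3 → Fin 4 → Fin 4 → k) (a : Fin 4) (r : Fin 8) :
    FM q a r 0 = if r = fi a then 1 else 0 := by
  by_cases h : r = fi a
  · rw [if_pos h, h]
    simp [FM, fi]
  · rw [if_neg h]
    have h' : ¬ ((r : ℕ) = (a : ℕ) + 1) := fun h1 => h (Fin.ext h1)
    simp [FM, h']

private theorem FM_fi_fw (q : Fin 3 → Fin 4 → Fin 4 → k) (a b : Fin 4) (w : Fin 3) :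
    FM q a (fw w) (fi b) = q w a b := by
  have h1 : ((fi b : Fin 8) : ℕ) = (b : ℕ) + 1 := rfl
  have h2 : ((fw w : Fin 8) : ℕ) = (w : ℕ) + 5 := rfl
  have h3 : ¬ (((fi b : Fin 8) : ℕ) = 0) := by omega
  have h4 : ((fi b : Fin 8) : ℕ) < 5 ∧ 5 ≤ ((fw w : Fin 8) : ℕ) := by omega
  rw [FM, Matrix.of_apply, if_neg h3, dif_pos h4]
  rfl

private theorem FM_fi_lt (q : Fin 3 → Fin 4 → Fin 4 → k) (a b : Fin 4) (r : Fin 8)
    (hr : (r : ℕ) < 5) : FM q a r (fi b) = 0 := by
  have h1 : ((fi b : Fin 8) : ℕ) = (b : ℕ) + 1 := rfl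
  have h3 : ¬ (((fi b : Fin 8) : ℕ) = 0) := by omega
  have h4 : ¬ (((fi b : Fin 8) : ℕ) < 5 ∧ 5 ≤ (r : ℕ)) := by omega
  rw [FM, Matrix.of_apply, if_neg h3, dif_neg h4]

private theorem FM_fw (q : Fin 3 → Fin 4 → Fin 4 → k) (a : Fin 4) (r : Fin 8) (w : Fin 3) :
    FM q a r (fw w) = 0 := by
  have h1 : ((fw w : Fin 8) : ℕ) = (w : ℕ) + 5 := rfl
  have h3 : ¬ (((fw w : Fin 8) : ℕ) = 0) := by omega
  have h4 : ¬ (((fw w : Fin 8) : ℕ) < 5 ∧ 5 ≤ (r : ℕ)) := by omega
  rw [FM, Matrix.of_apply, if_neg h3, dif_neg h4]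

private theorem FM_lt_ne (q : Fin 3 → Fin 4 → Fin 4 → k) (a : Fin 4) (r s : Fin 8)
    (hr : (r : ℕ) < 5) (hs : s ≠ 0) : FM q a r s = 0 := by
  rcases fin8_cases s with h | ⟨b, h⟩ | ⟨w, h⟩
  · exact absurd h hs
  · rw [h]
    exact FM_fi_lt q a b r hr
  · rw [h]
    exact FM_fw q a r w

/-! ### Products -/

private theorem FM_mul (q : Fin 3 → Fin 4 → Fin 4 → k) (a b : Fin 4) (r s : Fin 8) :
    (FM q a * FM q b) r s = if s = 0 then FM q a r (fi b) else 0 := by
  rw [Matrix.mul_apply]
  by_cases hs : s = 0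
  · rw [if_pos hs, hs, Finset.sum_eq_single (fi b)]
    · rw [FM_zero, if_pos rfl, mul_one]
    · intro t _ ht
      rw [FM_zero, if_neg ht, mul_zero]
    · intro hn
      exact absurd (Finset.mem_univ _) hn
  · rw [if_neg hs]
    apply Finset.sum_eq_zero
    intro t _
    rcases fin8_cases t with h | ⟨c, h⟩ | ⟨w, h⟩
    · rw [FM_lt_ne q b t s (by rw [h]; decide) hs, mul_zero]
    · rw [FM_lt_ne q b t s (by rw [h]; show (c : ℕ) + 1 < 5; omega) hs, mul_zero]
    · rw [h, FM_fw, zero_mul]

private theorem FM_comm {q : Fin 3 → Fin 4 → Fin 4 → k} (hq : ∀ w a b, q w a b = q w b a)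
    (a b : Fin 4) : Commute (FM q a) (FM q b) := by
  show FM q a * FM q b = FM q b * FM q a
  ext r s
  rw [FM_mul, FM_mul]
  by_cases hs : s = 0
  · rw [if_pos hs, if_pos hs]
    by_cases hr : (r : ℕ) < 5
    · rw [FM_fi_lt q a b r hr, FM_fi_lt q b a r hr]
    · rcases fin8_cases r with h | ⟨c, h⟩ | ⟨w, h⟩
      · exact absurd (by rw [h]; decide) hr
      · exact absurd (by rw [h]; show (c : ℕ) + 1 < 5; omega) hr
      · rw [h, FM_fi_fw, FM_fi_fw, hq]
  · rw [if_neg hs, if_neg hs]

/-- Matrices with only a first column, supported in the rows `5, 6, 7`. -/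
private def Low3 (Z : Matrix (Fin 8) (Fin 8) k) : Prop :=
  ∀ r s, Z r s ≠ 0 → s = 0 ∧ 5 ≤ (r : ℕ)

private theorem FM_mul_Z (q : Fin 3 → Fin 4 → Fin 4 → k) (a : Fin 4)
    {Z : Matrix (Fin 8) (Fin 8) k} (hZ : Low3 Z) : FM q a * Z = 0 := by
  ext r s
  rw [Matrix.mul_apply]
  apply Finset.sum_eq_zero
  intro t _
  by_cases h : Z t s = 0
  · rw [h, mul_zero]
  · have h1 := (hZ t s h).2
    rcases fin8_cases t with h2 | ⟨c, h2⟩ | ⟨w, h2⟩
    · exact absurd h1 (by rw [h2]; decide)
    · exact absurd h1 (by rw [h2]; show ¬ (5 ≤ (c : ℕ) + 1); omega)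
    · rw [h2, FM_fw, zero_mul]

private theorem Z_mul_FM (q : Fin 3 → Fin 4 → Fin 4 → k) (a : Fin 4)
    {Z : Matrix (Fin 8) (Fin 8) k} (hZ : Low3 Z) : Z * FM q a = 0 := by
  ext r s
  rw [Matrix.mul_apply]
  apply Finset.sum_eq_zero
  intro t _
  by_cases h : Z r t = 0
  · rw [h, zero_mul]
  · have h1 := (hZ r t h).1
    rw [h1]
    by_cases hs : s = 0
    · rw [hs, FM_zero, if_neg (Ne.symm (fi_ne_zero a)), mul_zero]
    · rw [FM_lt_ne q a 0 s (by decide) hs, mul_zero]

private theorem Z_mul_Z {Z Z' : Matrix (Fin 8) (Fin 8) k} (hZ : Low3 Z) (hZ' : Low3 Z') :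
    Z * Z' = 0 := by
  ext r s
  rw [Matrix.mul_apply]
  apply Finset.sum_eq_zero
  intro t _
  by_cases h : Z r t = 0
  · rw [h, zero_mul]
  by_cases h' : Z' t s = 0
  · rw [h', mul_zero]
  exfalso
  have h1 := (hZ r t h).1
  have h2 := (hZ' t s h').2
  rw [h1] at h2
  exact absurd h2 (by decide)

/-! ### The tuples -/

section tuple

variable (mon : Fin 8 → (Fin n →₀ ℕ)) (ι : Fin 4 → Fin n)

private noncomputable def ZZ (k : Type u) [Field k] (mon : Fin 8 → (Fin n →₀ ℕ)) (i : Fin n) :
    Matrix (Fin 8) (Fin 8) k :=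
  Matrix.of fun r s => if s = 0 ∧ 5 ≤ (r : ℕ) ∧ mon r = Finsupp.single i 1 then 1 else 0

private theorem ZZ_low3 (i : Fin n) : Low3 (ZZ k mon i) := by
  intro r s h
  by_contra hc
  apply h
  rw [ZZ, Matrix.of_apply, if_neg]
  intro h1
  exact hc ⟨h1.1, h1.2.1⟩

private noncomputable def TT (mon : Fin 8 → (Fin n →₀ ℕ)) (ι : Fin 4 → Fin n)
    (q : Fin 3 → Fin 4 → Fin 4 → k) (i : Fin n) : Matrix (Fin 8) (Fin 8) k :=
  (∑ a, if ι a = i then FM q a else 0) + ZZ k mon i

private theorem TT_comm {q : Fin 3 → Fin 4 → Fin 4 → k} (hq : ∀ w a b, q w a b = q w b a)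
    (i j : Fin n) : TT mon ι q i * TT mon ι q j = TT mon ι q j * TT mon ι q i := by
  have h1 : ∀ a b, Commute (if ι a = i then FM q a else 0) (if ι b = j then FM q b else 0) := by
    intro a b
    split_ifs
    · exact FM_comm hq a b
    · exact Commute.zero_right _
    · exact Commute.zero_left _
    · exact Commute.zero_left _
  have h2 : ∀ a i j, Commute (if ι a = i then FM q a else 0) (ZZ k mon j) := by
    intro a i j
    split_ifs
    · show FM q a * ZZ k mon j = ZZ k mon j * FM q a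
      rw [FM_mul_Z q a (ZZ_low3 mon j), Z_mul_FM q a (ZZ_low3 mon j)]
    · exact Commute.zero_left _
  have h3 : Commute (ZZ k mon i) (ZZ k mon j) := by
    show ZZ k mon i * ZZ k mon j = ZZ k mon j * ZZ k mon i
    rw [Z_mul_Z (ZZ_low3 mon i) (ZZ_low3 mon j), Z_mul_Z (ZZ_low3 mon j) (ZZ_low3 mon i)]
  have h4 : Commute (TT mon ι q i) (TT mon ι q j) := by
    apply Commute.add_left
    · apply Commute.add_right
      · exact Commute.sum_left _ _ _ fun a _ => Commute.sum_right _ _ _ fun b _ => h1 a b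
      · exact Commute.sum_left _ _ _ fun a _ => h2 a i j
    · apply Commute.add_right
      · exact Commute.sum_right _ _ _ fun b _ => (h2 b j i).symm
      · exact h3
  exact h4

private theorem FM_affine (q q' : Fin 3 → Fin 4 → Fin 4 → k) (t : k) (a : Fin 4) :
    FM (q + t • (q' - q)) a = FM q a + t • (FM q' a - FM q a) := by
  ext r s
  rw [Matrix.add_apply, Matrix.smul_apply, Matrix.sub_apply]
  simp only [FM, Matrix.of_apply]
  split_ifs
  · rw [sub_self, smul_zero, add_zero]
  · rw [sub_self, smul_zero, add_zero]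
  · rfl
  · rw [sub_self, smul_zero, add_zero]

private theorem TT_affine (q q' : Fin 3 → Fin 4 → Fin 4 → k) (t : k) (i : Fin n) :
    TT mon ι (q + t • (q' - q)) i = TT mon ι q i + t • (TT mon ι q' i - TT mon ι q i) := by
  rw [TT, TT, TT, add_sub_add_right_eq_sub, ← Finset.sum_sub_distrib, Finset.smul_sum,
    add_right_comm, ← Finset.sum_add_distrib]
  congr 1
  apply Finset.sum_congr rfl
  intro a _
  split_ifs
  · exact FM_affine q q' t a
  · rw [sub_self, smul_zero, add_zero]

private theorem TT_range {mon : Fin 8 → (Fin n →₀ ℕ)} {ι : Fin 4 → Fin n}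
    (hinj : Function.Injective mon) (h1 : ∀ a, mon (fi a) = Finsupp.single (ι a) 1)
    (hι : Function.Injective ι) (q : Fin 3 → Fin 4 → Fin 4 → k) (a : Fin 4) :
    TT mon ι q (ι a) = FM q a := by
  have h2 : ZZ k mon (ι a) = 0 := by
    ext r s
    rw [ZZ, Matrix.of_apply, if_neg]
    · rfl
    · rintro ⟨_, h3, h4⟩
      rw [← h1 a] at h4
      have h5 := hinj h4
      rw [h5] at h3
      have h6 : 5 ≤ (a : ℕ) + 1 := h3
      omega
  rw [TT, h2, add_zero, Finset.sum_eq_single a]
  · rw [if_pos rfl]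
  · intro b _ hb
    rw [if_neg]
    intro h3
    exact hb (hι h3)
  · intro hn
    exact absurd (Finset.mem_univ _) hn

private theorem mem_of_det {V : Type*} [AddCommGroup V] [Module k V] (W : Submodule k V)
    (D : Matrix (Fin 3) (Fin 3) k) (hD : D.det ≠ 0) (x : Fin 3 → V)
    (h : ∀ p, ∑ w, D p w • x w ∈ W) (w : Fin 3) : x w ∈ W := by
  have hu : IsUnit D.det := isUnit_iff_ne_zero.mpr hD
  have h1 : x w = ∑ p, D⁻¹ w p • ∑ w', D p w' • x w' := by
    have h2 : ∑ p, D⁻¹ w p • ∑ w', D p w' • x w' = ∑ w', (D⁻¹ * D) w w' • x w' := by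
      simp only [Finset.smul_sum, Matrix.mul_apply, Finset.sum_smul, smul_smul]
      rw [Finset.sum_comm]
    rw [h2, Matrix.nonsing_inv_mul D hu, Finset.sum_eq_single w]
    · rw [one_apply_eq, one_smul]
    · intro b _ hb
      rw [one_apply_ne (Ne.symm hb), zero_smul]
    · intro hn
      exact absurd (Finset.mem_univ _) hn
  rw [h1]
  exact W.sum_mem fun p _ => W.smul_mem _ (h p)

/-- The matrix of the three products. -/
private def DD (q : Fin 3 → Fin 4 → Fin 4 → k) : Matrix (Fin 3) (Fin 3) k :=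
  Matrix.of fun p w => q w (![0, 0, 1] p) (![2, 3, 3] p)

private theorem FM_mulVec_single (q : Fin 3 → Fin 4 → Fin 4 → k) (a : Fin 4) :
    FM q a *ᵥ Pi.single 0 1 = Pi.single (fi a) 1 := by
  rw [mulVec_single_one]
  funext r
  show FM q a r 0 = _
  rw [FM_zero, Pi.single_apply]

private theorem FM_mulVec_fi (q : Fin 3 → Fin 4 → Fin 4 → k) (a b : Fin 4) :
    FM q a *ᵥ Pi.single (fi b) 1 = ∑ w, q w a b • (Pi.single (fw w) 1 : Fin 8 → k) := by
  rw [mulVec_single_one]
  funext r
  show FM q a r (fi b) = _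
  rw [Finset.sum_apply]
  rcases fin8_cases r with h | ⟨c, h⟩ | ⟨w, h⟩
  · rw [FM_fi_lt q a b r (by rw [h]; decide)]
    symm
    apply Finset.sum_eq_zero
    intro w _
    rw [Pi.smul_apply, Pi.single_apply, if_neg (by rw [h]; exact Ne.symm (fw_ne_zero w)),
      smul_zero]
  · rw [FM_fi_lt q a b r (by rw [h]; show (c : ℕ) + 1 < 5; omega)]
    symm
    apply Finset.sum_eq_zero
    intro w _
    rw [Pi.smul_apply, Pi.single_apply, if_neg (by rw [h]; exact Ne.symm (fw_ne_fi w c)),
      smul_zero]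
  · rw [h, FM_fi_fw, Finset.sum_eq_single w]
    · rw [Pi.smul_apply, Pi.single_eq_same, smul_eq_mul, mul_one]
    · intro w' _ hw'
      rw [Pi.smul_apply, Pi.single_apply, if_neg (fun h' => hw' (fw_inj h'.symm)), smul_zero]
    · intro hn
      exact absurd (Finset.mem_univ _) hn

private theorem TT_cyclic {mon : Fin 8 → (Fin n →₀ ℕ)} {ι : Fin 4 → Fin n}
    (hinj : Function.Injective mon) (h1 : ∀ a, mon (fi a) = Finsupp.single (ι a) 1)
    (hι : Function.Injective ι) {q : Fin 3 → Fin 4 → Fin 4 → k} (hq : (DD q).det ≠ 0) :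
    Cyclic (TT mon ι q) (Pi.single 0 1) := by
  intro W h0 hW
  have hF : ∀ a, ∀ w ∈ W, FM q a *ᵥ w ∈ W := by
    intro a w hw
    rw [← TT_range hinj h1 hι q a]
    exact hW _ w hw
  have e1 : ∀ a, (Pi.single (fi a) 1 : Fin 8 → k) ∈ W := by
    intro a
    rw [← FM_mulVec_single q a]
    exact hF a _ h0
  have e2 : ∀ w, (Pi.single (fw w) 1 : Fin 8 → k) ∈ W := by
    apply mem_of_det W (DD q) hq (fun w => (Pi.single (fw w) 1 : Fin 8 → k))
    intro p
    have h3 := hF (![0, 0, 1] p) _ (e1 (![2, 3, 3] p))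
    rw [FM_mulVec_fi] at h3
    exact h3
  rw [eq_top_iff]
  intro x _
  rw [pi_eq_sum_univ' x]
  apply W.sum_mem
  intro r _
  apply W.smul_mem
  rcases fin8_cases r with h | ⟨c, h⟩ | ⟨w, h⟩
  · rw [h]; exact h0
  · rw [h]; exact e1 c
  · rw [h]; exact e2 w

end tuple

private theorem exists_single_of_degree {b : Fin n →₀ ℕ} (h : b.degree = 1) :
    ∃ l, b = Finsupp.single l 1 := by
  have h0 : b ≠ 0 := by
    intro h1
    rw [h1, map_zero] at h
    exact absurd h (by decide)
  obtain ⟨l, hl⟩ := Finsupp.support_nonempty_iff.mpr h0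
  refine ⟨l, (eq_of_le_of_degree (b := Finsupp.single l 1) (c := b) ?_ ?_).symm⟩
  · rw [Finsupp.single_le_iff]
    exact Nat.one_le_iff_ne_zero.mpr (Finsupp.mem_support_iff.mp hl)
  · rw [h, Finsupp.degree_single]

private theorem qEI_symm (w : Fin 3) (a b : Fin 4) : qEI k w a b = qEI k w b a := by
  fin_cases w <;> fin_cases a <;> fin_cases b <;> simp [qEI]

private theorem DD_qEI : DD (qEI k) = 1 := by
  ext p w
  fin_cases p <;> fin_cases w <;> simp [DD, qEI]

private theorem base_end {mon : Fin 8 → (Fin n →₀ ℕ)} {ι : Fin 4 → Fin n}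
    (hinj : Function.Injective mon) (h0 : mon 0 = 0)
    (h1 : ∀ a, mon (fi a) = Finsupp.single (ι a) 1) (hι : Function.Injective ι)
    (hdeg : ∀ r, (mon r).degree ≤ 2)
    (hS : ∀ r, (mon r).degree = 2 → ∀ i ∈ (mon r).support, ∃ a, ι a = i)
    {q : Fin 3 → Fin 4 → Fin 4 → k}
    (hq : ∀ w a b, q w a b =
      if mon (fw w) = Finsupp.single (ι a) 1 + Finsupp.single (ι b) 1 then 1 else 0) :
    mk (TT mon ι q) (Pi.single 0 1) = c00 k mon := by
  classical
  have hne : ∀ s, s ≠ 0 → 1 ≤ (mon s).degree := by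
    intro s hs
    rw [Nat.one_le_iff_ne_zero]
    intro h
    rw [Finsupp.degree_eq_zero_iff] at h
    apply hs
    apply hinj
    rw [h, h0]
  -- two facts
  have hF1 : ∀ r s i, s ≠ 0 → mon r = mon s + Finsupp.single i 1 → ∃ a, ι a = i := by
    intro r s i hs h
    have h2 := congrArg Finsupp.degree h
    rw [degree_add_single] at h2
    have h3 := hne s hs
    have h4 := hdeg r
    apply hS r (by omega) i
    rw [Finsupp.mem_support_iff, h, Finsupp.add_apply, Finsupp.single_eq_same]
    omega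
  have hF2 : ∀ r w i, mon r ≠ mon (fw w) + Finsupp.single i 1 := by
    intro r w i h
    have h2 := congrArg Finsupp.degree h
    rw [degree_add_single] at h2
    have h3 := hne (fw w) (fw_ne_zero w)
    have h4 := hdeg r
    obtain ⟨l, hl⟩ := exists_single_of_degree (b := mon (fw w)) (by omega)
    obtain ⟨a, ha⟩ := hS r (by omega) l (by
      rw [Finsupp.mem_support_iff, h, hl, Finsupp.add_apply, Finsupp.single_eq_same]
      omega)
    rw [← ha, ← h1] at hl
    exact fw_ne_fi w a (hinj hl)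
  funext x
  rcases x with ⟨i, r, s⟩ | r
  · show TT mon ι q i r s = if mon r = mon s + Finsupp.single i 1 then 1 else 0
    by_cases hi : ∃ a, ι a = i
    · obtain ⟨a, rfl⟩ := hi
      rw [TT_range hinj h1 hι q a]
      rcases fin8_cases s with h | ⟨b, h⟩ | ⟨w, h⟩
      · rw [h, FM_zero, h0, zero_add, ← h1 a]
        by_cases hr : r = fi a
        · rw [if_pos hr, if_pos (by rw [hr])]
        · rw [if_neg hr, if_neg (fun h' => hr (hinj h'))]
      · rw [h, h1 b]
        have key : ∀ r : Fin 8, (r : ℕ) < 5 →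
            ¬ (mon r = Finsupp.single (ι b) 1 + Finsupp.single (ι a) 1) := by
          intro r hr h2
          have h3 := congrArg Finsupp.degree h2
          rw [degree_add_single, Finsupp.degree_single] at h3
          rcases fin8_cases r with h | ⟨c, h⟩ | ⟨w, h⟩
          · rw [h, h0, map_zero] at h3
            omega
          · rw [h, h1, Finsupp.degree_single] at h3
            omega
          · rw [h] at hr
            have h4 : (w : ℕ) + 5 < 5 := hr
            omega
        by_cases hr : (r : ℕ) < 5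
        · rw [FM_fi_lt q a b r hr, if_neg (key r hr)]
        · rcases fin8_cases r with h' | ⟨c, h'⟩ | ⟨w, h'⟩
          · exact absurd (by rw [h']; decide) hr
          · exact absurd (by rw [h']; show (c : ℕ) + 1 < 5; omega) hr
          · rw [h', FM_fi_fw, hq, add_comm]
      · rw [h, FM_fw, if_neg (hF2 r w (ι a))]
    · have hsum : TT mon ι q i = ZZ k mon i := by
        rw [TT, Finset.sum_eq_zero, zero_add]
        intro a _
        rw [if_neg]
        intro h
        exact hi ⟨a, h⟩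
      rw [hsum, ZZ, Matrix.of_apply]
      by_cases hs : s = 0
      · rw [hs, h0, zero_add]
        by_cases hr : mon r = Finsupp.single i 1
        · rw [if_pos hr, if_pos]
          refine ⟨rfl, ?_, hr⟩
          rcases fin8_cases r with h | ⟨c, h⟩ | ⟨w, h⟩
          · exfalso
            rw [h, h0] at hr
            have h3 := congrArg Finsupp.degree hr
            rw [Finsupp.degree_single, map_zero] at h3
            omega
          · exfalso
            rw [h, h1] at hr
            apply hi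
            refine ⟨c, ?_⟩
            exact (Finsupp.single_left_injective one_ne_zero) hr
          · rw [h]
            show 5 ≤ (w : ℕ) + 5
            omega
        · rw [if_neg hr, if_neg]
          rintro ⟨_, _, h⟩
          exact hr h
      · rw [if_neg (fun h => hs h.1), if_neg (fun h => hi (hF1 r s i hs h))]
  · show (Pi.single 0 1 : Fin 8 → k) r = if mon r = 0 then 1 else 0
    rw [Pi.single_apply]
    by_cases hr : r = 0
    · rw [if_pos hr, if_pos (by rw [hr, h0])]
    · rw [if_neg hr, if_neg]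
      intro h
      rw [← h0] at h
      exact hr (hinj h)

private theorem base_main [Infinite k] {mon : Fin 8 → (Fin n →₀ ℕ)} {ι : Fin 4 → Fin n}
    (hinj : Function.Injective mon) (h0 : mon 0 = 0)
    (h1 : ∀ a, mon (fi a) = Finsupp.single (ι a) 1)
    (hdeg : ∀ r, (mon r).degree ≤ 2)
    (hS : ∀ r, (mon r).degree = 2 → ∀ i ∈ (mon r).support, ∃ a, ι a = i) :
    c00 k mon ∈ CL k n 8 := by
  classical
  have hι : Function.Injective ι := by
    intro a b hab
    apply fi_inj
    apply hinj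
    rw [h1, h1, hab]
  let q1 : Fin 3 → Fin 4 → Fin 4 → k := fun w a b =>
    if mon (fw w) = Finsupp.single (ι a) 1 + Finsupp.single (ι b) 1 then 1 else 0
  have hq1 : ∀ w a b, q1 w a b = q1 w b a := by
    intro w a b
    show (if mon (fw w) = Finsupp.single (ι a) 1 + Finsupp.single (ι b) 1 then (1 : k) else 0) =
      if mon (fw w) = Finsupp.single (ι b) 1 + Finsupp.single (ι a) 1 then (1 : k) else 0
    rw [add_comm]
  let qt : k → Fin 3 → Fin 4 → Fin 4 → k := fun t => qEI k + t • (q1 - qEI k)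
  have hqt : ∀ t w a b, qt t w a b = qt t w b a := by
    intro t w a b
    show qEI k w a b + t * (q1 w a b - qEI k w a b) =
      qEI k w b a + t * (q1 w b a - qEI k w b a)
    rw [hq1 w a b, qEI_symm w a b]
  let x0 : Coord n 8 → k := mk (TT mon ι (qEI k)) (Pi.single 0 1)
  let x1 : Coord n 8 → k := mk (TT mon ι q1) (Pi.single 0 1)
  let cv : Coord n 8 → Polynomial k := fun x =>
    Polynomial.C (x0 x) + Polynomial.X * Polynomial.C (x1 x - x0 x)
  have hcv : ∀ t, (fun x => (cv x).eval t) = mk (TT mon ι (qt t)) (Pi.single 0 1) := by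
    intro t
    funext x
    simp only [cv, Polynomial.eval_add, Polynomial.eval_mul, Polynomial.eval_C,
      Polynomial.eval_X]
    rcases x with ⟨i, r, s⟩ | r
    · show TT mon ι (qEI k) i r s + t * (TT mon ι q1 i r s - TT mon ι (qEI k) i r s) =
        TT mon ι (qEI k + t • (q1 - qEI k)) i r s
      rw [TT_affine mon ι (qEI k) q1 t i]
      rfl
    · show (Pi.single 0 1 : Fin 8 → k) r +
        t * ((Pi.single 0 1 : Fin 8 → k) r - (Pi.single 0 1 : Fin 8 → k) r) =
        (Pi.single 0 1 : Fin 8 → k) r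
      rw [sub_self, mul_zero, add_zero]
  have hfew : ∀ᶠ t : k in Filter.cofinite, (fun x => (cv x).eval t) ∈ CL k n 8 := by
    have hz := ZC_semicont_poly (fun (j : ℕ) (i : Fin n) => if j = 0 then TT mon ι (qEI k) i
      else TT mon ι q1 i - TT mon ι (qEI k) i) 1
    have hzc : finrank k (ZC (TT mon ι (qEI k))) + 32 ≤ 81 + 8 * n := by
      apply finrank_ZC_of_EI ι hι (G := 1) (G' := 1) (by rw [Matrix.one_mul])
      intro a
      rw [Matrix.one_mul, Matrix.mul_one]
      exact TT_range hinj h1 hι _ a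
    have hdet : ∀ᶠ t : k in Filter.cofinite, (DD (qt t)).det ≠ 0 := by
      let P : Matrix (Fin 3) (Fin 3) (Polynomial k) := Matrix.of fun p w =>
        Polynomial.C (DD (qEI k) p w) +
          Polynomial.X * Polynomial.C (DD q1 p w - DD (qEI k) p w)
      have hP : ∀ t, P.det.eval t = (DD (qt t)).det := by
        intro t
        have e1 : P.map (Polynomial.eval t) = DD (qt t) := by
          ext p w
          rw [Matrix.map_apply]
          simp only [P, Matrix.of_apply, Polynomial.eval_add, Polynomial.eval_mul,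
            Polynomial.eval_C, Polynomial.eval_X]
          rfl
        rw [← e1]
        exact RingHom.map_det (Polynomial.evalRingHom t) P
      have hne : P.det ≠ 0 := by
        intro h
        have e2 := hP 0
        have e3 : qt 0 = qEI k := by
          show qEI k + (0 : k) • (q1 - qEI k) = qEI k
          rw [zero_smul, add_zero]
        rw [h, Polynomial.eval_zero, e3, DD_qEI, det_one] at e2
        exact zero_ne_one e2
      rw [Filter.eventually_cofinite]
      apply (Polynomial.finite_setOfPred_isRoot hne).subset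
      intro t ht
      rw [Set.mem_ofPred_eq] at ht ⊢
      rw [Polynomial.IsRoot.def, hP]
      by_contra hc
      exact ht hc
    filter_upwards [hz, hdet] with t ht1 ht2
    apply Few_subset_CL
    rw [hcv]
    refine ⟨⟨TT_comm mon ι (hqt t), TT_cyclic hinj h1 hι ht2⟩, ?_⟩
    have e4 : (fun i : Fin n => ∑ j ∈ Finset.range (1 + 1), t ^ j •
        (if j = 0 then TT mon ι (qEI k) i else TT mon ι q1 i - TT mon ι (qEI k) i)) =
        TT mon ι (qt t) := by
      funext i
      rw [Finset.sum_range_succ, Finset.sum_range_one, pow_zero, pow_one, one_smul, if_pos rfl,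
        if_neg one_ne_zero]
      exact (TT_affine mon ι (qEI k) q1 t i).symm
    rw [e4] at ht1
    have e5 : (fun i : Fin n => if (0 : ℕ) = 0 then TT mon ι (qEI k) i
        else TT mon ι q1 i - TT mon ι (qEI k) i) = TT mon ι (qEI k) := by
      funext i
      rw [if_pos rfl]
    rw [e5] at ht1
    show finrank k (ZC (TT mon ι (qt t))) + 8 < n * 8 + 8 ^ 2
    omega
  have hfin := CL_of_curve cv hfew 1
  rw [hcv 1] at hfin
  have hqt1 : qt 1 = q1 := by
    show qEI k + (1 : k) • (q1 - qEI k) = q1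
    rw [one_smul, add_sub_cancel]
  rw [hqt1, base_end hinj h0 h1 hι hdeg hS (fun _ _ _ => rfl)] at hfin
  exact hfin

private theorem card_support_le_degree (b : Fin n →₀ ℕ) : b.support.card ≤ b.degree := by
  rw [Finset.card_eq_sum_ones, Finsupp.degree_apply]
  apply Finset.sum_le_sum
  intro i hi
  exact Nat.one_le_iff_ne_zero.mpr (Finsupp.mem_support_iff.mp hi)

private theorem base_comb {Δ : Finset (Fin n →₀ ℕ)} (hlow : Low Δ) (hcard : Δ.card = 8)
    (hvar : 4 ≤ (Finset.univ.filter (fun i : Fin n => Finsupp.single i 1 ∈ Δ)).card) :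
    ∃ (mon : Fin 8 → (Fin n →₀ ℕ)) (ι : Fin 4 → Fin n), Function.Injective mon ∧
      (∀ r, mon r ∈ Δ) ∧ mon 0 = 0 ∧ (∀ a, mon (fi a) = Finsupp.single (ι a) 1) ∧
      (∀ r, (mon r).degree = 2 → ∀ i ∈ (mon r).support, ∃ a, ι a = i) := by
  classical
  let g : Fin n → (Fin n →₀ ℕ) := fun i => Finsupp.single i 1
  have hg : Function.Injective g := Finsupp.single_left_injective one_ne_zero
  have hgdeg : ∀ i, (g i).degree = 1 := fun i => Finsupp.degree_single i 1
  obtain ⟨V, hV⟩ : ∃ V, V = Finset.univ.filter (fun i : Fin n => Finsupp.single i 1 ∈ Δ) :=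
    ⟨_, rfl⟩
  rw [← hV] at hvar
  have hVmem : ∀ i, i ∈ V ↔ g i ∈ Δ := by
    intro i
    rw [hV, Finset.mem_filter]
    exact ⟨fun h => h.2, fun h => ⟨Finset.mem_univ _, h⟩⟩
  let Q : Finset (Fin n →₀ ℕ) := Δ.filter (fun b => b.degree = 2)
  have hQmem : ∀ b, b ∈ Q ↔ b ∈ Δ ∧ b.degree = 2 := fun b => Finset.mem_filter
  have h0Δ : (0 : Fin n →₀ ℕ) ∈ Δ := by
    have hne : Δ.Nonempty := by
      rw [← Finset.card_pos]
      omega
    obtain ⟨b, hb⟩ := hne
    exact hlow.le zero_le hb
  have hc1 : V.card + Q.card + 1 ≤ 8 := by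
    have h1 : insert 0 (V.image g ∪ Q) ⊆ Δ := by
      intro b hb
      rw [Finset.mem_insert, Finset.mem_union, Finset.mem_image] at hb
      rcases hb with h | ⟨i, hi, h⟩ | h
      · rw [h]; exact h0Δ
      · rw [← h]; exact (hVmem i).mp hi
      · exact ((hQmem b).mp h).1
    have h2 : Disjoint (V.image g) Q := by
      rw [Finset.disjoint_left]
      intro b hb hb'
      rw [Finset.mem_image] at hb
      obtain ⟨i, _, h⟩ := hb
      have h3 := ((hQmem b).mp hb').2
      rw [← h, hgdeg] at h3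
      omega
    have h3 : (0 : Fin n →₀ ℕ) ∉ V.image g ∪ Q := by
      intro h
      rw [Finset.mem_union, Finset.mem_image] at h
      rcases h with ⟨i, _, h⟩ | h
      · have h4 := hgdeg i
        rw [h, map_zero] at h4
        omega
      · have h4 := ((hQmem 0).mp h).2
        rw [map_zero] at h4
        omega
    have h4 := Finset.card_le_card h1
    rw [Finset.card_insert_of_notMem h3, Finset.card_union_of_disjoint h2,
      Finset.card_image_of_injective _ hg, hcard] at h4
    exact h4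
  let S : Finset (Fin n) := Q.biUnion fun b => b.support
  have hSV : S ⊆ V := by
    intro i hi
    rw [Finset.mem_biUnion] at hi
    obtain ⟨b, hb, hi⟩ := hi
    rw [hVmem]
    apply hlow.le _ ((hQmem b).mp hb).1
    show Finsupp.single i 1 ≤ b
    rw [Finsupp.single_le_iff]
    exact Nat.one_le_iff_ne_zero.mpr (Finsupp.mem_support_iff.mp hi)
  have hS4 : S.card ≤ 4 := by
    by_cases hV4 : V.card ≤ 4
    · exact (Finset.card_le_card hSV).trans hV4
    · have h1 : S.card ≤ Q.card * 2 := by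
        apply Finset.card_biUnion_le_card_mul
        intro b hb
        have h2 := card_support_le_degree b
        rw [((hQmem b).mp hb).2] at h2
        exact h2
      omega
  obtain ⟨T, hST, hTV, hT4⟩ := Finset.exists_subsuperset_card_eq hSV hS4 hvar
  let e : Fin 4 ≃ T := (T.equivFinOfCardEq hT4).symm
  let ι : Fin 4 → Fin n := fun a => (e a : Fin n)
  have hι : Function.Injective ι := fun a b h => e.injective (Subtype.ext h)
  have hιT : ∀ a, ι a ∈ T := fun a => (e a).2
  let U : Finset (Fin n →₀ ℕ) := insert 0 (T.image g)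
  have h0T : (0 : Fin n →₀ ℕ) ∉ T.image g := by
    intro h
    rw [Finset.mem_image] at h
    obtain ⟨i, _, h⟩ := h
    have h4 := hgdeg i
    rw [h, map_zero] at h4
    omega
  have hU5 : U.card = 5 := by
    rw [Finset.card_insert_of_notMem h0T, Finset.card_image_of_injective _ hg, hT4]
  have hUΔ : U ⊆ Δ := by
    intro b hb
    rw [Finset.mem_insert, Finset.mem_image] at hb
    rcases hb with h | ⟨i, hi, h⟩
    · rw [h]; exact h0Δ
    · rw [← h]; exact (hVmem i).mp (hTV hi)
  have hW3 : (Δ \ U).card = 3 := by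
    rw [Finset.card_sdiff_of_subset hUΔ, hcard, hU5]
  let e' : Fin 3 ≃ (Δ \ U : Finset (Fin n →₀ ℕ)) :=
    ((Δ \ U : Finset (Fin n →₀ ℕ)).equivFinOfCardEq hW3).symm
  have hw : ∀ w, (e' w : Fin n →₀ ℕ) ∈ Δ ∧ (e' w : Fin n →₀ ℕ) ∉ U := fun w =>
    Finset.mem_sdiff.mp (e' w).2
  let mon : Fin 8 → (Fin n →₀ ℕ) := fun r =>
    if (r : ℕ) = 0 then 0 else if h : (r : ℕ) < 5 then g (ι ⟨(r : ℕ) - 1, by omega⟩)
      else (e' ⟨(r : ℕ) - 5, by omega⟩ : Fin n →₀ ℕ)
  have m0 : mon 0 = 0 := rfl
  have m1 : ∀ a, mon (fi a) = g (ι a) := by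
    intro a
    have h1 : ((fi a : Fin 8) : ℕ) = (a : ℕ) + 1 := rfl
    have h2 : ¬ (((fi a : Fin 8) : ℕ) = 0) := by omega
    have h3 : ((fi a : Fin 8) : ℕ) < 5 := by omega
    show (if ((fi a : Fin 8) : ℕ) = 0 then 0 else if h : ((fi a : Fin 8) : ℕ) < 5 then
      g (ι ⟨((fi a : Fin 8) : ℕ) - 1, by omega⟩)
      else (e' ⟨((fi a : Fin 8) : ℕ) - 5, by omega⟩ : Fin n →₀ ℕ)) = g (ι a)
    rw [if_neg h2, dif_pos h3]
    rfl
  have m2 : ∀ w, mon (fw w) = (e' w : Fin n →₀ ℕ) := by
    intro w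
    have h1 : ((fw w : Fin 8) : ℕ) = (w : ℕ) + 5 := rfl
    have h2 : ¬ (((fw w : Fin 8) : ℕ) = 0) := by omega
    have h3 : ¬ (((fw w : Fin 8) : ℕ) < 5) := by omega
    show (if ((fw w : Fin 8) : ℕ) = 0 then 0 else if h : ((fw w : Fin 8) : ℕ) < 5 then
      g (ι ⟨((fw w : Fin 8) : ℕ) - 1, by omega⟩)
      else (e' ⟨((fw w : Fin 8) : ℕ) - 5, by omega⟩ : Fin n →₀ ℕ)) = (e' w : Fin n →₀ ℕ)
    rw [if_neg h2, dif_neg h3]
    rfl
  have hgU : ∀ a, g (ι a) ∈ U := fun a =>
    Finset.mem_insert_of_mem (Finset.mem_image_of_mem g (hιT a))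
  have h0U : (0 : Fin n →₀ ℕ) ∈ U := Finset.mem_insert_self _ _
  have hgne : ∀ i, g i ≠ 0 := by
    intro i h
    have h4 := hgdeg i
    rw [h, map_zero] at h4
    omega
  refine ⟨mon, ι, ?_, ?_, m0, m1, ?_⟩
  · intro r s hrs
    rcases fin8_cases r with h | ⟨a, h⟩ | ⟨w, h⟩ <;>
      rcases fin8_cases s with h' | ⟨a', h'⟩ | ⟨w', h'⟩
    · rw [h, h']
    · rw [h, h', m0, m1] at hrs
      exact absurd hrs.symm (hgne _)
    · rw [h, h', m0, m2] at hrs
      exact absurd (by rw [← hrs]; exact h0U) (hw w').2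
    · rw [h, h', m0, m1] at hrs
      exact absurd hrs (hgne _)
    · rw [h, h', m1, m1] at hrs
      rw [h, h', hι (hg hrs)]
    · rw [h, h', m1, m2] at hrs
      exact absurd (by rw [← hrs]; exact hgU a) (hw w').2
    · rw [h, h', m0, m2] at hrs
      exact absurd (by rw [hrs]; exact h0U) (hw w).2
    · rw [h, h', m1, m2] at hrs
      exact absurd (by rw [hrs]; exact hgU a') (hw w).2
    · rw [h, h', m2, m2] at hrs
      rw [h, h', e'.injective (Subtype.ext hrs)]
  · intro r
    rcases fin8_cases r with h | ⟨a, h⟩ | ⟨w, h⟩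
    · rw [h, m0]; exact h0Δ
    · rw [h, m1]; exact hUΔ (hgU a)
    · rw [h, m2]; exact (hw w).1
  · intro r hr i hi
    rcases fin8_cases r with h | ⟨a, h⟩ | ⟨w, h⟩
    · rw [h, m0, map_zero] at hr
      omega
    · rw [h, m1, hgdeg] at hr
      omega
    · have h1 : mon r ∈ Q := by
        rw [hQmem]
        refine ⟨?_, hr⟩
        rw [h, m2]
        exact (hw w).1
      have h2 : i ∈ T := hST (Finset.mem_biUnion.mpr ⟨mon r, h1, hi⟩)
      refine ⟨e.symm ⟨i, h2⟩, ?_⟩
      show ((e (e.symm ⟨i, h2⟩) : T) : Fin n) = i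
      rw [e.apply_symm_apply]

theorem good_base [Infinite k] {Δ : Finset (Fin n →₀ ℕ)} (hlow : Low Δ) (hcard : Δ.card = 8)
    (hdeg : ∀ b ∈ Δ, b.degree ≤ 2)
    (hvar : 4 ≤ (Finset.univ.filter (fun i : Fin n => Finsupp.single i 1 ∈ Δ)).card) :
    Good k Δ := by
  intro d mon hm hΔ
  have hd : d = 8 := by rw [← hcard, ← hΔ, hm.card_Dlt]
  subst hd
  obtain ⟨mon', ι, hinj, hmem, h0, h1, hS⟩ := base_comb hlow hcard hvar
  apply base_transfer hinj
  · intro r
    have h := hmem r
    rw [← hΔ, mem_Dlt] at h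
    exact h
  · exact base_main hinj h0 h1 (fun r => hdeg _ (hmem r)) hS

end Pool.Agent.Helper87.HQ
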