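import Pool.Agent.Helper87.HQ.AddP

/-!
Block sums. PROOFS.
`CL_cast`: `subst`, `CL_conj` with a permutation matrix (or: reindexing is `conjL` of a permutation
matrix; `Matrix.reindex`). Statement: a framed tuple obtained from a member of `CL k n d` by
reindexing along `e : Fin d ≃ Fin d'` is in `CL k n d'`.
`CL_bs_diag`: `c1 = mk (fun i => diagonal (fun a => p a i)) (fun _ => 1)`. Induction on `d1` with
`Fin.consEquiv`/`Fin.cons`: for `d1 = m + 1`, `bs c1 c2` is, up to reindexing `Fin (m + 1 + d2) ≃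
Fin (m + d2 + 1)` (casts fixing the order), `addL (bs c1' c2, p 0, 1)`, where `c1'` belongs to `p ∘ Fin.succ`;
`CL_add`, `CL_cast`. For `d1 = 0`, `bs c1 c2` is `c2` up to `Fin (0 + d2) ≃ Fin d2`.
`CL_bs`: for fixed `c2 ∈ CL` the map `c1 ↦ bs c1 c2` is affine (`bs` is linear in the pair), so as in the
first half of `affine_push` (Helper61/HilbFr.lean) it is enough to take `c1 ∈ Rset`: `U * mats c1 i =
diagonal (p . i) * U`, `U *ᵥ vect c1 = 1`, `U * U' = 1`; the block sum of `U` and `1` conjugates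
`bs c1 c2` to `bs (diagonal tuple) c2`: `CL_conj`, `CL_bs_diag`.
-/

open MvPolynomial Module Matrix

namespace Pool.Agent.Helper87.HQ

open Pool.Agent.Hilb61

universe u

variable {k : Type u} [Field k] {n d d1 d2 : ℕ}

theorem CL_cast {d' : ℕ} (e : Fin d ≃ Fin d') {c : Coord n d → k} (hc : c ∈ CL k n d)
    {c' : Coord n d' → k} (h1 : ∀ i r s, mats c' i (e r) (e s) = mats c i r s)
    (h2 : ∀ r, vect c' (e r) = vect c r) : c' ∈ CL k n d' := by
  have hd : d = d' := by simpa using Fintype.card_congr e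
  subst hd
  let g : Matrix (Fin d) (Fin d) k := Matrix.of fun r s => if s = e r then 1 else 0
  let g' : Matrix (Fin d) (Fin d) k := Matrix.of fun r s => if r = e s then 1 else 0
  have hgg : g * g' = 1 := by
    ext r s
    rw [Matrix.mul_apply, Matrix.one_apply]
    rw [Finset.sum_eq_single (e r)]
    · simp [g, g']
    · intro b _ hb
      simp [g, hb]
    · intro h; exact absurd (Finset.mem_univ _) h
  refine CL_conj hgg hc ?_ ?_
  · intro i
    ext r s
    rw [Matrix.mul_apply, Matrix.mul_apply, Finset.sum_eq_single (e.symm s),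
      Finset.sum_eq_single (e r)]
    · have h3 := h1 i r (e.symm s)
      rw [Equiv.apply_symm_apply] at h3
      simp only [g, Matrix.of_apply, Equiv.apply_symm_apply, if_true, mul_one, one_mul]
      exact h3.symm
    · intro b _ hb
      simp [g, hb]
    · intro h; exact absurd (Finset.mem_univ _) h
    · intro b _ hb
      have h3 : ¬ s = e b := by
        intro h4
        apply hb
        rw [h4, Equiv.symm_apply_apply]
      simp [g, h3]
    · intro h; exact absurd (Finset.mem_univ _) h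
  · funext r
    rw [mulVec, dotProduct, Finset.sum_eq_single (e r)]
    · simp only [g, Matrix.of_apply, if_true, one_mul]
      exact (h2 r).symm
    · intro b _ hb
      simp [g, hb]
    · intro h; exact absurd (Finset.mem_univ _) h

private lemma bsM_ll (M : Matrix (Fin d1) (Fin d1) k) (N : Matrix (Fin d2) (Fin d2) k)
    (a b : Fin d1) : bsM M N (Fin.castAdd d2 a) (Fin.castAdd d2 b) = M a b := by
  simp [bsM]

private lemma bsM_lr (M : Matrix (Fin d1) (Fin d1) k) (N : Matrix (Fin d2) (Fin d2) k)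
    (a : Fin d1) (b : Fin d2) : bsM M N (Fin.castAdd d2 a) (Fin.natAdd d1 b) = 0 := by
  simp [bsM]

private lemma bsM_rl (M : Matrix (Fin d1) (Fin d1) k) (N : Matrix (Fin d2) (Fin d2) k)
    (a : Fin d2) (b : Fin d1) : bsM M N (Fin.natAdd d1 a) (Fin.castAdd d2 b) = 0 := by
  simp [bsM]

private lemma bsM_rr (M : Matrix (Fin d1) (Fin d1) k) (N : Matrix (Fin d2) (Fin d2) k)
    (a b : Fin d2) : bsM M N (Fin.natAdd d1 a) (Fin.natAdd d1 b) = N a b := by
  simp [bsM]

private lemma bsM_mul (M M' : Matrix (Fin d1) (Fin d1) k) (N N' : Matrix (Fin d2) (Fin d2) k) :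
    bsM M N * bsM M' N' = bsM (M * M') (N * N') := by
  simp only [bsM, Matrix.reindex_apply]
  rw [Matrix.submatrix_mul_equiv, Matrix.fromBlocks_multiply]
  simp

private lemma bsM_one : bsM (1 : Matrix (Fin d1) (Fin d1) k) (1 : Matrix (Fin d2) (Fin d2) k) =
    1 := by
  simp only [bsM, Matrix.reindex_apply]
  rw [Matrix.fromBlocks_one, Matrix.submatrix_one_equiv]

private lemma mats_bs (c1 : Coord n d1 → k) (c2 : Coord n d2 → k) (i : Fin n) :
    mats (bs c1 c2) i = bsM (mats c1 i) (mats c2 i) := rfl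

private lemma vect_bs_l (c1 : Coord n d1 → k) (c2 : Coord n d2 → k) (a : Fin d1) :
    vect (bs c1 c2) (Fin.castAdd d2 a) = vect c1 a := by
  show Sum.elim (vect c1) (vect c2) (finSumFinEquiv.symm (Fin.castAdd d2 a)) = _
  rw [finSumFinEquiv_symm_apply_castAdd, Sum.elim_inl]

private lemma vect_bs_r (c1 : Coord n d1 → k) (c2 : Coord n d2 → k) (a : Fin d2) :
    vect (bs c1 c2) (Fin.natAdd d1 a) = vect c2 a := by
  show Sum.elim (vect c1) (vect c2) (finSumFinEquiv.symm (Fin.natAdd d1 a)) = _
  rw [finSumFinEquiv_symm_apply_natAdd, Sum.elim_inr]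

theorem CL_bs_diag [Infinite k] (i0 : Fin n) (p : Fin d1 → Fin n → k) {c2 : Coord n d2 → k}
    (h2 : c2 ∈ CL k n d2) :
    bs (mk (fun i => Matrix.diagonal (fun a => p a i)) (fun _ => 1)) c2 ∈ CL k n (d1 + d2) := by
  induction d1 with
  | zero =>
    let e : Fin d2 ≃ Fin (0 + d2) := finCongr (zero_add d2).symm
    have he : ∀ r, e r = Fin.natAdd 0 r := by
      intro r
      apply Fin.ext
      simp [e]
    refine CL_cast e h2 ?_ ?_
    · intro i r s
      rw [he, he, mats_bs, bsM_rr]
    · intro r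
      rw [he, vect_bs_r]
  | succ m ih =>
    have h3 := CL_add i0 (ih (fun a => p a.succ)) (p 0)
    let e : Fin (m + d2 + 1) ≃ Fin (m + 1 + d2) := finCongr (by omega)
    have e0 : e 0 = Fin.castAdd d2 0 := by
      apply Fin.ext
      simp [e]
    have e1 : ∀ a : Fin m, e (Fin.castAdd d2 a).succ = Fin.castAdd d2 a.succ := by
      intro a
      apply Fin.ext
      simp [e]
    have e2 : ∀ b : Fin d2, e (Fin.natAdd m b).succ = Fin.natAdd (m + 1) b := by
      intro b
      apply Fin.ext
      simp only [e, finCongr_apply, Fin.val_cast, Fin.val_succ, Fin.val_natAdd]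
      omega
    refine CL_cast e h3 ?_ ?_
    · intro i r s
      rw [mats_bs, mats_addL, mats_bs, mats_mk, mats_mk]
      refine Fin.cases ?_ (fun r' => ?_) r
      · refine Fin.cases ?_ (fun s' => ?_) s
        · rw [e0, bsM_ll, blk1_zero_zero, Matrix.diagonal_apply_eq]
        · refine Fin.addCases (fun b => ?_) (fun b => ?_) s'
          · rw [e0, e1, bsM_ll, blk1_zero_succ,
              Matrix.diagonal_apply_ne _ (Fin.succ_ne_zero b).symm]
          · rw [e0, e2, bsM_lr, blk1_zero_succ]
      · refine Fin.addCases (fun a => ?_) (fun a => ?_) r'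
        · refine Fin.cases ?_ (fun s' => ?_) s
          · rw [e0, e1, bsM_ll, blk1_succ_zero,
              Matrix.diagonal_apply_ne _ (Fin.succ_ne_zero a)]
          · refine Fin.addCases (fun b => ?_) (fun b => ?_) s'
            · rw [e1, e1, bsM_ll, blk1_succ_succ, bsM_ll]
              simp [Matrix.diagonal_apply]
            · rw [e1, e2, bsM_lr, blk1_succ_succ, bsM_lr]
        · refine Fin.cases ?_ (fun s' => ?_) s
          · rw [e0, e2, bsM_rl, blk1_succ_zero]
          · refine Fin.addCases (fun b => ?_) (fun b => ?_) s'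
            · rw [e1, e2, bsM_rl, blk1_succ_succ, bsM_rl]
            · rw [e2, e2, bsM_rr, blk1_succ_succ, bsM_rr]
    · intro r
      rw [vect_addL]
      refine Fin.cases ?_ (fun r' => ?_) r
      · rw [e0, vect_bs_l, vect_mk, Fin.cons_zero]
      · rw [Fin.cons_succ]
        refine Fin.addCases (fun a => ?_) (fun a => ?_) r'
        · rw [e1, vect_bs_l, vect_bs_l, vect_mk, vect_mk]
        · rw [e2, vect_bs_r, vect_bs_r]

/-- The block sum with the second summand zero, as a linear map. -/
private def bsL (k : Type u) [Field k] (n d1 d2 : ℕ) :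
    (Coord n d1 → k) →ₗ[k] (Coord n (d1 + d2) → k) where
  toFun c := bs c 0
  map_add' c c' := by
    funext x
    rcases x with ⟨i, r, s⟩ | r
    · show bsM (mats (c + c') i) (mats 0 i) r s = bsM (mats c i) (mats 0 i) r s +
        bsM (mats c' i) (mats 0 i) r s
      refine Fin.addCases (fun a => ?_) (fun a => ?_) r <;>
        refine Fin.addCases (fun b => ?_) (fun b => ?_) s
      · rw [bsM_ll, bsM_ll, bsM_ll]; rfl
      · rw [bsM_lr, bsM_lr, bsM_lr, add_zero]
      · rw [bsM_rl, bsM_rl, bsM_rl, add_zero]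
      · rw [bsM_rr, bsM_rr, bsM_rr]; simp
    · show vect (bs (c + c') 0) r = vect (bs c 0) r + vect (bs c' 0) r
      refine Fin.addCases (fun a => ?_) (fun a => ?_) r
      · rw [vect_bs_l, vect_bs_l, vect_bs_l]; rfl
      · rw [vect_bs_r, vect_bs_r, vect_bs_r]; simp
  map_smul' t c := by
    funext x
    rcases x with ⟨i, r, s⟩ | r
    · show bsM (mats (t • c) i) (mats 0 i) r s = t * bsM (mats c i) (mats 0 i) r s
      refine Fin.addCases (fun a => ?_) (fun a => ?_) r <;>
        refine Fin.addCases (fun b => ?_) (fun b => ?_) s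
      · rw [bsM_ll, bsM_ll]; rfl
      · rw [bsM_lr, bsM_lr, mul_zero]
      · rw [bsM_rl, bsM_rl, mul_zero]
      · rw [bsM_rr, bsM_rr]; simp
    · show vect (bs (t • c) 0) r = t * vect (bs c 0) r
      refine Fin.addCases (fun a => ?_) (fun a => ?_) r
      · rw [vect_bs_l, vect_bs_l]; rfl
      · rw [vect_bs_r, vect_bs_r]; simp

private lemma bsL_add (c1 : Coord n d1 → k) (c2 : Coord n d2 → k) :
    bsL k n d1 d2 c1 + bs 0 c2 = bs c1 c2 := by
  funext x
  rcases x with ⟨i, r, s⟩ | r
  · show bsM (mats c1 i) (mats 0 i) r s + bsM (mats 0 i) (mats c2 i) r s =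
      bsM (mats c1 i) (mats c2 i) r s
    refine Fin.addCases (fun a => ?_) (fun a => ?_) r <;>
      refine Fin.addCases (fun b => ?_) (fun b => ?_) s
    · rw [bsM_ll, bsM_ll, bsM_ll]; simp
    · rw [bsM_lr, bsM_lr, bsM_lr, add_zero]
    · rw [bsM_rl, bsM_rl, bsM_rl, add_zero]
    · rw [bsM_rr, bsM_rr, bsM_rr]; simp
  · show vect (bs c1 0) r + vect (bs 0 c2) r = vect (bs c1 c2) r
    refine Fin.addCases (fun a => ?_) (fun a => ?_) r
    · rw [vect_bs_l, vect_bs_l, vect_bs_l]; simp
    · rw [vect_bs_r, vect_bs_r, vect_bs_r]; simp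

private lemma CL_bs_Rset [Infinite k] (i0 : Fin n) {c1 : Coord n d1 → k} (h1 : c1 ∈ Rset k n d1)
    {c2 : Coord n d2 → k} (h2 : c2 ∈ CL k n d2) : bs c1 c2 ∈ CL k n (d1 + d2) := by
  obtain ⟨p, -, U, U', hU, hp1, hp2⟩ := h1
  have hg : bsM U (1 : Matrix (Fin d2) (Fin d2) k) * bsM U' 1 = 1 := by
    rw [bsM_mul, hU, Matrix.one_mul, bsM_one]
  refine CL_conj hg (CL_bs_diag i0 p h2) ?_ ?_
  · intro i
    rw [mats_bs, mats_bs, mats_mk, bsM_mul, bsM_mul, Matrix.mul_one, Matrix.one_mul]
    congr 1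
    ext a s
    rw [Matrix.diagonal_mul, hp1]
  · funext r
    rw [mulVec, dotProduct, Fin.sum_univ_add]
    refine Fin.addCases (fun a => ?_) (fun a => ?_) r
    · rw [vect_bs_l, vect_mk]
      simp only [bsM_ll, bsM_lr, vect_bs_l, zero_mul, Finset.sum_const_zero, add_zero]
      exact (hp2 a).symm
    · rw [vect_bs_r]
      simp only [bsM_rl, bsM_rr, vect_bs_r, zero_mul, Finset.sum_const_zero, zero_add,
        Matrix.one_apply, ite_mul, one_mul]
      simp

theorem CL_bs [Infinite k] (i0 : Fin n) {c1 : Coord n d1 → k} (h1 : c1 ∈ Zset k n d1)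
    {c2 : Coord n d2 → k} (h2 : c2 ∈ CL k n d2) : bs c1 c2 ∈ CL k n (d1 + d2) := by
  intro f hf
  have hev : ∀ c : Coord n d1 → k, eval c (aeval (affP (bsL k n d1 d2) (bs 0 c2)) f) =
      eval (bs c c2) f := by
    intro c
    have h3 := (MvPolynomial.comp_aeval (φ := aeval (R := k) c)
      (affP (bsL k n d1 d2) (bs 0 c2)))
    have h4 := congrArg (fun φ => φ f) h3
    simp only [AlgHom.comp_apply] at h4
    rw [aeval_self] at h4
    rw [h4]
    have h5 : (fun x => aeval c (affP (bsL k n d1 d2) (bs 0 c2) x)) = bs c c2 := by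
      funext x
      rw [aeval_self, eval_affP, ← bsL_add c c2]
      rfl
    rw [h5, aeval_self]
  rw [← hev]
  refine h1 _ ?_
  intro c hc
  rw [hev]
  exact CL_bs_Rset i0 hc h2 f hf

end Pool.Agent.Helper87.HQ
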