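import Pool.Agent.Helper87.HQ.Graph

/-!
THEOREM `caseA`: `Δ` a lower set in four variables `i 0, i 1, i 2, i 3`, closed under replacing a variable
by a later one, with at least 3 quadratic monomials, and `e_0 + e_3 ∉ Δ` (write `e_a = single (i a) 1`).

PROOF. The only element of `Δ` involving `i 0` is `e_0` (if `e_0 + e_a ∈ Δ` then `e_0 + e_3 ∈ Δ`, or for
`a = 0` move one of the two). Write `a, b, c` for `i 1, i 2, i 3`; `m_a, m_b, m_c` the largest `m` with `m e_a ∈ Δ`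
etc. Moving everything to the last variable: if `u ∈ Δ` then `(u_a + u_b) e_b + u_c e_c ∈ Δ` and
`(u_a + u_b + u_c) e_c ∈ Δ`, so `u_a + u_b ≤ m_b`, `u_a + u_b + u_c ≤ m_c`.
Case `m_b = 1`: then `m_a = 1`, `2 e_b`, `e_a + e_b`, `2 e_a ∉ Δ`, so the quadratic monomials are `e_a + e_c`,
`e_b + e_c`, `2 e_c`. Take `φ` with `0,1,2,..↦ 0,1,m_c,m_c+1,..` for `c` (`m_c ≥ 2`): `Δ' = pull Δ c φ` is
`{0, e_0, e_a, e_b, e_c, e_a + e_c, e_b + e_c, 2 e_c}`, and `graph` applies (`of_pull`).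
Case `m_b ≥ 2`: `j = m_b - 1 ≥ 1`, `k` the largest `k` with `j e_b + k e_c ∈ Δ`; `k ≥ 1` (move one of `m_b e_b`),
`m_b e_b + k e_c ∉ Δ` (else `j e_b + (k+1) e_c ∈ Δ`), `k < m_c`. Pull back by `0,1,2,..↦ 0, m_a, m_a + 1, ..` for `a`,
`0,1,2,3,..↦ 0, j, m_b, m_b + 1, ..` for `b`, `0,1,2,3,..↦ 0, k, m_c, m_c + 1, ..` for `c`. The result `Δ'`
contains `0`, the four variables, `e_b + e_c`, `2 e_b`, `2 e_c`, possibly `e_a + e_b` and `e_a + e_c`, and
nothing else: `e_a + 2 e_b`: `m_a + m_b > m_b`; `2 e_b + e_c`: `m_b e_b + k e_c ∉ Δ`; `e_b + 2 e_c`, `e_a + 2 e_c`: total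
degree `> m_c`; `e_a + e_b + e_c`: `m_a e_a + j e_b + k e_c ∈ Δ` would give `j e_b + (k + m_a) e_c ∈ Δ`; `2 e_a`, `3 e_b`,
`3 e_c` are above `m_a, m_b, m_c`. So `graph` applies: 2 loops and at most 5 quadratic monomials.
-/

namespace Pool.Agent.Helper87.HQ

open Pool.Agent.Hilb61

variable {n : ℕ}

/-- The vector with coordinates `x0, x1, x2, x3` at `i 0, i 1, i 2, i 3`. -/
private noncomputable def vv (i : Fin 4 → Fin n) (x0 x1 x2 x3 : ℕ) : Fin n →₀ ℕ :=
  Finsupp.single (i 0) x0 + Finsupp.single (i 1) x1 + Finsupp.single (i 2) x2 +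
    Finsupp.single (i 3) x3

section vv

variable {i : Fin 4 → Fin n} (hi : Function.Injective i)

include hi

private theorem vv0 (x0 x1 x2 x3 : ℕ) : vv i x0 x1 x2 x3 (i 0) = x0 := by
  have h1 : i 1 ≠ i 0 := fun h => absurd (hi h) (by decide)
  have h2 : i 2 ≠ i 0 := fun h => absurd (hi h) (by decide)
  have h3 : i 3 ≠ i 0 := fun h => absurd (hi h) (by decide)
  simp [vv, h1, h2, h3]

private theorem vv1 (x0 x1 x2 x3 : ℕ) : vv i x0 x1 x2 x3 (i 1) = x1 := by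
  have h1 : i 0 ≠ i 1 := fun h => absurd (hi h) (by decide)
  have h2 : i 2 ≠ i 1 := fun h => absurd (hi h) (by decide)
  have h3 : i 3 ≠ i 1 := fun h => absurd (hi h) (by decide)
  simp [vv, h1, h2, h3]

private theorem vv2 (x0 x1 x2 x3 : ℕ) : vv i x0 x1 x2 x3 (i 2) = x2 := by
  have h1 : i 0 ≠ i 2 := fun h => absurd (hi h) (by decide)
  have h2 : i 1 ≠ i 2 := fun h => absurd (hi h) (by decide)
  have h3 : i 3 ≠ i 2 := fun h => absurd (hi h) (by decide)
  simp [vv, h1, h2, h3]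

private theorem vv3 (x0 x1 x2 x3 : ℕ) : vv i x0 x1 x2 x3 (i 3) = x3 := by
  have h1 : i 0 ≠ i 3 := fun h => absurd (hi h) (by decide)
  have h2 : i 1 ≠ i 3 := fun h => absurd (hi h) (by decide)
  have h3 : i 2 ≠ i 3 := fun h => absurd (hi h) (by decide)
  simp [vv, h1, h2, h3]

private theorem vv_inj {x0 x1 x2 x3 y0 y1 y2 y3 : ℕ} :
    vv i x0 x1 x2 x3 = vv i y0 y1 y2 y3 ↔ x0 = y0 ∧ x1 = y1 ∧ x2 = y2 ∧ x3 = y3 := by
  constructor
  · intro h
    refine ⟨?_, ?_, ?_, ?_⟩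
    · rw [← vv0 hi x0 x1 x2 x3, h, vv0 hi]
    · rw [← vv1 hi x0 x1 x2 x3, h, vv1 hi]
    · rw [← vv2 hi x0 x1 x2 x3, h, vv2 hi]
    · rw [← vv3 hi x0 x1 x2 x3, h, vv3 hi]
  · rintro ⟨rfl, rfl, rfl, rfl⟩
    rfl

private theorem eq_vv {b : Fin n →₀ ℕ} (hs : ∀ l, b l ≠ 0 → ∃ a, l = i a) :
    b = vv i (b (i 0)) (b (i 1)) (b (i 2)) (b (i 3)) := by
  ext l
  by_cases h : ∃ a, l = i a
  · obtain ⟨a, rfl⟩ := h
    fin_cases a
    · exact (vv0 hi _ _ _ _).symm
    · exact (vv1 hi _ _ _ _).symm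
    · exact (vv2 hi _ _ _ _).symm
    · exact (vv3 hi _ _ _ _).symm
  · have h0 : b l = 0 := by
      by_contra hne
      exact h (hs l hne)
    have h' : ∀ a, i a ≠ l := fun a ha => h ⟨a, ha.symm⟩
    rw [h0]
    simp [vv, h' 0, h' 1, h' 2, h' 3]

private theorem vv_upd1 (x0 x1 x2 x3 y : ℕ) :
    (vv i x0 x1 x2 x3).update (i 1) y = vv i x0 y x2 x3 := by
  ext l
  rw [Finsupp.coe_update, Function.update_apply]
  split_ifs with h
  · subst h
    exact (vv1 hi _ _ _ _).symm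
  · simp [vv, Finsupp.single_apply, Ne.symm h]

private theorem vv_upd2 (x0 x1 x2 x3 y : ℕ) :
    (vv i x0 x1 x2 x3).update (i 2) y = vv i x0 x1 y x3 := by
  ext l
  rw [Finsupp.coe_update, Function.update_apply]
  split_ifs with h
  · subst h
    exact (vv2 hi _ _ _ _).symm
  · simp [vv, Finsupp.single_apply, Ne.symm h]

private theorem vv_upd3 (x0 x1 x2 x3 y : ℕ) :
    (vv i x0 x1 x2 x3).update (i 3) y = vv i x0 x1 x2 y := by
  ext l
  rw [Finsupp.coe_update, Function.update_apply]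
  split_ifs with h
  · subst h
    exact (vv3 hi _ _ _ _).symm
  · simp [vv, Finsupp.single_apply, Ne.symm h]

end vv

private theorem vv_deg (i : Fin 4 → Fin n) (x0 x1 x2 x3 : ℕ) :
    (vv i x0 x1 x2 x3).degree = x0 + x1 + x2 + x3 := by
  simp [vv, map_add, Finsupp.degree_single]

private theorem vv_le (i : Fin 4 → Fin n) {x0 x1 x2 x3 y0 y1 y2 y3 : ℕ} (h0 : x0 ≤ y0)
    (h1 : x1 ≤ y1) (h2 : x2 ≤ y2) (h3 : x3 ≤ y3) : vv i x0 x1 x2 x3 ≤ vv i y0 y1 y2 y3 := by
  intro l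
  simp only [vv, Finsupp.coe_add, Pi.add_apply, Finsupp.single_apply]
  split_ifs <;> omega

private theorem vv_s0 (i : Fin 4 → Fin n) (x0 x1 x2 x3 : ℕ) :
    vv i (x0 + 1) x1 x2 x3 = vv i x0 x1 x2 x3 + Finsupp.single (i 0) 1 := by
  simp only [vv, Finsupp.single_add]
  abel

private theorem vv_s1 (i : Fin 4 → Fin n) (x0 x1 x2 x3 : ℕ) :
    vv i x0 (x1 + 1) x2 x3 = vv i x0 x1 x2 x3 + Finsupp.single (i 1) 1 := by
  simp only [vv, Finsupp.single_add]
  abel

private theorem vv_s2 (i : Fin 4 → Fin n) (x0 x1 x2 x3 : ℕ) :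
    vv i x0 x1 (x2 + 1) x3 = vv i x0 x1 x2 x3 + Finsupp.single (i 2) 1 := by
  simp only [vv, Finsupp.single_add]
  abel

private theorem vv_s3 (i : Fin 4 → Fin n) (x0 x1 x2 x3 : ℕ) :
    vv i x0 x1 x2 (x3 + 1) = vv i x0 x1 x2 x3 + Finsupp.single (i 3) 1 := by
  simp only [vv, Finsupp.single_add]
  abel

private theorem exists_max (p : ℕ → Prop) (hp : ∀ m m', m ≤ m' → p m' → p m) (h0 : p 0) (M : ℕ)
    (hM : ¬ p M) : ∃ m, p m ∧ ∀ m', p m' → m' ≤ m := by
  classical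
  have hex : ∃ m, ¬ p m := ⟨M, hM⟩
  have h1 := Nat.find_spec hex
  have h2 : Nat.find hex ≠ 0 := by
    intro h
    rw [h] at h1
    exact h1 h0
  refine ⟨Nat.find hex - 1, ?_, ?_⟩
  · by_contra h
    have := Nat.find_min' hex h
    omega
  · intro m' hm'
    by_contra h
    exact h1 (hp _ _ (by omega) hm')

/-- `0, 1, 2, 3, .. ↦ 0, k, m, m + 1, ..`. -/
private def ph (k m : ℕ) : ℕ → ℕ
  | 0 => 0
  | 1 => k
  | (p + 2) => m + p

private theorem ph_mono {k m : ℕ} (hk : 0 < k) (hkm : k < m) : StrictMono (ph k m) := by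
  apply strictMono_nat_of_lt_succ
  intro p
  match p with
  | 0 => exact hk
  | 1 => exact (by simpa [ph] using hkm)
  | (p + 2) => simp [ph]

private theorem ph_ge {k m : ℕ} (_ : 0 < k) (hkm : k < m) {p : ℕ} :
    (1 ≤ p → k ≤ ph k m p) ∧ (2 ≤ p → m ≤ ph k m p) ∧ (3 ≤ p → m + 1 ≤ ph k m p) := by
  match p with
  | 0 => simp
  | 1 => simp [ph]
  | (q + 2) =>
    simp only [ph]
    omega

/-- Three pull-backs. -/
private theorem pull3 (P : Finset (Fin n →₀ ℕ) → Prop)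
    (hP : ∀ (Δ : Finset (Fin n →₀ ℕ)) (l : Fin n) (j : ℕ), Low Δ → P (rem Δ l j) → P Δ)
    (i : Fin 4 → Fin n) (hi : Function.Injective i) {Δ : Finset (Fin n →₀ ℕ)} (hΔ : Low Δ)
    {φ1 φ2 φ3 : ℕ → ℕ} (h1 : StrictMono φ1) (h2 : StrictMono φ2) (h3 : StrictMono φ3) :
    ∃ Δ' : Finset (Fin n →₀ ℕ), Low Δ' ∧ Δ' ⊆ Δ ∧ (P Δ' → P Δ) ∧
      ∀ x0 x1 x2 x3 : ℕ, vv i x0 x1 x2 x3 ∈ Δ' ↔ vv i x0 (φ1 x1) (φ2 x2) (φ3 x3) ∈ Δ := by
  have l1 := low_pull hΔ (l := i 1) h1
  have l2 := low_pull l1 (l := i 2) h2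
  have l3 := low_pull l2 (l := i 3) h3
  refine ⟨pull (pull (pull Δ (i 1) φ1) (i 2) φ2) (i 3) φ3, l3, ?_, ?_, ?_⟩
  · unfold pull
    exact (Finset.filter_subset _ _).trans ((Finset.filter_subset _ _).trans
      (Finset.filter_subset _ _))
  · exact fun h => of_pull P hP hΔ h1 (of_pull P hP l1 h2 (of_pull P hP l2 h3 h))
  · intro x0 x1 x2 x3
    rw [mem_pull l2 h3, vv3 hi, vv_upd3 hi, mem_pull l1 h2, vv2 hi, vv_upd2 hi, mem_pull hΔ h1,
      vv1 hi, vv_upd1 hi]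

private theorem fin (P : Finset (Fin n →₀ ℕ) → Prop)
    (hP : ∀ (Δ : Finset (Fin n →₀ ℕ)) (l : Fin n) (j : ℕ), Low Δ → P (rem Δ l j) → P Δ)
    (hb : ∀ Δ : Finset (Fin n →₀ ℕ), Low Δ → Δ.card = 8 → (∀ b ∈ Δ, b.degree ≤ 2) →
      4 ≤ (Finset.univ.filter (fun i : Fin n => Finsupp.single i 1 ∈ Δ)).card → P Δ)
    (i : Fin 4 → Fin n) (hi : Function.Injective i) {Δ : Finset (Fin n →₀ ℕ)} (hΔ : Low Δ)
    (hsupp : ∀ b ∈ Δ, ∀ l, b l ≠ 0 → ∃ a, l = i a)
    (hdeg : ∀ b ∈ Δ, b.degree ≤ 2) (hvar : ∀ a, Finsupp.single (i a) 1 ∈ Δ)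
    (hq : 3 ≤ (Δ.filter (fun b => b.degree = 2)).card)
    (hl : (Δ.filter (fun b => b.degree = 2)).card ≤
      3 + (Finset.univ.filter (fun i : Fin n => Finsupp.single i 2 ∈ Δ)).card) : P Δ := by
  classical
  refine graph P hP hb hΔ hdeg ?_ hq hl
  have h : (Finset.univ.filter (fun l : Fin n => Finsupp.single l 1 ∈ Δ)) =
      Finset.univ.image i := by
    ext l
    simp only [Finset.mem_filter, Finset.mem_univ, true_and, Finset.mem_image]
    constructor
    · intro h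
      obtain ⟨a, ha⟩ := hsupp _ h l (by simp)
      exact ⟨a, ha.symm⟩
    · rintro ⟨a, rfl⟩
      exact hvar a
  rw [h, Finset.card_image_of_injective _ hi]
  rfl

theorem caseA (P : Finset (Fin n →₀ ℕ) → Prop)
    (hP : ∀ (Δ : Finset (Fin n →₀ ℕ)) (l : Fin n) (j : ℕ), Low Δ → P (rem Δ l j) → P Δ)
    (hb : ∀ Δ : Finset (Fin n →₀ ℕ), Low Δ → Δ.card = 8 → (∀ b ∈ Δ, b.degree ≤ 2) →
      4 ≤ (Finset.univ.filter (fun i : Fin n => Finsupp.single i 1 ∈ Δ)).card → P Δ)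
    (i : Fin 4 → Fin n) (hi : Function.Injective i) {Δ : Finset (Fin n →₀ ℕ)} (hΔ : Low Δ)
    (hsupp : ∀ b ∈ Δ, ∀ l, b l ≠ 0 → ∃ a, l = i a)
    (hst : ∀ (u : Fin n →₀ ℕ) (a a' : Fin 4), a < a' → u + Finsupp.single (i a) 1 ∈ Δ →
      u + Finsupp.single (i a') 1 ∈ Δ)
    (hvar : Finsupp.single (i 0) 1 ∈ Δ)
    (hq : 3 ≤ (Δ.filter (fun b => b.degree = 2)).card)
    (hA : Finsupp.single (i 0) 1 + Finsupp.single (i 3) 1 ∉ Δ) : P Δ := by
  classical
  -- membership in coordinates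
  set D : ℕ → ℕ → ℕ → ℕ → Prop := fun x0 x1 x2 x3 => vv i x0 x1 x2 x3 ∈ Δ with hD
  have e0 : vv i 1 0 0 0 = Finsupp.single (i 0) 1 := by simp [vv]
  have e1 : vv i 0 1 0 0 = Finsupp.single (i 1) 1 := by simp [vv]
  have e2 : vv i 0 0 1 0 = Finsupp.single (i 2) 1 := by simp [vv]
  have e3 : vv i 0 0 0 1 = Finsupp.single (i 3) 1 := by simp [vv]
  have low : ∀ {x0 x1 x2 x3 y0 y1 y2 y3 : ℕ}, x0 ≤ y0 → x1 ≤ y1 → x2 ≤ y2 → x3 ≤ y3 →
      D y0 y1 y2 y3 → D x0 x1 x2 x3 := fun h0 h1 h2 h3 h => hΔ.le (vv_le i h0 h1 h2 h3) h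
  have s12 : ∀ {x0 x1 x2 x3 : ℕ}, D x0 (x1 + 1) x2 x3 → D x0 x1 (x2 + 1) x3 := by
    intro x0 x1 x2 x3 h
    simp only [hD] at h ⊢
    rw [vv_s1] at h
    rw [vv_s2]
    exact hst _ 1 2 (by decide) h
  have s23 : ∀ {x0 x1 x2 x3 : ℕ}, D x0 x1 (x2 + 1) x3 → D x0 x1 x2 (x3 + 1) := by
    intro x0 x1 x2 x3 h
    simp only [hD] at h ⊢
    rw [vv_s2] at h
    rw [vv_s3]
    exact hst _ 2 3 (by decide) h
  have m12 : ∀ (x1 : ℕ) {x0 x2 x3 : ℕ}, D x0 x1 x2 x3 → D x0 0 (x2 + x1) x3 := by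
    intro x1
    induction x1 with
    | zero => exact fun h => h
    | succ x1 ih =>
      intro x0 x2 x3 h
      have := ih (s12 h)
      rwa [show x2 + 1 + x1 = x2 + (x1 + 1) by ring] at this
  have m23 : ∀ (x2 : ℕ) {x0 x1 x3 : ℕ}, D x0 x1 x2 x3 → D x0 x1 0 (x3 + x2) := by
    intro x2
    induction x2 with
    | zero => exact fun h => h
    | succ x2 ih =>
      intro x0 x1 x3 h
      have := ih (s23 h)
      rwa [show x3 + 1 + x2 = x3 + (x2 + 1) by ring] at this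
  have m13 : ∀ (x1 : ℕ) {x0 x2 x3 : ℕ}, D x0 x1 x2 x3 → D x0 0 x2 (x3 + x1) := by
    intro x1
    induction x1 with
    | zero => exact fun h => h
    | succ x1 ih =>
      intro x0 x2 x3 h
      have := ih (s23 (s12 h))
      rwa [show x3 + 1 + x1 = x3 + (x1 + 1) by ring] at this
  -- the variable `i 0`
  have hA' : ¬ D 1 0 0 1 := by
    simp only [hD]
    rw [vv_s3, e0]
    exact hA
  have z0 : ∀ {x0 x1 x2 x3 : ℕ}, D x0 x1 x2 x3 → 1 ≤ x0 → x0 = 1 ∧ x1 = 0 ∧ x2 = 0 ∧ x3 = 0 := by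
    intro x0 x1 x2 x3 h h0
    have h3 : x3 = 0 := by
      by_contra hne
      exact hA' (low h0 (Nat.zero_le _) (Nat.zero_le _) (by omega) h)
    have h2 : x2 = 0 := by
      by_contra hne
      have h' : D 1 0 1 0 := low h0 (Nat.zero_le _) (by omega) (Nat.zero_le _) h
      exact hA' (s23 h')
    have h1 : x1 = 0 := by
      by_contra hne
      have h' : D 1 1 0 0 := low h0 (by omega) (Nat.zero_le _) (Nat.zero_le _) h
      exact hA' (s23 (s12 h'))
    have h00 : x0 = 1 := by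
      by_contra hne
      have h' : D (1 + 1) 0 0 0 := low (by omega) (Nat.zero_le _) (Nat.zero_le _) (Nat.zero_le _) h
      simp only [hD] at h'
      rw [vv_s0, e0] at h'
      exact hA (hst _ 0 3 (by decide) h')
    exact ⟨h00, h1, h2, h3⟩
  have d0 : D 1 0 0 0 := by
    simp only [hD]
    rw [e0]
    exact hvar
  have d1 : D 0 1 0 0 := by
    simp only [hD]
    rw [e1]
    have := hst 0 0 1 (by decide) (by rw [zero_add]; exact hvar)
    rwa [zero_add] at this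
  have d2 : D 0 0 1 0 := s12 d1
  have d3 : D 0 0 0 1 := s23 d2
  have bd : ∀ {x0 x1 x2 x3 : ℕ}, D x0 x1 x2 x3 → x0 + x1 + x2 + x3 ≤ Δ.sup Finsupp.degree := by
    intro x0 x1 x2 x3 h
    rw [← vv_deg i x0 x1 x2 x3]
    exact Finset.le_sup (f := Finsupp.degree) h
  obtain ⟨ma, hma, hma'⟩ := exists_max (fun m => D 0 m 0 0)
    (fun m m' hmm h => low le_rfl hmm le_rfl le_rfl h)
    (low (Nat.zero_le _) le_rfl le_rfl le_rfl d0) (Δ.sup Finsupp.degree + 1)
    (fun h => by have := bd h; omega)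
  obtain ⟨mb, hmb, hmb'⟩ := exists_max (fun m => D 0 0 m 0)
    (fun m m' hmm h => low le_rfl le_rfl hmm le_rfl h)
    (low (Nat.zero_le _) le_rfl le_rfl le_rfl d0) (Δ.sup Finsupp.degree + 1)
    (fun h => by have := bd h; omega)
  obtain ⟨mc, hmc, hmc'⟩ := exists_max (fun m => D 0 0 0 m)
    (fun m m' hmm h => low le_rfl le_rfl le_rfl hmm h)
    (low (Nat.zero_le _) le_rfl le_rfl le_rfl d0) (Δ.sup Finsupp.degree + 1)
    (fun h => by have := bd h; omega)
  have ma1 : 1 ≤ ma := hma' 1 d1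
  have mb1 : 1 ≤ mb := hmb' 1 d2
  have bA : ∀ {x0 x1 x2 x3 : ℕ}, D x0 x1 x2 x3 → x1 ≤ ma := fun h =>
    hma' _ (low (Nat.zero_le _) le_rfl (Nat.zero_le _) (Nat.zero_le _) h)
  have bB : ∀ {x0 x1 x2 x3 : ℕ}, D x0 x1 x2 x3 → x2 + x1 ≤ mb := fun h =>
    hmb' _ (m12 _ (low (Nat.zero_le _) le_rfl le_rfl (Nat.zero_le _) h))
  have bC : ∀ {x0 x1 x2 x3 : ℕ}, D x0 x1 x2 x3 → x3 + x1 + x2 ≤ mc := fun h =>
    hmc' _ (m23 _ (m13 _ (low (Nat.zero_le _) le_rfl le_rfl le_rfl h)))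
  rcases Nat.lt_or_ge mb 2 with hmb2 | hmb2
  · -- `m_b = 1`
    have hmb1 : mb = 1 := by omega
    have hma1 : ma = 1 := by
      have := bB hma
      omega
    have hsub : Δ.filter (fun b => b.degree = 2) ⊆ {vv i 0 1 0 1, vv i 0 0 1 1, vv i 0 0 0 2} := by
      intro b hb'
      rw [Finset.mem_filter] at hb'
      obtain ⟨hbΔ, hbd⟩ := hb'
      have hbe := eq_vv hi (hsupp b hbΔ)
      rw [hbe] at hbΔ hbd ⊢
      generalize b (i 0) = x0 at *
      generalize b (i 1) = x1 at *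
      generalize b (i 2) = x2 at *
      generalize b (i 3) = x3 at *
      rw [vv_deg] at hbd
      have h1 := bB hbΔ
      have h2 : x0 = 0 := by
        by_contra hne
        have := z0 hbΔ (by omega)
        omega
      have : (x1 = 1 ∧ x2 = 0 ∧ x3 = 1) ∨ (x1 = 0 ∧ x2 = 1 ∧ x3 = 1) ∨
          (x1 = 0 ∧ x2 = 0 ∧ x3 = 2) := by omega
      subst h2
      rcases this with ⟨rfl, rfl, rfl⟩ | ⟨rfl, rfl, rfl⟩ | ⟨rfl, rfl, rfl⟩ <;> simp
    have heq := Finset.eq_of_subset_of_card_le hsub (Finset.card_le_three.trans hq)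
    have q1 : D 0 1 0 1 := by
      have : vv i 0 1 0 1 ∈ Δ.filter (fun b => b.degree = 2) := by rw [heq]; simp
      exact (Finset.mem_filter.1 this).1
    have q3 : D 0 0 0 2 := by
      have : vv i 0 0 0 2 ∈ Δ.filter (fun b => b.degree = 2) := by rw [heq]; simp
      exact (Finset.mem_filter.1 this).1
    have q2 : D 0 0 1 1 := s12 q1
    have mc2 : 2 ≤ mc := hmc' _ q3
    obtain ⟨Δ', hlow', hss, hPP, hmem⟩ := pull3 P hP i hi hΔ (φ1 := fun x => x)
      (φ2 := fun x => x) (φ3 := ph 1 mc) strictMono_id strictMono_id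
      (ph_mono Nat.one_pos (by omega))
    apply hPP
    have hsupp' : ∀ b ∈ Δ', ∀ l, b l ≠ 0 → ∃ a, l = i a := fun b hb' => hsupp b (hss hb')
    -- constraints
    have key : ∀ {x0 x1 x2 x3 : ℕ}, vv i x0 x1 x2 x3 ∈ Δ' →
        (1 ≤ x0 → x0 = 1 ∧ x1 = 0 ∧ x2 = 0 ∧ x3 = 0) ∧ x1 + x2 ≤ 1 ∧ x3 ≤ 2 ∧
          (x3 = 2 → x1 = 0 ∧ x2 = 0) := by
      intro x0 x1 x2 x3 h
      rw [hmem] at h
      have hg := ph_ge (k := 1) (m := mc) Nat.one_pos (by omega) (p := x3)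
      have hB := bB h
      have hC := bC h
      refine ⟨fun h0 => ?_, by omega, ?_, ?_⟩
      · have h' := z0 h h0
        refine ⟨h'.1, h'.2.1, h'.2.2.1, ?_⟩
        by_contra hne
        have := hg.1 (by omega)
        omega
      · by_contra hne
        have := hg.2.2 (by omega)
        omega
      · intro h3
        have := hg.2.1 (by omega)
        omega
    have hdeg' : ∀ b ∈ Δ', b.degree ≤ 2 := by
      intro b hb'
      have hbe := eq_vv hi (hsupp' b hb')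
      rw [hbe] at hb' ⊢
      rw [vv_deg]
      have := key hb'
      omega
    have q1' : vv i 0 1 0 1 ∈ Δ' := (hmem _ _ _ _).2 q1
    have q2' : vv i 0 0 1 1 ∈ Δ' := (hmem _ _ _ _).2 q2
    have q3' : vv i 0 0 0 2 ∈ Δ' := (hmem _ _ _ _).2 hmc
    refine fin P hP hb i hi hlow' hsupp' hdeg' ?_ ?_ ?_
    · intro a
      fin_cases a
      · show Finsupp.single (i 0) 1 ∈ Δ'
        rw [← e0, hmem]
        exact d0
      · show Finsupp.single (i 1) 1 ∈ Δ'
        rw [← e1, hmem]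
        exact d1
      · show Finsupp.single (i 2) 1 ∈ Δ'
        rw [← e2, hmem]
        exact d2
      · show Finsupp.single (i 3) 1 ∈ Δ'
        rw [← e3, hmem]
        exact d3
    · have h3 : ({vv i 0 1 0 1, vv i 0 0 1 1, vv i 0 0 0 2} : Finset (Fin n →₀ ℕ)).card = 3 := by
        rw [Finset.card_eq_three]
        refine ⟨_, _, _, ?_, ?_, ?_, rfl⟩ <;> rw [Ne, vv_inj hi] <;> omega
      rw [← h3]
      apply Finset.card_le_card
      intro b hb'
      simp only [Finset.mem_insert, Finset.mem_singleton] at hb'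
      rw [Finset.mem_filter]
      rcases hb' with rfl | rfl | rfl
      · exact ⟨q1', vv_deg _ _ _ _ _⟩
      · exact ⟨q2', vv_deg _ _ _ _ _⟩
      · exact ⟨q3', vv_deg _ _ _ _ _⟩
    · have h3 : (Δ'.filter (fun b => b.degree = 2)).card ≤ 3 := by
        refine (Finset.card_le_card (t := {vv i 0 1 0 1, vv i 0 0 1 1, vv i 0 0 0 2}) ?_).trans
          Finset.card_le_three
        intro b hb'
        rw [Finset.mem_filter] at hb'
        obtain ⟨hbΔ, hbd⟩ := hb'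
        have hbe := eq_vv hi (hsupp' b hbΔ)
        rw [hbe] at hbΔ hbd ⊢
        generalize b (i 0) = x0 at *
        generalize b (i 1) = x1 at *
        generalize b (i 2) = x2 at *
        generalize b (i 3) = x3 at *
        rw [vv_deg] at hbd
        have hk := key hbΔ
        have : x0 = 0 ∧ ((x1 = 1 ∧ x2 = 0 ∧ x3 = 1) ∨ (x1 = 0 ∧ x2 = 1 ∧ x3 = 1) ∨
            (x1 = 0 ∧ x2 = 0 ∧ x3 = 2)) := by omega
        obtain ⟨rfl, this⟩ := this
        rcases this with ⟨rfl, rfl, rfl⟩ | ⟨rfl, rfl, rfl⟩ | ⟨rfl, rfl, rfl⟩ <;> simp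
      omega
  · -- `m_b ≥ 2`
    obtain ⟨j, rfl⟩ : ∃ j, mb = j + 1 := ⟨mb - 1, by omega⟩
    have hj1 : 1 ≤ j := by omega
    obtain ⟨k, hk, hk'⟩ := exists_max (fun k => D 0 0 j k)
      (fun m m' hmm h => low le_rfl le_rfl le_rfl hmm h)
      (low le_rfl le_rfl (by omega) le_rfl hmb) (Δ.sup Finsupp.degree + 1)
      (fun h => by have := bd h; omega)
    have hk1 : 1 ≤ k := hk' _ (s23 hmb)
    have hkc : k < mc := by
      have := bC hk
      omega
    obtain ⟨Δ', hlow', hss, hPP, hmem⟩ := pull3 P hP i hi hΔ (φ1 := ph ma (ma + 1))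
      (φ2 := ph j (j + 1)) (φ3 := ph k mc) (ph_mono (by omega) (by omega))
      (ph_mono (by omega) (by omega)) (ph_mono (by omega) hkc)
    apply hPP
    have hsupp' : ∀ b ∈ Δ', ∀ l, b l ≠ 0 → ∃ a, l = i a := fun b hb' => hsupp b (hss hb')
    have key : ∀ {x0 x1 x2 x3 : ℕ}, vv i x0 x1 x2 x3 ∈ Δ' →
        (1 ≤ x0 → x0 = 1 ∧ x1 = 0 ∧ x2 = 0 ∧ x3 = 0) ∧ x1 ≤ 1 ∧ x2 ≤ 2 ∧ x3 ≤ 2 ∧
          (x3 = 2 → x1 = 0 ∧ x2 = 0) ∧ (x2 = 2 → x1 = 0 ∧ x3 = 0) ∧ x1 + x2 + x3 ≤ 2 := by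
      intro x0 x1 x2 x3 h
      rw [hmem] at h
      have ga := ph_ge (k := ma) (m := ma + 1) (by omega) (by omega) (p := x1)
      have gb := ph_ge (k := j) (m := j + 1) (by omega) (by omega) (p := x2)
      have gc := ph_ge (k := k) (m := mc) (by omega) hkc (p := x3)
      have hA1 := bA h
      have hB := bB h
      have hC := bC h
      have c1 : 1 ≤ x0 → x0 = 1 ∧ x1 = 0 ∧ x2 = 0 ∧ x3 = 0 := by
        intro h0
        have h' := z0 h h0
        refine ⟨h'.1, ?_, ?_, ?_⟩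
        · by_contra hne
          have := ga.1 (by omega)
          omega
        · by_contra hne
          have := gb.1 (by omega)
          omega
        · by_contra hne
          have := gc.1 (by omega)
          omega
      have c2 : x1 ≤ 1 := by
        by_contra hne
        have := ga.2.1 (by omega)
        omega
      have c3 : x2 ≤ 2 := by
        by_contra hne
        have := gb.2.2 (by omega)
        omega
      have c4 : x3 ≤ 2 := by
        by_contra hne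
        have := gc.2.2 (by omega)
        omega
      have c5 : x3 = 2 → x1 = 0 ∧ x2 = 0 := by
        intro h3
        have g3 := gc.2.1 (by omega)
        constructor
        · by_contra hne
          have := ga.1 (by omega)
          omega
        · by_contra hne
          have := gb.1 (by omega)
          omega
      have c6 : x2 = 2 → x1 = 0 ∧ x3 = 0 := by
        intro h2
        have g2 := gb.2.1 (by omega)
        constructor
        · by_contra hne
          have := ga.1 (by omega)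
          omega
        · by_contra hne
          have g3 := gc.1 (by omega)
          have h' : D 0 0 (j + 1) k := low (Nat.zero_le _) (Nat.zero_le _) g2 g3 h
          have := hk' _ (s23 h')
          omega
      have c7 : x1 + x2 + x3 ≤ 2 := by
        by_contra hne
        have hx : x1 = 1 ∧ x2 = 1 ∧ x3 = 1 := by omega
        have g1 := ga.1 (by omega)
        have g2 := gb.1 (by omega)
        have g3 := gc.1 (by omega)
        have h' : D 0 ma j k := low (Nat.zero_le _) g1 g2 g3 h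
        have := hk' _ (m13 _ h')
        omega
      exact ⟨c1, c2, c3, c4, c5, c6, c7⟩
    have hdeg' : ∀ b ∈ Δ', b.degree ≤ 2 := by
      intro b hb'
      have hbe := eq_vv hi (hsupp' b hb')
      rw [hbe] at hb' ⊢
      rw [vv_deg]
      have := key hb'
      omega
    have q1' : vv i 0 0 1 1 ∈ Δ' := (hmem _ _ _ _).2 hk
    have q2' : vv i 0 0 2 0 ∈ Δ' := (hmem _ _ _ _).2 hmb
    have q3' : vv i 0 0 0 2 ∈ Δ' := (hmem _ _ _ _).2 hmc
    refine fin P hP hb i hi hlow' hsupp' hdeg' ?_ ?_ ?_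
    · intro a
      fin_cases a
      · show Finsupp.single (i 0) 1 ∈ Δ'
        rw [← e0, hmem]
        exact d0
      · show Finsupp.single (i 1) 1 ∈ Δ'
        rw [← e1, hmem]
        exact hma
      · show Finsupp.single (i 2) 1 ∈ Δ'
        rw [← e2, hmem]
        exact low le_rfl le_rfl le_rfl (Nat.zero_le _) hk
      · show Finsupp.single (i 3) 1 ∈ Δ'
        rw [← e3, hmem]
        exact low le_rfl le_rfl (Nat.zero_le _) le_rfl hk
    · have h3 : ({vv i 0 0 1 1, vv i 0 0 2 0, vv i 0 0 0 2} : Finset (Fin n →₀ ℕ)).card = 3 := by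
        rw [Finset.card_eq_three]
        refine ⟨_, _, _, ?_, ?_, ?_, rfl⟩ <;> rw [Ne, vv_inj hi] <;> omega
      rw [← h3]
      apply Finset.card_le_card
      intro b hb'
      simp only [Finset.mem_insert, Finset.mem_singleton] at hb'
      rw [Finset.mem_filter]
      rcases hb' with rfl | rfl | rfl
      · exact ⟨q1', vv_deg _ _ _ _ _⟩
      · exact ⟨q2', vv_deg _ _ _ _ _⟩
      · exact ⟨q3', vv_deg _ _ _ _ _⟩
    · have h5 : (Δ'.filter (fun b => b.degree = 2)).card ≤ 5 := by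
        refine (Finset.card_le_card (t := {vv i 0 1 1 0, vv i 0 1 0 1, vv i 0 0 1 1,
          vv i 0 0 2 0, vv i 0 0 0 2}) ?_).trans Finset.card_le_five
        intro b hb'
        rw [Finset.mem_filter] at hb'
        obtain ⟨hbΔ, hbd⟩ := hb'
        have hbe := eq_vv hi (hsupp' b hbΔ)
        rw [hbe] at hbΔ hbd ⊢
        generalize b (i 0) = x0 at *
        generalize b (i 1) = x1 at *
        generalize b (i 2) = x2 at *
        generalize b (i 3) = x3 at *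
        rw [vv_deg] at hbd
        have hk := key hbΔ
        have : x0 = 0 ∧ ((x1 = 1 ∧ x2 = 1 ∧ x3 = 0) ∨ (x1 = 1 ∧ x2 = 0 ∧ x3 = 1) ∨
            (x1 = 0 ∧ x2 = 1 ∧ x3 = 1) ∨ (x1 = 0 ∧ x2 = 2 ∧ x3 = 0) ∨
            (x1 = 0 ∧ x2 = 0 ∧ x3 = 2)) := by omega
        obtain ⟨rfl, this⟩ := this
        rcases this with ⟨rfl, rfl, rfl⟩ | ⟨rfl, rfl, rfl⟩ | ⟨rfl, rfl, rfl⟩ | ⟨rfl, rfl, rfl⟩ |
          ⟨rfl, rfl, rfl⟩ <;> simp
      have h2 : 2 ≤ (Finset.univ.filter (fun l : Fin n => Finsupp.single l 2 ∈ Δ')).card := by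
        have h23 : i 2 ≠ i 3 := fun h => absurd (hi h) (by decide)
        refine (Finset.card_pair h23).symm.le.trans (Finset.card_le_card ?_)
        intro l hl
        simp only [Finset.mem_insert, Finset.mem_singleton] at hl
        simp only [Finset.mem_filter, Finset.mem_univ, true_and]
        rcases hl with rfl | rfl
        · have : vv i 0 0 2 0 = Finsupp.single (i 2) 2 := by simp [vv]
          rw [← this]
          exact q2'
        · have : vv i 0 0 0 2 = Finsupp.single (i 3) 2 := by simp [vv]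
          rw [← this]
          exact q3'
      omega

end Pool.Agent.Helper87.HQ
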