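import Pool.Agent.Helper87.HQ.Graph

/-!
THEOREM `caseB`: `Δ` as in `caseA`, but `e_0 + e_3 ∈ Δ` (so `e_a + e_3 ∈ Δ` for all `a`), and
`rem Δ (i 3) 0 = {b | b + e_3 ∈ Δ}` has at most 2 quadratic monomials.

PROOF. Every element of degree 3 of `Δ` is `3 e_3` or `e_2 + 2 e_3`: otherwise `3 e_3`, `e_2 + 2 e_3` and one of
`2 e_2 + e_3`, `e_1 + 2 e_3` are in `Δ` (move variables to later ones: if two of the three factors are
before `i 3` get `2 e_2 + e_3`, if only one, it is before `i 2`: get `e_1 + 2 e_3`), which gives three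
quadratic monomials in `rem Δ (i 3) 0`. Elements of degree `≥ 3` are multiples of elements of degree 3
with all divisors in `Δ`, so the only elements of degree `≥ 3` are `m e_3` and `e_2 + m e_3`.
Case `e_1 + e_2 ∈ Δ` (so `2 e_2 ∈ Δ`): pull back coordinate `i 2` by `0,1,2,..↦ 0,2,3,..` and coordinate `i 3` by
`0,1,2,3,4..↦ 0,1,2,M,M+1,..`, `M` large. The result is `{0, e_0, .., e_3, e_0 + e_3, e_1 + e_3, 2 e_3}` together
with those of `2 e_1, e_0 + e_1, 2 e_0` which are in `Δ` (`2 e_2 + e_a ∉ Δ`, `3 e_2 ∉ Δ`). `graph`: the number of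
quadratic monomials minus 3 is at most `1 +` the number of loops among `2 e_1, 2 e_0`.
Case `e_1 + e_2 ∉ Δ`: then `2 e_1, e_0 + e_2, e_0 + e_1, 2 e_0 ∉ Δ`. Pull back coordinate `i 3` by
`0,1,2,..↦ 0,1,M,M+1,..`: the result is `{0, e_0, .., e_3, e_0 + e_3, e_1 + e_3, e_2 + e_3}` and possibly
`2 e_2`; `graph`.
-/

namespace Pool.Agent.Helper87.HQ

open Pool.Agent.Hilb61

variable {n : ℕ}

/-- The monomial with the exponents `x0, x1, x2, x3` at the four indices. -/
private noncomputable def m4 (i : Fin 4 → Fin n) (x0 x1 x2 x3 : ℕ) : Fin n →₀ ℕ :=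
  Finsupp.single (i 0) x0 + Finsupp.single (i 1) x1 + Finsupp.single (i 2) x2 +
    Finsupp.single (i 3) x3

private lemma m4_0 {i : Fin 4 → Fin n} (hi : Function.Injective i) (x0 x1 x2 x3 : ℕ) :
    m4 i x0 x1 x2 x3 (i 0) = x0 := by
  have h1 : i 1 ≠ i 0 := fun h => by simpa using hi h
  have h2 : i 2 ≠ i 0 := fun h => by simpa using hi h
  have h3 : i 3 ≠ i 0 := fun h => by simpa using hi h
  simp only [m4, Finsupp.add_apply, Finsupp.single_apply, if_neg h1, if_neg h2, if_neg h3,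
    if_true, add_zero]

private lemma m4_1 {i : Fin 4 → Fin n} (hi : Function.Injective i) (x0 x1 x2 x3 : ℕ) :
    m4 i x0 x1 x2 x3 (i 1) = x1 := by
  have h1 : i 0 ≠ i 1 := fun h => by simpa using hi h
  have h2 : i 2 ≠ i 1 := fun h => by simpa using hi h
  have h3 : i 3 ≠ i 1 := fun h => by simpa using hi h
  simp only [m4, Finsupp.add_apply, Finsupp.single_apply, if_neg h1, if_neg h2, if_neg h3,
    if_true, add_zero, zero_add]

private lemma m4_2 {i : Fin 4 → Fin n} (hi : Function.Injective i) (x0 x1 x2 x3 : ℕ) :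
    m4 i x0 x1 x2 x3 (i 2) = x2 := by
  have h1 : i 0 ≠ i 2 := fun h => by simpa using hi h
  have h2 : i 1 ≠ i 2 := fun h => by simpa using hi h
  have h3 : i 3 ≠ i 2 := fun h => by simpa using hi h
  simp only [m4, Finsupp.add_apply, Finsupp.single_apply, if_neg h1, if_neg h2, if_neg h3,
    if_true, add_zero, zero_add]

private lemma m4_3 {i : Fin 4 → Fin n} (hi : Function.Injective i) (x0 x1 x2 x3 : ℕ) :
    m4 i x0 x1 x2 x3 (i 3) = x3 := by
  have h1 : i 0 ≠ i 3 := fun h => by simpa using hi h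
  have h2 : i 1 ≠ i 3 := fun h => by simpa using hi h
  have h3 : i 2 ≠ i 3 := fun h => by simpa using hi h
  simp only [m4, Finsupp.add_apply, Finsupp.single_apply, if_neg h1, if_neg h2, if_neg h3,
    if_true, add_zero, zero_add]

private lemma m4_ne {i : Fin 4 → Fin n} (x0 x1 x2 x3 : ℕ) {l : Fin n} (hl : ∀ a, l ≠ i a) :
    m4 i x0 x1 x2 x3 l = 0 := by
  simp only [m4, Finsupp.add_apply, Finsupp.single_apply, if_neg (Ne.symm (hl 0)),
    if_neg (Ne.symm (hl 1)), if_neg (Ne.symm (hl 2)), if_neg (Ne.symm (hl 3)), add_zero]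

/-- A monomial in the four variables is determined by its four exponents. -/
private lemma ext4 {i : Fin 4 → Fin n} {b c : Fin n →₀ ℕ}
    (hb : ∀ l, b l ≠ 0 → ∃ a, l = i a) (hc : ∀ l, c l ≠ 0 → ∃ a, l = i a)
    (h : ∀ a, b (i a) = c (i a)) : b = c := by
  ext l
  by_cases hl : ∃ a, l = i a
  · obtain ⟨a, rfl⟩ := hl
    exact h a
  · have h1 : b l = 0 := by
      by_contra h1
      exact hl (hb l h1)
    have h2 : c l = 0 := by
      by_contra h2
      exact hl (hc l h2)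
    rw [h1, h2]

private lemma supp_m4 {i : Fin 4 → Fin n} (x0 x1 x2 x3 : ℕ) (l : Fin n)
    (h : m4 i x0 x1 x2 x3 l ≠ 0) : ∃ a, l = i a := by
  by_contra hl
  push Not at hl
  exact h (m4_ne x0 x1 x2 x3 hl)

private lemma eq_m4 {i : Fin 4 → Fin n} (hi : Function.Injective i) {b : Fin n →₀ ℕ}
    (hb : ∀ l, b l ≠ 0 → ∃ a, l = i a) :
    b = m4 i (b (i 0)) (b (i 1)) (b (i 2)) (b (i 3)) := by
  apply ext4 hb (supp_m4 _ _ _ _)
  intro a
  fin_cases a
  · exact (m4_0 hi _ _ _ _).symm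
  · exact (m4_1 hi _ _ _ _).symm
  · exact (m4_2 hi _ _ _ _).symm
  · exact (m4_3 hi _ _ _ _).symm

private lemma degree_m4 {i : Fin 4 → Fin n} (x0 x1 x2 x3 : ℕ) :
    (m4 i x0 x1 x2 x3).degree = x0 + x1 + x2 + x3 := by
  simp only [m4, map_add, Finsupp.degree_single]

private lemma update_m4_2 {i : Fin 4 → Fin n} (hi : Function.Injective i) (x0 x1 x2 x3 y : ℕ) :
    (m4 i x0 x1 x2 x3).update (i 2) y = m4 i x0 x1 y x3 := by
  have h0 : i 0 ≠ i 2 := fun h => by simpa using hi h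
  have h1 : i 1 ≠ i 2 := fun h => by simpa using hi h
  have h3 : i 3 ≠ i 2 := fun h => by simpa using hi h
  apply ext4 _ (supp_m4 _ _ _ _)
  · intro a
    fin_cases a
    · show (m4 i x0 x1 x2 x3).update (i 2) y (i 0) = m4 i x0 x1 y x3 (i 0)
      rw [Finsupp.update_apply, if_neg h0, m4_0 hi, m4_0 hi]
    · show (m4 i x0 x1 x2 x3).update (i 2) y (i 1) = m4 i x0 x1 y x3 (i 1)
      rw [Finsupp.update_apply, if_neg h1, m4_1 hi, m4_1 hi]
    · show (m4 i x0 x1 x2 x3).update (i 2) y (i 2) = m4 i x0 x1 y x3 (i 2)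
      rw [Finsupp.update_apply, if_pos rfl, m4_2 hi]
    · show (m4 i x0 x1 x2 x3).update (i 2) y (i 3) = m4 i x0 x1 y x3 (i 3)
      rw [Finsupp.update_apply, if_neg h3, m4_3 hi, m4_3 hi]
  · intro l hl
    by_cases h : l = i 2
    · exact ⟨2, h⟩
    · rw [Finsupp.update_apply, if_neg h] at hl
      exact supp_m4 _ _ _ _ l hl

private lemma update_m4_3 {i : Fin 4 → Fin n} (hi : Function.Injective i) (x0 x1 x2 x3 y : ℕ) :
    (m4 i x0 x1 x2 x3).update (i 3) y = m4 i x0 x1 x2 y := by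
  have h0 : i 0 ≠ i 3 := fun h => by simpa using hi h
  have h1 : i 1 ≠ i 3 := fun h => by simpa using hi h
  have h2 : i 2 ≠ i 3 := fun h => by simpa using hi h
  apply ext4 _ (supp_m4 _ _ _ _)
  · intro a
    fin_cases a
    · show (m4 i x0 x1 x2 x3).update (i 3) y (i 0) = m4 i x0 x1 x2 y (i 0)
      rw [Finsupp.update_apply, if_neg h0, m4_0 hi, m4_0 hi]
    · show (m4 i x0 x1 x2 x3).update (i 3) y (i 1) = m4 i x0 x1 x2 y (i 1)
      rw [Finsupp.update_apply, if_neg h1, m4_1 hi, m4_1 hi]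
    · show (m4 i x0 x1 x2 x3).update (i 3) y (i 2) = m4 i x0 x1 x2 y (i 2)
      rw [Finsupp.update_apply, if_neg h2, m4_2 hi, m4_2 hi]
    · show (m4 i x0 x1 x2 x3).update (i 3) y (i 3) = m4 i x0 x1 x2 y (i 3)
      rw [Finsupp.update_apply, if_pos rfl, m4_3 hi]
  · intro l hl
    by_cases h : l = i 3
    · exact ⟨3, h⟩
    · rw [Finsupp.update_apply, if_neg h] at hl
      exact supp_m4 _ _ _ _ l hl

private lemma m4_inj {i : Fin 4 → Fin n} (hi : Function.Injective i)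
    {x0 x1 x2 x3 y0 y1 y2 y3 : ℕ} (h : m4 i x0 x1 x2 x3 = m4 i y0 y1 y2 y3) :
    x0 = y0 ∧ x1 = y1 ∧ x2 = y2 ∧ x3 = y3 := by
  refine ⟨?_, ?_, ?_, ?_⟩
  · have := DFunLike.congr_fun h (i 0)
    rwa [m4_0 hi, m4_0 hi] at this
  · have := DFunLike.congr_fun h (i 1)
    rwa [m4_1 hi, m4_1 hi] at this
  · have := DFunLike.congr_fun h (i 2)
    rwa [m4_2 hi, m4_2 hi] at this
  · have := DFunLike.congr_fun h (i 3)
    rwa [m4_3 hi, m4_3 hi] at this

private lemma succ0 (i : Fin 4 → Fin n) (x0 x1 x2 x3 : ℕ) :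
    m4 i (x0 + 1) x1 x2 x3 = m4 i x0 x1 x2 x3 + Finsupp.single (i 0) 1 := by
  simp only [m4, Finsupp.single_add]
  abel

private lemma succ1 (i : Fin 4 → Fin n) (x0 x1 x2 x3 : ℕ) :
    m4 i x0 (x1 + 1) x2 x3 = m4 i x0 x1 x2 x3 + Finsupp.single (i 1) 1 := by
  simp only [m4, Finsupp.single_add]
  abel

private lemma succ2 (i : Fin 4 → Fin n) (x0 x1 x2 x3 : ℕ) :
    m4 i x0 x1 (x2 + 1) x3 = m4 i x0 x1 x2 x3 + Finsupp.single (i 2) 1 := by
  simp only [m4, Finsupp.single_add]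
  abel

private lemma succ3 (i : Fin 4 → Fin n) (x0 x1 x2 x3 : ℕ) :
    m4 i x0 x1 x2 (x3 + 1) = m4 i x0 x1 x2 x3 + Finsupp.single (i 3) 1 := by
  simp only [m4, Finsupp.single_add]
  abel

/-- The dominance order. -/
private lemma dom {i : Fin 4 → Fin n} {Δ : Finset (Fin n →₀ ℕ)} (hΔ : Low Δ)
    (hst : ∀ (u : Fin n →₀ ℕ) (a a' : Fin 4), a < a' → u + Finsupp.single (i a) 1 ∈ Δ →
      u + Finsupp.single (i a') 1 ∈ Δ)
    {x0 x1 x2 x3 : ℕ} (y0 y1 y2 y3 : ℕ) (h : m4 i x0 x1 x2 x3 ∈ Δ) (h0 : y0 ≤ x0)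
    (h1 : y0 + y1 ≤ x0 + x1) (h2 : y0 + y1 + y2 ≤ x0 + x1 + x2)
    (h3 : y0 + y1 + y2 + y3 ≤ x0 + x1 + x2 + x3) : m4 i y0 y1 y2 y3 ∈ Δ := by
  have mv01 : ∀ t x0 x1 x2 x3, m4 i (x0 + t) x1 x2 x3 ∈ Δ → m4 i x0 (x1 + t) x2 x3 ∈ Δ := by
    intro t
    induction t with
    | zero => intro x0 x1 x2 x3 h; exact h
    | succ t ih =>
      intro x0 x1 x2 x3 h
      rw [← add_assoc, succ0] at h
      have h' := hst _ 0 1 (by decide) h
      rw [← succ1] at h'
      have h'' := ih _ _ _ _ h'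
      rw [show x1 + (t + 1) = x1 + 1 + t by omega]
      exact h''
  have mv12 : ∀ t x0 x1 x2 x3, m4 i x0 (x1 + t) x2 x3 ∈ Δ → m4 i x0 x1 (x2 + t) x3 ∈ Δ := by
    intro t
    induction t with
    | zero => intro x0 x1 x2 x3 h; exact h
    | succ t ih =>
      intro x0 x1 x2 x3 h
      rw [← add_assoc, succ1] at h
      have h' := hst _ 1 2 (by decide) h
      rw [← succ2] at h'
      have h'' := ih _ _ _ _ h'
      rw [show x2 + (t + 1) = x2 + 1 + t by omega]
      exact h''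
  have mv23 : ∀ t x0 x1 x2 x3, m4 i x0 x1 (x2 + t) x3 ∈ Δ → m4 i x0 x1 x2 (x3 + t) ∈ Δ := by
    intro t
    induction t with
    | zero => intro x0 x1 x2 x3 h; exact h
    | succ t ih =>
      intro x0 x1 x2 x3 h
      rw [← add_assoc, succ2] at h
      have h' := hst _ 2 3 (by decide) h
      rw [← succ3] at h'
      have h'' := ih _ _ _ _ h'
      rw [show x3 + (t + 1) = x3 + 1 + t by omega]
      exact h''
  have dn3 : ∀ t x0 x1 x2 x3, m4 i x0 x1 x2 (x3 + t) ∈ Δ → m4 i x0 x1 x2 x3 ∈ Δ := by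
    intro t
    induction t with
    | zero => intro x0 x1 x2 x3 h; exact h
    | succ t ih =>
      intro x0 x1 x2 x3 h
      rw [← add_assoc, succ3] at h
      exact ih _ _ _ _ (hΔ _ _ h)
  have s1 : m4 i y0 (x1 + (x0 - y0)) x2 x3 ∈ Δ := by
    apply mv01
    rw [show y0 + (x0 - y0) = x0 by omega]
    exact h
  have s2 : m4 i y0 y1 (x2 + (x1 + (x0 - y0) - y1)) x3 ∈ Δ := by
    apply mv12
    rw [show y1 + (x1 + (x0 - y0) - y1) = x1 + (x0 - y0) by omega]
    exact s1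
  have s3 : m4 i y0 y1 y2 (x3 + (x2 + (x1 + (x0 - y0) - y1) - y2)) ∈ Δ := by
    apply mv23
    rw [show y2 + (x2 + (x1 + (x0 - y0) - y1) - y2) = x2 + (x1 + (x0 - y0) - y1) by omega]
    exact s2
  apply dn3 (x3 + (x2 + (x1 + (x0 - y0) - y1) - y2) - y3)
  rw [show y3 + (x3 + (x2 + (x1 + (x0 - y0) - y1) - y2) - y3) =
    x3 + (x2 + (x1 + (x0 - y0) - y1) - y2) by omega]
  exact s3

private lemma m4_single {i : Fin 4 → Fin n} (m : ℕ) :
    m4 i m 0 0 0 = Finsupp.single (i 0) m ∧ m4 i 0 m 0 0 = Finsupp.single (i 1) m ∧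
      m4 i 0 0 m 0 = Finsupp.single (i 2) m ∧ m4 i 0 0 0 m = Finsupp.single (i 3) m := by
  simp only [m4, Finsupp.single_zero, add_zero, zero_add, and_self]

/-- The common end of the two cases. -/
private lemma finish (P : Finset (Fin n →₀ ℕ) → Prop)
    (hP : ∀ (Δ : Finset (Fin n →₀ ℕ)) (l : Fin n) (j : ℕ), Low Δ → P (rem Δ l j) → P Δ)
    (hb : ∀ Δ : Finset (Fin n →₀ ℕ), Low Δ → Δ.card = 8 → (∀ b ∈ Δ, b.degree ≤ 2) →
      4 ≤ (Finset.univ.filter (fun i : Fin n => Finsupp.single i 1 ∈ Δ)).card → P Δ)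
    {i : Fin 4 → Fin n} (hi : Function.Injective i) {Δ : Finset (Fin n →₀ ℕ)} (hΔ : Low Δ)
    (hsupp : ∀ b ∈ Δ, ∀ l, b l ≠ 0 → ∃ a, l = i a) (hdeg : ∀ b ∈ Δ, b.degree ≤ 2)
    (hvar : ∀ a, Finsupp.single (i a) 1 ∈ Δ) {p1 p2 p3 : Fin n →₀ ℕ}
    (hp1 : p1 ∈ Δ) (hp2 : p2 ∈ Δ) (hp3 : p3 ∈ Δ) (hd1 : p1.degree = 2) (hd2 : p2.degree = 2)
    (hd3 : p3.degree = 2) (h12 : p1 ≠ p2) (h13 : p1 ≠ p3) (h23 : p2 ≠ p3)
    {q1 q2 q3 : Fin n →₀ ℕ}
    (hq : ∀ b ∈ Δ, b.degree = 2 → b = q1 ∨ b = q2 ∨ b = q3 ∨ ∃ l, b = Finsupp.single l 2) :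
    P Δ := by
  classical
  apply graph P hP hb hΔ hdeg
  · have : Finset.univ.filter (fun l : Fin n => Finsupp.single l 1 ∈ Δ) =
        Finset.univ.image i := by
      ext l
      rw [Finset.mem_filter, Finset.mem_image]
      constructor
      · rintro ⟨_, h⟩
        obtain ⟨a, ha⟩ := hsupp _ h l (by rw [Finsupp.single_eq_same]; exact one_ne_zero)
        exact ⟨a, Finset.mem_univ _, ha.symm⟩
      · rintro ⟨a, _, rfl⟩
        exact ⟨Finset.mem_univ _, hvar a⟩
    rw [this, Finset.card_image_of_injective _ hi, Finset.card_univ, Fintype.card_fin]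
  · have h1 : ({p1, p2, p3} : Finset (Fin n →₀ ℕ)) ⊆ Δ.filter (fun b => b.degree = 2) := by
      intro b hb'
      rw [Finset.mem_insert, Finset.mem_insert, Finset.mem_singleton] at hb'
      rw [Finset.mem_filter]
      rcases hb' with rfl | rfl | rfl
      · exact ⟨hp1, hd1⟩
      · exact ⟨hp2, hd2⟩
      · exact ⟨hp3, hd3⟩
    have h2 : ({p1, p2, p3} : Finset (Fin n →₀ ℕ)).card = 3 :=
      Finset.card_eq_three.mpr ⟨p1, p2, p3, h12, h13, h23, rfl⟩
    rw [← h2]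
    exact Finset.card_le_card h1
  · have h1 : Δ.filter (fun b => b.degree = 2) ⊆ {q1, q2, q3} ∪
        (Finset.univ.filter (fun l : Fin n => Finsupp.single l 2 ∈ Δ)).image
          (fun l => Finsupp.single l 2) := by
      intro b hb'
      rw [Finset.mem_filter] at hb'
      rw [Finset.mem_union, Finset.mem_insert, Finset.mem_insert, Finset.mem_singleton,
        Finset.mem_image]
      rcases hq b hb'.1 hb'.2 with h | h | h | ⟨l, h⟩
      · exact Or.inl (Or.inl h)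
      · exact Or.inl (Or.inr (Or.inl h))
      · exact Or.inl (Or.inr (Or.inr h))
      · refine Or.inr ⟨l, ?_, h.symm⟩
        rw [Finset.mem_filter, ← h]
        exact ⟨Finset.mem_univ _, hb'.1⟩
    calc (Δ.filter (fun b => b.degree = 2)).card
        ≤ ({q1, q2, q3} ∪ (Finset.univ.filter (fun l : Fin n => Finsupp.single l 2 ∈ Δ)).image
          (fun l => Finsupp.single l 2)).card := Finset.card_le_card h1
      _ ≤ ({q1, q2, q3} : Finset (Fin n →₀ ℕ)).card +
          ((Finset.univ.filter (fun l : Fin n => Finsupp.single l 2 ∈ Δ)).image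
          (fun l => Finsupp.single l 2)).card := Finset.card_union_le _ _
      _ ≤ _ := Nat.add_le_add Finset.card_le_three Finset.card_image_le

theorem caseB (P : Finset (Fin n →₀ ℕ) → Prop)
    (hP : ∀ (Δ : Finset (Fin n →₀ ℕ)) (l : Fin n) (j : ℕ), Low Δ → P (rem Δ l j) → P Δ)
    (hb : ∀ Δ : Finset (Fin n →₀ ℕ), Low Δ → Δ.card = 8 → (∀ b ∈ Δ, b.degree ≤ 2) →
      4 ≤ (Finset.univ.filter (fun i : Fin n => Finsupp.single i 1 ∈ Δ)).card → P Δ)
    (i : Fin 4 → Fin n) (hi : Function.Injective i) {Δ : Finset (Fin n →₀ ℕ)} (hΔ : Low Δ)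
    (hsupp : ∀ b ∈ Δ, ∀ l, b l ≠ 0 → ∃ a, l = i a)
    (hst : ∀ (u : Fin n →₀ ℕ) (a a' : Fin 4), a < a' → u + Finsupp.single (i a) 1 ∈ Δ →
      u + Finsupp.single (i a') 1 ∈ Δ)
    (hB : Finsupp.single (i 0) 1 + Finsupp.single (i 3) 1 ∈ Δ)
    (hB' : ((rem Δ (i 3) 0).filter (fun b => b.degree = 2)).card ≤ 2) : P Δ := by
  classical
  have hD := @dom n i Δ hΔ hst
  -- membership in `rem Δ (i 3) 0`
  have hrem : ∀ x0 x1 x2 x3, m4 i x0 x1 x2 (x3 + 1) ∈ Δ →
      m4 i x0 x1 x2 x3 ∈ rem Δ (i 3) 0 := by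
    intro x0 x1 x2 x3 h
    rw [mem_rem]
    right
    rw [← succ3]
    exact ⟨Nat.zero_le _, h⟩
  have hthree : ∀ x0 x1 x2 x3 : ℕ, x0 + x1 + x2 + x3 = 2 → (x0 + x1 ≠ 0 ∨ x2 = 2) →
      m4 i x0 x1 x2 (x3 + 1) ∉ Δ := by
    intro x0 x1 x2 x3 hs hx h
    have h1 := hrem _ _ _ _ h
    have h2 := hrem 0 0 1 1 (hD 0 0 1 2 h (by omega) (by omega) (by omega) (by omega))
    have h3 := hrem 0 0 0 2 (hD 0 0 0 3 h (by omega) (by omega) (by omega) (by omega))
    have h4 : ({m4 i x0 x1 x2 x3, m4 i 0 0 1 1, m4 i 0 0 0 2} : Finset (Fin n →₀ ℕ)) ⊆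
        (rem Δ (i 3) 0).filter (fun b => b.degree = 2) := by
      intro b hb'
      rw [Finset.mem_insert, Finset.mem_insert, Finset.mem_singleton] at hb'
      rw [Finset.mem_filter]
      rcases hb' with rfl | rfl | rfl
      · exact ⟨h1, by rw [degree_m4]; exact hs⟩
      · exact ⟨h2, by rw [degree_m4]⟩
      · exact ⟨h3, by rw [degree_m4]⟩
    have h5 : ({m4 i x0 x1 x2 x3, m4 i 0 0 1 1, m4 i 0 0 0 2} : Finset (Fin n →₀ ℕ)).card = 3 := by
      refine Finset.card_eq_three.mpr ⟨_, _, _, ?_, ?_, ?_, rfl⟩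
      · intro h'
        have := m4_inj hi h'
        omega
      · intro h'
        have := m4_inj hi h'
        omega
      · intro h'
        have := m4_inj hi h'
        omega
    have h6 := Finset.card_le_card h4
    omega
  -- elements of degree at least 3
  have hbig : ∀ x0 x1 x2 x3, m4 i x0 x1 x2 x3 ∈ Δ →
      x0 + x1 + x2 + x3 ≤ 2 ∨ (x0 = 0 ∧ x1 = 0 ∧ x2 ≤ 1) := by
    intro x0 x1 x2 x3 h
    by_contra hc
    have h1 : 3 ≤ x0 + x1 + x2 + x3 := by omega
    by_cases h2 : x0 + x1 = 0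
    · have h3 : 2 ≤ x2 := by omega
      exact hthree 0 0 2 0 (by omega) (Or.inr rfl)
        (hD 0 0 2 1 h (by omega) (by omega) (by omega) (by omega))
    · exact hthree 0 1 0 1 (by omega) (Or.inl (by omega))
        (hD 0 1 0 2 h (by omega) (by omega) (by omega) (by omega))
  -- a bound for the last coordinate
  obtain ⟨M, hM⟩ : ∃ M, ∀ x0 x1 x2 x3, m4 i x0 x1 x2 x3 ∈ Δ → x3 ≤ M := by
    refine ⟨Δ.sup (fun b => b (i 3)), fun x0 x1 x2 x3 h => ?_⟩
    have h1 : (m4 i x0 x1 x2 x3) (i 3) ≤ Δ.sup (fun b => b (i 3)) :=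
      Finset.le_sup (f := fun b : Fin n →₀ ℕ => b (i 3)) h
    rwa [m4_3 hi] at h1
  have h1001 : m4 i 1 0 0 1 ∈ Δ := by
    have : m4 i 1 0 0 1 = Finsupp.single (i 0) 1 + Finsupp.single (i 3) 1 := by
      simp only [m4, Finsupp.single_zero, add_zero]
    rw [this]
    exact hB
  have h32 : i 3 ≠ i 2 := fun h => by simpa using hi h
  have hi23 : i 2 ≠ i 3 := fun h => by simpa using hi h
  by_cases hc : m4 i 0 1 1 0 ∈ Δ
  · -- first case
    let φ2 : ℕ → ℕ := fun p => if p = 0 then 0 else p + 1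
    let φ3 : ℕ → ℕ := fun p => if p ≤ 2 then p else M + p
    have hφ2 : StrictMono φ2 := by
      intro a b hab
      simp only [φ2]
      split_ifs <;> omega
    have hφ3 : StrictMono φ3 := by
      intro a b hab
      simp only [φ3]
      split_ifs <;> omega
    let Δ1 := pull Δ (i 2) φ2
    have hΔ1 : Low Δ1 := low_pull hΔ hφ2
    have hΔ2 : Low (pull Δ1 (i 3) φ3) := low_pull hΔ1 hφ3
    apply of_pull P hP hΔ hφ2
    apply of_pull P hP hΔ1 hφ3
    have hmem : ∀ b : Fin n →₀ ℕ, b ∈ pull Δ1 (i 3) φ3 ↔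
        (b.update (i 3) (φ3 (b (i 3)))).update (i 2) (φ2 (b (i 2))) ∈ Δ := by
      intro b
      rw [mem_pull hΔ1 hφ3, mem_pull hΔ hφ2, Finsupp.update_apply, if_neg hi23]
    have hm4 : ∀ x0 x1 x2 x3, m4 i x0 x1 x2 x3 ∈ pull Δ1 (i 3) φ3 ↔
        m4 i x0 x1 (φ2 x2) (φ3 x3) ∈ Δ := by
      intro x0 x1 x2 x3
      rw [hmem, m4_3 hi, m4_2 hi, update_m4_3 hi, update_m4_2 hi]
    have hsupp2 : ∀ b ∈ pull Δ1 (i 3) φ3, ∀ l, b l ≠ 0 → ∃ a, l = i a := by
      intro b hb' l hl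
      rw [hmem] at hb'
      by_cases h2 : l = i 2
      · exact ⟨2, h2⟩
      by_cases h3 : l = i 3
      · exact ⟨3, h3⟩
      apply hsupp _ hb' l
      rw [Finsupp.update_apply, if_neg h2, Finsupp.update_apply, if_neg h3]
      exact hl
    have hfacts : ∀ x0 x1 x2 x3, m4 i x0 x1 x2 x3 ∈ pull Δ1 (i 3) φ3 →
        x0 + x1 + x2 + x3 ≤ 2 ∧ (x0 + x1 + x2 + x3 = 2 → x2 = 0) := by
      intro x0 x1 x2 x3 h
      rw [hm4] at h
      have h1 := hbig _ _ _ _ h
      have h2 := hM _ _ _ _ h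
      simp only [φ2, φ3] at h1 h2
      split_ifs at h1 h2 <;> omega
    have hdeg : ∀ b ∈ pull Δ1 (i 3) φ3, b.degree ≤ 2 := by
      intro b hb'
      have e := eq_m4 hi (hsupp2 b hb')
      rw [e] at hb' ⊢
      rw [degree_m4]
      exact (hfacts _ _ _ _ hb').1
    refine finish P hP hb hi hΔ2 hsupp2 hdeg ?_ (p1 := m4 i 1 0 0 1) (p2 := m4 i 0 1 0 1)
      (p3 := m4 i 0 0 0 2) ((hm4 _ _ _ _).mpr ?_) ((hm4 _ _ _ _).mpr ?_)
      ((hm4 _ _ _ _).mpr ?_) (degree_m4 _ _ _ _) (degree_m4 _ _ _ _) (degree_m4 _ _ _ _)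
      ?_ ?_ ?_ (q1 := m4 i 1 0 0 1) (q2 := m4 i 0 1 0 1) (q3 := m4 i 1 1 0 0) ?_
    · intro a
      fin_cases a
      · show Finsupp.single (i 0) 1 ∈ pull Δ1 (i 3) φ3
        rw [← (m4_single (i := i) 1).1, hm4]
        exact hD 1 0 0 0 h1001 (by omega) (by omega) (by omega) (by omega)
      · show Finsupp.single (i 1) 1 ∈ pull Δ1 (i 3) φ3
        rw [← (m4_single (i := i) 1).2.1, hm4]
        exact hD 0 1 0 0 h1001 (by omega) (by omega) (by omega) (by omega)
      · show Finsupp.single (i 2) 1 ∈ pull Δ1 (i 3) φ3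
        rw [← (m4_single (i := i) 1).2.2.1, hm4]
        exact hD 0 0 2 0 hc (by omega) (by omega) (by omega) (by omega)
      · show Finsupp.single (i 3) 1 ∈ pull Δ1 (i 3) φ3
        rw [← (m4_single (i := i) 1).2.2.2, hm4]
        exact hD 0 0 0 1 h1001 (by omega) (by omega) (by omega) (by omega)
    · exact h1001
    · exact hD 0 1 0 1 h1001 (by omega) (by omega) (by omega) (by omega)
    · exact hD 0 0 0 2 h1001 (by omega) (by omega) (by omega) (by omega)
    · intro h'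
      have := m4_inj hi h'
      omega
    · intro h'
      have := m4_inj hi h'
      omega
    · intro h'
      have := m4_inj hi h'
      omega
    · intro b hb' hb2
      have e := eq_m4 hi (hsupp2 b hb')
      generalize b (i 0) = x0 at e
      generalize b (i 1) = x1 at e
      generalize b (i 2) = x2 at e
      generalize b (i 3) = x3 at e
      subst e
      rw [degree_m4] at hb2
      have h1 := (hfacts _ _ _ _ hb').2 hb2
      subst h1
      have hx0 : x0 ≤ 2 := by omega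
      have hx1 : x1 ≤ 2 := by omega
      have hx3 : x3 = 2 - x0 - x1 := by omega
      subst hx3
      interval_cases x0
      · interval_cases x1
        · exact Or.inr (Or.inr (Or.inr ⟨i 3, (m4_single (i := i) 2).2.2.2⟩))
        · exact Or.inr (Or.inl rfl)
        · exact Or.inr (Or.inr (Or.inr ⟨i 1, (m4_single (i := i) 2).2.1⟩))
      · have hx1' : x1 ≤ 1 := by omega
        interval_cases x1
        · exact Or.inl rfl
        · exact Or.inr (Or.inr (Or.inl rfl))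
      · have hx1' : x1 = 0 := by omega
        subst hx1'
        exact Or.inr (Or.inr (Or.inr ⟨i 0, (m4_single (i := i) 2).1⟩))
  · -- second case
    let φ3 : ℕ → ℕ := fun p => if p ≤ 1 then p else M + p
    have hφ3 : StrictMono φ3 := by
      intro a b hab
      simp only [φ3]
      split_ifs <;> omega
    have hΔ2 : Low (pull Δ (i 3) φ3) := low_pull hΔ hφ3
    apply of_pull P hP hΔ hφ3
    have hmem : ∀ b : Fin n →₀ ℕ, b ∈ pull Δ (i 3) φ3 ↔
        b.update (i 3) (φ3 (b (i 3))) ∈ Δ := by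
      intro b
      rw [mem_pull hΔ hφ3]
    have hm4 : ∀ x0 x1 x2 x3, m4 i x0 x1 x2 x3 ∈ pull Δ (i 3) φ3 ↔
        m4 i x0 x1 x2 (φ3 x3) ∈ Δ := by
      intro x0 x1 x2 x3
      rw [hmem, m4_3 hi, update_m4_3 hi]
    have hsupp2 : ∀ b ∈ pull Δ (i 3) φ3, ∀ l, b l ≠ 0 → ∃ a, l = i a := by
      intro b hb' l hl
      rw [hmem] at hb'
      by_cases h3 : l = i 3
      · exact ⟨3, h3⟩
      apply hsupp _ hb' l
      rw [Finsupp.update_apply, if_neg h3]
      exact hl
    have hno : ∀ x0 x1 x2 x3, m4 i x0 x1 x2 x3 ∈ Δ → x0 + x1 + x2 ≤ 1 ∨ x0 + x1 = 0 := by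
      intro x0 x1 x2 x3 h
      by_contra hcon
      exact hc (hD 0 1 1 0 h (by omega) (by omega) (by omega) (by omega))
    have hfacts : ∀ x0 x1 x2 x3, m4 i x0 x1 x2 x3 ∈ pull Δ (i 3) φ3 →
        x0 + x1 + x2 + x3 ≤ 2 ∧ (x0 + x1 + x2 + x3 = 2 → x3 = 1 ∨ x2 = 2) := by
      intro x0 x1 x2 x3 h
      rw [hm4] at h
      have h1 := hbig _ _ _ _ h
      have h2 := hM _ _ _ _ h
      have h3 := hno _ _ _ _ h
      simp only [φ3] at h1 h2
      split_ifs at h1 h2 <;> omega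
    have hdeg : ∀ b ∈ pull Δ (i 3) φ3, b.degree ≤ 2 := by
      intro b hb'
      have e := eq_m4 hi (hsupp2 b hb')
      rw [e] at hb' ⊢
      rw [degree_m4]
      exact (hfacts _ _ _ _ hb').1
    refine finish P hP hb hi hΔ2 hsupp2 hdeg ?_ (p1 := m4 i 1 0 0 1) (p2 := m4 i 0 1 0 1)
      (p3 := m4 i 0 0 1 1) ((hm4 _ _ _ _).mpr ?_) ((hm4 _ _ _ _).mpr ?_)
      ((hm4 _ _ _ _).mpr ?_) (degree_m4 _ _ _ _) (degree_m4 _ _ _ _) (degree_m4 _ _ _ _)
      ?_ ?_ ?_ (q1 := m4 i 1 0 0 1) (q2 := m4 i 0 1 0 1) (q3 := m4 i 0 0 1 1) ?_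
    · intro a
      fin_cases a
      · show Finsupp.single (i 0) 1 ∈ pull Δ (i 3) φ3
        rw [← (m4_single (i := i) 1).1, hm4]
        exact hD 1 0 0 0 h1001 (by omega) (by omega) (by omega) (by omega)
      · show Finsupp.single (i 1) 1 ∈ pull Δ (i 3) φ3
        rw [← (m4_single (i := i) 1).2.1, hm4]
        exact hD 0 1 0 0 h1001 (by omega) (by omega) (by omega) (by omega)
      · show Finsupp.single (i 2) 1 ∈ pull Δ (i 3) φ3
        rw [← (m4_single (i := i) 1).2.2.1, hm4]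
        exact hD 0 0 1 0 h1001 (by omega) (by omega) (by omega) (by omega)
      · show Finsupp.single (i 3) 1 ∈ pull Δ (i 3) φ3
        rw [← (m4_single (i := i) 1).2.2.2, hm4]
        exact hD 0 0 0 1 h1001 (by omega) (by omega) (by omega) (by omega)
    · exact h1001
    · exact hD 0 1 0 1 h1001 (by omega) (by omega) (by omega) (by omega)
    · exact hD 0 0 1 1 h1001 (by omega) (by omega) (by omega) (by omega)
    · intro h'
      have := m4_inj hi h'
      omega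
    · intro h'
      have := m4_inj hi h'
      omega
    · intro h'
      have := m4_inj hi h'
      omega
    · intro b hb' hb2
      have e := eq_m4 hi (hsupp2 b hb')
      generalize b (i 0) = x0 at e
      generalize b (i 1) = x1 at e
      generalize b (i 2) = x2 at e
      generalize b (i 3) = x3 at e
      subst e
      rw [degree_m4] at hb2
      rcases (hfacts _ _ _ _ hb').2 hb2 with h1 | h1
      · subst h1
        have hx0 : x0 ≤ 1 := by omega
        have hx1 : x1 ≤ 1 := by omega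
        have hx2 : x2 = 1 - x0 - x1 := by omega
        subst hx2
        interval_cases x0
        · interval_cases x1
          · exact Or.inr (Or.inr (Or.inl rfl))
          · exact Or.inr (Or.inl rfl)
        · have hx1' : x1 = 0 := by omega
          subst hx1'
          exact Or.inl rfl
      · subst h1
        have hx0 : x0 = 0 := by omega
        have hx1 : x1 = 0 := by omega
        have hx3 : x3 = 0 := by omega
        subst hx0 hx1 hx3
        exact Or.inr (Or.inr (Or.inr ⟨i 2, (m4_single (i := i) 2).2.2.1⟩))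

end Pool.Agent.Helper87.HQ
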