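import Pool.Agent.Helper87.HQ.CaseA
import Pool.Agent.Helper87.HQ.CaseB

/-!
`comb4`: strong induction on `Δ.card`. If `e_0 + e_3 ∉ Δ`: `caseA`. Otherwise, if `rem Δ (i 3) 0 = {b | b + e_3 ∈ Δ}`
has at most two quadratic monomials: `caseB`. Otherwise `rem Δ (i 3) 0` satisfies all hypotheses of
`comb4` (`low_rem`, `rem_subset`, `mem_rem`; `e_0 ∈ rem` as `e_0 + e_3 ∈ Δ`) and has fewer elements
(`card_slice_add_rem`, the slice contains `0`): `hP`.

`comb`: let `q` be the number of quadratic monomials of `Δ`. If `q ≤ 2` then `single z 3 ∉ Δ` (`h3`), so `Δ`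
has no element of degree `≥ 3` (it would give, by stability and divisibility, `single z 3`), and
`few_quads` applies. If `q ≥ 3`: all variables are in `Δ` (`hall`). Let `i : Fin 4 → Fin n` be the last four
indices, `i a = n - 4 + a`. Drop the other coordinates one after another with `of_drop`: it is
enough to prove `P Δ'` for `Δ' = Δ.filter (fun b => ∀ l, b l ≠ 0 → ∃ a, l = i a)`. `comb4` applies to `Δ'`: `Δ`
contains `2 e_z`, `e_(z-1) + e_z` and one of `2 e_(z-1)`, `e_(z-2) + e_z` (as `q ≥ 3` and `Δ` is stable), all three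
are in `Δ'`.
-/

namespace Pool.Agent.Helper87.HQ

open Pool.Agent.Hilb61

variable {n : ℕ}

private lemma low_of_stable {Δ : Finset (Fin n →₀ ℕ)} (hS : Stable Δ) : Low Δ :=
  fun b i h => (hS b i h).1

private lemma stable_mv {Δ : Finset (Fin n →₀ ℕ)} (hS : Stable Δ) {u : Fin n →₀ ℕ} {p q : Fin n}
    (hpq : p ≤ q) (h : u + Finsupp.single p 1 ∈ Δ) : u + Finsupp.single q 1 ∈ Δ := by
  rcases eq_or_lt_of_le hpq with rfl | hlt
  · exact h
  · exact (hS u p h).2 q hlt

private lemma exists_pos {b : Fin n →₀ ℕ} (hb : b.degree ≠ 0) : ∃ p, b p ≠ 0 := by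
  by_contra hcon
  apply hb
  have h0 : b = 0 := by
    ext p
    by_contra hp
    exact hcon ⟨p, hp⟩
  rw [h0, map_zero]

private lemma exists_split {b : Fin n →₀ ℕ} {p : Fin n} (hp : b p ≠ 0) :
    ∃ u : Fin n →₀ ℕ, u + Finsupp.single p 1 = b :=
  ⟨b - Finsupp.single p 1, sub_add_single (Nat.one_le_iff_ne_zero.mpr hp)⟩

private lemma degree_add_one (u : Fin n →₀ ℕ) (p : Fin n) :
    (u + Finsupp.single p 1).degree = u.degree + 1 := by
  rw [map_add, Finsupp.degree_single]

private lemma quad_form {b : Fin n →₀ ℕ} (hb : b.degree = 2) :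
    ∃ p q : Fin n, p ≤ q ∧ Finsupp.single p 1 + Finsupp.single q 1 = b := by
  obtain ⟨p, hp⟩ := exists_pos (b := b) (by omega)
  obtain ⟨u, hu⟩ := exists_split hp
  have hu1 : u.degree = 1 := by
    have := degree_add_one u p
    rw [hu] at this
    omega
  obtain ⟨q, hq⟩ := exists_pos (b := u) (by omega)
  obtain ⟨v, hv⟩ := exists_split hq
  have hv1 : v.degree = 0 := by
    have := degree_add_one v q
    rw [hv] at this
    omega
  have hv0 : v = 0 := (Finsupp.degree_eq_zero_iff v).mp hv1
  rw [hv0, zero_add] at hv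
  rw [← hv] at hu
  rcases le_total p q with h | h
  · exact ⟨p, q, h, by rw [add_comm]; exact hu⟩
  · exact ⟨q, p, h, hu⟩

private lemma move_all {Δ : Finset (Fin n →₀ ℕ)} (hS : Stable Δ) {z : Fin n}
    (hz : ∀ i, i ≤ z) : ∀ (m : ℕ) (b : Fin n →₀ ℕ), b ∈ Δ → b.degree ≤ b z + m →
      Finsupp.single z b.degree ∈ Δ := by
  intro m
  induction m with
  | zero =>
    intro b hb hm
    have hex : ∃ u : Fin n →₀ ℕ, u + Finsupp.single z (b z) = b := by
      refine ⟨b - Finsupp.single z (b z), tsub_add_cancel_of_le ?_⟩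
      intro l
      by_cases hl : l = z
      · subst hl; simp
      · rw [Finsupp.single_eq_of_ne hl]; exact Nat.zero_le _
    obtain ⟨u, hu⟩ := hex
    have hd : b.degree = u.degree + b z := by
      have h1 : (u + Finsupp.single z (b z)).degree = u.degree + b z := by
        rw [map_add, Finsupp.degree_single]
      rw [hu] at h1
      exact h1
    have hu0 : u = 0 := (Finsupp.degree_eq_zero_iff u).mp (by omega)
    rw [hu0, zero_add] at hu
    rw [hd, hu0, map_zero, zero_add, hu]
    exact hb
  | succ m ih =>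
    intro b hb hm
    by_cases hle : b.degree ≤ b z + m
    · exact ih b hb hle
    · have hex : ∃ p, p ≠ z ∧ b p ≠ 0 := by
        by_contra hcon
        have hbz : b = Finsupp.single z (b z) := by
          ext p
          by_cases hp : p = z
          · subst hp; simp
          · rw [Finsupp.single_eq_of_ne hp]
            by_contra hp'
            exact hcon ⟨p, hp, hp'⟩
        have hdz : b.degree = b z := by
          conv_lhs => rw [hbz]
          rw [Finsupp.degree_single]
        omega
      obtain ⟨p, hpz, hp⟩ := hex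
      obtain ⟨u, hu⟩ := exists_split hp
      have hbm : u + Finsupp.single p 1 ∈ Δ := by rw [hu]; exact hb
      have hcm := stable_mv hS (hz p) hbm
      have hdeg : (u + Finsupp.single z 1).degree = b.degree := by
        rw [degree_add_one, ← hu, degree_add_one]
      have hval : (u + Finsupp.single z 1 : Fin n →₀ ℕ) z = b z + 1 := by
        have hbz : b z = u z := by
          rw [← hu, Finsupp.add_apply, Finsupp.single_eq_of_ne (Ne.symm hpz), add_zero]
        rw [Finsupp.add_apply, Finsupp.single_eq_same, hbz]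
      have h2 := ih (u + Finsupp.single z 1) hcm (by rw [hdeg, hval]; omega)
      rw [hdeg] at h2
      exact h2

private lemma of_drops (P : Finset (Fin n →₀ ℕ) → Prop)
    (hP : ∀ (Δ : Finset (Fin n →₀ ℕ)) (l : Fin n) (j : ℕ), Low Δ → P (rem Δ l j) → P Δ)
    (S : Finset (Fin n)) {Δ : Finset (Fin n →₀ ℕ)} (hΔ : Low Δ)
    (h : P (Δ.filter (fun b => ∀ l ∈ S, b l = 0))) : P Δ := by
  classical
  induction S using Finset.induction_on with
  | empty =>
    have he : Δ.filter (fun b => ∀ l ∈ (∅ : Finset (Fin n)), b l = 0) = Δ := by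
      apply Finset.filter_true_of_mem
      intro b _ l hl
      exact absurd hl (Finset.notMem_empty l)
    rw [he] at h
    exact h
  | insert l S _ ih =>
    apply ih
    have hlow : Low (Δ.filter (fun b => ∀ l ∈ S, b l = 0)) := by
      intro b i hb
      rw [Finset.mem_filter] at hb ⊢
      refine ⟨hΔ b i hb.1, fun l hl => ?_⟩
      have := hb.2 l hl
      rw [Finsupp.add_apply] at this
      omega
    apply of_drop P hP hlow l
    have he : (Δ.filter (fun b => ∀ l ∈ S, b l = 0)).filter (fun b => b l = 0) =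
        Δ.filter (fun b => ∀ l' ∈ insert l S, b l' = 0) := by
      ext b
      simp only [Finset.mem_filter, Finset.mem_insert]
      constructor
      · rintro ⟨⟨h1, h2⟩, h3⟩
        refine ⟨h1, fun l' hl' => ?_⟩
        rcases hl' with rfl | hl'
        · exact h3
        · exact h2 l' hl'
      · rintro ⟨h1, h2⟩
        exact ⟨⟨h1, fun l' hl' => h2 l' (Or.inr hl')⟩, h2 l (Or.inl rfl)⟩
    rw [he]
    exact h

theorem comb4 (P : Finset (Fin n →₀ ℕ) → Prop)
    (hP : ∀ (Δ : Finset (Fin n →₀ ℕ)) (l : Fin n) (j : ℕ), Low Δ → P (rem Δ l j) → P Δ)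
    (hb : ∀ Δ : Finset (Fin n →₀ ℕ), Low Δ → Δ.card = 8 → (∀ b ∈ Δ, b.degree ≤ 2) →
      4 ≤ (Finset.univ.filter (fun i : Fin n => Finsupp.single i 1 ∈ Δ)).card → P Δ)
    (i : Fin 4 → Fin n) (hi : Function.Injective i) {Δ : Finset (Fin n →₀ ℕ)} (hΔ : Low Δ)
    (hsupp : ∀ b ∈ Δ, ∀ l, b l ≠ 0 → ∃ a, l = i a)
    (hst : ∀ (u : Fin n →₀ ℕ) (a a' : Fin 4), a < a' → u + Finsupp.single (i a) 1 ∈ Δ →
      u + Finsupp.single (i a') 1 ∈ Δ)
    (hvar : Finsupp.single (i 0) 1 ∈ Δ)
    (hq : 3 ≤ (Δ.filter (fun b => b.degree = 2)).card) : P Δ := by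
  induction hm : Δ.card using Nat.strong_induction_on generalizing Δ with
  | _ m ih =>
  by_cases hA : Finsupp.single (i 0) 1 + Finsupp.single (i 3) 1 ∈ Δ
  · by_cases hB' : ((rem Δ (i 3) 0).filter (fun b => b.degree = 2)).card ≤ 2
    · exact caseB P hP hb i hi hΔ hsupp hst hA hB'
    · have hmem : ∀ b : Fin n →₀ ℕ, b ∈ rem Δ (i 3) 0 ↔ b + Finsupp.single (i 3) 1 ∈ Δ := by
        intro b
        rw [mem_rem]
        constructor
        · rintro (⟨h1, _⟩ | ⟨_, h2⟩)
          · omega
          · exact h2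
        · intro h2
          exact Or.inr ⟨Nat.zero_le _, h2⟩
      have h0 : (0 : Fin n →₀ ℕ) ∈ slice Δ (i 3) 0 := by
        rw [mem_slice]
        refine ⟨rfl, ?_⟩
        rw [Finsupp.single_zero, add_zero]
        exact hΔ 0 (i 0) (by rw [zero_add]; exact hvar)
      have hcard := card_slice_add_rem Δ (i 3) 0
      have hpos : 0 < (slice Δ (i 3) 0).card := Finset.card_pos.mpr ⟨0, h0⟩
      refine hP Δ (i 3) 0 hΔ (ih (rem Δ (i 3) 0).card (by omega) (low_rem hΔ (i 3) 0)
        (fun b hb' => hsupp b (rem_subset hΔ (i 3) 0 hb')) ?_ ?_ (by omega) rfl)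
      · intro u a a' haa h
        rw [hmem] at h ⊢
        rw [add_right_comm] at h ⊢
        exact hst _ a a' haa h
      · rw [hmem]
        exact hA
  · exact caseA P hP hb i hi hΔ hsupp hst hvar hq hA

theorem comb (P : Finset (Fin n →₀ ℕ) → Prop)
    (hP : ∀ (Δ : Finset (Fin n →₀ ℕ)) (l : Fin n) (j : ℕ), Low Δ → P (rem Δ l j) → P Δ)
    (hb : ∀ Δ : Finset (Fin n →₀ ℕ), Low Δ → Δ.card = 8 → (∀ b ∈ Δ, b.degree ≤ 2) →
      4 ≤ (Finset.univ.filter (fun i : Fin n => Finsupp.single i 1 ∈ Δ)).card → P Δ)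
    (hn : 4 ≤ n) (z : Fin n) (hz : ∀ i, i ≤ z) {Δ : Finset (Fin n →₀ ℕ)} (hS : Stable Δ)
    (hd : 8 ≤ Δ.card)
    (hall : (∃ b ∈ Δ, 2 ≤ b.degree) → ∀ i : Fin n, Finsupp.single i 1 ∈ Δ)
    (h3 : Finsupp.single z 3 ∈ Δ → 3 ≤ (Δ.filter (fun b => b.degree = 2)).card) : P Δ := by
  classical
  have hΔ : Low Δ := low_of_stable hS
  by_cases hq : (Δ.filter (fun b => b.degree = 2)).card ≤ 2
  · refine few_quads P hP hb hΔ ?_ hq hd
    intro b hbΔ
    by_contra hdeg
    have hsz := move_all hS hz b.degree b hbΔ (by omega)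
    have h3' : Finsupp.single z 3 ∈ Δ := by
      refine Low.le hΔ ?_ hsz
      intro l
      by_cases hl : l = z
      · subst hl
        rw [Finsupp.single_eq_same, Finsupp.single_eq_same]
        omega
      · rw [Finsupp.single_eq_of_ne hl]
        exact Nat.zero_le _
    have := h3 h3'
    omega
  · have hvars : ∀ i : Fin n, Finsupp.single i 1 ∈ Δ := by
      obtain ⟨b, hb'⟩ := Finset.card_pos.mp
        (show 0 < (Δ.filter (fun b => b.degree = 2)).card by omega)
      rw [Finset.mem_filter] at hb'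
      exact hall ⟨b, hb'.1, by omega⟩
    let i : Fin 4 → Fin n := fun a => ⟨n - 4 + (a : ℕ), by have := a.2; omega⟩
    have hival : ∀ a : Fin 4, ((i a : Fin n) : ℕ) = n - 4 + (a : ℕ) := fun _ => rfl
    have hi : Function.Injective i := by
      intro a a' haa
      have h1 : ((i a : Fin n) : ℕ) = ((i a' : Fin n) : ℕ) := by rw [haa]
      rw [hival, hival] at h1
      exact Fin.ext (by omega)
    have hlt : ∀ a a' : Fin 4, a < a' → i a < i a' := by
      intro a a' haa
      rw [Fin.lt_def, hival, hival]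
      rw [Fin.lt_def] at haa
      omega
    have hz3 : i 3 = z := by
      apply le_antisymm (hz _)
      rw [Fin.le_def, hival]
      have h1 := z.2
      have h2 : ((3 : Fin 4) : ℕ) = 3 := rfl
      omega
    -- every index is one of the last four, or below them
    have hle2 : ∀ p : Fin n, p ≠ i 3 → p ≤ i 2 := by
      intro p hp
      rw [Fin.le_def, hival]
      have h1 := p.2
      have h2 : ((2 : Fin 4) : ℕ) = 2 := rfl
      have h3 : ((3 : Fin 4) : ℕ) = 3 := rfl
      have h4 : (p : ℕ) ≠ ((i 3 : Fin n) : ℕ) := fun h => hp (Fin.ext h)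
      rw [hival] at h4
      omega
    have hle1 : ∀ p : Fin n, p ≠ i 3 → p ≠ i 2 → p ≤ i 1 := by
      intro p hp hp'
      rw [Fin.le_def, hival]
      have h0 : ((1 : Fin 4) : ℕ) = 1 := rfl
      have h1 := p.2
      have h2 : ((2 : Fin 4) : ℕ) = 2 := rfl
      have h3 : ((3 : Fin 4) : ℕ) = 3 := rfl
      have h4 : (p : ℕ) ≠ ((i 3 : Fin n) : ℕ) := fun h => hp (Fin.ext h)
      have h5 : (p : ℕ) ≠ ((i 2 : Fin n) : ℕ) := fun h => hp' (Fin.ext h)
      rw [hival] at h4 h5
      omega
    have hle3 : ∀ p : Fin n, p ≤ i 3 := fun p => by rw [hz3]; exact hz p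
    set S : Finset (Fin n) := Finset.univ.filter (fun l => ∀ a, l ≠ i a) with hSdef
    apply of_drops P hP S hΔ
    have hmemS : ∀ l, l ∉ S ↔ ∃ a, l = i a := by
      intro l
      rw [hSdef, Finset.mem_filter]
      constructor
      · intro h
        by_contra hcon
        exact h ⟨Finset.mem_univ _, fun a ha => hcon ⟨a, ha⟩⟩
      · rintro ⟨a, ha⟩ h
        exact h.2 a ha
    have hmem' : ∀ b : Fin n →₀ ℕ, b ∈ Δ.filter (fun b => ∀ l ∈ S, b l = 0) ↔
        b ∈ Δ ∧ ∀ l, b l ≠ 0 → ∃ a, l = i a := by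
      intro b
      rw [Finset.mem_filter]
      constructor
      · rintro ⟨h1, h2⟩
        refine ⟨h1, fun l hl => (hmemS l).mp (fun hlS => hl (h2 l hlS))⟩
      · rintro ⟨h1, h2⟩
        refine ⟨h1, fun l hlS => ?_⟩
        by_contra hl
        exact (hmemS l).mpr (h2 l hl) hlS
    have hsupp2 : ∀ a a' : Fin 4, ∀ l,
        (Finsupp.single (i a) 1 + Finsupp.single (i a') 1 : Fin n →₀ ℕ) l ≠ 0 →
          ∃ c, l = i c := by
      intro a a' l hl
      by_cases h1 : l = i a
      · exact ⟨a, h1⟩
      · by_cases h2 : l = i a'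
        · exact ⟨a', h2⟩
        · exfalso
          apply hl
          rw [Finsupp.add_apply, Finsupp.single_eq_of_ne h1, Finsupp.single_eq_of_ne h2, add_zero]
    refine comb4 P hP hb i hi ?_ ?_ ?_ ?_ ?_
    · intro b l hb'
      rw [hmem'] at hb' ⊢
      refine ⟨hΔ b l hb'.1, fun l' hl' => hb'.2 l' ?_⟩
      rw [Finsupp.add_apply]
      omega
    · intro b hb'
      exact ((hmem' b).mp hb').2
    · intro u a a' haa h
      rw [hmem'] at h ⊢
      refine ⟨(hS u (i a) h.1).2 (i a') (hlt a a' haa), fun l hl => ?_⟩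
      by_cases hla : l = i a'
      · exact ⟨a', hla⟩
      · rw [Finsupp.add_apply, Finsupp.single_eq_of_ne hla, add_zero] at hl
        apply h.2 l
        rw [Finsupp.add_apply]
        omega
    · rw [hmem']
      refine ⟨hvars (i 0), fun l hl => ?_⟩
      by_cases hl0 : l = i 0
      · exact ⟨0, hl0⟩
      · exfalso
        exact hl (Finsupp.single_eq_of_ne hl0)
    · -- three quadratic monomials
      have hdeg2 : ∀ p q : Fin n,
          (Finsupp.single p 1 + Finsupp.single q 1 : Fin n →₀ ℕ).degree = 2 := by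
        intro p q
        rw [map_add, Finsupp.degree_single, Finsupp.degree_single]
      have hmv2 : ∀ p q p' q' : Fin n, p ≤ p' → q ≤ q' →
          Finsupp.single p 1 + Finsupp.single q 1 ∈ Δ →
          Finsupp.single p' 1 + Finsupp.single q' 1 ∈ Δ := by
        intro p q p' q' hp hq' h
        have h1 := stable_mv hS hq' h
        rw [add_comm] at h1
        have h2 := stable_mv hS hp h1
        rw [add_comm] at h2
        exact h2
      have hne : ∀ p q p' q' l : Fin n, l ≠ p → l ≠ q → (l = p' ∨ l = q') →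
          (Finsupp.single p 1 + Finsupp.single q 1 : Fin n →₀ ℕ) ≠
            Finsupp.single p' 1 + Finsupp.single q' 1 := by
        intro p q p' q' l hp hq' hor heq
        have e1 : (Finsupp.single p 1 + Finsupp.single q 1 : Fin n →₀ ℕ) l =
            (Finsupp.single p' 1 + Finsupp.single q' 1 : Fin n →₀ ℕ) l := by rw [heq]
        rw [Finsupp.add_apply, Finsupp.add_apply, Finsupp.single_eq_of_ne hp,
          Finsupp.single_eq_of_ne hq'] at e1
        rcases hor with h | h
        · rw [h, Finsupp.single_eq_same] at e1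
          omega
        · rw [h, Finsupp.single_eq_same] at e1
          omega
      have hA3 : 2 < (Δ.filter (fun b => b.degree = 2)).card := by omega
      -- the first one
      have hone : Finsupp.single (i 3) 1 + Finsupp.single (i 3) 1 ∈ Δ := by
        obtain ⟨b, hb'⟩ := Finset.card_pos.mp
          (show 0 < (Δ.filter (fun b => b.degree = 2)).card by omega)
        rw [Finset.mem_filter] at hb'
        obtain ⟨p, q, _, hpqb⟩ := quad_form hb'.2
        rw [← hpqb] at hb'
        exact hmv2 p q _ _ (hle3 p) (hle3 q) hb'.1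
      have htwo : Finsupp.single (i 2) 1 + Finsupp.single (i 3) 1 ∈ Δ := by
        obtain ⟨b, hb', hbn⟩ := Finset.exists_mem_notMem_of_card_lt_card
          (s := {Finsupp.single (i 3) 1 + Finsupp.single (i 3) 1})
          (t := Δ.filter (fun b => b.degree = 2)) (by
            rw [Finset.card_singleton]; omega)
        rw [Finset.mem_filter] at hb'
        obtain ⟨p, q, hpq, hpqb⟩ := quad_form hb'.2
        have hp3 : p ≠ i 3 := by
          intro hp
          apply hbn
          rw [Finset.mem_singleton, ← hpqb]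
          have hq3 : q = i 3 := le_antisymm (hle3 q) (by rw [← hp]; exact hpq)
          rw [hp, hq3]
        rw [← hpqb] at hb'
        exact hmv2 p q _ _ (hle2 p hp3) (hle3 q) hb'.1
      have hthree : Finsupp.single (i 2) 1 + Finsupp.single (i 2) 1 ∈ Δ ∨
          Finsupp.single (i 1) 1 + Finsupp.single (i 3) 1 ∈ Δ := by
        obtain ⟨b, hb', hbn⟩ := Finset.exists_mem_notMem_of_card_lt_card
          (s := {Finsupp.single (i 3) 1 + Finsupp.single (i 3) 1,
            Finsupp.single (i 2) 1 + Finsupp.single (i 3) 1})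
          (t := Δ.filter (fun b => b.degree = 2))
          (lt_of_le_of_lt Finset.card_le_two hA3)
        rw [Finset.mem_filter] at hb'
        obtain ⟨p, q, hpq, hpqb⟩ := quad_form hb'.2
        rw [Finset.mem_insert, Finset.mem_singleton, not_or] at hbn
        by_cases hq3 : q = i 3
        · right
          have hp3 : p ≠ i 3 := by
            intro hp
            exact hbn.1 (by rw [← hpqb, hp, hq3])
          have hp2 : p ≠ i 2 := by
            intro hp
            exact hbn.2 (by rw [← hpqb, hp, hq3])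
          rw [← hpqb] at hb'
          exact hmv2 p q _ _ (hle1 p hp3 hp2) (hle3 q) hb'.1
        · left
          have hq2 := hle2 q hq3
          rw [← hpqb] at hb'
          exact hmv2 p q _ _ (hpq.trans hq2) hq2 hb'.1
      have h23 : i 2 < i 3 := hlt 2 3 (by decide)
      have h12 : i 1 < i 2 := hlt 1 2 (by decide)
      have h13 : i 1 < i 3 := h12.trans h23
      rw [Nat.succ_le_iff, Finset.two_lt_card]
      have hin : ∀ a a' : Fin 4, Finsupp.single (i a) 1 + Finsupp.single (i a') 1 ∈ Δ →
          Finsupp.single (i a) 1 + Finsupp.single (i a') 1 ∈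
            (Δ.filter (fun b => ∀ l ∈ S, b l = 0)).filter (fun b => b.degree = 2) := by
        intro a a' h
        rw [Finset.mem_filter, hmem']
        exact ⟨⟨h, hsupp2 a a'⟩, hdeg2 _ _⟩
      rcases hthree with h | h
      · refine ⟨_, hin 3 3 hone, _, hin 2 3 htwo, _, hin 2 2 h, ?_, ?_, ?_⟩
        · exact hne _ _ _ _ (i 2) h23.ne h23.ne (Or.inl rfl)
        · exact hne _ _ _ _ (i 2) h23.ne h23.ne (Or.inl rfl)
        · exact (hne _ _ _ _ (i 3) h23.ne' h23.ne' (Or.inr rfl)).symm
      · refine ⟨_, hin 3 3 hone, _, hin 2 3 htwo, _, hin 1 3 h, ?_, ?_, ?_⟩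
        · exact hne _ _ _ _ (i 2) h23.ne h23.ne (Or.inl rfl)
        · exact hne _ _ _ _ (i 1) h13.ne h13.ne (Or.inl rfl)
        · exact hne _ _ _ _ (i 1) h12.ne h13.ne (Or.inl rfl)

end Pool.Agent.Helper87.HQ
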