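import Pool.Agent.Helper61.HilbMax
import Pool.Agent.Helper61.HilbAdd

/-!
# Project HQ: definitions

`Few` is the set of framed commuting tuples with fewer first-order deformations than a
smoothable scheme has; `CL` is its Zariski closure.
-/

open MvPolynomial Module Matrix

namespace Pool.Agent.Helper87.HQ

open Pool.Agent.Hilb61

universe u

/-- Framed commuting tuples with few first-order deformations. -/
def Few (k : Type u) [Field k] (n d : ℕ) : Set (Coord n d → k) :=
  {c | c ∈ Cset k n d ∧ finrank k (ZC (mats c)) + d < n * d + d ^ 2}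

/-- The Zariski closure of `Few`. -/
def CL (k : Type u) [Field k] (n d : ℕ) : Set (Coord n d → k) :=
  {c | ∀ f : MvPolynomial (Coord n d) k, (∀ c' ∈ Few k n d, eval c' f = 0) → eval c f = 0}

variable {k : Type u} [Field k] {n d d1 d2 : ℕ}

/-- Block diagonal matrices. -/
def bsM (M : Matrix (Fin d1) (Fin d1) k) (N : Matrix (Fin d2) (Fin d2) k) :
    Matrix (Fin (d1 + d2)) (Fin (d1 + d2)) k :=
  (Matrix.fromBlocks M 0 0 N).reindex finSumFinEquiv finSumFinEquiv

/-- Block sum of framed tuples. -/
def bs (c1 : Coord n d1 → k) (c2 : Coord n d2 → k) : Coord n (d1 + d2) → k :=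
  mk (fun i => bsM (mats c1 i) (mats c2 i))
    (fun r => Sum.elim (vect c1) (vect c2) (finSumFinEquiv.symm r))

/-- Lower sets. -/
def Low (Δ : Finset (Fin n →₀ ℕ)) : Prop :=
  ∀ (b : Fin n →₀ ℕ) (i : Fin n), b + Finsupp.single i 1 ∈ Δ → b ∈ Δ

/-- `Δ` with the level `j` of the coordinate `l` removed. -/
noncomputable def rem (Δ : Finset (Fin n →₀ ℕ)) (l : Fin n) (j : ℕ) : Finset (Fin n →₀ ℕ) := by
  classical exact (Δ.filter (fun b => b l < j)) ∪
    ((Δ.filter (fun b => j < b l)).image (fun b => b - Finsupp.single l 1))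

/-- The level `j` of the coordinate `l` of `Δ`. -/
noncomputable def slice (Δ : Finset (Fin n →₀ ℕ)) (l : Fin n) (j : ℕ) :
    Finset (Fin n →₀ ℕ) := by
  classical exact (Δ.filter (fun b => b l = j)).image (fun b => b - Finsupp.single l j)

/-- The monomial scheme of `Δ` is in the closure of the schemes with few deformations. -/
def Good (k : Type u) [Field k] {n : ℕ} (Δ : Finset (Fin n →₀ ℕ)) : Prop :=
  ∀ (d : ℕ) (mon : Fin d → (Fin n →₀ ℕ)), IsOrd mon → Dlt mon = Δ → c00 k mon ∈ CL k n d

/-- The re-embedding `x_l ↦ x_l + t x_m ^ s`. -/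
noncomputable def ree (l m : Fin n) (s : ℕ) (t : k) (c : Coord n d → k) : Coord n d → k :=
  mk (fun i => if i = l then mats c l + t • mats c m ^ s else mats c i) (vect c)

end Pool.Agent.Helper87.HQ
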