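import Pool.Agent.Helper87.HQ.Pull

/-!
Lower sets with elements of degree at most 2. PROOFS.
`few_quads`: induction on `Δ.card`. If it is 8: `hb` (there are `7 - q ≥ 5` variables). Otherwise the
number of variables is `Δ.card - 1 - q ≥ 6`, and the at most 2 quadratic monomials involve at most 4
variables, so there is a variable `l` with `single l 1 ∈ Δ` and no quadratic monomial of `Δ` involving
`l`; `rem Δ l 1 = Δ.erase (single l 1)` (`mem_rem`), use `hP`.
`graph`: `q` = number of quadratic monomials. If `q = 3` then `Δ.card = 1 + 4 + 3 = 8`: `hb`. If `q > 3` there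
is a loop `single i 2 ∈ Δ`; `rem Δ i 2 = Δ.erase (single i 2)` has one loop and one quadratic monomial
less; use `hP`. Induction on `q`.
(`0 ∈ Δ` as `Δ` is a nonempty lower set; the elements of degree 1 are the `single i 1`.)
-/

namespace Pool.Agent.Helper87.HQ

open Pool.Agent.Hilb61

variable {n : ℕ}

private theorem deg_erase (b : Fin n →₀ ℕ) (i : Fin n) :
    (b.erase i).degree + b i = b.degree := by
  conv_rhs => rw [← Finsupp.erase_add_single i b]
  rw [map_add, Finsupp.degree_single]

private theorem eq_single_of {b : Fin n →₀ ℕ} {i : Fin n} (h : b.degree ≤ b i) :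
    b = Finsupp.single i (b i) := by
  have h1 := deg_erase b i
  have h2 : (b.erase i).degree = 0 := by omega
  rw [Finsupp.degree_eq_zero_iff] at h2
  conv_lhs => rw [← Finsupp.erase_add_single i b]
  rw [h2, zero_add]

private theorem exists_pos {b : Fin n →₀ ℕ} (h : b.degree ≠ 0) : ∃ i, 1 ≤ b i := by
  by_contra hc
  push Not at hc
  apply h
  rw [Finsupp.degree_eq_zero_iff]
  ext i
  have := hc i
  simp only [Finsupp.coe_zero, Pi.zero_apply]
  omega

private theorem card_supp_le (b : Fin n →₀ ℕ) : b.support.card ≤ b.degree := by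
  rw [Finsupp.degree_apply, Finset.card_eq_sum_ones]
  apply Finset.sum_le_sum
  intro i hi
  have := Finsupp.mem_support_iff.mp hi
  omega

private theorem card_low {Δ : Finset (Fin n →₀ ℕ)} (hΔ : Low Δ) (hdeg : ∀ b ∈ Δ, b.degree ≤ 2)
    (hne : 0 < Δ.card) :
    Δ.card = 1 + (Finset.univ.filter (fun i : Fin n => Finsupp.single i 1 ∈ Δ)).card
      + (Δ.filter (fun b => b.degree = 2)).card := by
  classical
  obtain ⟨b0, hb0⟩ := Finset.card_pos.mp hne
  have h0 : (0 : Fin n →₀ ℕ) ∈ Δ := hΔ.le (zero_le) hb0
  have h1 := Finset.card_filter_add_card_filter_not (s := Δ) (fun b => b.degree = 2)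
  have h2 : Δ.filter (fun b => ¬ b.degree = 2)
      = insert 0 ((Finset.univ.filter (fun i : Fin n => Finsupp.single i 1 ∈ Δ)).image
          (fun i => Finsupp.single i 1)) := by
    ext b
    simp only [Finset.mem_filter, Finset.mem_insert, Finset.mem_image, Finset.mem_univ, true_and]
    constructor
    · rintro ⟨hb, hd⟩
      by_cases hz : b.degree = 0
      · left
        exact Finsupp.degree_eq_zero_iff b |>.mp hz
      · right
        obtain ⟨i, hi⟩ := exists_pos hz
        have h3 := hdeg b hb
        have h4 : b.degree ≤ b i := by omega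
        have h5 := eq_single_of h4
        have h6 : b i = 1 := by
          have := deg_erase b i
          omega
        rw [h6] at h5
        exact ⟨i, h5 ▸ hb, h5.symm⟩
    · rintro (h | ⟨i, hi, h⟩)
      · subst h
        refine ⟨h0, ?_⟩
        simp
      · subst h
        refine ⟨hi, ?_⟩
        simp
  have h3 : (0 : Fin n →₀ ℕ) ∉ (Finset.univ.filter (fun i : Fin n => Finsupp.single i 1 ∈ Δ)).image
          (fun i => Finsupp.single i 1) := by
    simp
  rw [h2, Finset.card_insert_of_notMem h3,
    Finset.card_image_of_injective _ (Finsupp.single_left_injective one_ne_zero)] at h1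
  omega

theorem few_quads (P : Finset (Fin n →₀ ℕ) → Prop)
    (hP : ∀ (Δ : Finset (Fin n →₀ ℕ)) (l : Fin n) (j : ℕ), Low Δ → P (rem Δ l j) → P Δ)
    (hb : ∀ Δ : Finset (Fin n →₀ ℕ), Low Δ → Δ.card = 8 → (∀ b ∈ Δ, b.degree ≤ 2) →
      4 ≤ (Finset.univ.filter (fun i : Fin n => Finsupp.single i 1 ∈ Δ)).card → P Δ)
    {Δ : Finset (Fin n →₀ ℕ)} (hΔ : Low Δ) (hdeg : ∀ b ∈ Δ, b.degree ≤ 2)
    (hq : (Δ.filter (fun b => b.degree = 2)).card ≤ 2) (hd : 8 ≤ Δ.card) : P Δ := by
  classical
  obtain ⟨c, hc⟩ : ∃ c, Δ.card = c + 8 := ⟨Δ.card - 8, by omega⟩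
  clear hd
  induction c generalizing Δ with
  | zero =>
    apply hb Δ hΔ (by omega) hdeg
    have := card_low hΔ hdeg (by omega)
    omega
  | succ c ih =>
    have hcard := card_low hΔ hdeg (by omega)
    -- a variable outside the quadratic monomials
    have hU : ((Δ.filter (fun b => b.degree = 2)).biUnion Finsupp.support).card ≤ 4 := by
      refine Finset.card_biUnion_le.trans ?_
      have h1 : ∑ b ∈ Δ.filter (fun b => b.degree = 2), b.support.card
          ≤ ∑ b ∈ Δ.filter (fun b => b.degree = 2), 2 := by
        apply Finset.sum_le_sum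
        intro b hb
        have := card_supp_le b
        rw [(Finset.mem_filter.mp hb).2] at this
        exact this
      rw [Finset.sum_const, smul_eq_mul] at h1
      omega
    obtain ⟨l, hl, hlU⟩ := Finset.exists_mem_notMem_of_card_lt_card
      (s := (Δ.filter (fun b => b.degree = 2)).biUnion Finsupp.support)
      (t := Finset.univ.filter (fun i : Fin n => Finsupp.single i 1 ∈ Δ)) (by omega)
    have hl1 : Finsupp.single l 1 ∈ Δ := (Finset.mem_filter.mp hl).2
    have hno : ∀ b ∈ Δ, b.degree = 2 → b l = 0 := by
      intro b hb hd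
      by_contra h
      apply hlU
      rw [Finset.mem_biUnion]
      exact ⟨b, Finset.mem_filter.mpr ⟨hb, hd⟩, Finsupp.mem_support_iff.mpr h⟩
    have hrem : rem Δ l 1 = Δ.erase (Finsupp.single l 1) := by
      ext b
      rw [mem_rem, Finset.mem_erase]
      constructor
      · rintro (⟨h1, h2⟩ | ⟨h1, h2⟩)
        · refine ⟨?_, h2⟩
          rintro rfl
          simp at h1
        · exfalso
          have h3 := hdeg _ h2
          have h4 := deg_erase b l
          have h5 : (b + Finsupp.single l 1).degree = b.degree + 1 := by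
            rw [map_add, Finsupp.degree_single]
          have h6 := hno _ h2 (by omega)
          rw [Finsupp.add_apply, Finsupp.single_eq_same] at h6
          omega
      · rintro ⟨h1, h2⟩
        left
        refine ⟨?_, h2⟩
        by_contra h3
        apply h1
        have h4 := hdeg b h2
        have h5 := deg_erase b l
        have h6 : b.degree ≠ 2 := by
          intro h
          have := hno b h2 h
          omega
        have h7 : b l = 1 := by omega
        have h8 := eq_single_of (b := b) (i := l) (by omega)
        rw [h7] at h8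
        exact h8
    apply hP Δ l 1 hΔ
    have hlow := low_rem hΔ l 1
    rw [hrem] at hlow ⊢
    apply ih hlow
    · intro b hb
      exact hdeg b (Finset.mem_of_mem_erase hb)
    · refine (Finset.card_le_card ?_).trans hq
      exact Finset.filter_subset_filter _ (Finset.erase_subset _ _)
    · rw [Finset.card_erase_of_mem hl1]
      omega

theorem graph (P : Finset (Fin n →₀ ℕ) → Prop)
    (hP : ∀ (Δ : Finset (Fin n →₀ ℕ)) (l : Fin n) (j : ℕ), Low Δ → P (rem Δ l j) → P Δ)
    (hb : ∀ Δ : Finset (Fin n →₀ ℕ), Low Δ → Δ.card = 8 → (∀ b ∈ Δ, b.degree ≤ 2) →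
      4 ≤ (Finset.univ.filter (fun i : Fin n => Finsupp.single i 1 ∈ Δ)).card → P Δ)
    {Δ : Finset (Fin n →₀ ℕ)} (hΔ : Low Δ) (hdeg : ∀ b ∈ Δ, b.degree ≤ 2)
    (hv : (Finset.univ.filter (fun i : Fin n => Finsupp.single i 1 ∈ Δ)).card = 4)
    (hq : 3 ≤ (Δ.filter (fun b => b.degree = 2)).card)
    (hl : (Δ.filter (fun b => b.degree = 2)).card ≤
      3 + (Finset.univ.filter (fun i : Fin n => Finsupp.single i 2 ∈ Δ)).card) : P Δ := by
  classical
  obtain ⟨c, hc⟩ : ∃ c, (Δ.filter (fun b => b.degree = 2)).card = c + 3 :=
    ⟨(Δ.filter (fun b => b.degree = 2)).card - 3, by omega⟩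
  clear hq
  induction c generalizing Δ with
  | zero =>
    have hpos : 0 < Δ.card := by
      have := Finset.card_le_card (Finset.filter_subset (fun b => b.degree = 2) Δ)
      omega
    have := card_low hΔ hdeg hpos
    exact hb Δ hΔ (by omega) hdeg (by omega)
  | succ c ih =>
    have hpos : 0 < (Finset.univ.filter (fun i : Fin n => Finsupp.single i 2 ∈ Δ)).card := by
      omega
    obtain ⟨i, hi⟩ := Finset.card_pos.mp hpos
    have hi2 : Finsupp.single i 2 ∈ Δ := (Finset.mem_filter.mp hi).2
    have hrem : rem Δ i 2 = Δ.erase (Finsupp.single i 2) := by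
      ext b
      rw [mem_rem, Finset.mem_erase]
      constructor
      · rintro (⟨h1, h2⟩ | ⟨h1, h2⟩)
        · refine ⟨?_, h2⟩
          rintro rfl
          simp at h1
        · exfalso
          have h3 := hdeg _ h2
          have h4 := deg_erase b i
          rw [map_add, Finsupp.degree_single] at h3
          omega
      · rintro ⟨h1, h2⟩
        left
        refine ⟨?_, h2⟩
        by_contra h3
        apply h1
        have h4 := hdeg b h2
        have h5 := deg_erase b i
        have h7 : b i = 2 := by omega
        have h8 := eq_single_of (b := b) (i := i) (by omega)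
        rw [h7] at h8
        exact h8
    apply hP Δ i 2 hΔ
    have hlow := low_rem hΔ i 2
    rw [hrem] at hlow ⊢
    have hne : ∀ j : Fin n, (Finsupp.single j 1 : Fin n →₀ ℕ) ≠ Finsupp.single i 2 := by
      intro j h
      have := congrArg Finsupp.degree h
      simp at this
    have hv' : (Finset.univ.filter
        (fun j : Fin n => Finsupp.single j 1 ∈ Δ.erase (Finsupp.single i 2)))
        = Finset.univ.filter (fun j : Fin n => Finsupp.single j 1 ∈ Δ) := by
      apply Finset.filter_congr
      intro j _
      rw [Finset.mem_erase]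
      exact ⟨fun h => h.2, fun h => ⟨hne j, h⟩⟩
    have hl' : (Finset.univ.filter
        (fun j : Fin n => Finsupp.single j 2 ∈ Δ.erase (Finsupp.single i 2)))
        = (Finset.univ.filter (fun j : Fin n => Finsupp.single j 2 ∈ Δ)).erase i := by
      ext j
      simp only [Finset.mem_filter, Finset.mem_univ, true_and, Finset.mem_erase]
      have e : ((Finsupp.single j 2 : Fin n →₀ ℕ) ≠ Finsupp.single i 2) ↔ j ≠ i := by
        rw [not_iff_not]
        exact (Finsupp.single_left_injective (two_ne_zero)).eq_iff
      rw [e]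
    have hq' : ((Δ.erase (Finsupp.single i 2)).filter (fun b => b.degree = 2))
        = (Δ.filter (fun b => b.degree = 2)).erase (Finsupp.single i 2) := by
      ext b
      simp only [Finset.mem_filter, Finset.mem_erase]
      tauto
    have hmem : Finsupp.single i 2 ∈ Δ.filter (fun b => b.degree = 2) := by
      rw [Finset.mem_filter]
      exact ⟨hi2, by simp⟩
    apply ih hlow
    · intro b hb
      exact hdeg b (Finset.mem_of_mem_erase hb)
    · rw [hv', hv]
    · rw [hq', hl', Finset.card_erase_of_mem hmem, Finset.card_erase_of_mem hi]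
      omega
    · rw [hq', Finset.card_erase_of_mem hmem]
      omega

end Pool.Agent.Helper87.HQ
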