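import Pool.Agent.Helper87.HQ.Defs

/-!
THEOREM `greedy`: degeneration of a framed tuple in `Zset` to a monomial one whose total weight is at
most that of any set of `d` monomials with independent classes.

PROOF. `hy` gives `span (range V) = ⊤` (`LinearIndependent.span_eq_top_of_card_eq_finrank'`). `exists_std`
(Helper61/HilbDeg.lean) and `degen_c00` (Helper61/HilbDegH.lean) give `mon`, in `Zset`, with the bound for
`tanR`. Weights: for every `T`, the number of `s` with `phi w (y s) < T` is at most
`finrank (FF V w T)` (`card_le_finrank_of_indep`, `mem_FF`), which is at most the number of `s` with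
`phi w (mon s) < T` (see `hup` in the proof of `exists_better_H`, Helper61/HilbStabH.lean). So
`∑ phi w (mon s) ≤ ∑ phi w (y s)`: if not, `f = phi w ∘ y`, `g = phi w ∘ mon` and, as
`∑ f = ∑_{T < L} (d - #{f < T + 1})`, compare termwise; or apply `sum_lt_of_count` (Helper61/HilbStab.lean)
with `g' = g`, `f' = f + 1` ... (any proof).
-/

open MvPolynomial Module Matrix

namespace Pool.Agent.Helper87.HQ

open Pool.Agent.Hilb61

universe u

variable {k : Type u} [Field k] {n d : ℕ}

theorem sum_le_of_count {f g : Fin d → ℕ}
    (h : ∀ T, (Finset.univ.filter (fun s => f s < T)).card ≤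
      (Finset.univ.filter (fun s => g s < T)).card) : ∑ s, g s ≤ ∑ s, f s := by
  classical
  set L : ℕ := ∑ s, f s + ∑ s, g s with hL
  have hf : ∀ s, f s ≤ L := fun s =>
    (Finset.single_le_sum (f := f) (fun _ _ => Nat.zero_le _) (Finset.mem_univ s)).trans
      (Nat.le_add_right _ _)
  have hg : ∀ s, g s ≤ L := fun s =>
    (Finset.single_le_sum (f := g) (fun _ _ => Nat.zero_le _) (Finset.mem_univ s)).trans
      (Nat.le_add_left _ _)
  have key : ∀ F : Fin d → ℕ, (∀ s, F s ≤ L) → ∑ s, F s =
      ∑ T ∈ Finset.range L, (Finset.univ.filter (fun s => T < F s)).card := by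
    intro F hF
    simp only [Finset.card_filter]
    rw [Finset.sum_comm]
    apply Finset.sum_congr rfl
    intro s _
    rw [← Finset.card_filter]
    have h1 : (Finset.range L).filter (fun T => T < F s) = Finset.range (F s) := by
      ext T
      rw [Finset.mem_filter, Finset.mem_range, Finset.mem_range]
      have := hF s
      omega
    rw [h1, Finset.card_range]
  rw [key f hf, key g hg]
  apply Finset.sum_le_sum
  intro T _
  have h1 := h (T + 1)
  have h2 : ∀ F : Fin d → ℕ, (Finset.univ.filter (fun s => T < F s)).card +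
      (Finset.univ.filter (fun s => F s < T + 1)).card = d := by
    intro F
    have h3 := Finset.card_filter_add_card_filter_not (s := (Finset.univ : Finset (Fin d)))
      (fun s => T < F s)
    rw [Finset.card_univ, Fintype.card_fin] at h3
    have h4 : Finset.univ.filter (fun s => F s < T + 1) =
        Finset.univ.filter (fun s => ¬ T < F s) := by
      ext s
      simp only [Finset.mem_filter, Finset.mem_univ, true_and]
      omega
    rw [h4]
    exact h3
  have h3 := h2 f
  have h4 := h2 g
  omega

theorem greedy [Infinite k] {w : Fin n → ℕ} (hw1 : ∀ i, 1 ≤ w i)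
    (hw3 : ∀ B C : Fin n →₀ ℕ, (∀ i, B i < d) → (∀ i, C i < d) → phi w B = phi w C → B = C)
    {c : Coord n d → k} (hc : c ∈ Zset k n d) {V : (Fin n →₀ ℕ) → (Fin d → k)}
    (hV : ∀ B i, V (B + Finsupp.single i 1) = mats c i *ᵥ V B) (h0 : V 0 = vect c)
    (y : Fin d → (Fin n →₀ ℕ)) (hy : LinearIndependent k (fun s => V (y s))) :
    ∃ mon : Fin d → (Fin n →₀ ℕ), IsOrd mon ∧ c00 k mon ∈ Zset k n d ∧
      finrank k (tanR c) ≤ finrank k (tanR (c00 k mon)) ∧
      ∑ s, phi w (mon s) ≤ ∑ s, phi w (y s) := by
  classical
  have hspan : Submodule.span k (Set.range V) = ⊤ := by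
    rw [eq_top_iff, ← hy.span_eq_top_of_card_eq_finrank' (by simp)]
    apply Submodule.span_mono
    rintro _ ⟨s, rfl⟩
    exact ⟨y s, rfl⟩
  obtain ⟨mon, b, hord, hstd, hall, hb⟩ := exists_std hV hspan hw1 hw3
  obtain ⟨h5, h6⟩ := degen_c00 hc hV h0 hstd hall hb
  refine ⟨mon, hord, h5, h6, ?_⟩
  have hup : ∀ T, finrank k (FF V w T) ≤
      (Finset.univ.filter (fun s => phi w (mon s) < T)).card := by
    intro T
    have h1 : FF V w T ≤
        Submodule.span k (Set.range fun s : {s // phi w (mon s) < T} => V (mon s.1)) := by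
      rw [FF_eq]
      apply Submodule.span_mono
      rintro _ ⟨B, hB, hB', rfl⟩
      obtain ⟨s, rfl⟩ := hall B hB
      exact ⟨⟨s, hB'⟩, rfl⟩
    have h2 := finrank_range_le_card (R := k)
      (fun s : {s // phi w (mon s) < T} => V (mon s.1))
    rw [Fintype.card_subtype] at h2
    exact (Submodule.finrank_mono h1).trans h2
  apply sum_le_of_count
  intro T
  refine le_trans ?_ (hup T)
  rw [← Fintype.card_subtype]
  exact card_le_finrank_of_indep
    (x := fun s : {s // phi w (y s) < T} => V (y s.1))
    (hy.comp _ Subtype.val_injective) (fun s => mem_FF s.2)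

end Pool.Agent.Helper87.HQ
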