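import Pool.Agent.Helper87.HQ.Swg
import Pool.Agent.Helper61.HilbPow
import Pool.Agent.Helper61.HilbMax

/-!
Degeneration of a maximiser to a strongly stable monomial point which cannot be improved, when
`1, .., 2 r` are nonzero in the field and `d < C(n + r, n)`.
-/

open MvPolynomial Module Matrix

namespace Pool.Agent.Helper87.HQ

open Pool.Agent.Hilb61

universe u

variable {k : Type u} [Field k] {n d : ℕ}

private theorem exists_weight3 (n d : ℕ) : ∃ w : Fin n → ℕ, (∀ i, 1 ≤ w i) ∧
    (∀ i j, i < j → w j < w i) ∧ (∀ i j, w i < 2 * w j) ∧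
    ∀ B C : Fin n →₀ ℕ, (∀ i, B i < d) → (∀ i, C i < d) → phi w B = phi w C → B = C := by
  obtain ⟨w, hw1, hw2, hw3⟩ := exists_weight n d
  have hsum : ∀ i, w i ≤ ∑ j, w j := fun i =>
    Finset.single_le_sum (fun _ _ => Nat.zero_le _) (Finset.mem_univ i)
  set S : ℕ := ∑ j, w j with hS
  refine ⟨fun i => (S * (d + 1) + 1) + w i, fun i => ?_, fun i j hij => ?_,
    fun i j => ?_, ?_⟩
  · show 1 ≤ (S * (d + 1) + 1) + w i
    omega
  · have := hw2 i j hij
    show (S * (d + 1) + 1) + w j < (S * (d + 1) + 1) + w i
    omega
  · have h1 := hsum i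
    have h2 : S ≤ S * (d + 1) := Nat.le_mul_of_pos_right S (by omega)
    show (S * (d + 1) + 1) + w i < 2 * ((S * (d + 1) + 1) + w j)
    omega
  · intro B C hB hC h
    have hphi : ∀ D : Fin n →₀ ℕ, phi (fun i => (S * (d + 1) + 1) + w i) D =
        (S * (d + 1) + 1) * (∑ i, D i) + phi w D := by
      intro D
      rw [phi, phi, Finset.mul_sum, ← Finset.sum_add_distrib]
      exact Finset.sum_congr rfl fun i _ => add_mul _ _ _
    have hlt : ∀ D : Fin n →₀ ℕ, (∀ i, D i < d) → phi w D < S * (d + 1) + 1 := by
      intro D hD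
      have h1 : phi w D ≤ S * (d + 1) := by
        rw [phi, hS, Finset.sum_mul]
        apply Finset.sum_le_sum
        intro i _
        have := hD i
        exact Nat.mul_le_mul_left _ (by omega)
      omega
    rw [hphi, hphi] at h
    have hB' := hlt B hB
    have hC' := hlt C hC
    have h2 : phi w B = phi w C := by
      have h3 := congrArg (· % (S * (d + 1) + 1)) h
      simp only [Nat.mul_add_mod] at h3
      rwa [Nat.mod_eq_of_lt hB', Nat.mod_eq_of_lt hC'] at h3
    exact hw3 B C hB hC h2

/-- Degeneration to a monomial point. -/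
private theorem exists_mono_max [Infinite k] {x : Hilb k n d} (hx : x ∈ smoothable k n d)
    {N : ℕ} (hN : HasTangentDim x N) :
    ∃ mon : Fin d → (Fin n →₀ ℕ), IsOrd mon ∧ c00 k mon ∈ Zset k n d ∧
      N + d ^ 2 ≤ finrank k (tanR (c00 k mon)) := by
  obtain ⟨lam, c, hc, rfl⟩ := hN
  obtain ⟨w, hw1, -, hw3⟩ := exists_weight n d
  have hcomm := coords_comm hc
  have hcyc := coords_cyclic hc
  let V : (Fin n →₀ ℕ) → (Fin d → k) := fun B =>
    evHom (mats c) hcomm (MvPolynomial.monomial B 1) *ᵥ vect c
  have hV : ∀ B i, V (B + Finsupp.single i 1) = mats c i *ᵥ V B := by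
    intro B i
    show evHom (mats c) hcomm (MvPolynomial.monomial (B + Finsupp.single i 1) 1) *ᵥ vect c =
      mats c i *ᵥ (evHom (mats c) hcomm (MvPolynomial.monomial B 1) *ᵥ vect c)
    have h1 : (MvPolynomial.monomial (B + Finsupp.single i 1) (1 : k)) =
        MvPolynomial.X i * MvPolynomial.monomial B 1 := by
      rw [add_comm B, MvPolynomial.monomial_single_add, pow_one]
    rw [h1, map_mul, evHom_X, mulVec_mulVec]
  have h0 : V 0 = vect c := by
    show evHom (mats c) hcomm (MvPolynomial.monomial 0 1) *ᵥ vect c = vect c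
    have : (MvPolynomial.monomial (0 : Fin n →₀ ℕ) (1 : k)) = 1 := rfl
    rw [this, map_one, one_mulVec]
  have hspan : Submodule.span k (Set.range V) = ⊤ := by
    apply hcyc
    · rw [← h0]
      exact Submodule.subset_span ⟨0, rfl⟩
    · intro i x hx
      induction hx using Submodule.span_induction with
      | mem x hx =>
        obtain ⟨B, rfl⟩ := hx
        rw [← hV]
        exact Submodule.subset_span ⟨_, rfl⟩
      | zero => rw [mulVec_zero]; exact zero_mem _
      | add x y _ _ hx hy => rw [mulVec_add]; exact add_mem hx hy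
      | smul t x _ hx => rw [mulVec_smul]; exact Submodule.smul_mem _ t hx
  obtain ⟨mon, b, h1, h2, h3, h4⟩ := exists_std hV hspan hw1 hw3
  obtain ⟨h5, h6⟩ := degen_c00 (Zset_of_smoothable hx hc) hV h0 h2 h3 h4
  have e1 := finrank_tanR_eq hx hc
  exact ⟨mon, h1, h5, by omega⟩

private lemma low_of_ord {mon : Fin d → (Fin n →₀ ℕ)} (h : IsOrd mon) {B C : Fin n →₀ ℕ}
    (hBC : B ≤ C) (hC : C ∈ Dlt mon) : B ∈ Dlt mon := by
  classical
  obtain ⟨D, rfl⟩ := exists_add_of_le hBC
  clear hBC
  induction D using Finsupp.induction_linear with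
  | zero => simpa using hC
  | add D1 D2 h1 h2 =>
    apply h1
    clear h1 h2
    -- remove D2
    have key : ∀ (m : ℕ) (D2 : Fin n →₀ ℕ) (B' : Fin n →₀ ℕ), D2.degree = m →
        B' + D2 ∈ Dlt mon → B' ∈ Dlt mon := by
      intro m
      induction m with
      | zero =>
        intro D2 B' hD hB
        rw [Finsupp.degree_eq_zero_iff] at hD
        simpa [hD] using hB
      | succ m ih =>
        intro D2 B' hD hB
        obtain ⟨i, hi⟩ : ∃ i, D2 i ≠ 0 := by
          by_contra hc
          push Not at hc
          have : D2 = 0 := Finsupp.ext hc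
          rw [this, map_zero] at hD
          omega
        have h3 : D2 - Finsupp.single i 1 + Finsupp.single i 1 = D2 :=
          sub_add_single (by omega)
        apply ih (D2 - Finsupp.single i 1) B'
        · have h4 := congrArg Finsupp.degree h3
          rw [map_add, Finsupp.degree_single] at h4
          omega
        · rw [← h3, ← add_assoc] at hB
          obtain ⟨s, hs⟩ := mem_Dlt.mp hB
          obtain ⟨s', hs'⟩ := h.low s i _ hs.symm
          exact mem_Dlt.mpr ⟨s', hs'⟩
    rw [← add_assoc] at hC
    exact key _ D2 _ rfl hC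
  | single i m =>
    induction m with
    | zero => simpa using hC
    | succ m ih =>
      apply ih
      rw [Finsupp.single_add, ← add_assoc] at hC
      obtain ⟨s, hs⟩ := mem_Dlt.mp hC
      obtain ⟨s', hs'⟩ := h.low s i _ hs.symm
      exact mem_Dlt.mpr ⟨s', hs'⟩

theorem exists_min2 [Infinite k] {r : ℕ} (hK : ∀ m : ℕ, 1 ≤ m → m ≤ 2 * r → (m : k) ≠ 0)
    (hdr : d < (n + r).choose n) (hd : 1 ≤ d)
    (hn : 3 ≤ n) (z : Fin n) (hz : ∀ i, i ≤ z) {x : Hilb k n d} (hx : x ∈ smoothable k n d)
    {N : ℕ} (hN : HasTangentDim x N) :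
    ∃ mon : Fin d → (Fin n →₀ ℕ), IsOrd mon ∧ Stable (Dlt mon) ∧
      ((∃ b ∈ Dlt mon, 2 ≤ b.degree) → ∀ i : Fin n, Finsupp.single i 1 ∈ Dlt mon) ∧
      (Finsupp.single z 3 ∈ Dlt mon →
        3 ≤ ((Dlt mon).filter (fun b => b.degree = 2)).card) ∧
      ∃ x' ∈ smoothable k n d, IsCoord (lamD k mon) x'.1 (c00 k mon) ∧
        N ≤ finrank k (tangent (lamD k mon) (c00 k mon)) := by
  classical
  obtain ⟨w, hw1, hw2, hw4, hw3⟩ := exists_weight3 n d
  obtain ⟨mon0, h0, hZ0, hN0⟩ := exists_mono_max hx hN
  have hP : ∃ T : ℕ, ∃ mon : Fin d → (Fin n →₀ ℕ), IsOrd mon ∧ c00 k mon ∈ Zset k n d ∧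
      N + d ^ 2 ≤ finrank k (tanR (c00 k mon)) ∧
      ∑ s, phi w (mon s) = T := ⟨_, mon0, h0, hZ0, hN0, rfl⟩
  obtain ⟨mon, h, hZ, hle, hT⟩ := Nat.find_spec hP
  have hmin : ¬ ∃ mon' : Fin d → (Fin n →₀ ℕ), IsOrd mon' ∧ c00 k mon' ∈ Zset k n d ∧
      finrank k (tanR (c00 k mon)) ≤ finrank k (tanR (c00 k mon')) ∧
      ∑ s, phi w (mon' s) < ∑ s, phi w (mon s) := by
    rintro ⟨mon', h1, h2, h3, h4⟩
    rw [hT] at h4
    exact Nat.find_min hP h4 ⟨mon', h1, h2, hle.trans h3, rfl⟩
  -- the exchange property
  have hS : ∀ (l m : Fin n) (s : ℕ) (B : Fin n →₀ ℕ), l ≠ m → w l < s * w m →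
      ((B l + 1 : ℕ) : k) ≠ 0 → B + Finsupp.single m s ∈ Dlt mon →
      B + Finsupp.single l 1 ∈ Dlt mon := by
    intro l m s B hlm hw hk hB
    by_contra hc
    exact hmin (swap_gen hw1 hw3 h hZ hlm hw hB hc hk)
  have hr : 1 ≤ r := by
    by_contra hc
    have : r = 0 := by omega
    rw [this, add_zero, Nat.choose_self] at hdr
    omega
  -- exponents are small
  have hexp : ∀ l : Fin n, Finsupp.single l (2 * r) ∉ Dlt mon := by
    intro l hl
    have hstep : ∀ (j : ℕ) (e : Fin n →₀ ℕ), e l = 0 → e.degree = j → j ≤ r →
        e + Finsupp.single l (2 * r - 2 * j) ∈ Dlt mon := by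
      intro j
      induction j with
      | zero =>
        intro e _ he _
        rw [Finsupp.degree_eq_zero_iff] at he
        rw [he, zero_add]
        simpa using hl
      | succ j ih =>
        intro e hel he hj
        obtain ⟨m, hm⟩ : ∃ m, e m ≠ 0 := by
          by_contra hc
          push Not at hc
          have : e = 0 := Finsupp.ext hc
          rw [this, map_zero] at he
          omega
        have hml : m ≠ l := by
          rintro rfl
          exact hm hel
        have h3 : e - Finsupp.single m 1 + Finsupp.single m 1 = e := sub_add_single (by omega)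
        have h4 : (e - Finsupp.single m 1).degree = j := by
          have h5 := congrArg Finsupp.degree h3
          rw [map_add, Finsupp.degree_single] at h5
          omega
        have h6 : (e - Finsupp.single m 1 : Fin n →₀ ℕ) l = 0 := by
          rw [Finsupp.tsub_apply, hel]
          omega
        have h7 := ih (e - Finsupp.single m 1) h6 h4 (by omega)
        have h8 : e m ≤ r := by
          have h9 : e m ≤ e.degree := by
            rw [Finsupp.degree_eq_sum]
            exact Finset.single_le_sum (f := fun i => e i) (fun _ _ => Nat.zero_le _)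
              (Finset.mem_univ m)
          omega
        have h10 := hS m l 2 (e - Finsupp.single m 1 + Finsupp.single l (2 * r - 2 * (j + 1))) hml
          (by have := hw4 m l; omega) (by
            apply hK
            · omega
            · rw [Finsupp.add_apply, Finsupp.tsub_apply, Finsupp.single_eq_same,
                Finsupp.single_eq_of_ne hml]
              omega) (by
            rw [add_assoc, ← Finsupp.single_add,
              show 2 * r - 2 * (j + 1) + 2 = 2 * r - 2 * j by omega]
            exact h7)
        rw [add_right_comm, h3] at h10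
        exact h10
    obtain ⟨monE, hE⟩ := exists_enum n (r + 1) (by omega)
    have hsub : Dlt monE ⊆ Dlt mon := by
      intro b hb
      obtain ⟨s, rfl⟩ := mem_Dlt.mp hb
      have h3 := hE.lt s
      set b := monE s with hb'
      have h4 : (b - Finsupp.single l (b l)) l = 0 := by
        rw [Finsupp.tsub_apply, Finsupp.single_eq_same, Nat.sub_self]
      have h5 : b - Finsupp.single l (b l) + Finsupp.single l (b l) = b := by
        apply tsub_add_cancel_of_le
        intro i
        by_cases hi : i = l
        · subst hi; simp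
        · rw [Finsupp.single_eq_of_ne hi]; exact Nat.zero_le _
      have h6 := congrArg Finsupp.degree h5
      rw [map_add, Finsupp.degree_single] at h6
      have h7 := hstep _ (b - Finsupp.single l (b l)) h4 rfl (by omega)
      refine low_of_ord h ?_ h7
      intro i
      by_cases hi : i = l
      · subst hi
        rw [Finsupp.add_apply, Finsupp.single_eq_same]
        omega
      · rw [Finsupp.add_apply, Finsupp.tsub_apply, Finsupp.single_eq_of_ne hi,
          Finsupp.single_eq_of_ne hi]
        omega
    have hcard := Finset.card_le_card hsub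
    have hEo : IsOrd monE := by
      refine ⟨hE.inj, fun s i B hB => ?_⟩
      apply hE.ex
      have h1 := hE.lt s
      rw [← hB, map_add, Finsupp.degree_single] at h1
      omega
    rw [hEo.card_Dlt, h.card_Dlt, show n + (r + 1) - 1 = n + r by omega] at hcard
    omega
  have hexp2 : ∀ B ∈ Dlt mon, ∀ l, B l + 1 ≤ 2 * r := by
    intro B hB l
    by_contra hc
    apply hexp l
    refine low_of_ord h ?_ hB
    intro i
    by_cases hi : i = l
    · subst hi
      rw [Finsupp.single_eq_same]
      omega
    · rw [Finsupp.single_eq_of_ne hi]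
      exact Nat.zero_le _
  have hst : Stable (Dlt mon) := by
    intro u i hu
    have h1 : u ∈ Dlt mon := low_of_ord h (by
      intro j
      rw [Finsupp.add_apply]
      omega) hu
    refine ⟨h1, fun j hij => hS j i 1 u hij.ne' ?_ (hK _ (by omega) (hexp2 u h1 j)) hu⟩
    have := hw2 i j hij
    omega
  have hvar : (∃ b ∈ Dlt mon, 2 ≤ b.degree) → ∀ i : Fin n, Finsupp.single i 1 ∈ Dlt mon := by
    rintro ⟨b, hb, hb2⟩ i
    have h2 : Finsupp.single z 2 ∈ Dlt mon := by
      have key : ∀ (m : ℕ) (b : Fin n →₀ ℕ), (b.degree - b z) = m → b ∈ Dlt mon →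
          2 ≤ b.degree → Finsupp.single z 2 ∈ Dlt mon := by
        intro m
        induction m with
        | zero =>
          intro b hm hb hb2
          refine low_of_ord h ?_ hb
          intro j
          by_cases hj : j = z
          · subst hj
            rw [Finsupp.single_eq_same]
            omega
          · rw [Finsupp.single_eq_of_ne hj]
            exact Nat.zero_le _
        | succ m ih =>
          intro b hm hb hb2
          obtain ⟨j, hjz, hj⟩ : ∃ j, j ≠ z ∧ b j ≠ 0 := by
            by_contra hc
            push Not at hc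
            have h3 : b.degree = b z := by
              rw [Finsupp.degree_eq_sum]
              exact Finset.sum_eq_single z (fun j _ hjz => hc j hjz) (by simp)
            omega
          have h3 : b - Finsupp.single j 1 + Finsupp.single j 1 = b := sub_add_single (by omega)
          have h4 := congrArg Finsupp.degree h3
          rw [map_add, Finsupp.degree_single] at h4
          have h5 := (hst (b - Finsupp.single j 1) j (by rw [h3]; exact hb)).2 z
            (lt_of_le_of_ne (hz j) hjz)
          refine ih (b - Finsupp.single j 1 + Finsupp.single z 1) ?_ h5 ?_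
          · rw [map_add, Finsupp.degree_single, Finsupp.add_apply, Finsupp.tsub_apply,
              Finsupp.single_eq_same, Finsupp.single_eq_of_ne hjz.symm]
            omega
          · rw [map_add, Finsupp.degree_single]
            omega
      exact key _ b rfl hb hb2
    by_cases hi : i = z
    · subst hi
      refine low_of_ord h ?_ h2
      intro j
      by_cases hj : j = i
      · subst hj; simp
      · rw [Finsupp.single_eq_of_ne hj, Finsupp.single_eq_of_ne hj]
    · have h3 := hS i z 2 0 hi (by have := hw4 i z; omega) (by simp) (by rw [zero_add]; exact h2)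
      rwa [zero_add] at h3
  have hquad : Finsupp.single z 3 ∈ Dlt mon →
      3 ≤ ((Dlt mon).filter (fun b => b.degree = 2)).card := by
    intro h3
    have h2 : Finsupp.single z 2 ∈ Dlt mon := by
      refine low_of_ord h ?_ h3
      intro j
      by_cases hj : j = z
      · subst hj; simp
      · rw [Finsupp.single_eq_of_ne hj, Finsupp.single_eq_of_ne hj]
    have hl : ∀ l, l ≠ z → Finsupp.single l 1 + Finsupp.single z 1 ∈ Dlt mon := by
      intro l hlz
      have h4 := hS l z 2 (Finsupp.single z 1) hlz (by have := hw4 l z; omega)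
        (by rw [Finsupp.single_eq_of_ne hlz]; simp) (by
          rw [← Finsupp.single_add]
          exact h3)
      rwa [add_comm] at h4
    obtain ⟨l1, l2, h1z, h2z, h12⟩ : ∃ l1 l2 : Fin n, l1 ≠ z ∧ l2 ≠ z ∧ l1 ≠ l2 := by
      have hc : 2 ≤ (Finset.univ.erase z : Finset (Fin n)).card := by
        rw [Finset.card_erase_of_mem (Finset.mem_univ _), Finset.card_univ, Fintype.card_fin]
        omega
      obtain ⟨a, ha, b, hb, hab⟩ := Finset.one_lt_card.mp (show 1 < _ from hc)
      exact ⟨a, b, Finset.ne_of_mem_erase ha, Finset.ne_of_mem_erase hb, hab⟩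
    have hsub : ({Finsupp.single z 2, Finsupp.single l1 1 + Finsupp.single z 1,
        Finsupp.single l2 1 + Finsupp.single z 1} : Finset (Fin n →₀ ℕ)) ⊆
        (Dlt mon).filter (fun b => b.degree = 2) := by
      intro b hb
      rw [Finset.mem_filter]
      simp only [Finset.mem_insert, Finset.mem_singleton] at hb
      rcases hb with rfl | rfl | rfl
      · exact ⟨h2, Finsupp.degree_single _ _⟩
      · exact ⟨hl l1 h1z, by rw [map_add, Finsupp.degree_single, Finsupp.degree_single]⟩
      · exact ⟨hl l2 h2z, by rw [map_add, Finsupp.degree_single, Finsupp.degree_single]⟩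
    have hcard : ({Finsupp.single z 2, Finsupp.single l1 1 + Finsupp.single z 1,
        Finsupp.single l2 1 + Finsupp.single z 1} : Finset (Fin n →₀ ℕ)).card = 3 := by
      have key : ∀ l : Fin n, l ≠ z → (Finsupp.single z 2 : Fin n →₀ ℕ) ≠
          Finsupp.single l 1 + Finsupp.single z 1 := by
        intro l hlz he
        have := DFunLike.congr_fun he z
        rw [Finsupp.add_apply, Finsupp.single_eq_same, Finsupp.single_eq_same,
          Finsupp.single_eq_of_ne hlz.symm] at this
        omega
      rw [Finset.card_eq_three]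
      refine ⟨_, _, _, key l1 h1z, key l2 h2z, ?_, rfl⟩
      intro he
      have h4 : (Finsupp.single l1 1 : Fin n →₀ ℕ) = Finsupp.single l2 1 :=
        add_right_cancel he
      have := DFunLike.congr_fun h4 l1
      rw [Finsupp.single_eq_same, Finsupp.single_eq_of_ne h12] at this
      exact one_ne_zero this
    rw [← hcard]
    exact Finset.card_le_card hsub
  obtain ⟨x', hx'⟩ := exists_isCoord_c00 k h hd
  have hs : x' ∈ smoothable k n d := by
    rw [← toHilb_eq hx']
    exact smoothable_of_Zset hZ _
  refine ⟨mon, h, hst, hvar, hquad, x', hs, hx', ?_⟩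
  have e2 := finrank_tanR_eq hs hx'
  omega

end Pool.Agent.Helper87.HQ
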