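import Pool.Agent.Helper61.HilbQ2
import Pool.Agent.Helper87.HQ.Mig

/-!
The second question for large `d`, under the weaker hypothesis on the characteristic.
-/

open MvPolynomial Module Matrix TopologicalSpace Finset

namespace Pool.Agent.Helper87.HQ

open Pool.Agent.Hilb61

universe u

/-- The second question for large `d`, following Helper61/HilbQ2.lean with `exists_min2`. -/
theorem exists_other_component2 (n : ℕ) (hn : 3 ≤ n) : ∃ d₀ : ℕ, ∀ d, d₀ ≤ d →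
    ∀ r₁ : ℕ, d < (n + r₁).choose n →
    ∀ (k : Type u) [Field k] [Infinite k], (∀ m : ℕ, 1 ≤ m → m ≤ 2 * r₁ → (m : k) ≠ 0) →
    ∀ t, IsGreatest {N : ℕ | ∃ x ∈ smoothable k n d, HasTangentDim x N} t →
    ∃ x ∈ smoothable k n d, HasTangentDim x t ∧
      ∃ Z ∈ irreducibleComponents (Hilb k n d), x ∈ Z ∧ ¬ Z ⊆ smoothable k n d := by
  obtain ⟨m, rfl⟩ : ∃ m, n = m + 2 := ⟨n - 2, by omega⟩
  obtain ⟨R, hR⟩ := exists_large m (by omega)
  refine ⟨Dn (m + 2) (R + 1), ?_⟩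
  intro d hd r₁ hdr k _ _ hK t ht
  obtain ⟨r, hr1, hr2⟩ := exists_level (show 1 ≤ m + 2 by omega) d
  have hRr : R + 1 ≤ r := by
    by_contra hc
    have h1 : Dn (m + 2) (r + 1) ≤ Dn (m + 2) (R + 1) :=
      (Dn_mono (show 1 ≤ m + 2 by omega)).monotone (by omega)
    omega
  have hd1 : 1 ≤ d := by
    have := le_Dn (show 1 ≤ m + 2 by omega) r
    omega
  -- lower bound for `t`
  obtain ⟨x0, hx0, N0, hN0, hle0⟩ := exists_lower k (show 2 ≤ m + 2 by omega)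
    (show 1 ≤ r by omega) hr1
  have ht0 : Tr (m + 2) r ≤ t := hle0.trans (ht.2 ⟨x0, hx0, hN0⟩)
  -- a strongly stable maximiser
  obtain ⟨x1, hx1, hN1⟩ := ht.1
  have hz : ∀ i : Fin (m + 2), i ≤ Fin.last (m + 1) := Fin.le_last
  obtain ⟨mon, hord, hst, -, -, x, hx, hxc, hle⟩ := exists_min2 hK hdr hd1 hn _ hz hx1 hN1
  have hT : HasTangentDim x (finrank k (tangent (lamD k mon) (c00 k mon))) :=
    ⟨lamD k mon, c00 k mon, hxc, rfl⟩
  have heq : finrank k (tangent (lamD k mon) (c00 k mon)) = t :=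
    le_antisymm (ht.2 ⟨x, hx, hT⟩) hle
  rw [heq] at hT
  have hup := finrank_tangent_le_tau (k := k) hn hord hst hxc
  rw [heq, show m + 2 - 2 = m by omega, show m + 2 - 1 = m + 1 by omega] at hup
  -- the numbers
  have hτ : 1 ≤ tauF (Dlt mon) m := by
    obtain ⟨z, hz⟩ := HChar.exists_zero hord ⟨0, hd1⟩
    rw [tauF, Nat.one_le_iff_ne_zero, ← Nat.pos_iff_ne_zero, card_pos]
    refine ⟨0, ?_⟩
    rw [mem_slc]
    exact ⟨mem_Dlt.mpr ⟨z, hz⟩, fun _ _ => rfl⟩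
  obtain ⟨M, hM⟩ : ∃ M, ∀ s ∈ Dlt mon, ∀ i, s i < M := by
    refine ⟨(∑ s ∈ Dlt mon, ∑ i, s i) + 1, fun s hs i => ?_⟩
    have h1 : s i ≤ ∑ i, s i := single_le_sum (fun _ _ => Nat.zero_le _) (mem_univ i)
    have h2 : ∑ i, s i ≤ ∑ s ∈ Dlt mon, ∑ i, s i :=
      single_le_sum (f := fun s : Fin (m + 2) →₀ ℕ => ∑ i, s i) (fun _ _ => Nat.zero_le _) hs
    omega
  have hsl : ∀ q, (m + q) * tauF (Dlt mon) m ≤
      m * tauF (Dlt mon) (m + 1) + (m + q).choose (m + 1) := by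
    intro q
    have h1 := slice_ineq hst hM m (by omega) 0 q
    have h2 : Function.update (0 : ℕ → ℕ) m 0 = 0 := by
      funext i
      by_cases hi : i = m
      · rw [hi, Function.update_self]; rfl
      · rw [Function.update_of_ne hi]
    rw [h2] at h1
    exact h1
  have hlarge := hR r d _ _ (by omega) hr2 hτ (ht0.trans hup) hsl
  obtain ⟨K, Gn, hA, hKc, hGc⟩ := exists_adm (a := tauF (Dlt mon) (m + 1) / 2)
    (b := tauF (Dlt mon) (m + 1) - tauF (Dlt mon) (m + 1) / 2) hst hord (by omega) (by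
      rw [show m + 2 - 1 = m + 1 by omega]
      omega)
  obtain ⟨Z, hZ, hxZ, hZs⟩ := exists_component_of_adm hord hd1 hA (by
    rw [hKc, hGc, mul_comm _ (tauF (Dlt mon) (m + 1) / 2)]
    exact hlarge) hxc
  exact ⟨x, hx, hT, Z, hZ, hxZ, hZs⟩

end Pool.Agent.Helper87.HQ
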