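import Pool.Agent.Helper87.HQ.Defs

/-!
Monomial schemes are smoothable. PROOFS.
`c00_mem_Zset`: let `γ : ℕ → k` be injective (`Infinite.natEmbedding k`). For `t ≠ 0` the tuple
`c(t) = c00 k mon + t • (matrices diagonal (fun s => γ (mon s i)), vector 0)` is in `Rset` with the points
`p a i = t γ(mon a i)` and `U a s = ∏ i, ∏ q ∈ range (mon s i), (t γ(mon a i) - t γ q)`, which vanishes
unless `mon s ≤ mon a` and is not zero for `s = a`: so `U` is invertible (if `U *ᵥ x = 0` and `x ≠ 0` take `s`
with `x s ≠ 0` and `(mon s).degree` minimal, row `a = s`). `p a i * U a s = (U * mats c(t) i) a s`: by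
`mul_Amon` and `mul_Amon_zero` the right side is `U a s' + t γ(mon s i) U a s` if `mon s' = mon s +
single i 1`, and `t γ(mon s i) U a s` if `mon s + single i 1` is not in the order ideal (then
`U a s * (t γ(mon a i) - t γ(mon s i)) = 0`: otherwise `mon s + single i 1 ≤ mon a`, so it is in the order
ideal). `U *ᵥ vect = 1`: `mon s = 0` gives the empty products. Use `c00_eq`. Then `Zset_of_curve` at
`t = 0` (the curve is affine in `t`). The case `d = 0` needs no special treatment.
`Zset_shift`: `affine_push` (Helper61/HilbFr.lean) with `L = id` and the same points shifted by `q`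
(`Rset` is stable: same `U`).
`cyclic_c00`: `c00_eq` and `HChar.cyclic_Amon` (Helper61/HilbChar.lean) or directly; the hypothesis
`hz` says that `0` occurs. `Amon_nilpotent`: `Amon k mon i ^ N` maps `Pi.single s 1` to the class of
`mon s + N e_i`, which is zero for `N > ` all `mon s i` (by induction on `N`: entry `(r, s)` of
`Amon k mon i ^ N` is nonzero only if `mon r = mon s + single i N`).
-/

open MvPolynomial Module Matrix

namespace Pool.Agent.Helper87.HQ

open Pool.Agent.Hilb61

universe u

variable {k : Type u} [Field k] {n d : ℕ}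

/-- Everything below an element of an order ideal belongs to it. -/
private lemma exists_of_le {mon : Fin d → (Fin n →₀ ℕ)} (h : IsOrd mon) :
    ∀ (N : ℕ) (a : Fin d) (B : Fin n →₀ ℕ), B ≤ mon a → (mon a).degree = B.degree + N →
      ∃ r, mon r = B := by
  intro N
  induction N with
  | zero =>
    intro a B hB hd
    refine ⟨a, ?_⟩
    have h1 : mon a - B + B = mon a := tsub_add_cancel_of_le hB
    have h2 : (mon a - B).degree + B.degree = (mon a).degree := by
      rw [← map_add, h1]
    have h3 : (mon a - B).degree = 0 := by omega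
    rw [Finsupp.degree_eq_zero_iff] at h3
    rw [h3, zero_add] at h1
    exact h1.symm
  | succ N ih =>
    intro a B hB hd
    have h1 : mon a - B + B = mon a := tsub_add_cancel_of_le hB
    have h2 : (mon a - B).degree + B.degree = (mon a).degree := by
      rw [← map_add, h1]
    have h3 : mon a - B ≠ 0 := by
      intro h3
      rw [h3, map_zero] at h2
      omega
    obtain ⟨i, hi⟩ := Finsupp.ne_iff.mp h3
    rw [Finsupp.zero_apply] at hi
    have h4 : B + Finsupp.single i 1 ≤ mon a := by
      intro j
      have h5 := congrArg (fun f => f j) h1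
      simp only [Finsupp.add_apply] at h5
      rw [Finsupp.add_apply]
      by_cases hj : j = i
      · subst hj
        rw [Finsupp.single_eq_same]
        omega
      · rw [Finsupp.single_eq_of_ne hj, add_zero]
        exact hB j
    obtain ⟨r, hr⟩ := ih a (B + Finsupp.single i 1) h4 (by
      rw [map_add, Finsupp.degree_single]
      omega)
    exact h.low r i B hr.symm

private lemma exists_of_le' {mon : Fin d → (Fin n →₀ ℕ)} (h : IsOrd mon) {a : Fin d}
    {B : Fin n →₀ ℕ} (hB : B ≤ mon a) : ∃ r, mon r = B := by
  have h1 : mon a - B + B = mon a := tsub_add_cancel_of_le hB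
  have h2 : (mon a - B).degree + B.degree = (mon a).degree := by
    rw [← map_add, h1]
  exact exists_of_le h (mon a - B).degree a B hB (by omega)

/-- the interpolation matrix -/
private noncomputable def UU (γ : ℕ → k) (t : k) (mon : Fin d → (Fin n →₀ ℕ)) :
    Matrix (Fin d) (Fin d) k :=
  Matrix.of fun a s => ∏ i, ∏ q ∈ Finset.range (mon s i), (t * γ (mon a i) - t * γ q)

private lemma UU_apply (γ : ℕ → k) (t : k) (mon : Fin d → (Fin n →₀ ℕ)) (a s : Fin d) :
    UU γ t mon a s = ∏ i, ∏ q ∈ Finset.range (mon s i), (t * γ (mon a i) - t * γ q) := rfl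

private lemma UU_ne {γ : ℕ → k} {t : k} {mon : Fin d → (Fin n →₀ ℕ)} {a s : Fin d}
    (hne : UU γ t mon a s ≠ 0) : mon s ≤ mon a := by
  intro i
  by_contra hlt
  push Not at hlt
  apply hne
  rw [UU_apply]
  apply Finset.prod_eq_zero (Finset.mem_univ i)
  apply Finset.prod_eq_zero (Finset.mem_range.mpr hlt)
  rw [sub_self]

private lemma UU_self {γ : ℕ → k} (hγ : Function.Injective γ) {t : k} (ht : t ≠ 0)
    (mon : Fin d → (Fin n →₀ ℕ)) (s : Fin d) : UU γ t mon s s ≠ 0 := by
  rw [UU_apply, Finset.prod_ne_zero_iff]
  intro i _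
  rw [Finset.prod_ne_zero_iff]
  intro q hq h0
  rw [← mul_sub] at h0
  rcases mul_eq_zero.mp h0 with h1 | h1
  · exact ht h1
  · have h2 := hγ (sub_eq_zero.mp h1)
    rw [Finset.mem_range] at hq
    omega

private lemma UU_isUnit {γ : ℕ → k} (hγ : Function.Injective γ) {t : k} (ht : t ≠ 0)
    {mon : Fin d → (Fin n →₀ ℕ)} (h : IsOrd mon) : IsUnit (UU γ t mon) := by
  classical
  rw [← Matrix.mulVec_injective_iff_isUnit]
  intro x y hxy
  have hxy' : UU γ t mon *ᵥ (x - y) = 0 := by
    rw [Matrix.mulVec_sub, sub_eq_zero]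
    exact hxy
  by_contra hne
  have hz : x - y ≠ 0 := sub_ne_zero.mpr hne
  obtain ⟨s0, hs0⟩ := Function.ne_iff.mp hz
  obtain ⟨s, hs, hmin⟩ := Finset.exists_min_image (Finset.univ.filter (fun s => (x - y) s ≠ 0))
    (fun s => (mon s).degree) ⟨s0, by simpa using hs0⟩
  rw [Finset.mem_filter] at hs
  have h1 := congrFun hxy' s
  rw [Matrix.mulVec, dotProduct, Finset.sum_eq_single s] at h1
  · rw [Pi.zero_apply] at h1
    rcases mul_eq_zero.mp h1 with h2 | h2
    · exact UU_self hγ ht mon s h2
    · exact hs.2 h2
  · intro s' _ hs'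
    by_cases h3 : (x - y) s' = 0
    · rw [h3, mul_zero]
    · by_cases h4 : UU γ t mon s s' = 0
      · rw [h4, zero_mul]
      · exfalso
        have h5 := UU_ne h4
        have h6 := hmin s' (by rw [Finset.mem_filter]; exact ⟨Finset.mem_univ _, h3⟩)
        have h7 : mon s - mon s' + mon s' = mon s := tsub_add_cancel_of_le h5
        have h8 : (mon s - mon s').degree + (mon s').degree = (mon s).degree := by
          rw [← map_add, h7]
        have h9 : (mon s - mon s').degree = 0 := by omega
        rw [Finsupp.degree_eq_zero_iff] at h9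
        rw [h9, zero_add] at h7
        exact hs' (h.inj h7)
  · intro h3; exact absurd (Finset.mem_univ _) h3

private lemma UU_succ (γ : ℕ → k) (t : k) {mon : Fin d → (Fin n →₀ ℕ)} {a s s' : Fin d}
    {i : Fin n} (hs' : mon s' = mon s + Finsupp.single i 1) :
    UU γ t mon a s' = UU γ t mon a s * (t * γ (mon a i) - t * γ (mon s i)) := by
  classical
  rw [UU_apply, UU_apply, ← Finset.mul_prod_erase _ _ (Finset.mem_univ i),
    ← Finset.mul_prod_erase Finset.univ
      (fun i => ∏ q ∈ Finset.range (mon s i), (t * γ (mon a i) - t * γ q)) (Finset.mem_univ i)]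
  have h1 : mon s' i = mon s i + 1 := by
    rw [hs', Finsupp.add_apply, Finsupp.single_eq_same]
  have h2 : ∏ j ∈ Finset.univ.erase i, ∏ q ∈ Finset.range (mon s' j),
      (t * γ (mon a j) - t * γ q) = ∏ j ∈ Finset.univ.erase i, ∏ q ∈ Finset.range (mon s j),
      (t * γ (mon a j) - t * γ q) := by
    apply Finset.prod_congr rfl
    intro j hj
    have hj' : j ≠ i := Finset.ne_of_mem_erase hj
    rw [hs', Finsupp.add_apply, Finsupp.single_eq_of_ne hj', add_zero]
  rw [h2, h1, Finset.prod_range_succ]
  ring

private lemma mem_Rset_curve {γ : ℕ → k} (hγ : Function.Injective γ) {t : k} (ht : t ≠ 0)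
    {mon : Fin d → (Fin n →₀ ℕ)} (h : IsOrd mon) :
    mk (fun i => Amon k mon i + t • Matrix.diagonal (fun s => γ (mon s i))) (V0 k mon 0) ∈
      Rset k n d := by
  classical
  refine ⟨fun a i => t * γ (mon a i), ?_, UU γ t mon, (UU γ t mon)⁻¹, ?_, ?_, ?_⟩
  · intro a b hab
    apply h.inj
    ext i
    have h1 := congrFun hab i
    exact hγ (mul_left_cancel₀ ht h1)
  · apply Matrix.mul_nonsing_inv
    exact (Matrix.isUnit_iff_isUnit_det _).mp (UU_isUnit hγ ht h)
  · intro a i s
    rw [mats_mk, mul_add, Matrix.add_apply, mul_smul_comm, Matrix.smul_apply,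
      Matrix.mul_diagonal, smul_eq_mul]
    by_cases h1 : ∃ s', mon s' = mon s + Finsupp.single i 1
    · obtain ⟨s', hs'⟩ := h1
      rw [mul_Amon h _ i a s s' hs', UU_succ γ t hs']
      ring
    · push Not at h1
      rw [mul_Amon_zero _ i a s h1, zero_add]
      by_cases h2 : UU γ t mon a s = 0
      · rw [h2]
        ring
      · have h3 := UU_ne h2
        have h4 : mon a i = mon s i := by
          by_contra h4
          have h5 : mon s + Finsupp.single i 1 ≤ mon a := by
            intro j
            rw [Finsupp.add_apply]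
            have h6 := h3 j
            by_cases hj : j = i
            · subst hj
              rw [Finsupp.single_eq_same]
              omega
            · rw [Finsupp.single_eq_of_ne hj, add_zero]
              exact h6
          obtain ⟨r, hr⟩ := exists_of_le' h h5
          exact h1 r hr
        show t * γ (mon a i) * _ = _
        rw [h4]
        ring
  · intro a
    rw [vect_mk]
    obtain ⟨z, hz⟩ := HChar.exists_zero h a
    rw [Matrix.mulVec, dotProduct, Finset.sum_eq_single z]
    · rw [V0_apply, if_pos hz, mul_one, UU_apply]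
      apply Finset.prod_eq_one
      intro i _
      rw [hz, Finsupp.zero_apply, Finset.range_zero, Finset.prod_empty]
    · intro s _ hs
      rw [V0_apply, if_neg, mul_zero]
      intro h0
      exact hs (h.inj (h0.trans hz.symm))
    · intro h3; exact absurd (Finset.mem_univ _) h3

theorem c00_mem_Zset [Infinite k] {mon : Fin d → (Fin n →₀ ℕ)} (h : IsOrd mon) :
    c00 k mon ∈ Zset k n d := by
  classical
  let γ : ℕ → k := Infinite.natEmbedding k
  have hγ : Function.Injective γ := (Infinite.natEmbedding k).injective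
  let w : Coord n d → k := mk (fun i => Matrix.diagonal (fun s => γ (mon s i))) 0
  let c : Coord n d → Polynomial k := fun x =>
    Polynomial.C (c00 k mon x) + Polynomial.X * Polynomial.C (w x)
  have hev : ∀ t : k, (fun x => (c x).eval t) =
      mk (fun i => Amon k mon i + t • Matrix.diagonal (fun s => γ (mon s i))) (V0 k mon 0) := by
    intro t
    rw [← mk_eta (fun x => (c x).eval t)]
    congr 1
    · funext i
      ext r s
      show (c (Sum.inl (i, r, s))).eval t = _
      simp only [c, Polynomial.eval_add, Polynomial.eval_mul, Polynomial.eval_C,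
        Polynomial.eval_X, c00_eq]
      rfl
    · funext r
      show (c (Sum.inr r)).eval t = _
      simp only [c, Polynomial.eval_add, Polynomial.eval_mul, Polynomial.eval_C,
        Polynomial.eval_X, c00_eq]
      show V0 k mon 0 r + t * 0 = V0 k mon 0 r
      rw [mul_zero, add_zero]
  have h1 := Zset_of_curve c (by
    rw [Filter.eventually_cofinite]
    apply (Set.finite_singleton (0 : k)).subset
    intro t ht
    rw [Set.mem_singleton_iff]
    by_contra h0
    apply ht
    rw [hev]
    exact Rset_subset_Zset (mem_Rset_curve hγ h0 h)) 0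
  have h2 : (fun x => (c x).eval 0) = c00 k mon := by
    funext x
    simp [c]
  rwa [h2] at h1

theorem Zset_shift {c : Coord n d → k} (hc : c ∈ Zset k n d) (q : Fin n → k) :
    mk (fun i => mats c i + q i • (1 : Matrix (Fin d) (Fin d) k)) (vect c) ∈ Zset k n d := by
  let b : Coord n d → k := mk (fun i => q i • (1 : Matrix (Fin d) (Fin d) k)) 0
  have hb : ∀ c : Coord n d → k, c + b =
      mk (fun i => mats c i + q i • (1 : Matrix (Fin d) (Fin d) k)) (vect c) := by
    intro c
    funext x
    rcases x with ⟨i, r, s⟩ | r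
    · rfl
    · show c (Sum.inr r) + 0 = c (Sum.inr r)
      rw [add_zero]
  have h1 := (affine_push (LinearMap.id : (Coord n d → k) →ₗ[k] (Coord n d → k)) b (by
    intro c hc
    rw [LinearMap.id_apply, hb]
    apply Rset_subset_Zset
    obtain ⟨p, hp, U, U', hU, h2, h3⟩ := hc
    refine ⟨fun a i => p a i + q i, ?_, U, U', hU, ?_, ?_⟩
    · intro a a' haa
      apply hp
      funext i
      exact add_right_cancel (congrFun haa i)
    · intro a i s
      rw [mats_mk, mul_add, Matrix.add_apply, ← h2 a i s, mul_smul_comm, mul_one,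
        Matrix.smul_apply, smul_eq_mul]
      ring
    · intro a
      rw [vect_mk]
      exact h3 a)).1 c hc
  rwa [LinearMap.id_apply, hb] at h1

theorem cyclic_shift {A : Fin n → Matrix (Fin d) (Fin d) k} {v : Fin d → k} (h : Cyclic A v)
    (q : Fin n → k) :
    Cyclic (fun i => A i + q i • (1 : Matrix (Fin d) (Fin d) k)) v := by
  intro W hv hW
  apply h W hv
  intro i w hw
  have h1 := hW i w hw
  have h2 : A i *ᵥ w = (A i + q i • (1 : Matrix (Fin d) (Fin d) k)) *ᵥ w - q i • w := by
    rw [Matrix.add_mulVec, Matrix.smul_mulVec, Matrix.one_mulVec, add_sub_cancel_right]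
  rw [h2]
  exact W.sub_mem h1 (W.smul_mem _ hw)

theorem cyclic_c00 {mon : Fin d → (Fin n →₀ ℕ)} (h : IsOrd mon) :
    Cyclic (mats (c00 k mon)) (vect (c00 k mon)) := by
  classical
  rw [c00_eq, mats_mk, vect_mk]
  rcases isEmpty_or_nonempty (Fin d) with he | ⟨⟨s0⟩⟩
  · intro W _ _
    rw [eq_top_iff]
    intro w _
    have h1 : w = 0 := by
      funext r
      exact (he.false r).elim
    rw [h1]
    exact W.zero_mem
  · obtain ⟨z, hz⟩ := HChar.exists_zero h s0
    have h1 : V0 k mon 0 = Pi.single z 1 := by
      funext r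
      rw [V0_apply, Pi.single_apply]
      by_cases hr : r = z
      · rw [if_pos hr, hr, if_pos hz]
      · rw [if_neg hr, if_neg]
        intro h0
        exact hr (h.inj (h0.trans hz.symm))
    rw [h1]
    exact HChar.cyclic_Amon h hz

theorem Amon_nilpotent {mon : Fin d → (Fin n →₀ ℕ)} (h : IsOrd mon) (i : Fin n) :
    ∃ N : ℕ, Amon k mon i ^ N = 0 := by
  classical
  have key : ∀ (N : ℕ) (r s : Fin d), (Amon k mon i ^ N) r s ≠ 0 →
      mon r = mon s + Finsupp.single i N := by
    intro N
    induction N with
    | zero =>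
      intro r s hrs
      rw [pow_zero] at hrs
      by_cases h1 : r = s
      · rw [h1, Finsupp.single_zero, add_zero]
      · exact absurd (Matrix.one_apply_ne h1) hrs
    | succ N ih =>
      intro r s hrs
      rw [pow_succ] at hrs
      by_cases h1 : ∃ s', mon s' = mon s + Finsupp.single i 1
      · obtain ⟨s', hs'⟩ := h1
        rw [mul_Amon h _ i r s s' hs'] at hrs
        rw [ih r s' hrs, hs', add_assoc, ← Finsupp.single_add, add_comm 1 N]
      · push Not at h1
        exact absurd (mul_Amon_zero _ i r s h1) hrs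
  refine ⟨∑ s, mon s i + 1, ?_⟩
  ext r s
  rw [Matrix.zero_apply]
  by_contra h0
  have h1 := congrArg (fun f => f i) (key _ r s h0)
  simp only [Finsupp.add_apply, Finsupp.single_eq_same] at h1
  have h2 : mon r i ≤ ∑ s, mon s i :=
    Finset.single_le_sum (f := fun s => mon s i) (fun _ _ => Nat.zero_le _) (Finset.mem_univ r)
  omega

end Pool.Agent.Helper87.HQ
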