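import Pool.Agent.Helper87.HQ.Blk

/-!
THEOREM `CL_of_pair`: a framed tuple `c` of size `d1 + d2` with intertwiners to a framed tuple `c1`
in `Zset`, on which the coordinate `i0` is invertible, and to a framed tuple `c2` in `CL`, on which
`i0` is nilpotent, is in `CL`.

PROOF. Let `T` be the `(d1 + d2) × d` matrix with the rows of `T1` and `T2`; `T * mats c i =
mats (bs c1 c2) i * T` and `T *ᵥ vect c = vect (bs c1 c2)`. Claim: `T` is onto. Its range
`R` (as a submodule of `(Fin d1 → k) × (Fin d2 → k)`) contains `(vect c1, vect c2)` and is stable under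
all `(mats c1 i, mats c2 i)`. Applying the `N`-th power of coordinate `i0` gives
`(mats c1 i0 ^ N *ᵥ vect c1, 0) ∈ R`. `R1 = {y | (y, 0) ∈ R}` is stable under all `mats c1 i`, and under
`(mats c1 i0)⁻¹` (finite dimension, or: `mats c1 i0` maps `R1` injectively into itself), so it contains
`vect c1`, so `R1 = ⊤` (cyclic). Then `(0, vect c2) ∈ R` and `{y | (0, y) ∈ R} = ⊤` too. So `T`, after the
cast `d1 + d2 = d` (`subst`), is an invertible square matrix, and `CL_conj` applies to `bs c1 c2 ∈ CL`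
(`CL_bs`) and `c`, with `g = T`, `g' = T⁻¹`.
-/

open MvPolynomial Module Matrix

namespace Pool.Agent.Helper87.HQ

open Pool.Agent.Hilb61

universe u

variable {k : Type u} [Field k] {n d d1 d2 : ℕ}

/-- The two intertwiners together are onto. -/
private lemma pair_surj {c : Coord n d → k} {c1 : Coord n d1 → k}
    {c2 : Coord n d2 → k} (h1' : Cyclic (mats c1) (vect c1))
    (h2' : Cyclic (mats c2) (vect c2))
    (T1 : Matrix (Fin d1) (Fin d) k) (T2 : Matrix (Fin d2) (Fin d) k)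
    (e1 : ∀ i, T1 * mats c i = mats c1 i * T1) (v1 : T1 *ᵥ vect c = vect c1)
    (e2 : ∀ i, T2 * mats c i = mats c2 i * T2) (v2 : T2 *ᵥ vect c = vect c2)
    (i0 : Fin n) {B : Matrix (Fin d1) (Fin d1) k} (hB : B * mats c1 i0 = 1)
    {N : ℕ} (hN : mats c2 i0 ^ N = 0) (y1 : Fin d1 → k) (y2 : Fin d2 → k) :
    ∃ w, T1 *ᵥ w = y1 ∧ T2 *ᵥ w = y2 := by
  let R : Submodule k ((Fin d1 → k) × (Fin d2 → k)) :=
    LinearMap.range (LinearMap.prod T1.mulVecLin T2.mulVecLin)
  have hR : ∀ y, y ∈ R ↔ ∃ w, T1 *ᵥ w = y.1 ∧ T2 *ᵥ w = y.2 := by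
    intro y
    constructor
    · rintro ⟨w, hw⟩
      exact ⟨w, congrArg Prod.fst hw, congrArg Prod.snd hw⟩
    · rintro ⟨w, hw1, hw2⟩
      exact ⟨w, Prod.ext hw1 hw2⟩
  have hst : ∀ i y, y ∈ R → (mats c1 i *ᵥ y.1, mats c2 i *ᵥ y.2) ∈ R := by
    intro i y hy
    obtain ⟨w, hw1, hw2⟩ := (hR y).mp hy
    refine (hR _).mpr ⟨mats c i *ᵥ w, ?_, ?_⟩
    · rw [mulVec_mulVec, e1, ← mulVec_mulVec, hw1]
    · rw [mulVec_mulVec, e2, ← mulVec_mulVec, hw2]
  have hpow : ∀ m y, y ∈ R → (mats c1 i0 ^ m *ᵥ y.1, mats c2 i0 ^ m *ᵥ y.2) ∈ R := by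
    intro m
    induction m with
    | zero => intro y hy; simpa using hy
    | succ m ih =>
      intro y hy
      have h := hst i0 _ (ih y hy)
      simp only [mulVec_mulVec] at h
      rw [pow_succ', pow_succ']
      exact h
  have hv : (vect c1, vect c2) ∈ R := (hR _).mpr ⟨vect c, v1, v2⟩
  have hvN : (mats c1 i0 ^ N *ᵥ vect c1, (0 : Fin d2 → k)) ∈ R := by
    have h := hpow N _ hv
    rw [hN, zero_mulVec] at h
    exact h
  -- the first slice
  let R1 : Submodule k (Fin d1 → k) := R.comap (LinearMap.inl k (Fin d1 → k) (Fin d2 → k))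
  have hR1 : ∀ y, y ∈ R1 ↔ (y, (0 : Fin d2 → k)) ∈ R := fun y => Iff.rfl
  have st1 : ∀ i, ∀ y ∈ R1, mats c1 i *ᵥ y ∈ R1 := by
    intro i y hy
    have h := hst i _ ((hR1 y).mp hy)
    simp only [mulVec_zero] at h
    exact (hR1 _).mpr h
  have stB : ∀ y ∈ R1, B *ᵥ y ∈ R1 := by
    intro y hy
    let A : R1 →ₗ[k] R1 := (mats c1 i0).mulVecLin.restrict (fun z hz => st1 i0 z hz)
    have hinj : Function.Injective A := by
      intro a b hab
      have h : mats c1 i0 *ᵥ (a : Fin d1 → k) = mats c1 i0 *ᵥ (b : Fin d1 → k) :=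
        congrArg Subtype.val hab
      have h' := congrArg (fun z => B *ᵥ z) h
      simp only [mulVec_mulVec, hB, one_mulVec] at h'
      exact Subtype.ext h'
    obtain ⟨z, hz⟩ := (LinearMap.injective_iff_surjective.mp hinj) ⟨y, hy⟩
    have hz' : mats c1 i0 *ᵥ (z : Fin d1 → k) = y := congrArg Subtype.val hz
    rw [← hz', mulVec_mulVec, hB, one_mulVec]
    exact z.2
  have stBp : ∀ m, ∀ y ∈ R1, B ^ m *ᵥ y ∈ R1 := by
    intro m
    induction m with
    | zero => intro y hy; simpa using hy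
    | succ m ih =>
      intro y hy
      rw [pow_succ', ← mulVec_mulVec]
      exact stB _ (ih y hy)
  have hv1 : vect c1 ∈ R1 := by
    have h := stBp N _ ((hR1 _).mpr hvN)
    rw [mulVec_mulVec, pow_mul_pow_eq_one N hB, one_mulVec] at h
    exact h
  have top1 : R1 = ⊤ := h1' R1 hv1 st1
  -- the second slice
  let R2 : Submodule k (Fin d2 → k) := R.comap (LinearMap.inr k (Fin d1 → k) (Fin d2 → k))
  have hR2 : ∀ y, y ∈ R2 ↔ ((0 : Fin d1 → k), y) ∈ R := fun y => Iff.rfl
  have st2 : ∀ i, ∀ y ∈ R2, mats c2 i *ᵥ y ∈ R2 := by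
    intro i y hy
    have h := hst i _ ((hR2 y).mp hy)
    simp only [mulVec_zero] at h
    exact (hR2 _).mpr h
  have hv2 : vect c2 ∈ R2 := by
    have h := R.sub_mem hv ((hR1 _).mp hv1)
    rw [hR2]
    simpa using h
  have top2 : R2 = ⊤ := h2' R2 hv2 st2
  have m1 : (y1, (0 : Fin d2 → k)) ∈ R := (hR1 y1).mp (by rw [top1]; exact Submodule.mem_top)
  have m2 : ((0 : Fin d1 → k), y2) ∈ R := (hR2 y2).mp (by rw [top2]; exact Submodule.mem_top)
  have m3 := R.add_mem m1 m2
  simp only [Prod.mk_add_mk, add_zero, zero_add] at m3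
  exact (hR _).mp m3

/-- The rows of the two intertwiners. -/
private def stack (T1 : Matrix (Fin d1) (Fin d) k) (T2 : Matrix (Fin d2) (Fin d) k) :
    Matrix (Fin (d1 + d2)) (Fin d) k :=
  (Matrix.fromRows T1 T2).reindex finSumFinEquiv (Equiv.refl _)

private lemma stack_mulVec (T1 : Matrix (Fin d1) (Fin d) k) (T2 : Matrix (Fin d2) (Fin d) k)
    (w : Fin d → k) :
    stack T1 T2 *ᵥ w = fun r => Sum.elim (T1 *ᵥ w) (T2 *ᵥ w) (finSumFinEquiv.symm r) := by
  funext r
  obtain ⟨x, rfl⟩ := finSumFinEquiv.surjective r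
  rw [Equiv.symm_apply_apply]
  rcases x with a | b
  · simp only [stack, mulVec, dotProduct, reindex_apply, submatrix_apply,
      Equiv.symm_apply_apply, Equiv.refl_symm, Equiv.coe_refl, id_eq, fromRows_apply_inl,
      Sum.elim_inl]
  · simp only [stack, mulVec, dotProduct, reindex_apply, submatrix_apply,
      Equiv.symm_apply_apply, Equiv.refl_symm, Equiv.coe_refl, id_eq, fromRows_apply_inr,
      Sum.elim_inr]

private lemma bsM_mul_stack (M : Matrix (Fin d1) (Fin d1) k) (M' : Matrix (Fin d2) (Fin d2) k)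
    (T1 : Matrix (Fin d1) (Fin d) k) (T2 : Matrix (Fin d2) (Fin d) k) :
    bsM M M' * stack T1 T2 = stack (M * T1) (M' * T2) := by
  unfold bsM stack
  rw [reindex_apply, reindex_apply, reindex_apply, submatrix_mul_equiv]
  rw [fromBlocks_mul_fromRows]
  simp only [Matrix.zero_mul, add_zero, zero_add]

private lemma stack_mul (T1 : Matrix (Fin d1) (Fin d) k) (T2 : Matrix (Fin d2) (Fin d) k)
    (M : Matrix (Fin d) (Fin d) k) :
    stack T1 T2 * M = stack (T1 * M) (T2 * M) := by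
  ext r s
  obtain ⟨x, rfl⟩ := finSumFinEquiv.surjective r
  rcases x with a | b
  · simp only [stack, Matrix.mul_apply, reindex_apply, submatrix_apply,
      Equiv.symm_apply_apply, Equiv.refl_symm, Equiv.coe_refl, id_eq, fromRows_apply_inl]
  · simp only [stack, Matrix.mul_apply, reindex_apply, submatrix_apply,
      Equiv.symm_apply_apply, Equiv.refl_symm, Equiv.coe_refl, id_eq, fromRows_apply_inr]

theorem CL_of_pair [Infinite k] (hd : d1 + d2 = d) {c : Coord n d → k} {c1 : Coord n d1 → k}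
    {c2 : Coord n d2 → k} (h1 : c1 ∈ Zset k n d1) (h1' : Cyclic (mats c1) (vect c1))
    (h2 : c2 ∈ CL k n d2) (h2' : Cyclic (mats c2) (vect c2))
    (T1 : Matrix (Fin d1) (Fin d) k) (T2 : Matrix (Fin d2) (Fin d) k)
    (e1 : ∀ i, T1 * mats c i = mats c1 i * T1) (v1 : T1 *ᵥ vect c = vect c1)
    (e2 : ∀ i, T2 * mats c i = mats c2 i * T2) (v2 : T2 *ᵥ vect c = vect c2)
    (i0 : Fin n) {B : Matrix (Fin d1) (Fin d1) k} (hB : B * mats c1 i0 = 1)
    {N : ℕ} (hN : mats c2 i0 ^ N = 0) : c ∈ CL k n d := by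
  subst hd
  have hsurj : Function.Surjective (stack T1 T2).mulVec := by
    intro y
    obtain ⟨w, hw1, hw2⟩ := pair_surj h1' h2' T1 T2 e1 v1 e2 v2 i0 hB hN
      (fun a => y (finSumFinEquiv (Sum.inl a))) (fun b => y (finSumFinEquiv (Sum.inr b)))
    refine ⟨w, ?_⟩
    rw [stack_mulVec, hw1, hw2]
    funext r
    obtain ⟨x, rfl⟩ := finSumFinEquiv.surjective r
    rw [Equiv.symm_apply_apply]
    rcases x with a | b <;> rfl
  obtain ⟨T', hT'⟩ := Matrix.mulVec_surjective_iff_exists_right_inverse.mp hsurj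
  refine CL_conj hT' (CL_bs i0 h1 h2) (fun i => ?_) ?_
  · rw [stack_mul, e1, e2]
    have e : mats (bs c1 c2) i = bsM (mats c1 i) (mats c2 i) := rfl
    rw [e]
    exact bsM_mul_stack _ _ _ _
  · rw [stack_mulVec, v1, v2]
    rfl

end Pool.Agent.Helper87.HQ
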