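import Pool.Agent.Helper87.HQ.Rem
import Pool.Agent.Helper87.HQ.Mono
import Pool.Agent.Helper87.HQ.Pair

/-!
THEOREM `good_rem`: removing a level of a coordinate.

PROOF. Let `mon : Fin d → ..` enumerate `Δ`, `mon2` enumerate `rem Δ l j` (`d2` elements), `mon1` enumerate
`slice Δ l j` (`d1` elements), `d1 + d2 = d` (`exists_mon`, `card_slice_add_rem`, `IsOrd.card_Dlt`). For `t` put
`c(t) = mk (fun i => Amon k mon i + if i = l then t • diagonal (fun s => if mon s l = j then 1 else 0)
else 0) (V0 k mon 0)`. `c(0) = c00 k mon` (`c00_eq`), so by `CL_of_curve` it is enough that `c(t) ∈ CL` for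
`t ≠ 0`. Apply `CL_of_pair` with `c1 = mk (fun i => Amon k mon1 i + (if i = l then t else 0) • 1)
(V0 k mon1 0)` (in `Zset` by `c00_mem_Zset` and `Zset_shift`; cyclic by `cyclic_c00`, `cyclic_shift`;
`Amon k mon1 l = 0` as all elements of the slice have `l`-coordinate 0, so `mats c1 l = t • 1` is
invertible) and `c2 = c00 k mon2` (`h`; `Amon_nilpotent`), `i0 = l`. With `V0 k mon' B` the class of the
monomial `B` (`V0_apply`, `V0_mul`) and `b = mon s`, the columns of the intertwiners are
  `T2 : s ↦ V0 k mon2 b` if `b l ≤ j`, `V0 k mon2 b - t • V0 k mon2 (b - e_l)` if `j < b l`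
(the image of `x^(b - e_l) (x_l - t)`), and
  `T1 : s ↦ t ^ (b l) • V0 k mon1 (b with coordinate l replaced by 0)` if `b l ≤ j`, `0` if `j < b l`.
Intertwining is checked on the basis vector `s`: `mats c(t) i` maps it to the basis vector of
`b + e_i` (or 0 if `b + e_i ∉ Δ`), plus `t` times itself if `i = l` and `b l = j`.
For `T2` (recall `mem_rem`): `i ≠ l`: both sides are `V0 (b + e_i)`, minus `t V0 (b + e_i - e_l)` if `j < b l`;
if `b + e_i ∉ Δ` these classes are zero. `i = l`: if `b l < j`: `V0 (b + e_l)` (zero if `b + e_l ∉ Δ`); if `b l = j`: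
`(V0 (b + e_l) - t V0 b) + t V0 b` if `b + e_l ∈ Δ`, and if `b + e_l ∉ Δ` then `b ∉ rem`, `b + e_l ∉ rem`; if
`j < b l`: `V0 (b + e_l) - t V0 b` on both sides, zero if `b + e_l ∉ Δ`.
For `T1` (`mem_slice`): `i ≠ l`: `t ^ (b l) V0 (b' + e_i)` with `b'` = `b` without coordinate `l`; zero if
`b + e_i ∉ Δ` (since `b + e_i ≤ b' + e_i + j e_l`). `i = l`: if `b l < j`: `t ^ (b l + 1) V0 b'` on both sides (zero if
`b + e_l ∉ Δ`, since `b + e_l ≤ b' + j e_l`); if `b l = j`: `0 + t • t ^ j V0 b'`; if `j < b l`: zero.
Vectors: `V0 k mon 0` is the basis vector of `0` (if `Δ` is nonempty), mapped to `V0 k mon2 0` and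
`V0 k mon1 0`. If `Δ` is empty then `rem Δ l j = Δ` and `h` applies.
-/

open MvPolynomial Module Matrix

namespace Pool.Agent.Helper87.HQ

open Pool.Agent.Hilb61

universe u

variable {k : Type u} [Field k] {n d : ℕ}

/-- The matrix with the columns `F (mon s)`. -/
private def colM {d' : ℕ} (F : (Fin n →₀ ℕ) → Fin d' → k) (mon : Fin d → (Fin n →₀ ℕ)) :
    Matrix (Fin d') (Fin d) k := Matrix.of fun r s => F (mon s) r

omit [Field k] in
private lemma colM_apply {d' : ℕ} (F : (Fin n →₀ ℕ) → Fin d' → k) (mon : Fin d → (Fin n →₀ ℕ))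
    (r : Fin d') (s : Fin d) : colM F mon r s = F (mon s) r := rfl

private lemma colM_mulVec {d' : ℕ} {F : (Fin n →₀ ℕ) → Fin d' → k}
    {mon : Fin d → (Fin n →₀ ℕ)} (hmon : IsOrd mon) (hF : ∀ B, B ∉ Dlt mon → F B = 0)
    (B : Fin n →₀ ℕ) : colM F mon *ᵥ V0 k mon B = F B := by
  classical
  funext r
  show ∑ s, colM F mon r s * V0 k mon B s = F B r
  by_cases hB : ∃ s, mon s = B
  · obtain ⟨s, hs⟩ := hB
    rw [Finset.sum_eq_single s]
    · rw [V0_apply, if_pos hs, mul_one, colM_apply, hs]
    · intro s' _ hs'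
      rw [V0_apply, if_neg, mul_zero]
      intro h2
      exact hs' (hmon.inj (h2.trans hs.symm))
    · intro h'; exact absurd (Finset.mem_univ s) h'
  · have h0 : F B = 0 := hF B (by rw [mem_Dlt]; exact hB)
    rw [h0]
    apply Finset.sum_eq_zero
    intro s _
    rw [V0_apply, if_neg (fun h => hB ⟨s, h⟩), mul_zero]

private lemma Amon_col (mon : Fin d → (Fin n →₀ ℕ)) (i : Fin n) (s : Fin d) :
    (Amon k mon i).col s = V0 k mon (mon s + Finsupp.single i 1) := by
  classical
  funext r
  show Amon k mon i r s = _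
  rw [Amon_apply, V0_apply]

private lemma colM_comm {d' : ℕ} {F : (Fin n →₀ ℕ) → Fin d' → k} {mon : Fin d → (Fin n →₀ ℕ)}
    (hmon : IsOrd mon) (hF : ∀ B, B ∉ Dlt mon → F B = 0) (i : Fin n) (g : Fin d → k)
    (A' : Matrix (Fin d') (Fin d') k)
    (hA : ∀ s, F (mon s + Finsupp.single i 1) + g s • F (mon s) = A' *ᵥ F (mon s)) :
    colM F mon * (Amon k mon i + Matrix.diagonal g) = A' * colM F mon := by
  ext r s
  have h1 : (A' * colM F mon) r s = (A' *ᵥ F (mon s)) r := rfl
  have h2 : (colM F mon * Amon k mon i) r s =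
      (colM F mon *ᵥ V0 k mon (mon s + Finsupp.single i 1)) r := by
    rw [← Amon_col]
    rfl
  rw [h1, ← hA s, Matrix.mul_add, Matrix.add_apply, h2, colM_mulVec hmon hF,
    Matrix.mul_diagonal, colM_apply]
  simp only [Pi.add_apply, Pi.smul_apply, smul_eq_mul]
  ring

private lemma V0_eq_zero {mon : Fin d → (Fin n →₀ ℕ)} {B : Fin n →₀ ℕ} (h : B ∉ Dlt mon) :
    V0 k mon B = 0 := by
  classical
  funext r
  rw [V0_apply, if_neg]
  · rfl
  · intro h'
    exact h (mem_Dlt.2 ⟨r, h'⟩)

theorem good_rem [Infinite k] {Δ : Finset (Fin n →₀ ℕ)} (hlow : Low Δ) (l : Fin n) (j : ℕ)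
    (h : Good k (rem Δ l j)) : Good k Δ := by
  classical
  intro d mon hmon hD
  obtain ⟨mon1, hmon1, hD1⟩ := exists_mon (low_slice hlow l j)
  obtain ⟨mon2, hmon2, hD2⟩ := exists_mon (low_rem hlow l j)
  have hd : (slice Δ l j).card + (rem Δ l j).card = d := by
    rw [card_slice_add_rem, ← hD, hmon.card_Dlt]
  set D : Fin d → k := fun s => if mon s l = j then 1 else 0 with hDdef
  let cv : Coord n d → Polynomial k := Sum.elim
    (fun x => Polynomial.C (Amon k mon x.1 x.2.1 x.2.2) +
      if x.1 = l then Polynomial.X * Polynomial.C (Matrix.diagonal D x.2.1 x.2.2) else 0)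
    (fun r => Polynomial.C (V0 k mon 0 r))
  have hcv : ∀ t : k, (fun x => (cv x).eval t) =
      mk (fun i => Amon k mon i + Matrix.diagonal (fun s => if i = l then t * D s else 0))
        (V0 k mon 0) := by
    intro t
    funext x
    rcases x with ⟨i, r, s⟩ | r
    · show (Polynomial.C (Amon k mon i r s) +
        if i = l then Polynomial.X * Polynomial.C (Matrix.diagonal D r s) else 0 :
          Polynomial k).eval t = Amon k mon i r s + Matrix.diagonal _ r s
      by_cases hi : i = l
      · simp only [if_pos hi, Polynomial.eval_add, Polynomial.eval_C, Polynomial.eval_mul,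
          Polynomial.eval_X]
        congr 1
        by_cases hrs : r = s
        · subst hrs
          simp
        · simp [hrs]
      · simp only [if_neg hi, Polynomial.eval_add, Polynomial.eval_C, Polynomial.eval_zero]
        congr 1
        by_cases hrs : r = s
        · subst hrs
          simp
        · simp [hrs]
    · show (Polynomial.C (V0 k mon 0 r)).eval t = V0 k mon 0 r
      simp
  have h0 : (fun x => (cv x).eval 0) = c00 k mon := by
    rw [hcv, c00_eq]
    congr 1
    funext i
    have : (fun s => if i = l then (0 : k) * D s else 0) = fun _ => 0 := by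
      funext s
      simp
    rw [this, Matrix.diagonal_zero, add_zero]
  rw [← h0]
  refine CL_of_curve cv ?_ 0
  have hev : ∀ᶠ t : k in Filter.cofinite, t ≠ 0 := by
    rw [Filter.eventually_cofinite]
    simp
  filter_upwards [hev] with t ht
  rw [hcv]
  -- the two column functions
  set F2 : (Fin n →₀ ℕ) → Fin (rem Δ l j).card → k := fun B =>
    if B l ≤ j then V0 k mon2 B else V0 k mon2 B - t • V0 k mon2 (B - Finsupp.single l 1)
    with hF2
  set F1 : (Fin n →₀ ℕ) → Fin (slice Δ l j).card → k := fun B =>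
    if B l ≤ j then t ^ (B l) • V0 k mon1 (B.erase l) else 0 with hF1
  have z2 : ∀ B, B ∉ Dlt mon → F2 B = 0 := by
    intro B hB
    rw [hD] at hB
    have hB2 : B ∉ rem Δ l j := fun h' => hB (rem_subset hlow l j h')
    by_cases hBl : B l ≤ j
    · simp only [hF2, if_pos hBl]
      exact V0_eq_zero (by rwa [hD2])
    · simp only [hF2, if_neg hBl]
      have hB3 : B - Finsupp.single l 1 ∉ rem Δ l j := by
        rw [mem_rem]
        have e1 : (B - Finsupp.single l 1 : Fin n →₀ ℕ) l = B l - 1 := by simp
        have e2 : B - Finsupp.single l 1 + Finsupp.single l 1 = B := by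
          ext m
          simp only [Finsupp.add_apply, Finsupp.tsub_apply]
          by_cases hm : l = m
          · subst hm
            simp only [Finsupp.single_eq_same]
            omega
          · simp [hm]
        rintro (⟨h1, h2⟩ | ⟨h1, h2⟩)
        · rw [e1] at h1
          omega
        · rw [e2] at h2
          exact hB h2
      rw [V0_eq_zero (by rwa [hD2]), V0_eq_zero (by rwa [hD2]), smul_zero, sub_zero]
  have z1 : ∀ B, B ∉ Dlt mon → F1 B = 0 := by
    intro B hB
    rw [hD] at hB
    by_cases hBl : B l ≤ j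
    · simp only [hF1, if_pos hBl]
      have hB3 : B.erase l ∉ slice Δ l j := by
        rw [mem_slice]
        rintro ⟨_, h2⟩
        refine hB (hlow.le ?_ h2)
        intro m
        simp only [Finsupp.add_apply]
        by_cases hm : m = l
        · subst hm
          simpa using hBl
        · rw [Finsupp.erase_ne hm]
          exact Nat.le_add_right _ _
      rw [V0_eq_zero (by rwa [hD1]), smul_zero]
    · simp only [hF1, if_neg hBl]
  have hsame : ∀ B : Fin n →₀ ℕ, (B + Finsupp.single l 1 : Fin n →₀ ℕ) l = B l + 1 := by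
    intro B
    simp
  have hother : ∀ (B : Fin n →₀ ℕ) (i : Fin n), i ≠ l → (B + Finsupp.single i 1 : Fin n →₀ ℕ) l = B l := by
    intro B i hi
    simp [hi]
  have key2 : ∀ (B : Fin n →₀ ℕ) (i : Fin n), F2 (B + Finsupp.single i 1) +
      (if i = l then t * (if B l = j then 1 else 0) else 0) • F2 B =
      Amon k mon2 i *ᵥ F2 B := by
    intro B i
    by_cases hi : i = l
    · subst hi
      rw [if_pos rfl]
      rcases lt_trichotomy (B i) j with hlt | heq | hgt
      · have a1 : B i ≤ j := hlt.le
        have a2 : (B + Finsupp.single i 1 : Fin n →₀ ℕ) i ≤ j := by rw [hsame]; omega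
        simp only [hF2]
        rw [if_pos a1, if_pos a2, if_neg hlt.ne, mul_zero, zero_smul, add_zero, V0_mul hmon2]
      · have a1 : B i ≤ j := heq.le
        have a2 : ¬ (B + Finsupp.single i 1 : Fin n →₀ ℕ) i ≤ j := by rw [hsame]; omega
        simp only [hF2]
        rw [if_pos a1, if_neg a2, if_pos heq, mul_one, ← V0_mul hmon2, add_tsub_cancel_right,
          sub_add_cancel]
      · have a1 : ¬ B i ≤ j := by omega
        have a2 : ¬ (B + Finsupp.single i 1 : Fin n →₀ ℕ) i ≤ j := by rw [hsame]; omega
        have a3 : B - Finsupp.single i 1 + Finsupp.single i 1 = B := by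
          ext m
          simp only [Finsupp.add_apply, Finsupp.tsub_apply]
          by_cases hm : i = m
          · subst hm
            simp only [Finsupp.single_eq_same]
            omega
          · simp [hm]
        simp only [hF2]
        rw [if_neg a1, if_neg a2, if_neg hgt.ne', mul_zero, zero_smul, add_zero,
          add_tsub_cancel_right, Matrix.mulVec_sub, Matrix.mulVec_smul, ← V0_mul hmon2,
          ← V0_mul hmon2, a3]
    · rw [if_neg hi, zero_smul, add_zero]
      simp only [hF2]
      rw [hother B i hi]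
      by_cases hBl : B l ≤ j
      · rw [if_pos hBl, if_pos hBl, V0_mul hmon2]
      · have a3 : B + Finsupp.single i 1 - Finsupp.single l 1 =
            B - Finsupp.single l 1 + Finsupp.single i 1 := by
          ext m
          simp only [Finsupp.add_apply, Finsupp.tsub_apply]
          by_cases hm : l = m
          · subst hm
            simp only [Finsupp.single_eq_same]
            omega
          · simp [hm]
        rw [if_neg hBl, if_neg hBl, Matrix.mulVec_sub, Matrix.mulVec_smul, ← V0_mul hmon2,
          ← V0_mul hmon2, a3]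
  have hA1 : Amon k mon1 l = 0 := by
    ext r s
    rw [Amon_apply, if_neg]
    · rfl
    · intro h1
      have h2 : mon1 r ∈ slice Δ l j := by
        rw [← hD1]
        exact mem_Dlt.2 ⟨r, rfl⟩
      rw [mem_slice, h1, hsame] at h2
      omega
  have key1 : ∀ (B : Fin n →₀ ℕ) (i : Fin n), F1 (B + Finsupp.single i 1) +
      (if i = l then t * (if B l = j then 1 else 0) else 0) • F1 B =
      (Amon k mon1 i + (if i = l then t else 0) • (1 : Matrix _ _ k)) *ᵥ F1 B := by
    intro B i
    by_cases hi : i = l
    · subst hi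
      rw [if_pos rfl, if_pos rfl, hA1, zero_add, Matrix.smul_mulVec, Matrix.one_mulVec]
      have a4 : (B + Finsupp.single i 1).erase i = B.erase i := by
        ext m
        by_cases hm : m = i
        · subst hm
          simp
        · rw [Finsupp.erase_ne hm, Finsupp.erase_ne hm]
          simp [Ne.symm hm]
      rcases lt_trichotomy (B i) j with hlt | heq | hgt
      · have a1 : B i ≤ j := hlt.le
        have a2 : (B + Finsupp.single i 1 : Fin n →₀ ℕ) i ≤ j := by rw [hsame]; omega
        simp only [hF1]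
        rw [if_pos a1, if_pos a2, if_neg hlt.ne, mul_zero, zero_smul, add_zero, a4, hsame,
          smul_smul, pow_succ']
      · have a1 : B i ≤ j := heq.le
        have a2 : ¬ (B + Finsupp.single i 1 : Fin n →₀ ℕ) i ≤ j := by rw [hsame]; omega
        simp only [hF1]
        rw [if_pos a1, if_neg a2, if_pos heq, mul_one, zero_add]
      · have a1 : ¬ B i ≤ j := by omega
        have a2 : ¬ (B + Finsupp.single i 1 : Fin n →₀ ℕ) i ≤ j := by rw [hsame]; omega
        simp only [hF1]
        rw [if_neg a1, if_neg a2, smul_zero, smul_zero, add_zero]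
    · rw [if_neg hi, if_neg hi, zero_smul, add_zero, zero_smul, add_zero]
      simp only [hF1]
      rw [hother B i hi]
      by_cases hBl : B l ≤ j
      · have a5 : (B + Finsupp.single i 1).erase l = B.erase l + Finsupp.single i 1 := by
          rw [Finsupp.erase_add, Finsupp.erase_single_ne (Ne.symm hi)]
        rw [if_pos hBl, if_pos hBl, a5, V0_mul hmon1, Matrix.mulVec_smul]
      · rw [if_neg hBl, if_neg hBl, Matrix.mulVec_zero]
  obtain ⟨N, hN⟩ := Amon_nilpotent (k := k) hmon2 l
  have hm2 : mats (c00 k mon2) = Amon k mon2 := by rw [c00_eq]; rfl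
  have hv2 : vect (c00 k mon2) = V0 k mon2 0 := by rw [c00_eq]; rfl
  have hm1 : mats (c00 k mon1) = Amon k mon1 := by rw [c00_eq]; rfl
  have hv1 : vect (c00 k mon1) = V0 k mon1 0 := by rw [c00_eq]; rfl
  set q : Fin n → k := fun i => if i = l then t else 0 with hq
  refine CL_of_pair hd (c1 := mk (fun i => mats (c00 k mon1) i + q i • 1) (vect (c00 k mon1)))
    (c2 := c00 k mon2) (Zset_shift (c00_mem_Zset hmon1) q) ?_ (h _ mon2 hmon2 hD2)
    (cyclic_c00 hmon2) (colM F1 mon) (colM F2 mon) ?_ ?_ ?_ ?_ l (B := t⁻¹ • 1) ?_ (N := N) ?_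
  · exact cyclic_shift (cyclic_c00 hmon1) q
  · intro i
    rw [mats_mk, mats_mk, hm1]
    exact colM_comm hmon z1 i _ _ fun s => key1 (mon s) i
  · rw [vect_mk, vect_mk, colM_mulVec hmon z1, hv1]
    simp [hF1]
  · intro i
    rw [mats_mk, hm2]
    exact colM_comm hmon z2 i _ _ fun s => key2 (mon s) i
  · rw [vect_mk, colM_mulVec hmon z2, hv2]
    simp [hF2]
  · rw [mats_mk, hm1, hA1, zero_add]
    simp only [hq, if_true]
    rw [Matrix.smul_mul, Matrix.one_mul, smul_smul, inv_mul_cancel₀ ht, one_smul]
  · rw [hm2]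
    exact hN

end Pool.Agent.Helper87.HQ
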