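import Pool.Agent.Helper87.HQ.Red
import Pool.Agent.Helper87.HQ.Split
import Pool.Agent.Helper87.HQ.Base
import Pool.Agent.Helper87.HQ.Comb

/-!
A monomial point with a stable order ideal which has all variables (if it has degree at least 2) and
at least three quadratic monomials (if it has degree at least 3) lies on another component.
-/

open MvPolynomial Module Matrix TopologicalSpace

namespace Pool.Agent.Helper87.HQ

open Pool.Agent.Hilb61

universe u

variable {k : Type u} [Field k] {n d : ℕ}

theorem other_of_stable [Infinite k] (hn : 4 ≤ n) (hd : 8 ≤ d) {mon : Fin d → (Fin n →₀ ℕ)}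
    (h : IsOrd mon) (hS : Stable (Dlt mon)) (z : Fin n) (hz : ∀ i, i ≤ z)
    (hall : (∃ b ∈ Dlt mon, 2 ≤ b.degree) → ∀ i : Fin n, Finsupp.single i 1 ∈ Dlt mon)
    (h3 : Finsupp.single z 3 ∈ Dlt mon →
      3 ≤ ((Dlt mon).filter (fun b => b.degree = 2)).card)
    {x : Hilb k n d} {lam : Fin d → MvPolynomial (Fin n) k} (hx : IsCoord lam x.1 (c00 k mon)) :
    ∃ Z ∈ irreducibleComponents (Hilb k n d), x ∈ Z ∧ Z ≠ smoothable k n d := by
  have hcard : (Dlt mon).card = d := h.card_Dlt
  have hgood : Good k (Dlt mon) := comb (P := Good k)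
    (fun Δ l j hlow h' => good_rem hlow l j h')
    (fun Δ hlow hc hdeg hv => good_base hlow hc hdeg hv) hn z hz hS (by rw [hcard]; exact hd)
    hall h3
  exact component_of_CL hx (hgood d mon h rfl)

end Pool.Agent.Helper87.HQ
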