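import Pool.Agent.Helper87.HQ.Swap

/-!
THEOREM `exists_min`: a maximiser can be degenerated to a strongly stable monomial point which cannot
be improved.

PROOF. `exists_weight2`: take `w` from `exists_weight n d` (Helper61/HilbStab.lean) and `N` larger than all `w i`
and than `phi w B` for all `B` with `B i < d`; `w' i = N + w i` (`phi w' B = N * B.degree + phi w B`).
`exists_min`: `exists_stable_max` (Helper61/HilbMax.lean) gives `mon0`, with `c00 k mon0 ∈ Zset`
(`Zset_of_smoothable`). Consider all `mon` with `IsOrd mon`, `c00 k mon ∈ Zset`, `finrank (tanR (c00 k mon0)) ≤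
finrank (tanR (c00 k mon))`; take one with minimal `∑ s, phi w (mon s)` (`Nat.find` or strong induction).
It is stable: otherwise `exists_better_H` and the argument in the proof of `exists_stable_H`
(Helper61/HilbStabH.lean) give a smaller one. Second property: `swap_var`. Third property: all
variables are present (second property), `2 e_z` is a quadratic monomial; if there are at most 2
quadratic monomials then, as `n ≥ 3`, some `l ≠ z` has `e_l + e_z ∉ Dlt mon` (otherwise `2 e_z` and two `e_l + e_z`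
are three quadratic monomials): `swap_quad`. The point `x'`: `exists_isCoord_c00`, `toHilb_eq`,
`smoothable_of_Zset`, and `finrank_tanR_eq` (as in `exists_stable_max`).
-/

open MvPolynomial Module Matrix

namespace Pool.Agent.Helper87.HQ

open Pool.Agent.Hilb61

universe u

variable {k : Type u} [Field k] {n d : ℕ}

theorem exists_weight2 (n d : ℕ) : ∃ w : Fin n → ℕ, (∀ i, 1 ≤ w i) ∧
    (∀ i j, i < j → w j < w i) ∧ (∀ i j, w i < 2 * w j) ∧
    ∀ B C : Fin n →₀ ℕ, (∀ i, B i < d) → (∀ i, C i < d) → phi w B = phi w C → B = C := by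
  obtain ⟨w, hw1, hw2, hw3⟩ := exists_weight n d
  have hsum : ∀ i, w i ≤ ∑ j, w j := fun i =>
    Finset.single_le_sum (fun _ _ => Nat.zero_le _) (Finset.mem_univ i)
  set S : ℕ := ∑ j, w j with hS
  refine ⟨fun i => (S * (d + 1) + 1) + w i, fun i => ?_, fun i j hij => ?_,
    fun i j => ?_, ?_⟩
  · show 1 ≤ (S * (d + 1) + 1) + w i
    omega
  · have := hw2 i j hij
    show (S * (d + 1) + 1) + w j < (S * (d + 1) + 1) + w i
    omega
  · have h1 := hsum i
    have h2 : S ≤ S * (d + 1) := Nat.le_mul_of_pos_right S (by omega)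
    show (S * (d + 1) + 1) + w i < 2 * ((S * (d + 1) + 1) + w j)
    omega
  · intro B C hB hC h
    have hphi : ∀ D : Fin n →₀ ℕ, phi (fun i => (S * (d + 1) + 1) + w i) D =
        (S * (d + 1) + 1) * (∑ i, D i) + phi w D := by
      intro D
      rw [phi, phi, Finset.mul_sum, ← Finset.sum_add_distrib]
      exact Finset.sum_congr rfl fun i _ => add_mul _ _ _
    have hlt : ∀ D : Fin n →₀ ℕ, (∀ i, D i < d) → phi w D < S * (d + 1) + 1 := by
      intro D hD
      have h1 : phi w D ≤ S * (d + 1) := by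
        rw [phi, hS, Finset.sum_mul]
        apply Finset.sum_le_sum
        intro i _
        have := hD i
        exact Nat.mul_le_mul_left _ (by omega)
      omega
    rw [hphi, hphi] at h
    have hB' := hlt B hB
    have hC' := hlt C hC
    have h2 : phi w B = phi w C := by
      have h3 := congrArg (· % (S * (d + 1) + 1)) h
      simp only [Nat.mul_add_mod] at h3
      rwa [Nat.mod_eq_of_lt hB', Nat.mod_eq_of_lt hC'] at h3
    exact hw3 B C hB hC h2

/-- One stabilisation step inside the closure of the reduced tuples. -/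
private lemma better_step [Infinite k] (hK : ∀ m : ℕ, 1 ≤ m → m ≤ d → (m : k) ≠ 0)
    {mon : Fin d → (Fin n →₀ ℕ)} (h : IsOrd mon) {w : Fin n → ℕ} (hw1 : ∀ i, 1 ≤ w i)
    (hw2 : ∀ i j, i < j → w j < w i)
    (hw3 : ∀ B C : Fin n →₀ ℕ, (∀ i, B i < d) → (∀ i, C i < d) → phi w B = phi w C → B = C)
    (hZ : c00 k mon ∈ Zset k n d) (hst : ¬ Stable (Dlt mon)) :
    ∃ mon' : Fin d → (Fin n →₀ ℕ), IsOrd mon' ∧ c00 k mon' ∈ Zset k n d ∧
      finrank k (tanR (c00 k mon)) ≤ finrank k (tanR (c00 k mon')) ∧
      ∑ s, phi w (mon' s) < ∑ s, phi w (mon s) := by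
  classical
  obtain ⟨i, j, t, mon1, b, hij, h1, hstd, hall, hb, hlt⟩ :=
    exists_better_H (K := k) hK h hw1 hw2 hw3 hst
  let g : Matrix (Fin n) (Fin n) k := 1 + Matrix.single j i t
  let g' : Matrix (Fin n) (Fin n) k := 1 - Matrix.single j i t
  have hgg : g' * g = 1 := by
    show (1 - Matrix.single j i t) * (1 + Matrix.single j i t) = 1
    rw [sub_mul, mul_add, mul_add, Matrix.single_mul_single_of_ne _ _ _ _ hij]
    simp
  obtain ⟨h3, h4⟩ := tanR_push (fun b hb => glL_Rset hgg hb) (glL_injective hgg) hZ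
  have hm : ∀ m, mats (glL g (c00 k mon)) m = At mon i j t m := by
    intro m
    rw [mats_glL, c00_eq, mats_mk]
    by_cases hmj : m = j
    · subst hmj
      rw [At, Function.update_self, Finset.sum_eq_add m i hij.symm]
      · show (1 + Matrix.single m i t) m m • _ + (1 + Matrix.single m i t) m i • _ = _
        rw [Matrix.add_apply, Matrix.add_apply, Matrix.one_apply_eq,
          Matrix.one_apply_ne hij.symm]
        simp [hij]
      · intro c _ hc
        show (1 + Matrix.single m i t) m c • _ = _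
        rw [Matrix.add_apply, Matrix.one_apply_ne hc.1.symm]
        simp [hc.2.symm]
      · intro h; exact absurd (Finset.mem_univ _) h
      · intro h; exact absurd (Finset.mem_univ _) h
    · rw [At, Function.update_of_ne hmj, Finset.sum_eq_single m]
      · show (1 + Matrix.single j i t) m m • _ = _
        rw [Matrix.add_apply, Matrix.one_apply_eq]
        simp [Ne.symm hmj]
      · intro c _ hc
        show (1 + Matrix.single j i t) m c • _ = _
        rw [Matrix.add_apply, Matrix.one_apply_ne hc.symm]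
        simp [Ne.symm hmj]
      · intro h; exact absurd (Finset.mem_univ _) h
  have hv : Vt mon i j t 0 = vect (glL g (c00 k mon)) := by
    rw [vect_glL, c00_eq, vect_mk, Vt]
    simp
  obtain ⟨h5, h6⟩ := degen_c00 (V := Vt mon i j t) h3 (by
    intro B m
    rw [hm]
    exact Vt_mul h hij t B m) hv hstd hall hb
  exact ⟨mon1, h1, h5, h4.trans h6, hlt⟩

theorem exists_min [Infinite k] (hK : ∀ m : ℕ, 1 ≤ m → m ≤ d → (m : k) ≠ 0) (hd : 1 ≤ d)
    (hn : 3 ≤ n) (z : Fin n) (hz : ∀ i, i ≤ z) {x : Hilb k n d} (hx : x ∈ smoothable k n d)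
    {N : ℕ} (hN : HasTangentDim x N) :
    ∃ mon : Fin d → (Fin n →₀ ℕ), IsOrd mon ∧ Stable (Dlt mon) ∧
      ((∃ b ∈ Dlt mon, 2 ≤ b.degree) → ∀ i : Fin n, Finsupp.single i 1 ∈ Dlt mon) ∧
      (Finsupp.single z 3 ∈ Dlt mon →
        3 ≤ ((Dlt mon).filter (fun b => b.degree = 2)).card) ∧
      ∃ x' ∈ smoothable k n d, IsCoord (lamD k mon) x'.1 (c00 k mon) ∧
        N ≤ finrank k (tangent (lamD k mon) (c00 k mon)) := by
  classical
  obtain ⟨w, hw1, hw2, hw4, hw3⟩ := exists_weight2 n d
  obtain ⟨mon0, h0, -, x0, hx0, hxc0, hN0⟩ := exists_stable_max hK hd hx hN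
  have hZ0 := Zset_of_smoothable hx0 hxc0
  have hP : ∃ T : ℕ, ∃ mon : Fin d → (Fin n →₀ ℕ), IsOrd mon ∧ c00 k mon ∈ Zset k n d ∧
      finrank k (tanR (c00 k mon0)) ≤ finrank k (tanR (c00 k mon)) ∧
      ∑ s, phi w (mon s) = T := ⟨_, mon0, h0, hZ0, le_rfl, rfl⟩
  obtain ⟨mon, h, hZ, hle, hT⟩ := Nat.find_spec hP
  have hmin : ¬ ∃ mon' : Fin d → (Fin n →₀ ℕ), IsOrd mon' ∧ c00 k mon' ∈ Zset k n d ∧
      finrank k (tanR (c00 k mon)) ≤ finrank k (tanR (c00 k mon')) ∧
      ∑ s, phi w (mon' s) < ∑ s, phi w (mon s) := by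
    rintro ⟨mon', h1, h2, h3, h4⟩
    rw [hT] at h4
    exact Nat.find_min hP h4 ⟨mon', h1, h2, hle.trans h3, rfl⟩
  have hst : Stable (Dlt mon) := by
    by_contra hc
    exact hmin (better_step hK h hw1 hw2 hw3 hZ hc)
  have hvar : (∃ b ∈ Dlt mon, 2 ≤ b.degree) → ∀ i : Fin n, Finsupp.single i 1 ∈ Dlt mon := by
    intro h2 i
    by_contra hc
    exact hmin (swap_var hw1 hw3 hw4 h hst hZ hz h2 hc)
  have hlow : ∀ (a : ℕ), Finsupp.single z (a + 1) ∈ Dlt mon → Finsupp.single z a ∈ Dlt mon := by
    intro a ha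
    have e : Finsupp.single z (a + 1) = Finsupp.single z a + Finsupp.single z 1 := by
      rw [← Finsupp.single_add]
    rw [e] at ha
    exact (hst _ z ha).1
  have hquad : Finsupp.single z 3 ∈ Dlt mon →
      3 ≤ ((Dlt mon).filter (fun b => b.degree = 2)).card := by
    intro h3
    have h2 : Finsupp.single z 2 ∈ Dlt mon := hlow 2 h3
    have hall := hvar ⟨_, h3, by rw [Finsupp.degree_single]; omega⟩
    by_cases hl : ∃ l, l ≠ z ∧ Finsupp.single l 1 + Finsupp.single z 1 ∉ Dlt mon
    · obtain ⟨l, hlz, hl'⟩ := hl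
      exact absurd (swap_quad hw1 hw3 hw4 h hst hZ hz h3 hlz (hall l) hl') hmin
    · push Not at hl
      obtain ⟨l1, l2, h1z, h2z, h12⟩ : ∃ l1 l2 : Fin n, l1 ≠ z ∧ l2 ≠ z ∧ l1 ≠ l2 := by
        have hc : 2 ≤ (Finset.univ.erase z : Finset (Fin n)).card := by
          rw [Finset.card_erase_of_mem (Finset.mem_univ _), Finset.card_univ, Fintype.card_fin]
          omega
        obtain ⟨a, ha, b, hb, hab⟩ := Finset.one_lt_card.mp (show 1 < _ from hc)
        exact ⟨a, b, Finset.ne_of_mem_erase ha, Finset.ne_of_mem_erase hb, hab⟩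
      have hsub : ({Finsupp.single z 2, Finsupp.single l1 1 + Finsupp.single z 1,
          Finsupp.single l2 1 + Finsupp.single z 1} : Finset (Fin n →₀ ℕ)) ⊆
          (Dlt mon).filter (fun b => b.degree = 2) := by
        intro b hb
        rw [Finset.mem_filter]
        simp only [Finset.mem_insert, Finset.mem_singleton] at hb
        rcases hb with rfl | rfl | rfl
        · exact ⟨h2, Finsupp.degree_single _ _⟩
        · exact ⟨hl l1 h1z, by rw [map_add, Finsupp.degree_single, Finsupp.degree_single]⟩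
        · exact ⟨hl l2 h2z, by rw [map_add, Finsupp.degree_single, Finsupp.degree_single]⟩
      have hcard : ({Finsupp.single z 2, Finsupp.single l1 1 + Finsupp.single z 1,
          Finsupp.single l2 1 + Finsupp.single z 1} : Finset (Fin n →₀ ℕ)).card = 3 := by
        have key : ∀ l : Fin n, l ≠ z → (Finsupp.single z 2 : Fin n →₀ ℕ) ≠
            Finsupp.single l 1 + Finsupp.single z 1 := by
          intro l hlz he
          have := DFunLike.congr_fun he z
          rw [Finsupp.add_apply, Finsupp.single_eq_same, Finsupp.single_eq_same,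
            Finsupp.single_eq_of_ne hlz.symm] at this
          omega
        rw [Finset.card_eq_three]
        refine ⟨_, _, _, key l1 h1z, key l2 h2z, ?_, rfl⟩
        intro he
        have h4 : (Finsupp.single l1 1 : Fin n →₀ ℕ) = Finsupp.single l2 1 :=
          add_right_cancel he
        have := DFunLike.congr_fun h4 l1
        rw [Finsupp.single_eq_same, Finsupp.single_eq_of_ne h12] at this
        omega
      calc 3 = _ := hcard.symm
        _ ≤ _ := Finset.card_le_card hsub
  obtain ⟨x', hx'⟩ := exists_isCoord_c00 k h hd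
  have hs : x' ∈ smoothable k n d := by
    rw [← toHilb_eq hx']
    exact smoothable_of_Zset hZ _
  refine ⟨mon, h, hst, hvar, hquad, x', hs, hx', ?_⟩
  have e1 := finrank_tanR_eq hx0 hxc0
  have e2 := finrank_tanR_eq hs hx'
  omega

end Pool.Agent.Helper87.HQ
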