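import Pool.Agent.Helper87.HQ.Rem

/-!
Selecting levels of a coordinate. In all statements `P` is a property of finite sets with
`hP : P (rem Δ l j) → P Δ` for lower sets `Δ`.

`mem_pull`: for a lower set `Δ` and strictly increasing `φ`, `b.update l (φ (b l)) ≥ b`.
`of_pull`, PROOF. Let `M` bound all `b l` (`b ∈ Δ`); `pull Δ l φ` depends only on `φ` at the arguments `p` with
`φ p < M`. Induction on the number of skipped levels `j < M`, `j ∉ range φ`. If there is none, `φ p = p` for
all `p < M` and `pull Δ l φ = Δ`. Otherwise let `j` be one, and `φ' p = φ p` if `φ p < j`, `φ p - 1` if `φ p > j`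
(strictly increasing). Then `pull (rem Δ l j) l φ' = pull Δ l φ`, and `rem Δ l j` is a lower set with bound
`M - 1`, where `φ'` skips one level less. So `P (pull Δ l φ)` gives `P (rem Δ l j)` by induction, and `P Δ` by
`hP`.
`of_drop`: `pull` with `φ p = p * (M + 1)` (`M` a bound) is `Δ.filter (fun b => b l = 0)`.
-/

namespace Pool.Agent.Helper87.HQ

open Pool.Agent.Hilb61

variable {n : ℕ}

/-- The part of `Δ` with the levels `φ 0 < φ 1 < ..` of the coordinate `l`, renumbered. -/
noncomputable def pull (Δ : Finset (Fin n →₀ ℕ)) (l : Fin n) (φ : ℕ → ℕ) :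
    Finset (Fin n →₀ ℕ) := by
  classical exact Δ.filter (fun b => b.update l (φ (b l)) ∈ Δ)

theorem mem_pull {Δ : Finset (Fin n →₀ ℕ)} (hΔ : Low Δ) {l : Fin n} {φ : ℕ → ℕ}
    (hφ : StrictMono φ) {b : Fin n →₀ ℕ} :
    b ∈ pull Δ l φ ↔ b.update l (φ (b l)) ∈ Δ := by
  classical
  unfold pull
  simp only [Finset.mem_filter]
  refine ⟨fun h => h.2, fun h => ⟨hΔ.le ?_ h, h⟩⟩
  intro i
  rw [Finsupp.coe_update]
  by_cases hi : i = l
  · subst hi
    rw [Function.update_self]
    exact hφ.le_apply
  · rw [Function.update_of_ne hi]

theorem low_pull {Δ : Finset (Fin n →₀ ℕ)} (hΔ : Low Δ) {l : Fin n} {φ : ℕ → ℕ}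
    (hφ : StrictMono φ) : Low (pull Δ l φ) := by
  classical
  intro b i hb
  rw [mem_pull hΔ hφ] at hb ⊢
  refine hΔ.le ?_ hb
  intro m
  rw [Finsupp.coe_update, Finsupp.coe_update]
  by_cases hm : m = l
  · subst hm
    rw [Function.update_self, Function.update_self]
    apply hφ.monotone
    rw [Finsupp.add_apply]
    exact Nat.le_add_right _ _
  · rw [Function.update_of_ne hm, Function.update_of_ne hm, Finsupp.add_apply]
    exact Nat.le_add_right _ _

private theorem update_self' (b : Fin n →₀ ℕ) (l : Fin n) {v : ℕ} (h : v = b l) :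
    b.update l v = b := by
  classical
  subst h
  ext m
  rw [Finsupp.coe_update, Function.update_eq_self]

private theorem le_update (b : Fin n →₀ ℕ) (l : Fin n) {v : ℕ} (h : b l ≤ v) :
    b ≤ b.update l v := by
  classical
  intro m
  rw [Finsupp.coe_update]
  by_cases hm : m = l
  · subst hm
    rwa [Function.update_self]
  · rw [Function.update_of_ne hm]

private theorem update_apply_self (b : Fin n →₀ ℕ) (l : Fin n) (v : ℕ) :
    (b.update l v) l = v := by
  classical
  rw [Finsupp.coe_update, Function.update_self]

private theorem update_add (b : Fin n →₀ ℕ) (l : Fin n) (v : ℕ) :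
    b.update l v + Finsupp.single l 1 = b.update l (v + 1) := by
  classical
  ext m
  rw [Finsupp.add_apply, Finsupp.coe_update, Finsupp.coe_update]
  by_cases hm : m = l
  · subst hm
    rw [Function.update_self, Function.update_self, Finsupp.single_eq_same]
  · rw [Function.update_of_ne hm, Function.update_of_ne hm,
      Finsupp.single_eq_of_ne hm, add_zero]

private theorem update_le (b : Fin n →₀ ℕ) (l : Fin n) {v : ℕ} (h : v ≤ b l) :
    b.update l v ≤ b := by
  classical
  intro m
  rw [Finsupp.coe_update]
  by_cases hm : m = l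
  · subst hm
    rwa [Function.update_self]
  · rw [Function.update_of_ne hm]

/-- If all elements of `Δ` are below the level `j`, and `φ` is the identity below `j`. -/
private theorem pull_eq {Δ : Finset (Fin n →₀ ℕ)} (hΔ : Low Δ) {l : Fin n} {φ : ℕ → ℕ}
    (hφ : StrictMono φ) {j : ℕ} (h1 : ∀ b ∈ Δ, b l < j) (h2 : ∀ p, p < j → φ p = p) :
    pull Δ l φ = Δ := by
  ext b
  rw [mem_pull hΔ hφ]
  constructor
  · intro h
    exact hΔ.le (le_update b l hφ.le_apply) h
  · intro h
    rwa [update_self' b l (h2 _ (h1 b h))]

theorem of_pull (P : Finset (Fin n →₀ ℕ) → Prop)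
    (hP : ∀ (Δ : Finset (Fin n →₀ ℕ)) (l : Fin n) (j : ℕ), Low Δ → P (rem Δ l j) → P Δ)
    {Δ : Finset (Fin n →₀ ℕ)} (hΔ : Low Δ) {l : Fin n} {φ : ℕ → ℕ} (hφ : StrictMono φ)
    (h : P (pull Δ l φ)) : P Δ := by
  classical
  induction hc : Δ.card using Nat.strong_induction_on generalizing Δ φ with
  | _ c ih =>
    by_cases hid : ∀ p, φ p = p
    · have hM : ∃ M, ∀ b ∈ Δ, b l < M :=
        ⟨Δ.sup (fun b => b l) + 1, fun b hb =>
          Nat.lt_succ_of_le (Finset.le_sup (f := fun b : Fin n →₀ ℕ => b l) hb)⟩
      obtain ⟨M, hM⟩ := hM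
      rwa [pull_eq hΔ hφ hM (fun p _ => hid p)] at h
    · push Not at hid
      obtain ⟨j, hj, hmin⟩ : ∃ j, φ j ≠ j ∧ ∀ p, p < j → φ p = p := by
        refine ⟨Nat.find hid, Nat.find_spec hid, fun p hp => ?_⟩
        have := Nat.find_min hid hp
        push Not at this
        exact this
      have hjlt : j < φ j := lt_of_le_of_ne hφ.le_apply (Ne.symm hj)
      by_cases hall : ∀ b ∈ Δ, b l < j
      · rwa [pull_eq hΔ hφ hall hmin] at h
      · push Not at hall
        obtain ⟨b0, hb0, hb0j⟩ := hall
        let φ' : ℕ → ℕ := fun p => if p < j then p else φ p - 1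
        have hφ' : StrictMono φ' := by
          intro p q hpq
          simp only [φ']
          by_cases hq : q < j
          · rw [if_pos (hpq.trans hq), if_pos hq]
            exact hpq
          · rw [if_neg hq]
            have hq2 : φ j ≤ φ q := hφ.monotone (not_lt.1 hq)
            by_cases hp : p < j
            · rw [if_pos hp]
              omega
            · rw [if_neg hp]
              have := hφ hpq
              have hp2 : φ j ≤ φ p := hφ.monotone (not_lt.1 hp)
              omega
        have hcard : (rem Δ l j).card < c := by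
          have h1 := card_slice_add_rem Δ l j
          have h2 : 0 < (slice Δ l j).card := by
            rw [Finset.card_pos]
            refine ⟨b0.update l 0, ?_⟩
            rw [mem_slice]
            refine ⟨update_apply_self _ _ _, ?_⟩
            have : b0.update l 0 + Finsupp.single l j = b0.update l j := by
              ext m
              rw [Finsupp.add_apply, Finsupp.coe_update, Finsupp.coe_update]
              by_cases hm : m = l
              · subst hm
                rw [Function.update_self, Function.update_self, Finsupp.single_eq_same,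
                  zero_add]
              · rw [Function.update_of_ne hm, Function.update_of_ne hm,
                  Finsupp.single_eq_of_ne hm, add_zero]
            rw [this]
            exact hΔ.le (update_le b0 l hb0j) hb0
          omega
        have hlow := low_rem hΔ l j
        have heq : pull (rem Δ l j) l φ' = pull Δ l φ := by
          ext b
          rw [mem_pull hlow hφ', mem_pull hΔ hφ, mem_rem, update_apply_self]
          by_cases hb : b l < j
          · have e1 : φ' (b l) = b l := by
              simp only [φ']
              rw [if_pos hb]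
            rw [e1, hmin _ hb]
            constructor
            · rintro (h | h)
              · exact h.2
              · exact absurd hb (not_lt.2 h.1)
            · intro h
              exact Or.inl ⟨hb, h⟩
          · have e1 : φ' (b l) = φ (b l) - 1 := by
              simp only [φ']
              rw [if_neg hb]
            have h3 : φ j ≤ φ (b l) := hφ.monotone (not_lt.1 hb)
            rw [e1, update_add]
            have e2 : φ (b l) - 1 + 1 = φ (b l) := by omega
            rw [e2]
            constructor
            · rintro (h | h)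
              · omega
              · exact h.2
            · intro h
              exact Or.inr ⟨by omega, h⟩
        refine hP Δ l j hΔ (ih _ hcard hlow hφ' ?_ rfl)
        rw [heq]
        exact h

theorem of_drop (P : Finset (Fin n →₀ ℕ) → Prop)
    (hP : ∀ (Δ : Finset (Fin n →₀ ℕ)) (l : Fin n) (j : ℕ), Low Δ → P (rem Δ l j) → P Δ)
    {Δ : Finset (Fin n →₀ ℕ)} (hΔ : Low Δ) (l : Fin n)
    (h : P (Δ.filter (fun b => b l = 0))) : P Δ := by
  classical
  obtain ⟨M, hM⟩ : ∃ M, ∀ b ∈ Δ, b l < M :=
    ⟨Δ.sup (fun b => b l) + 1, fun b hb =>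
      Nat.lt_succ_of_le (Finset.le_sup (f := fun b : Fin n →₀ ℕ => b l) hb)⟩
  have hφ : StrictMono (fun p : ℕ => p * (M + 1)) := by
    intro p q hpq
    exact Nat.mul_lt_mul_of_pos_right hpq (Nat.succ_pos M)
  refine of_pull P hP hΔ (l := l) hφ ?_
  have heq : pull Δ l (fun p : ℕ => p * (M + 1)) = Δ.filter (fun b => b l = 0) := by
    ext b
    rw [mem_pull hΔ hφ, Finset.mem_filter]
    constructor
    · intro hb
      have h1 := hM _ hb
      rw [update_apply_self] at h1
      have h0 : b l = 0 := by
        by_contra hne
        have : 1 * (M + 1) ≤ b l * (M + 1) :=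
          Nat.mul_le_mul_right _ (Nat.one_le_iff_ne_zero.2 hne)
        omega
      refine ⟨?_, h0⟩
      rwa [update_self' b l (by simp only [h0, zero_mul])] at hb
    · rintro ⟨hb, h0⟩
      rwa [update_self' b l (by simp only [h0, zero_mul])]
  rw [heq]
  exact h

end Pool.Agent.Helper87.HQ
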