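import Pool.Agent.Helper87.HQ.Defs

/-!
Points with few deformations are not smoothable. PROOFS.
`exists_ZC_poly`: `ZC (mats c)` is the kernel of `commL (mats c)` (`ker_commL`, Helper61/HilbEps or
HilbSC), which is linear in `c`. Let `r` be its rank at `c0`; choose `x_1..x_r` with independent
images at `c0` and linear forms `y_1..y_r` with `y_a (commL (mats c0) x_b) = δ_ab` (dual family);
`F = det (y_a (commL (mats c) x_b))` as a polynomial in `c` (entries linear: `affP`, `eval_affP` or sums
`∑ x, C (value at Pi.single x 1) * X x`). If `F(c) ≠ 0` the rank at `c` is at least `r`. Compare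
`exists_forms_R`, `finrank_tanR_le_of_det` in Helper61/HilbSemi.lean.
`ZC_ge_of_Rset`: after conjugation (`finrank_ZC_conj`; `U` diagonalises: `U * mats c i =
diagonal (p . i) * U`) the tuple is `A i = diagonal (fun a => p a i)`, and
`(D, Y) ↦ B i = diagonal (D i) + (Y a b * (p b i - p a i))_{a ≠ b}` is linear from
`(Fin n → Fin d → k) × ({x : Fin d × Fin d // x.1 ≠ x.2} → k)` into `ZC A`, injective since for `a ≠ b`
some `p a i ≠ p b i`. Dimension `n d + d^2 - d`.
`Few_not_Zset`: if `c ∈ Zset`, the polynomial of `exists_ZC_poly` at `c` does not vanish on all of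
`Rset` (otherwise it is in `eqR`), so some reduced tuple has too small `ZC`, against
`ZC_ge_of_Rset`.
`component_of_CL`: `x = toHilb ⟨c, _⟩` (`toHilb_eq`). Every open set `W` containing `x` contains a point
outside `smoothable`: `isOpen_Cset_iff` for the preimage of `W` under `toHilb`
(`continuous_toHilb`) gives a polynomial `h` not vanishing at `c`, so (as `c ∈ CL`) not vanishing at
some `c' ∈ Few`; `toHilb c' ∈ W` and `toHilb c' ∉ smoothable` (`exists_chart`, `Zset_of_smoothable`,
`Few_not_Zset`). `Hilb k n d` is a `NoetherianSpace` (instance in Helper61/HilbTop.lean), so it has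
finitely many irreducible components (`TopologicalSpace.NoetherianSpace.finite_irreducibleComponents`),
all closed; the complement of `smoothable` is contained in the (closed) union of the components
`Z ≠ smoothable` (every point lies in some component, `mem_irreducibleComponent`; if it is
`smoothable` then the point is smoothable), so `x` is in that union.
-/

open MvPolynomial Module Matrix TopologicalSpace

namespace Pool.Agent.Helper87.HQ

open Pool.Agent.Hilb61

universe u

variable {k : Type u} [Field k] {n d : ℕ}

/-- `mats` as a linear map. -/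
private def matsL (k : Type u) [Field k] (n d : ℕ) :
    (Coord n d → k) →ₗ[k] (Fin n → Matrix (Fin d) (Fin d) k) where
  toFun c := mats c
  map_add' _ _ := rfl
  map_smul' _ _ := rfl

private lemma commL_symm (A B : Fin n → Matrix (Fin d) (Fin d) k) :
    commL A B = commL B A := by
  funext i j
  show (A i * B j - B j * A i) - (A j * B i - B i * A j) =
    (B i * A j - A j * B i) - (B j * A i - A i * B j)
  abel

theorem exists_ZC_poly (c0 : Coord n d → k) : ∃ F : MvPolynomial (Coord n d) k, eval c0 F ≠ 0 ∧
    ∀ c, eval c F ≠ 0 → finrank k (ZC (mats c)) ≤ finrank k (ZC (mats c0)) := by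
  classical
  set T0 := commL (mats c0) with hT0
  set r := finrank k (LinearMap.range T0) with hr
  let b : Basis (Fin r) k (LinearMap.range T0) := Module.finBasisOfFinrankEq k _ rfl
  have hpre : ∀ i, ∃ u, T0 u = (b i : Fin n → Fin n → Matrix (Fin d) (Fin d) k) := fun i => (b i).2
  choose u hu using hpre
  let U : (Fin r → k) →ₗ[k] (Fin n → Matrix (Fin d) (Fin d) k) := Fintype.linearCombination k u
  obtain ⟨L, hL⟩ := LinearMap.exists_leftInverse_of_injective
    ((Submodule.subtype (LinearMap.range T0)).comp (b.equivFun.symm : (Fin r → k) →ₗ[k] _))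
    (by
      rw [LinearMap.ker_eq_bot]
      exact (Submodule.subtype_injective _).comp b.equivFun.symm.injective)
  have hTU : T0.comp U =
      (Submodule.subtype (LinearMap.range T0)).comp (b.equivFun.symm : (Fin r → k) →ₗ[k] _) := by
    apply LinearMap.pi_ext'
    intro i
    ext : 1
    simp [U, Fintype.linearCombination_apply_single, hu, Basis.equivFun_symm_apply]
  have h0 : L.comp (T0.comp U) = LinearMap.id := by rw [hTU]; exact hL
  -- the matrix of `L ∘ T(c) ∘ U`
  let φ : Fin r → Fin r → ((Coord n d → k) →ₗ[k] k) := fun a e =>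
    (LinearMap.proj a).comp (L.comp ((commL (u e)).comp (matsL k n d)))
  have hφ : ∀ c a e, φ a e c = (L (commL (mats c) (u e))) a := by
    intro c a e
    show (L (commL (u e) (mats c))) a = _
    rw [commL_symm]
  let N : Matrix (Fin r) (Fin r) (MvPolynomial (Coord n d) k) :=
    Matrix.of fun a e => ∑ x, C (φ a e (Pi.single x 1)) * X x
  have hN : ∀ c : Coord n d → k, N.map (eval c) =
      LinearMap.toMatrix' (L.comp ((commL (mats c)).comp U)) := by
    intro c
    ext a e
    rw [Matrix.map_apply, LinearMap.toMatrix'_apply]
    show eval c (∑ x, C (φ a e (Pi.single x 1)) * X x) = _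
    have h2 : ((L.comp ((commL (mats c)).comp U)) (Pi.single e 1)) a = φ a e c := by
      rw [hφ]
      show L (commL (mats c) (U (Pi.single e 1))) a = _
      have h3 : U (Pi.single e 1) = u e := by
        simp [U, Fintype.linearCombination_apply_single]
      rw [h3]
    rw [h2]
    rw [map_sum]
    conv_rhs => rw [← Finset.univ_sum_single c]
    rw [map_sum]
    apply Finset.sum_congr rfl
    intro x _
    rw [map_mul, eval_C, eval_X]
    have h4 : (Pi.single x (c x) : Coord n d → k) = c x • Pi.single x 1 := by
      rw [← Pi.single_smul, smul_eq_mul, mul_one]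
    rw [h4, map_smul, smul_eq_mul, mul_comm]
  have hdet : ∀ c : Coord n d → k, eval c N.det =
      (LinearMap.toMatrix' (L.comp ((commL (mats c)).comp U))).det := by
    intro c
    rw [← hN c]
    exact RingHom.map_det (eval c) N
  refine ⟨N.det, ?_, ?_⟩
  · rw [hdet, ← hT0, h0, LinearMap.toMatrix'_id, det_one]
    exact one_ne_zero
  · intro c hc
    rw [hdet] at hc
    have hinj : Function.Injective (L.comp ((commL (mats c)).comp U)) := by
      rw [← LinearMap.ker_eq_bot, LinearMap.ker_eq_bot']
      intro x hx
      have h1 : LinearMap.toMatrix' (L.comp ((commL (mats c)).comp U)) *ᵥ x = 0 := by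
        rw [← Matrix.toLin'_apply, Matrix.toLin'_toMatrix']
        exact hx
      exact Matrix.eq_zero_of_mulVec_eq_zero hc h1
    have hinj2 : Function.Injective ((commL (mats c)).comp U) := by
      intro x y hxy
      apply hinj
      show L _ = L _
      rw [hxy]
    have hrank : r ≤ finrank k (LinearMap.range (commL (mats c))) :=
      calc r = finrank k (Fin r → k) := by simp
        _ = finrank k (LinearMap.range ((commL (mats c)).comp U)) :=
            (LinearMap.finrank_range_of_inj hinj2).symm
        _ ≤ _ := Submodule.finrank_mono (LinearMap.range_comp_le_range _ _)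
    have h1 := LinearMap.finrank_range_add_finrank_ker (commL (mats c0))
    have h2 := LinearMap.finrank_range_add_finrank_ker (commL (mats c))
    rw [ker_commL] at h1 h2
    rw [← hT0, ← hr] at h1
    omega

/-- The deformations of a tuple of diagonal matrices. -/
private def diagL (p : Fin d → Fin n → k) :
    ((Fin n → Fin d → k) × (Fin d → Fin d → k)) →ₗ[k] (Fin n → Matrix (Fin d) (Fin d) k) where
  toFun x i := Matrix.of fun a b => if a = b then x.1 i a else x.2 a b * (p b i - p a i)
  map_add' x y := by
    funext i
    ext a b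
    by_cases h : a = b
    · simp [h]
    · simp [h, add_mul]
  map_smul' t x := by
    funext i
    ext a b
    by_cases h : a = b
    · simp [h]
    · simp [h, mul_assoc]

theorem ZC_ge_of_Rset {c : Coord n d → k} (hc : c ∈ Rset k n d) :
    n * d + d ^ 2 ≤ finrank k (ZC (mats c)) + d := by
  classical
  obtain ⟨p, hp, U, U', hUU', h1, -⟩ := hc
  have hU'U : U' * U = 1 := mul_eq_one_comm.mp hUU'
  have hA : ∀ i, Matrix.diagonal (fun a => p a i) = U * mats c i * U' := by
    intro i
    have h2 : Matrix.diagonal (fun a => p a i) * U = U * mats c i := by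
      ext a s
      rw [Matrix.diagonal_mul]
      exact h1 a i s
    rw [← h2, Matrix.mul_assoc, hUU', Matrix.mul_one]
  have h2 := finrank_ZC_conj (mats c) (fun i => Matrix.diagonal (fun a => p a i)) U U' hUU' hU'U hA
  rw [← h2]
  have hrange : LinearMap.range (diagL (n := n) p) ≤
      ZC (fun i => Matrix.diagonal (fun a => p a i)) := by
    rintro _ ⟨x, rfl⟩
    rw [mem_ZC]
    intro i j
    ext a b
    simp only [Matrix.sub_apply, Matrix.diagonal_mul, Matrix.mul_diagonal]
    show p a i * (if a = b then x.1 j a else x.2 a b * (p b j - p a j)) -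
        (if a = b then x.1 j a else x.2 a b * (p b j - p a j)) * p b i =
      p a j * (if a = b then x.1 i a else x.2 a b * (p b i - p a i)) -
        (if a = b then x.1 i a else x.2 a b * (p b i - p a i)) * p b j
    by_cases h : a = b
    · subst h
      simp only [if_true]
      ring
    · simp only [h, if_false]
      ring
  have hker : finrank k (LinearMap.ker (diagL (n := n) p)) ≤ d := by
    let ψ : ((Fin n → Fin d → k) × (Fin d → Fin d → k)) →ₗ[k] (Fin d → k) :=
      { toFun := fun x a => x.2 a a
        map_add' := fun _ _ => rfl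
        map_smul' := fun _ _ => rfl }
    have hinj : Function.Injective (ψ.comp (LinearMap.ker (diagL (n := n) p)).subtype) := by
      rw [← LinearMap.ker_eq_bot, LinearMap.ker_eq_bot']
      rintro ⟨x, hx⟩ hxψ
      rw [LinearMap.mem_ker] at hx
      have hE : ∀ i a b, (if a = b then x.1 i a else x.2 a b * (p b i - p a i)) = 0 := by
        intro i a b
        exact congrFun (congrFun (congrFun hx i) a) b
      have hψ : ∀ a, x.2 a a = 0 := fun a => congrFun hxψ a
      apply Subtype.ext
      show x = 0
      apply Prod.ext
      · funext i a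
        have := hE i a a
        rw [if_pos rfl] at this
        exact this
      · funext a b
        by_cases h : a = b
        · subst h
          exact hψ a
        · obtain ⟨i, hi⟩ : ∃ i, p a i ≠ p b i := by
            by_contra h'
            push Not at h'
            exact h (hp (funext h'))
          have := hE i a b
          rw [if_neg h] at this
          exact (mul_eq_zero.mp this).resolve_right (sub_ne_zero.mpr hi.symm)
    have h3 := LinearMap.finrank_le_finrank_of_injective hinj
    have h4 : finrank k (Fin d → k) = d := by simp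
    rw [h4] at h3
    exact h3
  have h3 := LinearMap.finrank_range_add_finrank_ker (diagL (n := n) p)
  have h4 : finrank k ((Fin n → Fin d → k) × (Fin d → Fin d → k)) = n * d + d ^ 2 := by
    simp only [Module.finrank_prod, Module.finrank_pi_fintype, Module.finrank_self,
      Finset.sum_const, Finset.card_univ, Fintype.card_fin, smul_eq_mul, mul_one]
    ring
  have h5 := Submodule.finrank_mono hrange
  rw [h4] at h3
  omega

theorem Few_not_Zset {c : Coord n d → k} (hc : c ∈ Few k n d) : c ∉ Zset k n d := by
  intro hz
  obtain ⟨F, hF0, hF⟩ := exists_ZC_poly c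
  have h1 : ∃ b ∈ Rset k n d, eval b F ≠ 0 := by
    by_contra h
    push Not at h
    exact hF0 (hz F h)
  obtain ⟨b, hb, hbF⟩ := h1
  have h2 := hF b hbF
  have h3 := ZC_ge_of_Rset hb
  have h4 := hc.2
  omega

theorem component_of_CL {x : Hilb k n d} {lam : Fin d → MvPolynomial (Fin n) k}
    {c : Coord n d → k} (hx : IsCoord lam x.1 c) (hc : c ∈ CL k n d) :
    ∃ Z ∈ irreducibleComponents (Hilb k n d), x ∈ Z ∧ Z ≠ smoothable k n d := by
  by_contra hcon
  push Not at hcon
  let S : Set (Hilb k n d) := ⋃ Z ∈ {Z | Z ∈ irreducibleComponents (Hilb k n d) ∧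
    Z ≠ smoothable k n d}, Z
  have hfin : {Z | Z ∈ irreducibleComponents (Hilb k n d) ∧ Z ≠ smoothable k n d}.Finite :=
    (NoetherianSpace.finite_irreducibleComponents).subset fun Z hZ => hZ.1
  have hS : IsClosed S := hfin.isClosed_biUnion fun Z hZ => isClosed_of_mem_irreducibleComponents Z hZ.1
  have hxS : x ∈ Sᶜ := by
    intro hxS
    simp only [S, Set.mem_iUnion] at hxS
    obtain ⟨Z, hZ, hxZ⟩ := hxS
    exact hZ.2 (hcon Z hZ.1 hxZ)
  have hx' : toHilb ⟨c, hx.mem_Cset⟩ ∈ Sᶜ := by
    rw [toHilb_eq hx]
    exact hxS
  obtain ⟨h, h1, h2⟩ := (isOpen_Cset_iff _).mp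
    (hS.isOpen_compl.preimage continuous_toHilb) ⟨c, hx.mem_Cset⟩ hx'
  have h3 : ∃ c' ∈ Few k n d, eval c' h ≠ 0 := by
    by_contra h'
    push Not at h'
    exact h1 (hc h h')
  obtain ⟨c', hc', hne⟩ := h3
  have h4 : toHilb ⟨c', hc'.1⟩ ∈ Sᶜ := h2 ⟨c', hc'.1⟩ hne
  have h5 : irreducibleComponent (toHilb ⟨c', hc'.1⟩) = smoothable k n d := by
    by_contra hne
    apply h4
    simp only [S, Set.mem_iUnion]
    exact ⟨_, ⟨irreducibleComponent_mem_irreducibleComponents _, hne⟩, mem_irreducibleComponent⟩
  have h6 : toHilb ⟨c', hc'.1⟩ ∈ smoothable k n d := by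
    rw [← h5]
    exact mem_irreducibleComponent
  obtain ⟨lam', hlam'⟩ := exists_chart ⟨c', hc'.1⟩
  exact Few_not_Zset hc' (Zset_of_smoothable h6 hlam')

end Pool.Agent.Helper87.HQ
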