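import Pool.Agent.Helper87.HQ.Defs

/-!
The re-embedding `x_l ↦ x_l + t x_m ^ s` (`l ≠ m`), `ree l m s t`. PROOFS.
`ree_Rset`: same `U`, points `p' a i = p a i` for `i ≠ l`, `p' a l = p a l + t (p a m) ^ s`; `p'` is injective
(`p' a m = p a m`); `p a m ^ s * U a r = (U * mats c m ^ s) a r` by induction on `s`.
`exists_ree_poly`: the entries of `ree l m s t c` are polynomials in the entries of `c` (entries of a
power of the generic matrix `mats (fun x => X x) m`; `Matrix.map_pow`/`RingHom.map_matrix_pow` style, compare
`toHilb_local` in Helper61/HilbTop.lean).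
`ree_Zset`: for `f ∈ eqR` the polynomial `f ∘ ree` is in `eqR` (`ree_Rset`). The differential of `ree` at `c`
maps `tanR c` into `tanR (ree c)` (chain rule `dd_comp`, Helper61/HilbFr.lean, as in `affine_push`) and it
is injective: its components for the coordinates `(i, r, s)`, `i ≠ l`, and for the vector are those of
`w` itself, and the `l`-components are `w_l` plus a function of the `m`-components. So
`finrank (tanR c) ≤ finrank (tanR (ree c))` (`LinearMap.finrank_le_finrank_of_injective`).
-/

open MvPolynomial Module Matrix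

namespace Pool.Agent.Helper87.HQ

open Pool.Agent.Hilb61

universe u

variable {k : Type u} [Field k] {n d : ℕ}

/-- The generic matrix of the coordinate `m`. -/
private noncomputable def gm (k : Type u) [Field k] {n : ℕ} (d : ℕ) (m : Fin n) :
    Matrix (Fin d) (Fin d) (MvPolynomial (Coord n d) k) :=
  mats (fun y => (X y : MvPolynomial (Coord n d) k)) m

private theorem gm_apply (m : Fin n) (r q : Fin d) :
    gm k d m r q = X (Sum.inl (m, r, q)) := rfl

private theorem gm_pow_eval (c : Coord n d → k) (m : Fin n) (s : ℕ) (r q : Fin d) :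
    eval c ((gm k d m ^ s) r q) = (mats c m ^ s) r q := by
  induction s generalizing r q with
  | zero =>
    rw [pow_zero, pow_zero, Matrix.one_apply, Matrix.one_apply]
    split_ifs <;> simp
  | succ s ih =>
    rw [pow_succ, pow_succ, Matrix.mul_apply, Matrix.mul_apply, map_sum]
    apply Finset.sum_congr rfl
    intro j _
    rw [map_mul, ih, gm_apply, eval_X, mats_apply]

private theorem gm_pow_dd (c w : Coord n d → k) (m : Fin n)
    (hw : ∀ r q, w (Sum.inl (m, r, q)) = 0) (s : ℕ) (r q : Fin d) :
    dd c ((gm k d m ^ s) r q) w = 0 := by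
  induction s generalizing r q with
  | zero =>
    rw [pow_zero, Matrix.one_apply]
    split_ifs
    · rw [← C_1]; exact dd_C c w 1
    · rw [← C_0]; exact dd_C c w 0
  | succ s ih =>
    rw [pow_succ, Matrix.mul_apply, dd_sum]
    apply Finset.sum_eq_zero
    intro j _
    rw [dd_mul, ih, gm_apply, dd_X, hw, mul_zero, mul_zero, add_zero]

/-- The polynomials of the re-embedding. -/
private noncomputable def reeP (l m : Fin n) (s : ℕ) (t : k) :
    Coord n d → MvPolynomial (Coord n d) k :=
  Sum.elim (fun x => if x.1 = l then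
      X (Sum.inl (l, x.2.1, x.2.2)) + C t * (gm k d m ^ s) x.2.1 x.2.2
    else X (Sum.inl (x.1, x.2.1, x.2.2))) (fun r => X (Sum.inr r))

private theorem eval_reeP (l m : Fin n) (s : ℕ) (t : k) (c : Coord n d → k) :
    (fun x => eval c (reeP l m s t x)) = ree l m s t c := by
  funext x
  rcases x with ⟨i, r, q⟩ | r
  · show eval c (if i = l then X (Sum.inl (l, r, q)) + C t * (gm k d m ^ s) r q
      else X (Sum.inl (i, r, q))) =
      (if i = l then mats c l + t • mats c m ^ s else mats c i : Matrix (Fin d) (Fin d) k) r q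
    by_cases hi : i = l
    · rw [if_pos hi, if_pos hi, map_add, map_mul, eval_X, eval_C, gm_pow_eval, Matrix.add_apply,
        Matrix.smul_apply, smul_eq_mul, mats_apply]
    · rw [if_neg hi, if_neg hi, eval_X, mats_apply]
  · show eval c (X (Sum.inr r)) = vect c r
    rw [eval_X, vect_apply]

private theorem eval_aeval_reeP (l m : Fin n) (s : ℕ) (t : k) (c : Coord n d → k)
    (f : MvPolynomial (Coord n d) k) :
    eval c (aeval (reeP l m s t) f) = eval (ree l m s t c) f := by
  have h1 := (MvPolynomial.comp_aeval (φ := aeval (R := k) c) (reeP l m s t))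
  have h2 := congrArg (fun φ => φ f) h1
  simp only [AlgHom.comp_apply] at h2
  rw [aeval_self] at h2
  rw [h2, ← aeval_self, ← eval_reeP]
  congr 1

/-- The differential of the re-embedding. -/
private noncomputable def reeD (l m : Fin n) (s : ℕ) (t : k) (c : Coord n d → k) :
    (Coord n d → k) →ₗ[k] (Coord n d → k) where
  toFun w := fun x => dd c (reeP l m s t x) w
  map_add' v w := by
    funext x
    simp only [dd, Pi.add_apply, mul_add, Finset.sum_add_distrib]
  map_smul' a w := by
    funext x
    simp only [dd, Pi.smul_apply, smul_eq_mul, mul_left_comm _ a, ← Finset.mul_sum,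
      RingHom.id_apply]

private theorem reeD_inj {l m : Fin n} (hlm : l ≠ m) (s : ℕ) (t : k) (c : Coord n d → k) :
    Function.Injective (reeD l m s t c) := by
  rw [← LinearMap.ker_eq_bot, LinearMap.ker_eq_bot']
  intro w hw
  have h0 : ∀ x, dd c (reeP l m s t x) w = 0 := fun x => congrFun hw x
  have h1 : ∀ i, i ≠ l → ∀ r q, w (Sum.inl (i, r, q)) = 0 := by
    intro i hi r q
    have h := h0 (Sum.inl (i, r, q))
    change dd c (if i = l then X (Sum.inl (l, r, q)) + C t * (gm k d m ^ s) r q
      else X (Sum.inl (i, r, q))) w = 0 at h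
    rwa [if_neg hi, dd_X] at h
  have h2 : ∀ r q, w (Sum.inl (l, r, q)) = 0 := by
    intro r q
    have h := h0 (Sum.inl (l, r, q))
    change dd c (if l = l then X (Sum.inl (l, r, q)) + C t * (gm k d m ^ s) r q
      else X (Sum.inl (l, r, q))) w = 0 at h
    rwa [if_pos rfl, dd_add, dd_X, dd_mul, dd_C, gm_pow_dd c w m (h1 m hlm.symm), mul_zero,
      mul_zero, add_zero, add_zero] at h
  funext x
  rcases x with ⟨i, r, q⟩ | r
  · by_cases hi : i = l
    · subst hi
      exact h2 r q
    · exact h1 i hi r q
  · have h := h0 (Sum.inr r)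
    change dd c (X (Sum.inr r)) w = 0 at h
    rwa [dd_X] at h

private theorem pow_eigen {U M : Matrix (Fin d) (Fin d) k} {a : Fin d} {y : k}
    (h : ∀ r, y * U a r = (U * M) a r) (s : ℕ) (r : Fin d) :
    y ^ s * U a r = (U * M ^ s) a r := by
  induction s generalizing r with
  | zero => rw [pow_zero, pow_zero, one_mul, Matrix.mul_one]
  | succ s ih =>
    rw [pow_succ M, ← Matrix.mul_assoc, Matrix.mul_apply]
    have e : ∀ j, (U * M ^ s) a j * M j r = y ^ s * (U a j * M j r) := by
      intro j
      rw [← ih, mul_assoc]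
    rw [Finset.sum_congr rfl (fun j _ => e j), ← Finset.mul_sum, ← Matrix.mul_apply, ← h r,
      pow_succ, mul_assoc]

theorem ree_Rset {l m : Fin n} (hlm : l ≠ m) (s : ℕ) (t : k) {c : Coord n d → k}
    (hc : c ∈ Rset k n d) : ree l m s t c ∈ Rset k n d := by
  obtain ⟨p, hp, U, U', hU, h1, h2⟩ := hc
  refine ⟨fun a i => if i = l then p a l + t * p a m ^ s else p a i, ?_, U, U', hU, ?_, h2⟩
  · intro a b hab
    have e1 : ∀ i, i ≠ l → p a i = p b i := by
      intro i hi
      have h := congrFun hab i
      simpa only [if_neg hi] using h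
    have e2 : p a l = p b l := by
      have h := congrFun hab l
      simp only [if_true] at h
      rw [e1 m hlm.symm] at h
      exact add_right_cancel h
    apply hp
    funext i
    by_cases hi : i = l
    · rw [hi]; exact e2
    · exact e1 i hi
  · intro a i q
    show (if i = l then p a l + t * p a m ^ s else p a i) * U a q =
      (U * (if i = l then mats c l + t • mats c m ^ s else mats c i)) a q
    by_cases hi : i = l
    · rw [if_pos hi, if_pos hi, Matrix.mul_add, Matrix.add_apply, ← h1 a l q, Matrix.mul_smul,
        Matrix.smul_apply, ← pow_eigen (h1 a m) s q, smul_eq_mul]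
      ring
    · rw [if_neg hi, if_neg hi]
      exact h1 a i q

theorem ree_Zset {l m : Fin n} (hlm : l ≠ m) (s : ℕ) (t : k) {c : Coord n d → k}
    (hc : c ∈ Zset k n d) : ree l m s t c ∈ Zset k n d ∧
      finrank k (tanR c) ≤ finrank k (tanR (ree l m s t c)) := by
  have key : ∀ f ∈ eqR k n d, aeval (reeP l m s t) f ∈ eqR k n d := by
    intro f hf b hb
    rw [eval_aeval_reeP]
    exact hf _ (ree_Rset hlm s t hb)
  refine ⟨fun f hf => ?_, ?_⟩
  · rw [← eval_aeval_reeP]
    exact hc _ (key f hf)
  · have hmap : ∀ w ∈ tanR c, reeD l m s t c w ∈ tanR (ree l m s t c) := by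
      intro w hw f hf
      have h1 := hw _ (key f hf)
      rw [dd_comp, eval_reeP] at h1
      exact h1
    apply LinearMap.finrank_le_finrank_of_injective
      (f := (reeD l m s t c).restrict hmap)
    intro v w hvw
    apply Subtype.ext
    apply reeD_inj hlm s t c
    exact congrArg Subtype.val hvw

end Pool.Agent.Helper87.HQ
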