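import Pool.Agent.Helper87.HQ.Defs

/-!
Elementary facts on `rem` and `slice`. `mem_rem` and `mem_slice` unfold the definitions
(`b - single l 1 + single l 1 = b` if `1 ≤ b l`: `sub_add_single`, `sub_add_single'` in Helper61).
`exists_mon`: enumerate `Δ` (`Finset.equivFin`, `Δ.orderEmbOfFin` is not available; use
`Δ.equivFin.symm`).
-/

open Module Matrix

namespace Pool.Agent.Helper87.HQ

open Pool.Agent.Hilb61

variable {n d : ℕ}

private theorem add_sub_cancel_h64 (b c : Fin n →₀ ℕ) : b + c - c = b := by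
  ext i; simp

private theorem sa_same_h64 (b : Fin n →₀ ℕ) (l : Fin n) (m : ℕ) :
    (b + Finsupp.single l m) l = b l + m := by
  simp

private theorem sa_ne_h64 (b : Fin n →₀ ℕ) {l i : Fin n} (h : i ≠ l) (m : ℕ) :
    (b + Finsupp.single i m) l = b l := by
  rw [Finsupp.add_apply, Finsupp.single_eq_of_ne (Ne.symm h), add_zero]

theorem mem_rem {Δ : Finset (Fin n →₀ ℕ)} {l : Fin n} {j : ℕ} {b : Fin n →₀ ℕ} :
    b ∈ rem Δ l j ↔ (b l < j ∧ b ∈ Δ) ∨ (j ≤ b l ∧ b + Finsupp.single l 1 ∈ Δ) := by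
  classical
  unfold rem
  simp only [Finset.mem_union, Finset.mem_filter, Finset.mem_image]
  constructor
  · rintro (⟨h1, h2⟩ | ⟨a, ⟨h1, h2⟩, rfl⟩)
    · exact Or.inl ⟨h2, h1⟩
    · right
      have h3 : 1 ≤ a l := by omega
      rw [sub_add_single h3]
      refine ⟨?_, h1⟩
      rw [Finsupp.tsub_apply, Finsupp.single_eq_same]
      omega
  · rintro (⟨h1, h2⟩ | ⟨h1, h2⟩)
    · exact Or.inl ⟨h2, h1⟩
    · right
      refine ⟨b + Finsupp.single l 1, ⟨h2, ?_⟩, add_sub_cancel_h64 _ _⟩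
      rw [sa_same_h64]
      omega

theorem mem_slice {Δ : Finset (Fin n →₀ ℕ)} {l : Fin n} {j : ℕ} {b : Fin n →₀ ℕ} :
    b ∈ slice Δ l j ↔ b l = 0 ∧ b + Finsupp.single l j ∈ Δ := by
  classical
  unfold slice
  simp only [Finset.mem_filter, Finset.mem_image]
  constructor
  · rintro ⟨a, ⟨h1, h2⟩, rfl⟩
    rw [sub_add_single' (le_of_eq h2.symm)]
    refine ⟨?_, h1⟩
    rw [Finsupp.tsub_apply, Finsupp.single_eq_same]
    omega
  · rintro ⟨h1, h2⟩
    refine ⟨b + Finsupp.single l j, ⟨h2, ?_⟩, add_sub_cancel_h64 _ _⟩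
    rw [sa_same_h64]
    omega

private theorem low_add_h64 {Δ : Finset (Fin n →₀ ℕ)} (h : Low Δ) (e : Fin n →₀ ℕ) :
    ∀ b : Fin n →₀ ℕ, b + e ∈ Δ → b ∈ Δ := by
  induction e using Finsupp.induction with
  | zero => intro b hb; simpa using hb
  | single_add i m e hi hm ih =>
    intro b hb
    clear hi hm
    have key : ∀ m : ℕ, ∀ b : Fin n →₀ ℕ, b + Finsupp.single i m ∈ Δ → b ∈ Δ := by
      intro m
      induction m with
      | zero => intro b hb; simpa using hb
      | succ m ihm =>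
        intro b hb
        apply ihm
        apply h _ i
        rwa [add_assoc, ← Finsupp.single_add]
    apply key m
    apply ih
    rwa [add_assoc]

theorem Low.le {Δ : Finset (Fin n →₀ ℕ)} (h : Low Δ) {b c : Fin n →₀ ℕ} (hbc : b ≤ c)
    (hc : c ∈ Δ) : b ∈ Δ := by
  apply low_add_h64 h (c - b)
  rwa [add_tsub_cancel_of_le hbc]

theorem low_rem {Δ : Finset (Fin n →₀ ℕ)} (h : Low Δ) (l : Fin n) (j : ℕ) :
    Low (rem Δ l j) := by
  intro b i hb
  rw [mem_rem] at hb ⊢
  by_cases hi : i = l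
  · subst hi
    rw [sa_same_h64] at hb
    rcases hb with ⟨h1, h2⟩ | ⟨h1, h2⟩
    · exact Or.inl ⟨by omega, h _ _ h2⟩
    · by_cases hj : b i < j
      · exact Or.inl ⟨hj, h _ _ (h _ _ h2)⟩
      · exact Or.inr ⟨by omega, h _ _ h2⟩
  · rw [sa_ne_h64 b hi] at hb
    rcases hb with ⟨h1, h2⟩ | ⟨h1, h2⟩
    · exact Or.inl ⟨h1, h _ _ h2⟩
    · refine Or.inr ⟨h1, h _ i ?_⟩
      rwa [add_right_comm]

theorem low_slice {Δ : Finset (Fin n →₀ ℕ)} (h : Low Δ) (l : Fin n) (j : ℕ) :
    Low (slice Δ l j) := by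
  intro b i hb
  rw [mem_slice] at hb ⊢
  obtain ⟨h1, h2⟩ := hb
  refine ⟨?_, h _ i ?_⟩
  · rw [Finsupp.add_apply] at h1
    omega
  · rwa [add_right_comm]

theorem rem_subset {Δ : Finset (Fin n →₀ ℕ)} (h : Low Δ) (l : Fin n) (j : ℕ) :
    rem Δ l j ⊆ Δ := by
  intro b hb
  rw [mem_rem] at hb
  rcases hb with ⟨_, h2⟩ | ⟨_, h2⟩
  · exact h2
  · exact h _ _ h2

theorem card_slice_add_rem (Δ : Finset (Fin n →₀ ℕ)) (l : Fin n) (j : ℕ) :
    (slice Δ l j).card + (rem Δ l j).card = Δ.card := by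
  classical
  have h1 : (slice Δ l j).card = (Δ.filter (fun b => b l = j)).card := by
    unfold slice
    apply Finset.card_image_of_injOn
    intro a ha b hb hab
    simp only [Finset.coe_filter, Set.mem_setOf_eq] at ha hb
    have h := congrArg (fun c => c + Finsupp.single l j) hab
    simp only [] at h
    rwa [sub_add_single' (le_of_eq ha.2.symm), sub_add_single' (le_of_eq hb.2.symm)] at h
  have h2 : (rem Δ l j).card = (Δ.filter (fun b => b l < j)).card +
      (Δ.filter (fun b => j < b l)).card := by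
    unfold rem
    rw [Finset.card_union_of_disjoint]
    · congr 1
      apply Finset.card_image_of_injOn
      intro a ha b hb hab
      simp only [Finset.coe_filter, Set.mem_setOf_eq] at ha hb
      have h := congrArg (fun c => c + Finsupp.single l 1) hab
      simp only [] at h
      rwa [sub_add_single (show 1 ≤ a l by omega), sub_add_single (show 1 ≤ b l by omega)] at h
    · rw [Finset.disjoint_left]
      intro a ha hb
      simp only [Finset.mem_filter, Finset.mem_image] at ha hb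
      obtain ⟨c, ⟨hc, hc2⟩, rfl⟩ := hb
      have h3 := ha.2
      rw [Finsupp.tsub_apply, Finsupp.single_eq_same] at h3
      omega
  rw [h1, h2]
  have h3 : Δ = (Δ.filter (fun b => b l = j)) ∪ ((Δ.filter (fun b => b l < j)) ∪
      (Δ.filter (fun b => j < b l))) := by
    ext b
    simp only [Finset.mem_union, Finset.mem_filter]
    constructor
    · intro hb
      rcases lt_trichotomy (b l) j with h | h | h
      · exact Or.inr (Or.inl ⟨hb, h⟩)
      · exact Or.inl ⟨hb, h⟩
      · exact Or.inr (Or.inr ⟨hb, h⟩)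
    · rintro (h | h | h) <;> exact h.1
  conv_rhs => rw [h3]
  rw [Finset.card_union_of_disjoint, Finset.card_union_of_disjoint]
  · rw [Finset.disjoint_left]
    intro a ha hb
    simp only [Finset.mem_filter] at ha hb
    omega
  · rw [Finset.disjoint_left]
    intro a ha hb
    simp only [Finset.mem_filter, Finset.mem_union] at ha hb
    omega

theorem exists_mon {Δ : Finset (Fin n →₀ ℕ)} (h : Low Δ) :
    ∃ mon : Fin Δ.card → (Fin n →₀ ℕ), IsOrd mon ∧ Dlt mon = Δ := by
  refine ⟨fun s => (Δ.equivFin.symm s : Fin n →₀ ℕ), ⟨?_, ?_⟩, ?_⟩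
  · intro a b hab
    exact Δ.equivFin.symm.injective (Subtype.ext hab)
  · intro s i B hB
    have h1 : B ∈ Δ := by
      apply h B i
      rw [hB]
      exact (Δ.equivFin.symm s).2
    refine ⟨Δ.equivFin ⟨B, h1⟩, ?_⟩
    simp
  · ext B
    rw [mem_Dlt]
    constructor
    · rintro ⟨s, rfl⟩
      exact (Δ.equivFin.symm s).2
    · intro hB
      refine ⟨Δ.equivFin ⟨B, hB⟩, ?_⟩
      simp

theorem low_Dlt {mon : Fin d → (Fin n →₀ ℕ)} (h : IsOrd mon) : Low (Dlt mon) := by
  intro b i hb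
  rw [mem_Dlt] at hb ⊢
  obtain ⟨s, hs⟩ := hb
  exact h.low s i b hs.symm

end Pool.Agent.Helper87.HQ
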