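import Pool.Agent.Helper87.HQ.Ree
import Pool.Agent.Helper87.HQ.Greedy

/-!
Two improvements of a monomial point by a re-embedding. `z` is the last index.

`swap_var`, PROOF. `mon` stable, `single l 1` missing (so `l ≠ z`, no element involves `l`), `s ≥ 2` the
largest with `s e_z` present (it exists: an element of degree `≥ 2` gives `2 e_z` by stability). Then
`(s e_z) + e_i` is never present. `c = ree l z s 1 (c00 k mon)`: `mats c l = Amon l + Amon z ^ s = Amon z ^ s`
(`Amon l = 0`), other matrices `Amon i`. Let `V B = V0 k mon (B with coordinate l replaced by 0, plus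
(s * B l) e_z)`: `hV` by `V0_mul` (for `i = l`: `Amon z ^ s` maps `V0 B` to `V0 (B + s e_z)`), `V 0 = vect`. Let `y s' = mon s'`
except that the index of `s e_z` is sent to `single l 1`: `V (y s') = V0 (mon s') = Pi.single s' 1` for
all `s'` (`V (single l 1) = V0 (s e_z)`), independent. `greedy`, and the sum of the weights of `y` is smaller:
`w l < 2 w z ≤ s w z`.

`swap_quad`, PROOF. `mon` stable, `single z 3`, `single l 1` present, `single l 1 + single z 1` missing,
`l ≠ z`. Then `single l 1` is the only element involving `l` (another one is a multiple of some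
`e_l + e_i`, move `i` to `z`). `c = ree l z 2 1 (c00 k mon)`, matrices `Amon l + Amon z ^ 2` and `Amon i`.
`V B = ∑ j ∈ range (B l + 1), (B l).choose j • V0 k mon (B - j e_l + 2 j e_z)`, i.e. the class of
`(x_l + x_z^2)^(B l)` times the rest (`hV` by `V0_mul` and Pascal; compare `Vt`, `Vt_mul` in
Helper61/HilbStab.lean). `y = mon` except that the index of `single z 3` is sent to
`single l 1 + single z 1`. `V (mon s') = Pi.single s' 1` if `mon s' ≠ single l 1`;
`V (single l 1) = V0 (single l 1) + V0 (single z 2)`; `V (single l 1 + single z 1) = V0 (single z 3)`. So the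
`V (y s')` are independent (unitriangular). Weights: `w l + w z < 3 w z`.
-/

open MvPolynomial Module Matrix

namespace Pool.Agent.Helper87.HQ

open Pool.Agent.Hilb61

universe u

variable {k : Type u} [Field k] {n d : ℕ}

/-- The classes of the monomials for the substitution `x_l ↦ x_l + x_z ^ s`. -/
private noncomputable def Vs (k : Type u) [Field k] (mon : Fin d → (Fin n →₀ ℕ)) (l z : Fin n)
    (s : ℕ) (C : Fin n →₀ ℕ) : Fin d → k :=
  ∑ q ∈ Finset.range (C l + 1), ((C l).choose q : k) •
    V0 k mon (C - Finsupp.single l q + Finsupp.single z (s * q))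

private lemma V0_pow {mon : Fin d → (Fin n →₀ ℕ)} (h : IsOrd mon) (z : Fin n) (s : ℕ)
    (B : Fin n →₀ ℕ) :
    Amon k mon z ^ s *ᵥ V0 k mon B = V0 k mon (B + Finsupp.single z s) := by
  induction s generalizing B with
  | zero => simp
  | succ s ih =>
    rw [pow_succ, ← mulVec_mulVec, ← V0_mul h, ih]
    congr 1
    rw [add_assoc, ← Finsupp.single_add, add_comm 1 s]

private lemma Vs_mul {mon : Fin d → (Fin n →₀ ℕ)} (h : IsOrd mon) {l z : Fin n} (hlz : l ≠ z)
    (s : ℕ) (C : Fin n →₀ ℕ) (m : Fin n) :
    Vs k mon l z s (C + Finsupp.single m 1) =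
      (if m = l then Amon k mon l + Amon k mon z ^ s else Amon k mon m) *ᵥ
        Vs k mon l z s C := by
  classical
  by_cases hm : m = l
  · subst hm
    rw [if_pos rfl]
    have e1 : (C + Finsupp.single m 1 : Fin n →₀ ℕ) m = C m + 1 := by simp
    let f : ℕ → (Fin d → k) := fun q =>
      V0 k mon (C + Finsupp.single m 1 - Finsupp.single m q + Finsupp.single z (s * q))
    have hf1 : ∀ q, q ≤ C m → Amon k mon m *ᵥ V0 k mon (C - Finsupp.single m q +
        Finsupp.single z (s * q)) = f q := by
      intro q hq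
      rw [← V0_mul h]
      show _ = V0 k mon _
      congr 1
      ext l
      simp only [Finsupp.add_apply, Finsupp.tsub_apply]
      by_cases hl : l = m
      · subst hl
        rw [Finsupp.single_eq_same, Finsupp.single_eq_same, Finsupp.single_eq_of_ne hlz]
        omega
      · rw [Finsupp.single_eq_of_ne hl, Finsupp.single_eq_of_ne hl]
        omega
    have hf2 : ∀ q, q ≤ C m → Amon k mon z ^ s *ᵥ V0 k mon (C - Finsupp.single m q +
        Finsupp.single z (s * q)) = f (q + 1) := by
      intro q hq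
      rw [V0_pow h]
      show _ = V0 k mon _
      congr 1
      ext l
      simp only [Finsupp.add_apply, Finsupp.tsub_apply]
      by_cases hl : l = m
      · subst hl
        simp only [Finsupp.single_eq_same, Finsupp.single_eq_of_ne hlz]
        omega
      · by_cases hl' : l = z
        · subst hl'
          simp only [Finsupp.single_eq_same, Finsupp.single_eq_of_ne hl]
          rw [mul_add, mul_one]
          omega
        · simp only [Finsupp.single_eq_of_ne hl, Finsupp.single_eq_of_ne hl']
          omega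
    rw [add_mulVec, Vs, Vs, e1, mulVec_sum, mulVec_sum]
    have s1 : ∑ q ∈ Finset.range (C m + 1), Amon k mon m *ᵥ (((C m).choose q : k) •
        V0 k mon (C - Finsupp.single m q + Finsupp.single z (s * q))) =
        ∑ q ∈ Finset.range (C m + 1), ((C m).choose q : k) • f q := by
      apply Finset.sum_congr rfl
      intro q hq
      rw [mulVec_smul, hf1 q (by rw [Finset.mem_range] at hq; omega)]
    have s2 : ∑ q ∈ Finset.range (C m + 1), Amon k mon z ^ s *ᵥ (((C m).choose q : k) •
        V0 k mon (C - Finsupp.single m q + Finsupp.single z (s * q))) =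
        ∑ q ∈ Finset.range (C m + 1), ((C m).choose q : k) • f (q + 1) := by
      apply Finset.sum_congr rfl
      intro q hq
      rw [mulVec_smul, hf2 q (by rw [Finset.mem_range] at hq; omega)]
    rw [s1, s2]
    show ∑ q ∈ Finset.range (C m + 1 + 1), (((C m + 1).choose q : ℕ) : k) • f q = _
    rw [Finset.sum_range_succ']
    have s3 : ∑ q ∈ Finset.range (C m + 1), (((C m + 1).choose (q + 1) : ℕ) : k) •
        f (q + 1) = ∑ q ∈ Finset.range (C m + 1), ((C m).choose q : k) • f (q + 1) +
        ∑ q ∈ Finset.range (C m + 1), ((C m).choose (q + 1) : k) • f (q + 1) := by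
      rw [← Finset.sum_add_distrib]
      apply Finset.sum_congr rfl
      intro q _
      rw [← add_smul, Nat.choose_succ_succ]
      congr 1
      push_cast
      ring
    rw [s3]
    have s4 : ∑ q ∈ Finset.range (C m + 1), ((C m).choose q : k) • f q =
        ∑ q ∈ Finset.range (C m + 1), ((C m).choose (q + 1) : k) • f (q + 1) +
          ((C m).choose 0 : k) • f 0 := by
      have h1 := Finset.sum_range_succ' (fun q => (((C m).choose q : ℕ) : k) • f q) (C m + 1)
      have h2 := Finset.sum_range_succ (fun q => (((C m).choose q : ℕ) : k) • f q) (C m + 1)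
      rw [h1] at h2
      rw [Nat.choose_eq_zero_of_lt (show C m < C m + 1 by omega)] at h2
      simp only [Nat.cast_zero, zero_smul, add_zero] at h2
      exact h2.symm
    rw [s4]
    simp only [Nat.choose_zero_right]
    abel
  · rw [if_neg hm]
    have e1 : (C + Finsupp.single m 1 : Fin n →₀ ℕ) l = C l := by
      rw [Finsupp.add_apply, Finsupp.single_eq_of_ne (fun h => hm h.symm), add_zero]
    rw [Vs, Vs, e1, mulVec_sum]
    apply Finset.sum_congr rfl
    intro q hq
    rw [Finset.mem_range] at hq
    rw [mulVec_smul, ← V0_mul h]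
    congr 2
    ext j
    simp only [Finsupp.add_apply, Finsupp.tsub_apply]
    by_cases hl : j = l
    · subst hl
      simp only [Finsupp.single_eq_same, Finsupp.single_eq_of_ne (fun h => hm h.symm)]
      omega
    · simp only [Finsupp.single_eq_of_ne hl]
      omega

private lemma Vs_of_zero {mon : Fin d → (Fin n →₀ ℕ)} {l z : Fin n} (s : ℕ)
    {C : Fin n →₀ ℕ} (hC : C l = 0) : Vs k mon l z s C = V0 k mon C := by
  rw [Vs, hC, Finset.sum_range_succ, Finset.sum_range_zero]
  simp

private lemma Vs_of_one {mon : Fin d → (Fin n →₀ ℕ)} {l z : Fin n} (s : ℕ)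
    {C : Fin n →₀ ℕ} (hC : C l = 1) : Vs k mon l z s C =
      V0 k mon C + V0 k mon (C - Finsupp.single l 1 + Finsupp.single z s) := by
  rw [Vs, hC, Finset.sum_range_succ, Finset.sum_range_succ, Finset.sum_range_zero]
  simp

private lemma V0_mon {mon : Fin d → (Fin n →₀ ℕ)} (h : IsOrd mon) (a : Fin d) :
    V0 k mon (mon a) = Pi.single a 1 := by
  classical
  funext r
  rw [V0_apply]
  by_cases hr : r = a
  · subst hr
    rw [if_pos rfl, Pi.single_eq_same]
  · rw [if_neg (fun h' => hr (h.inj h')), Pi.single_eq_of_ne hr]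

private lemma V0_zero_of_notMem {mon : Fin d → (Fin n →₀ ℕ)} {B : Fin n →₀ ℕ}
    (hB : B ∉ Dlt mon) : V0 k mon B = 0 := by
  classical
  funext r
  rw [V0_apply, if_neg]
  · rfl
  · intro h'
    exact hB (mem_Dlt.2 ⟨r, h'⟩)

private lemma stable_low {Δ : Finset (Fin n →₀ ℕ)} (hS : Stable Δ) (B C : Fin n →₀ ℕ)
    (h : C + B ∈ Δ) : C ∈ Δ := by
  induction hd : B.degree generalizing B with
  | zero =>
    have : B = 0 := by
      rwa [Finsupp.degree_eq_zero_iff] at hd
    rw [this, add_zero] at h
    exact h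
  | succ m ih =>
    have hB : B ≠ 0 := by
      rintro rfl
      simp at hd
    obtain ⟨i, hi⟩ := Finsupp.ne_iff.1 hB
    have hi' : 1 ≤ B i := by
      simp only [Finsupp.coe_zero, Pi.zero_apply] at hi
      omega
    have e := sub_add_single hi'
    rw [← e, ← add_assoc] at h
    refine ih (B - Finsupp.single i 1) ((hS _ i h).1) ?_
    rw [← e, degree_add_single] at hd
    omega

private lemma stable_le {Δ : Finset (Fin n →₀ ℕ)} (hS : Stable Δ) {B C : Fin n →₀ ℕ}
    (h : B ∈ Δ) (hC : C ≤ B) : C ∈ Δ := by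
  apply stable_low hS (B - C) C
  rwa [add_tsub_cancel_of_le hC]

private lemma stable_top {Δ : Finset (Fin n →₀ ℕ)} (hS : Stable Δ) {z : Fin n}
    (hz : ∀ i, i ≤ z) {B : Fin n →₀ ℕ} (h : B ∈ Δ) : Finsupp.single z B.degree ∈ Δ := by
  induction hd : B.degree - B z generalizing B with
  | zero =>
    have h1 : Finsupp.single z (B z) ≤ B := by
      intro j
      by_cases hj : j = z
      · subst hj
        rw [Finsupp.single_eq_same]
      · rw [Finsupp.single_eq_of_ne hj]
        exact Nat.zero_le _
    have h2 : Finsupp.single z (B z) = B := by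
      apply eq_of_le_of_degree h1
      rw [Finsupp.degree_single]
      omega
    rw [← h2, Finsupp.degree_single]
    rwa [h2]
  | succ m ih =>
    obtain ⟨i, hiz, hi⟩ : ∃ i, i ≠ z ∧ 1 ≤ B i := by
      by_contra hcon
      push Not at hcon
      have h3 : B.degree = B z := by
        rw [Finsupp.degree_eq_sum, Finset.sum_eq_single z]
        · intro i _ hi
          have := hcon i hi
          omega
        · intro h'
          exact absurd (Finset.mem_univ z) h'
      omega
    have e := sub_add_single hi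
    have h4 := (hS (B - Finsupp.single i 1) i (by rwa [e])).2 z (lt_of_le_of_ne (hz i) hiz)
    have h5 : (B - Finsupp.single i 1 + Finsupp.single z 1).degree = B.degree := by
      conv_rhs => rw [← e]
      rw [degree_add_single, degree_add_single]
    have h6 := ih h4 (by
      rw [h5]
      simp only [Finsupp.add_apply, Finsupp.tsub_apply, Finsupp.single_eq_same,
        Finsupp.single_eq_of_ne hiz.symm]
      omega)
    rwa [h5] at h6

private lemma le_of_apply {B : Fin n →₀ ℕ} {l : Fin n} {m : ℕ} (h : m ≤ B l) :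
    Finsupp.single l m ≤ B := by
  intro j
  by_cases hj : j = l
  · subst hj
    rwa [Finsupp.single_eq_same]
  · rw [Finsupp.single_eq_of_ne hj]
    exact Nat.zero_le _

/-- The common part of the two improvements. -/
private theorem swap_gen [Infinite k] {w : Fin n → ℕ} (hw1 : ∀ i, 1 ≤ w i)
    (hw3 : ∀ B C : Fin n →₀ ℕ, (∀ i, B i < d) → (∀ i, C i < d) → phi w B = phi w C → B = C)
    {mon : Fin d → (Fin n →₀ ℕ)} (h : IsOrd mon)
    (hZ : c00 k mon ∈ Zset k n d) {z l : Fin n} (hlz : l ≠ z) (s : ℕ)
    (y : Fin d → (Fin n →₀ ℕ))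
    (hy : LinearIndependent k (fun a => Vs k mon l z s (y a)))
    (hlt : ∑ a, phi w (y a) < ∑ a, phi w (mon a)) :
    ∃ mon' : Fin d → (Fin n →₀ ℕ), IsOrd mon' ∧ c00 k mon' ∈ Zset k n d ∧
      finrank k (tanR (c00 k mon)) ≤ finrank k (tanR (c00 k mon')) ∧
      ∑ s, phi w (mon' s) < ∑ s, phi w (mon s) := by
  obtain ⟨h1, h2⟩ := ree_Zset hlz s (1 : k) hZ
  have hm : mats (c00 k mon) = Amon k mon := by rw [c00_eq, mats_mk]
  have hv : vect (c00 k mon) = V0 k mon 0 := by rw [c00_eq, vect_mk]
  obtain ⟨mon', h3, h4, h5, h6⟩ := greedy hw1 hw3 h1 (V := Vs k mon l z s)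
    (by
      intro B i
      rw [Vs_mul h hlz s B i, ree, mats_mk, hm, one_smul])
    (by
      rw [Vs_of_zero s (by simp), ree, vect_mk, hv])
    y hy
  exact ⟨mon', h3, h4, h2.trans h5, h6.trans_lt hlt⟩

theorem swap_var [Infinite k] {w : Fin n → ℕ} (hw1 : ∀ i, 1 ≤ w i)
    (hw3 : ∀ B C : Fin n →₀ ℕ, (∀ i, B i < d) → (∀ i, C i < d) → phi w B = phi w C → B = C)
    (hw4 : ∀ i j, w i < 2 * w j) {mon : Fin d → (Fin n →₀ ℕ)} (h : IsOrd mon)
    (hS : Stable (Dlt mon)) (hZ : c00 k mon ∈ Zset k n d) {z : Fin n} (hz : ∀ i, i ≤ z)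
    (h2 : ∃ b ∈ Dlt mon, 2 ≤ b.degree) {l : Fin n} (hl : Finsupp.single l 1 ∉ Dlt mon) :
    ∃ mon' : Fin d → (Fin n →₀ ℕ), IsOrd mon' ∧ c00 k mon' ∈ Zset k n d ∧
      finrank k (tanR (c00 k mon)) ≤ finrank k (tanR (c00 k mon')) ∧
      ∑ s, phi w (mon' s) < ∑ s, phi w (mon s) := by
  classical
  obtain ⟨b, hb, hb2⟩ := h2
  -- the largest degree
  obtain ⟨c, hc, hmax⟩ := Finset.exists_max_image (Dlt mon) (fun b => b.degree) ⟨b, hb⟩
  set s : ℕ := c.degree with hs
  have hs2 : 2 ≤ s := hb2.trans (hmax b hb)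
  have hsz : Finsupp.single z s ∈ Dlt mon := stable_top hS hz hc
  have hlz : l ≠ z := by
    rintro rfl
    exact hl (stable_le hS hsz (le_of_apply (by rw [Finsupp.single_eq_same]; omega)))
  have hno : ∀ a, mon a l = 0 := by
    intro a
    by_contra hcon
    exact hl (stable_le hS (mem_Dlt.2 ⟨a, rfl⟩) (le_of_apply (by omega)))
  obtain ⟨a0, ha0⟩ := mem_Dlt.1 hsz
  refine swap_gen hw1 hw3 h hZ hlz s
    (fun a => if a = a0 then Finsupp.single l 1 else mon a) ?_ ?_
  · have e : (fun a => Vs k mon l z s (if a = a0 then Finsupp.single l 1 else mon a)) =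
        fun a => (Pi.basisFun k (Fin d)) a := by
      funext a
      rw [Pi.basisFun_apply]
      by_cases ha : a = a0
      · rw [if_pos ha, Vs_of_one s (Finsupp.single_eq_same), V0_zero_of_notMem hl, zero_add,
          tsub_self, zero_add, ← ha0, V0_mon h, ha]
      · rw [if_neg ha, Vs_of_zero s (hno a), V0_mon h]
    rw [e]
    exact (Pi.basisFun k (Fin d)).linearIndependent
  · have hlt : phi w (Finsupp.single l 1) < phi w (mon a0) := by
      rw [ha0, phi_single, phi_single]
      have h3 := hw4 l z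
      have h4 : w z * 2 ≤ w z * s := Nat.mul_le_mul_left _ hs2
      omega
    refine Finset.sum_lt_sum ?_ ⟨a0, Finset.mem_univ _, ?_⟩
    · intro a _
      by_cases ha : a = a0
      · rw [if_pos ha, ha]
        exact hlt.le
      · rw [if_neg ha]
    · rw [if_pos rfl]
      exact hlt

theorem swap_quad [Infinite k] {w : Fin n → ℕ} (hw1 : ∀ i, 1 ≤ w i)
    (hw3 : ∀ B C : Fin n →₀ ℕ, (∀ i, B i < d) → (∀ i, C i < d) → phi w B = phi w C → B = C)
    (hw4 : ∀ i j, w i < 2 * w j) {mon : Fin d → (Fin n →₀ ℕ)} (h : IsOrd mon)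
    (hS : Stable (Dlt mon)) (hZ : c00 k mon ∈ Zset k n d) {z : Fin n} (hz : ∀ i, i ≤ z)
    (h2 : Finsupp.single z 3 ∈ Dlt mon) {l : Fin n} (hlz : l ≠ z)
    (hl : Finsupp.single l 1 ∈ Dlt mon)
    (hl' : Finsupp.single l 1 + Finsupp.single z 1 ∉ Dlt mon) :
    ∃ mon' : Fin d → (Fin n →₀ ℕ), IsOrd mon' ∧ c00 k mon' ∈ Zset k n d ∧
      finrank k (tanR (c00 k mon)) ≤ finrank k (tanR (c00 k mon')) ∧
      ∑ s, phi w (mon' s) < ∑ s, phi w (mon s) := by
  classical
  obtain ⟨a3, ha3⟩ := mem_Dlt.1 h2
  obtain ⟨al, hal⟩ := mem_Dlt.1 hl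
  have h22 : Finsupp.single z 2 ∈ Dlt mon :=
    stable_le hS h2 (le_of_apply (by rw [Finsupp.single_eq_same]; omega))
  obtain ⟨a2, ha2⟩ := mem_Dlt.1 h22
  have hno : ∀ a, a ≠ al → mon a l = 0 := by
    intro a ha
    by_contra hcon
    have h3 : 1 ≤ mon a l := by omega
    have e := sub_add_single h3
    have h4 : mon a - Finsupp.single l 1 ≠ 0 := by
      intro h5
      rw [h5, zero_add] at e
      exact ha (h.inj (by rw [hal, e]))
    obtain ⟨i, hi⟩ := Finsupp.ne_iff.1 h4
    have hi' : 1 ≤ (mon a - Finsupp.single l 1 : Fin n →₀ ℕ) i := by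
      simp only [Finsupp.coe_zero, Pi.zero_apply] at hi
      omega
    have h5 : Finsupp.single l 1 + Finsupp.single i 1 ≤ mon a := by
      rw [← e, add_comm (mon a - Finsupp.single l 1)]
      exact add_le_add_right (le_of_apply hi') _
    have h6 := stable_le hS (mem_Dlt.2 ⟨a, rfl⟩) h5
    rcases eq_or_ne i z with hiz | hiz
    · rw [hiz] at h6
      exact hl' h6
    · exact hl' ((hS _ i h6).2 z (lt_of_le_of_ne (hz i) hiz))
  have h32 : a3 ≠ al := by
    intro h'
    rw [h', hal] at ha3
    have := DFunLike.congr_fun ha3 z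
    rw [Finsupp.single_eq_same, Finsupp.single_eq_of_ne hlz.symm] at this
    omega
  have h2l : a2 ≠ al := by
    intro h'
    rw [h', hal] at ha2
    have := DFunLike.congr_fun ha2 z
    rw [Finsupp.single_eq_same, Finsupp.single_eq_of_ne hlz.symm] at this
    omega
  refine swap_gen hw1 hw3 h hZ hlz 2
    (fun a => if a = a3 then Finsupp.single l 1 + Finsupp.single z 1 else mon a) ?_ ?_
  · let T : (Fin d → k) →ₗ[k] (Fin d → k) :=
      LinearMap.id + (LinearMap.proj al : (Fin d → k) →ₗ[k] k).smulRight (Pi.single a2 1)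
    have hT : LinearMap.ker T = ⊥ := by
      rw [LinearMap.ker_eq_bot']
      intro x hx
      have hx' : x + x al • (Pi.single a2 1 : Fin d → k) = 0 := hx
      have h7 := congrFun hx' al
      simp only [Pi.add_apply, Pi.smul_apply, Pi.single_eq_of_ne h2l.symm, smul_zero, add_zero,
        Pi.zero_apply] at h7
      rw [h7, zero_smul, add_zero] at hx'
      exact hx'
    have hTa : ∀ a, T (Pi.single a 1) = Pi.single a 1 +
        (Pi.single a (1 : k) : Fin d → k) al • (Pi.single a2 1 : Fin d → k) := fun a => rfl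
    have e : (fun a => Vs k mon l z 2
        (if a = a3 then Finsupp.single l 1 + Finsupp.single z 1 else mon a)) =
        T ∘ fun a => (Pi.basisFun k (Fin d)) a := by
      funext a
      rw [Function.comp_apply, Pi.basisFun_apply, hTa]
      by_cases ha : a = a3
      · rw [if_pos ha, Vs_of_one 2 (by
          rw [Finsupp.add_apply, Finsupp.single_eq_same, Finsupp.single_eq_of_ne hlz,
            add_zero])]
        rw [V0_zero_of_notMem hl', zero_add, add_tsub_cancel_left, ← Finsupp.single_add,
          show 1 + 2 = 3 from rfl, ← ha3, V0_mon h, ha, Pi.single_eq_of_ne h32.symm, zero_smul,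
          add_zero]
      · rw [if_neg ha]
        by_cases ha' : a = al
        · rw [Vs_of_one 2 (by rw [ha', hal, Finsupp.single_eq_same]), V0_mon h]
          rw [ha', hal, tsub_self, zero_add, ← ha2, V0_mon h, Pi.single_eq_same, one_smul]
        · rw [Vs_of_zero 2 (hno a ha'), V0_mon h, Pi.single_eq_of_ne (Ne.symm ha'), zero_smul,
            add_zero]
    rw [e]
    exact (Pi.basisFun k (Fin d)).linearIndependent.map' T hT
  · have hlt : phi w (Finsupp.single l 1 + Finsupp.single z 1) < phi w (mon a3) := by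
      rw [ha3, phi_add, phi_single, phi_single, phi_single]
      have h3 := hw4 l z
      omega
    refine Finset.sum_lt_sum ?_ ⟨a3, Finset.mem_univ _, ?_⟩
    · intro a _
      by_cases ha : a = a3
      · rw [if_pos ha, ha]
        exact hlt.le
      · rw [if_neg ha]
    · rw [if_pos rfl]
      exact hlt

end Pool.Agent.Helper87.HQ
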