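import Pool.Agent.Helper87.HQ.Ree
import Pool.Agent.Helper87.HQ.Greedy

/-!
The general exchange: if `r + s e_m` is present, `r + e_l` is missing, `l ≠ m`, `w l < s w m` and
`r l + 1 ≠ 0` in `k`, the point can be improved by the re-embedding `x_l ↦ x_l + x_m ^ s`.
-/

open MvPolynomial Module Matrix

namespace Pool.Agent.Helper87.HQ

open Pool.Agent.Hilb61

universe u

variable {k : Type u} [Field k] {n d : ℕ}

/-- The class of the monomial `C` after `x_l ↦ x_l + x_m ^ s`. -/
private noncomputable def Vs (k : Type u) [Field k] (mon : Fin d → (Fin n →₀ ℕ)) (l m : Fin n)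
    (s : ℕ) (C : Fin n →₀ ℕ) : Fin d → k :=
  ∑ q ∈ Finset.range (C l + 1), ((C l).choose q : k) •
    V0 k mon (C - Finsupp.single l q + Finsupp.single m (s * q))

private lemma V0_pow {mon : Fin d → (Fin n →₀ ℕ)} (h : IsOrd mon) (m : Fin n) (s : ℕ)
    (B : Fin n →₀ ℕ) : Amon k mon m ^ s *ᵥ V0 k mon B = V0 k mon (B + Finsupp.single m s) := by
  induction s with
  | zero => rw [pow_zero, one_mulVec, Finsupp.single_zero, add_zero]
  | succ s ih =>
    rw [pow_succ', ← mulVec_mulVec, ih, ← V0_mul h, add_assoc, ← Finsupp.single_add]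

private lemma Vs_mul {mon : Fin d → (Fin n →₀ ℕ)} (h : IsOrd mon) {l m : Fin n} (hlm : l ≠ m)
    (s : ℕ) (C : Fin n →₀ ℕ) (i : Fin n) :
    Vs k mon l m s (C + Finsupp.single i 1) =
      (if i = l then Amon k mon l + (1 : k) • Amon k mon m ^ s else Amon k mon i) *ᵥ
        Vs k mon l m s C := by
  classical
  by_cases hi : i = l
  · subst hi
    have e1 : (C + Finsupp.single i 1 : Fin n →₀ ℕ) i = C i + 1 := by simp
    rw [if_pos rfl, one_smul]
    let f : ℕ → (Fin d → k) := fun q =>
      V0 k mon (C + Finsupp.single i 1 - Finsupp.single i q + Finsupp.single m (s * q))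
    have hf1 : ∀ q, q ≤ C i → Amon k mon i *ᵥ V0 k mon (C - Finsupp.single i q +
        Finsupp.single m (s * q)) = f q := by
      intro q hq
      rw [← V0_mul h]
      show _ = V0 k mon _
      congr 1
      ext j
      simp only [Finsupp.add_apply, Finsupp.tsub_apply]
      by_cases hj : j = i
      · subst hj
        rw [Finsupp.single_eq_same, Finsupp.single_eq_same, Finsupp.single_eq_of_ne hlm]
        omega
      · rw [Finsupp.single_eq_of_ne hj, Finsupp.single_eq_of_ne hj]
        omega
    have hf2 : ∀ q, q ≤ C i → Amon k mon m ^ s *ᵥ V0 k mon (C - Finsupp.single i q +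
        Finsupp.single m (s * q)) = f (q + 1) := by
      intro q hq
      rw [V0_pow h]
      show _ = V0 k mon _
      congr 1
      ext j
      simp only [Finsupp.add_apply, Finsupp.tsub_apply]
      by_cases hj : j = i
      · subst hj
        simp only [Finsupp.single_eq_same, Finsupp.single_eq_of_ne hlm]
        omega
      · by_cases hj' : j = m
        · subst hj'
          simp only [Finsupp.single_eq_same, Finsupp.single_eq_of_ne hj, mul_add, mul_one]
          omega
        · simp only [Finsupp.single_eq_of_ne hj, Finsupp.single_eq_of_ne hj']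
          omega
    rw [add_mulVec, Vs, Vs, e1, mulVec_sum, mulVec_sum]
    have s1 : ∑ q ∈ Finset.range (C i + 1), Amon k mon i *ᵥ (((C i).choose q : k) •
        V0 k mon (C - Finsupp.single i q + Finsupp.single m (s * q))) =
        ∑ q ∈ Finset.range (C i + 1), ((C i).choose q : k) • f q := by
      apply Finset.sum_congr rfl
      intro q hq
      rw [mulVec_smul, hf1 q (by rw [Finset.mem_range] at hq; omega)]
    have s2 : ∑ q ∈ Finset.range (C i + 1), Amon k mon m ^ s *ᵥ (((C i).choose q : k) •
        V0 k mon (C - Finsupp.single i q + Finsupp.single m (s * q))) =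
        ∑ q ∈ Finset.range (C i + 1), ((C i).choose q : k) • f (q + 1) := by
      apply Finset.sum_congr rfl
      intro q hq
      rw [mulVec_smul, hf2 q (by rw [Finset.mem_range] at hq; omega)]
    rw [s1, s2]
    show ∑ q ∈ Finset.range (C i + 1 + 1), ((C i + 1).choose q : k) • f q = _
    rw [Finset.sum_range_succ']
    have s3 : ∑ q ∈ Finset.range (C i + 1), (((C i + 1).choose (q + 1) : ℕ) : k) •
        f (q + 1) = ∑ q ∈ Finset.range (C i + 1), ((C i).choose q : k) • f (q + 1) +
        ∑ q ∈ Finset.range (C i + 1), ((C i).choose (q + 1) : k) • f (q + 1) := by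
      rw [← Finset.sum_add_distrib]
      apply Finset.sum_congr rfl
      intro q _
      rw [← add_smul, Nat.choose_succ_succ]
      congr 1
      push_cast
      ring
    rw [s3]
    have s4 : ∑ q ∈ Finset.range (C i + 1), ((C i).choose q : k) • f q =
        ∑ q ∈ Finset.range (C i + 1), ((C i).choose (q + 1) : k) • f (q + 1) +
          ((C i).choose 0 : k) • f 0 := by
      have h1 := Finset.sum_range_succ' (fun q => ((C i).choose q : k) • f q) (C i + 1)
      have h2 := Finset.sum_range_succ (fun q => ((C i).choose q : k) • f q) (C i + 1)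
      rw [h1] at h2
      rw [Nat.choose_eq_zero_of_lt (show C i < C i + 1 by omega)] at h2
      simp only [Nat.cast_zero, zero_smul, add_zero] at h2
      exact h2.symm
    rw [s4]
    simp only [Nat.choose_zero_right]
    abel
  · have e1 : (C + Finsupp.single i 1 : Fin n →₀ ℕ) l = C l := by
      rw [Finsupp.add_apply, Finsupp.single_eq_of_ne (fun h => hi h.symm), add_zero]
    rw [if_neg hi, Vs, Vs, e1, mulVec_sum]
    apply Finset.sum_congr rfl
    intro q hq
    rw [Finset.mem_range] at hq
    rw [mulVec_smul, ← V0_mul h]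
    congr 2
    ext j
    simp only [Finsupp.add_apply, Finsupp.tsub_apply]
    by_cases hj : j = i
    · subst hj
      rw [Finsupp.single_eq_of_ne hi]
      omega
    · rw [Finsupp.single_eq_of_ne hj]
      omega

/-- **The general exchange.** -/
theorem swap_gen [Infinite k] {w : Fin n → ℕ} (hw1 : ∀ i, 1 ≤ w i)
    (hw3 : ∀ B C : Fin n →₀ ℕ, (∀ i, B i < d) → (∀ i, C i < d) → phi w B = phi w C → B = C)
    {mon : Fin d → (Fin n →₀ ℕ)} (h : IsOrd mon) (hZ : c00 k mon ∈ Zset k n d) {l m : Fin n}
    (hlm : l ≠ m) {s : ℕ} (hw : w l < s * w m) {r : Fin n →₀ ℕ}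
    (hr : r + Finsupp.single m s ∈ Dlt mon) (hr' : r + Finsupp.single l 1 ∉ Dlt mon)
    (hk : ((r l + 1 : ℕ) : k) ≠ 0) :
    ∃ mon' : Fin d → (Fin n →₀ ℕ), IsOrd mon' ∧ c00 k mon' ∈ Zset k n d ∧
      finrank k (tanR (c00 k mon)) ≤ finrank k (tanR (c00 k mon')) ∧
      ∑ s, phi w (mon' s) < ∑ s, phi w (mon s) := by
  classical
  obtain ⟨h1, h2⟩ := ree_Zset (t := (1 : k)) hlm s hZ
  have hm : ∀ i, mats (ree l m s (1 : k) (c00 k mon)) i =
      if i = l then Amon k mon l + (1 : k) • Amon k mon m ^ s else Amon k mon i := by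
    intro i
    rw [ree, mats_mk, c00_eq, mats_mk]
  obtain ⟨s0, hs0⟩ := mem_Dlt.mp hr
  let y : Fin d → (Fin n →₀ ℕ) := Function.update mon s0 (r + Finsupp.single l 1)
  have hy0 : y s0 = r + Finsupp.single l 1 := Function.update_self _ _ _
  have hy1 : ∀ t, t ≠ s0 → y t = mon t := fun t ht => Function.update_of_ne ht _ _
  -- the coordinates of the classes
  have hcoord : ∀ (C : Fin n →₀ ℕ) (t : Fin d), C l < (mon t) l → Vs k mon l m s C t = 0 := by
    intro C t ht
    rw [Vs, Finset.sum_apply]
    apply Finset.sum_eq_zero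
    intro q hq
    rw [Pi.smul_apply, V0_apply, if_neg, smul_zero]
    intro he
    rw [he, Finsupp.add_apply, Finsupp.tsub_apply, Finsupp.single_eq_same,
      Finsupp.single_eq_of_ne hlm] at ht
    omega
  have hcoord2 : ∀ (C : Fin n →₀ ℕ) (t : Fin d), C l = (mon t) l →
      Vs k mon l m s C t = V0 k mon C t := by
    intro C t ht
    rw [Vs, Finset.sum_apply, Finset.sum_eq_single 0]
    · simp
    · intro q hq hq0
      rw [Finset.mem_range] at hq
      rw [Pi.smul_apply, V0_apply, if_neg, smul_zero]
      intro he
      rw [he, Finsupp.add_apply, Finsupp.tsub_apply, Finsupp.single_eq_same,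
        Finsupp.single_eq_of_ne hlm] at ht
      omega
    · intro h0
      exact absurd (Finset.mem_range.mpr (by omega)) h0
  have hml : (mon s0) l = r l := by
    rw [hs0, Finsupp.add_apply, Finsupp.single_eq_of_ne hlm, add_zero]
  have hyl : (y s0) l = r l + 1 := by
    rw [hy0, Finsupp.add_apply, Finsupp.single_eq_same]
  have hdiag0 : Vs k mon l m s (y s0) s0 ≠ 0 := by
    rw [Vs, Finset.sum_apply, Finset.sum_eq_single 1]
    · rw [Pi.smul_apply, V0_apply, if_pos, smul_eq_mul, mul_one, hyl, Nat.choose_one_right]
      · exact hk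
      · rw [hs0, hy0, mul_one]
        congr 1
        rw [add_tsub_cancel_right]
    · intro q hq hq1
      rw [Finset.mem_range, hyl] at hq
      rw [Pi.smul_apply, V0_apply, if_neg, smul_zero]
      intro he
      have h3 := DFunLike.congr_fun he l
      rw [hml, Finsupp.add_apply, Finsupp.tsub_apply, Finsupp.single_eq_same,
        Finsupp.single_eq_of_ne hlm, hyl] at h3
      omega
    · intro h0
      exact absurd (Finset.mem_range.mpr (by omega)) h0
  have hneg : ∀ t, mon t ≠ r + Finsupp.single l 1 := fun t ht => hr' (mem_Dlt.mpr ⟨t, ht⟩)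
  have hindep : LinearIndependent k (fun t => Vs k mon l m s (y t)) := by
    rw [Fintype.linearIndependent_iff]
    intro g hg
    by_contra hcon
    push Not at hcon
    obtain ⟨t1, ht1⟩ := hcon
    obtain ⟨t2, ht2, hmax⟩ := (Finset.univ.filter (fun t => g t ≠ 0)).exists_max_image
      (fun t => (mon t) l) ⟨t1, by simpa using ht1⟩
    rw [Finset.mem_filter] at ht2
    have hg2 := congrFun hg t2
    rw [Finset.sum_apply, Finset.sum_eq_single t2] at hg2
    · rw [Pi.smul_apply, smul_eq_mul, Pi.zero_apply] at hg2
      rcases mul_eq_zero.mp hg2 with h3 | h3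
      · exact ht2.2 h3
      · by_cases ht : t2 = s0
        · subst ht
          exact hdiag0 h3
        · rw [hy1 t2 ht, hcoord2 _ _ rfl, V0_apply, if_pos rfl] at h3
          exact one_ne_zero h3
    · intro t _ htt
      rw [Pi.smul_apply, smul_eq_mul]
      by_cases hgt : g t = 0
      · rw [hgt, zero_mul]
      · have h4 : (mon t) l ≤ (mon t2) l := hmax t (by simpa using hgt)
        by_cases ht : t = s0
        · subst ht
          rcases Nat.lt_trichotomy (r l + 1) ((mon t2) l) with h5 | h5 | h5
          · rw [hcoord _ _ (by rw [hyl]; exact h5), mul_zero]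
          · rw [hcoord2 _ _ (by rw [hyl]; exact h5), V0_apply, if_neg, mul_zero]
            rw [hy0]
            exact hneg t2
          · have h6 : (mon t2) l = (mon t) l := by omega
            rw [Vs, Finset.sum_apply, Finset.sum_eq_zero, mul_zero]
            intro q hq
            rw [Finset.mem_range, hyl] at hq
            rw [Pi.smul_apply, V0_apply, if_neg, smul_zero]
            intro he
            have h7 := DFunLike.congr_fun he l
            rw [Finsupp.add_apply, Finsupp.tsub_apply, Finsupp.single_eq_same,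
              Finsupp.single_eq_of_ne hlm, hyl] at h7
            have hq1 : q = 1 := by omega
            apply htt
            apply h.inj
            rw [he, hs0, hy0, hq1, mul_one]
            congr 1
            rw [add_tsub_cancel_right]
        · rw [hy1 t ht]
          rcases Nat.lt_or_ge ((mon t) l) ((mon t2) l) with h5 | h5
          · rw [hcoord _ _ h5, mul_zero]
          · rw [hcoord2 _ _ (by omega), V0_apply, if_neg, mul_zero]
            intro he
            exact htt (h.inj he.symm)
    · intro h0
      exact absurd (Finset.mem_univ _) h0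
  obtain ⟨mon', h3, h4, h5, h6⟩ := greedy hw1 hw3 h1 (V := Vs k mon l m s) (by
    intro B i
    rw [hm]
    exact Vs_mul h hlm s B i) (by
    rw [ree, vect_mk, c00_eq, vect_mk, Vs]
    simp) y hindep
  refine ⟨mon', h3, h4, h2.trans h5, lt_of_le_of_lt h6 ?_⟩
  apply Finset.sum_lt_sum
  · intro t _
    by_cases ht : t = s0
    · subst ht
      rw [hy0, hs0]
      have e1 : phi w (r + Finsupp.single l 1) = phi w r + w l := by
        rw [phi_add, phi_single, mul_one]
      have e2 : phi w (r + Finsupp.single m s) = phi w r + w m * s := by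
        rw [phi_add, phi_single]
      rw [e1, e2, mul_comm (w m)]
      omega
    · rw [hy1 t ht]
  · refine ⟨s0, Finset.mem_univ _, ?_⟩
    rw [hy0, hs0]
    have e1 : phi w (r + Finsupp.single l 1) = phi w r + w l := by
      rw [phi_add, phi_single, mul_one]
    have e2 : phi w (r + Finsupp.single m s) = phi w r + w m * s := by
      rw [phi_add, phi_single]
    rw [e1, e2, mul_comm (w m)]
    omega

end Pool.Agent.Helper87.HQ
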